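import Pool.Agent.H978R2.Perc

/-!
# Bernoulli bond percolation on graphs: clusters, edge recursion, exhaustion
-/

set_option autoImplicit false
set_option linter.all false
set_option linter.deprecated false

open MeasureTheory Set

namespace Pool.Agent.H978R2

variable {V : Type*}

/-- The open subgraph of `Γ`. -/
def openG (Γ : SimpleGraph V) (ω : Sym2 V → Bool) : SimpleGraph V where
  Adj x y := Γ.Adj x y ∧ ω s(x, y) = true
  symm := ⟨fun x y h => ⟨h.1.symm, by rw [Sym2.eq_swap]; exact h.2⟩⟩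
  loopless := ⟨fun x h => Γ.loopless.irrefl x h.1⟩

lemma openG_mono {Γ Γ' : SimpleGraph V} (h : Γ ≤ Γ') (ω : Sym2 V → Bool) :
    openG Γ ω ≤ openG Γ' ω := fun x y hxy => ⟨h hxy.1, hxy.2⟩

/-- `A` is connected to `B` in the open subgraph -/
def Rch (Γ : SimpleGraph V) (ω : Sym2 V → Bool) (A B : Set V) : Prop :=
  ∃ a ∈ A, ∃ b ∈ B, (openG Γ ω).Reachable a b

lemma Rch.mono {Γ Γ' : SimpleGraph V} (h : Γ ≤ Γ') {ω : Sym2 V → Bool} {A A' B B' : Set V}
    (hA : A ⊆ A') (hB : B ⊆ B') (hr : Rch Γ ω A B) : Rch Γ' ω A' B' := by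
  obtain ⟨a, ha, b, hb, hab⟩ := hr
  exact ⟨a, hA ha, b, hB hb, hab.mono (openG_mono h ω)⟩

/-- the event that `A` is connected to `B` -/
def ev (Γ : SimpleGraph V) (A B : Set V) : Set (Sym2 V → Bool) := {ω | Rch Γ ω A B}

lemma mem_ev {Γ : SimpleGraph V} {A B : Set V} {ω : Sym2 V → Bool} :
    ω ∈ ev Γ A B ↔ Rch Γ ω A B := Iff.rfl

lemma ev_mono {Γ Γ' : SimpleGraph V} (h : Γ ≤ Γ') {A A' B B' : Set V}
    (hA : A ⊆ A') (hB : B ⊆ B') : ev Γ A B ⊆ ev Γ' A' B' := fun ω hω => hω.mono h hA hB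

/-- reachability in `n` steps -/
def stepR (Γ : SimpleGraph V) (ω : Sym2 V → Bool) : ℕ → V → V → Prop
  | 0, a, b => a = b
  | n + 1, a, b => ∃ c, stepR Γ ω n a c ∧ (openG Γ ω).Adj c b

lemma reachable_iff_step (Γ : SimpleGraph V) (ω : Sym2 V → Bool) (a b : V) :
    (openG Γ ω).Reachable a b ↔ ∃ n, stepR Γ ω n a b := by
  rw [SimpleGraph.reachable_iff_reflTransGen]
  constructor
  · intro h
    induction h with
    | refl => exact ⟨0, rfl⟩
    | tail _ hbc ih => obtain ⟨n, hn⟩ := ih; exact ⟨n + 1, _, hn, hbc⟩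
  · rintro ⟨n, hn⟩
    induction n generalizing b with
    | zero => cases hn; exact Relation.ReflTransGen.refl
    | succ n ih => obtain ⟨c, hc, hcb⟩ := hn; exact (ih c hc).tail hcb

lemma meas_adj (Γ : SimpleGraph V) (x y : V) :
    MeasurableSet {ω : Sym2 V → Bool | (openG Γ ω).Adj x y} := by
  by_cases h : Γ.Adj x y
  · have : {ω : Sym2 V → Bool | (openG Γ ω).Adj x y} = {ω | ω s(x, y) = true} := by
      ext ω; exact ⟨fun h => h.2, fun h' => ⟨h, h'⟩⟩
    rw [this]; exact meas_coord _ _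
  · have : {ω : Sym2 V → Bool | (openG Γ ω).Adj x y} = ∅ := by
      ext ω; exact ⟨fun h' => (h h'.1).elim, fun h' => h'.elim⟩
    rw [this]; exact MeasurableSet.empty

lemma meas_stepR [Countable V] (Γ : SimpleGraph V) (n : ℕ) (a b : V) :
    MeasurableSet {ω : Sym2 V → Bool | stepR Γ ω n a b} := by
  induction n generalizing b with
  | zero =>
    by_cases h : a = b
    · have : {ω : Sym2 V → Bool | stepR Γ ω 0 a b} = univ := by
        ext ω; exact ⟨fun _ => trivial, fun _ => h⟩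
      rw [this]; exact MeasurableSet.univ
    · have : {ω : Sym2 V → Bool | stepR Γ ω 0 a b} = ∅ := by
        ext ω; exact ⟨fun h' => (h h').elim, fun h' => h'.elim⟩
      rw [this]; exact MeasurableSet.empty
  | succ n ih =>
    have : {ω : Sym2 V → Bool | stepR Γ ω (n + 1) a b} =
        ⋃ c, ({ω | stepR Γ ω n a c} ∩ {ω | (openG Γ ω).Adj c b}) := by
      ext ω; simp only [mem_iUnion, mem_inter_iff]; rfl
    rw [this]
    exact MeasurableSet.iUnion fun c => (ih c).inter (meas_adj Γ c b)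

lemma meas_reach [Countable V] (Γ : SimpleGraph V) (a b : V) :
    MeasurableSet {ω : Sym2 V → Bool | (openG Γ ω).Reachable a b} := by
  have : {ω : Sym2 V → Bool | (openG Γ ω).Reachable a b} = ⋃ n, {ω | stepR Γ ω n a b} := by
    ext ω
    rw [mem_iUnion]
    exact reachable_iff_step Γ ω a b
  rw [this]
  exact MeasurableSet.iUnion fun n => meas_stepR Γ n a b

lemma meas_ev [Countable V] (Γ : SimpleGraph V) (A B : Set V) : MeasurableSet (ev Γ A B) := by
  have : ev Γ A B = ⋃ a ∈ A, ⋃ b ∈ B, {ω | (openG Γ ω).Reachable a b} := by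
    ext ω; simp only [mem_iUnion, exists_prop]; rfl
  rw [this]
  exact MeasurableSet.biUnion (Set.to_countable A) fun a _ =>
    MeasurableSet.biUnion (Set.to_countable B) fun b _ => meas_reach Γ a b

lemma openG_congr {Γ : SimpleGraph V} {ω ω' : Sym2 V → Bool}
    (h : ∀ e ∈ Γ.edgeSet, ω e = ω' e) : openG Γ ω = openG Γ ω' := by
  ext x y
  constructor
  · rintro ⟨h1, h2⟩; exact ⟨h1, by rw [← h _ h1]; exact h2⟩
  · rintro ⟨h1, h2⟩; exact ⟨h1, by rw [h _ h1]; exact h2⟩

lemma depOn_ev (Γ : SimpleGraph V) (A B : Set V) : DepOn Γ.edgeSet (ev Γ A B) := by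
  intro ω ω' h
  rw [mem_ev, mem_ev, Rch, Rch, openG_congr h]

/-- delete the edge `xy` -/
def del (Γ : SimpleGraph V) (x y : V) : SimpleGraph V where
  Adj u v := Γ.Adj u v ∧ s(u, v) ≠ s(x, y)
  symm := ⟨fun u v h => ⟨h.1.symm, by rw [Sym2.eq_swap]; exact h.2⟩⟩
  loopless := ⟨fun x h => Γ.loopless.irrefl x h.1⟩

lemma del_le (Γ : SimpleGraph V) (x y : V) : del Γ x y ≤ Γ := fun u v h => h.1

lemma rch_true {Γ : SimpleGraph V} {ω : Sym2 V → Bool} {A B : Set V} {a w : V}
    (ha : a ∈ A) (haw : Γ.Adj a w) (h : ω s(a, w) = true) :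
    Rch Γ ω A B ↔ Rch (del Γ a w) ω (insert w A) B := by
  constructor
  · rintro ⟨a0, ha0, b, hb, hab⟩
    have key : ∀ v, (openG Γ ω).Reachable a0 v →
        ∃ a1 ∈ insert w A, (openG (del Γ a w) ω).Reachable a1 v := by
      intro v hv
      rw [SimpleGraph.reachable_iff_reflTransGen] at hv
      induction hv with
      | refl => exact ⟨a0, Or.inr ha0, SimpleGraph.Reachable.refl _⟩
      | @tail c d _ hcd ih =>
        by_cases hE : s(c, d) = s(a, w)
        · have hd : d = a ∨ d = w := by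
            rw [Sym2.eq_iff] at hE
            rcases hE with h | h
            · exact Or.inr h.2
            · exact Or.inl h.2
          rcases hd with rfl | rfl
          · exact ⟨d, Or.inr ha, SimpleGraph.Reachable.refl _⟩
          · exact ⟨d, Or.inl rfl, SimpleGraph.Reachable.refl _⟩
        · obtain ⟨a1, ha1, h1⟩ := ih
          refine ⟨a1, ha1, h1.trans ?_⟩
          exact SimpleGraph.Adj.reachable ⟨⟨hcd.1, hE⟩, hcd.2⟩
    obtain ⟨a1, ha1, h1⟩ := key b hab
    exact ⟨a1, ha1, b, hb, h1⟩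
  · rintro ⟨a1, ha1, b, hb, hab⟩
    have hab' : (openG Γ ω).Reachable a1 b := hab.mono (openG_mono (del_le Γ a w) ω)
    rcases ha1 with rfl | ha1
    · refine ⟨a, ha, b, hb, SimpleGraph.Reachable.trans ?_ hab'⟩
      exact SimpleGraph.Adj.reachable ⟨haw, h⟩
    · exact ⟨a1, ha1, b, hb, hab'⟩

lemma openG_del_false {Γ : SimpleGraph V} {ω : Sym2 V → Bool} {a w : V}
    (h : ω s(a, w) = false) : openG Γ ω = openG (del Γ a w) ω := by
  ext x y
  constructor
  · rintro ⟨h1, h2⟩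
    refine ⟨⟨h1, fun h3 => ?_⟩, h2⟩
    rw [h3, h] at h2; exact absurd h2 (by simp)
  · rintro ⟨h1, h2⟩; exact ⟨h1.1, h2⟩

lemma rch_false {Γ : SimpleGraph V} {ω : Sym2 V → Bool} {A B : Set V} {a w : V}
    (h : ω s(a, w) = false) : Rch Γ ω A B ↔ Rch (del Γ a w) ω A B := by
  rw [Rch, Rch, openG_del_false h]

/-- connection probability -/
noncomputable def hit (q : NNReal) (hq : q ≤ 1) (Γ : SimpleGraph V) (A B : Set V) : ENNReal :=
  bm (Sym2 V) q hq (ev Γ A B)

lemma hit_mono (q : NNReal) (hq : q ≤ 1) {Γ Γ' : SimpleGraph V} (h : Γ ≤ Γ') {A A' B B' : Set V}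
    (hA : A ⊆ A') (hB : B ⊆ B') : hit q hq Γ A B ≤ hit q hq Γ' A' B' :=
  measure_mono (ev_mono h hA hB)

lemma hit_step [Countable V] (q : NNReal) (hq : q ≤ 1) {Γ : SimpleGraph V} {A : Set V} (B : Set V)
    {a w : V} (ha : a ∈ A) (haw : Γ.Adj a w) :
    hit q hq Γ A B = q * hit q hq (del Γ a w) (insert w A) B +
      (1 - q) * hit q hq (del Γ a w) A B := by
  have hd : (del Γ a w).edgeSet ⊆ {s(a, w)}ᶜ := by
    intro e he
    induction e using Sym2.ind with
    | _ x y =>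
      have : (del Γ a w).Adj x y := he
      exact this.2
  exact bm_split q hq s(a, w) (meas_ev _ _ _) (meas_ev _ _ _)
    ((depOn_ev _ _ _).mono hd) ((depOn_ev _ _ _).mono hd)
    (fun ω h => rch_true ha haw h) (fun ω h => rch_false h)

lemma del_edgeSet {Γ : SimpleGraph V} {a w : V} (haw : Γ.Adj a w) :
    (del Γ a w).edgeSet = Γ.edgeSet \ {s(a, w)} := by
  ext e
  induction e using Sym2.ind with
  | _ x y => exact Iff.rfl

/-- induction over the edges of a finite graph -/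
theorem edge_induction (Φ : SimpleGraph V → Set V → Prop)
    (base : ∀ Γ A, (∀ a ∈ A, ∀ w, Γ.Adj a w → w ∈ A) → Φ Γ A)
    (step : ∀ Γ A a w, Γ.edgeSet.Finite → a ∈ A → w ∉ A → Γ.Adj a w →
      Φ (del Γ a w) (insert w A) → Φ (del Γ a w) A → Φ Γ A) :
    ∀ Γ, Γ.edgeSet.Finite → ∀ A, Φ Γ A := by
  have key : ∀ n : ℕ, ∀ Γ : SimpleGraph V, Γ.edgeSet.Finite → Γ.edgeSet.ncard = n →
      ∀ A, Φ Γ A := by
    intro n
    induction n with
    | zero =>
      intro Γ hf hc A
      refine base Γ A fun a _ w haw => ?_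
      have : s(a, w) ∈ Γ.edgeSet := haw
      rw [(Set.ncard_eq_zero hf).1 hc] at this
      exact this.elim
    | succ n ih =>
      intro Γ hf hc A
      by_cases h : ∀ a ∈ A, ∀ w, Γ.Adj a w → w ∈ A
      · exact base Γ A h
      · push Not at h
        obtain ⟨a, ha, w, haw, hw⟩ := h
        have hf' : (del Γ a w).edgeSet.Finite := hf.subset fun e he => by
          rw [del_edgeSet haw] at he; exact he.1
        have hc' : (del Γ a w).edgeSet.ncard = n := by
          have hmem : s(a, w) ∈ Γ.edgeSet := haw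
          rw [del_edgeSet haw, Set.ncard_diff_singleton_of_mem hmem, hc]; rfl
        exact step Γ A a w hf ha hw haw (ih _ hf' hc' _) (ih _ hf' hc' _)
  intro Γ hf A
  exact key _ Γ hf rfl A

/-- restriction to a set of edges -/
def sub (Γ : SimpleGraph V) (E : Set (Sym2 V)) : SimpleGraph V where
  Adj x y := Γ.Adj x y ∧ s(x, y) ∈ E
  symm := ⟨fun x y h => ⟨h.1.symm, by rw [Sym2.eq_swap]; exact h.2⟩⟩
  loopless := ⟨fun x h => Γ.loopless.irrefl x h.1⟩

lemma sub_le (Γ : SimpleGraph V) (E : Set (Sym2 V)) : sub Γ E ≤ Γ := fun x y h => h.1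

lemma sub_mono (Γ : SimpleGraph V) {E E' : Set (Sym2 V)} (h : E ⊆ E') : sub Γ E ≤ sub Γ E' :=
  fun x y hxy => ⟨hxy.1, h hxy.2⟩

lemma sub_edgeSet_subset (Γ : SimpleGraph V) (E : Set (Sym2 V)) : (sub Γ E).edgeSet ⊆ E := by
  intro e he
  induction e using Sym2.ind with
  | _ x y => exact SimpleGraph.Adj.ne' (G := sub Γ E) he |> fun _ => (show (sub Γ E).Adj x y from he).2

lemma sub_finite (Γ : SimpleGraph V) (E : Finset (Sym2 V)) : (sub Γ (E : Set _)).edgeSet.Finite :=
  E.finite_toSet.subset (sub_edgeSet_subset Γ _)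

lemma reach_exists_sub (Γ : SimpleGraph V) (ω : Sym2 V → Bool) (a b : V)
    (h : (openG Γ ω).Reachable a b) :
    ∃ E : Finset (Sym2 V), (openG (sub Γ (E : Set _)) ω).Reachable a b := by
  classical
  rw [SimpleGraph.reachable_iff_reflTransGen] at h
  induction h with
  | refl => exact ⟨∅, SimpleGraph.Reachable.refl _⟩
  | @tail c d _ hcd ih =>
    obtain ⟨E, hE⟩ := ih
    refine ⟨insert s(c, d) E, ?_⟩
    refine (hE.mono (openG_mono (sub_mono Γ (by simp)) ω)).trans ?_
    exact SimpleGraph.Adj.reachable ⟨⟨hcd.1, by simp⟩, hcd.2⟩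

lemma hit_eq_iSup [Countable V] (q : NNReal) (hq : q ≤ 1) (Γ : SimpleGraph V) (A B : Set V) :
    hit q hq Γ A B = ⨆ E : Finset (Sym2 V), hit q hq (sub Γ (E : Set _)) A B := by
  unfold hit
  have : ev Γ A B = ⋃ E : Finset (Sym2 V), ev (sub Γ (E : Set _)) A B := by
    ext ω
    rw [mem_iUnion]
    constructor
    · rintro ⟨a, ha, b, hb, hab⟩
      obtain ⟨E, hE⟩ := reach_exists_sub Γ ω a b hab
      exact ⟨E, a, ha, b, hb, hE⟩
    · rintro ⟨E, hE⟩
      exact ev_mono (sub_le Γ _) le_rfl le_rfl hE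
  rw [this]
  haveI : Countable (Sym2 V) := by
    unfold Sym2; infer_instance
  refine Directed.measure_iUnion ?_
  have hm : Monotone fun E : Finset (Sym2 V) => ev (sub Γ (E : Set _)) A B :=
    fun E E' h => ev_mono (sub_mono Γ (by exact_mod_cast h)) le_rfl le_rfl
  exact hm.directed_le

/-- expected cluster size of the set `A` -/
noncomputable def chi (q : NNReal) (hq : q ≤ 1) (Γ : SimpleGraph V) (A : Set V) : ENNReal :=
  ∑' v, hit q hq Γ A {v}

lemma chi_mono (q : NNReal) (hq : q ≤ 1) {Γ Γ' : SimpleGraph V} (h : Γ ≤ Γ') {A A' : Set V}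
    (hA : A ⊆ A') : chi q hq Γ A ≤ chi q hq Γ' A' :=
  ENNReal.tsum_le_tsum fun v => hit_mono q hq h hA le_rfl

lemma chi_step [Countable V] (q : NNReal) (hq : q ≤ 1) {Γ : SimpleGraph V} {A : Set V}
    {a w : V} (ha : a ∈ A) (haw : Γ.Adj a w) :
    chi q hq Γ A = q * chi q hq (del Γ a w) (insert w A) +
      (1 - q) * chi q hq (del Γ a w) A := by
  unfold chi
  rw [← ENNReal.tsum_mul_left, ← ENNReal.tsum_mul_left, ← ENNReal.tsum_add]
  exact tsum_congr fun v => hit_step q hq {v} ha haw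

lemma chi_eq_iSup [Countable V] (q : NNReal) (hq : q ≤ 1) (Γ : SimpleGraph V) (A : Set V) :
    chi q hq Γ A = ⨆ E : Finset (Sym2 V), chi q hq (sub Γ (E : Set _)) A := by
  classical
  unfold chi
  simp_rw [ENNReal.tsum_eq_iSup_sum]
  rw [iSup_comm]
  refine iSup_congr fun s => ?_
  rw [← ENNReal.finsetSum_iSup_of_monotone]
  · exact Finset.sum_congr rfl fun v _ => hit_eq_iSup q hq Γ A {v}
  · intro v E E' h
    exact hit_mono q hq (sub_mono Γ (by exact_mod_cast h)) le_rfl le_rfl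

end Pool.Agent.H978R2
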