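import Pool.Agent.H978R2.FinE
import Pool.Agent.H978R2.PercGraph

/-!
# The Aizenman-Kesten-Newman bound on the number of closed edges joining two large clusters
-/

set_option autoImplicit false
set_option linter.all false
set_option linter.deprecated false

open MeasureTheory Set

namespace Pool.Agent.H978R2

variable {V : Type*}

/-- the cluster of a set -/
def cl (Γ : SimpleGraph V) (ω : Sym2 V → Bool) (A : Set V) : Set V :=
  {v | ∃ a ∈ A, (openG Γ ω).Reachable a v}

lemma mem_cl {Γ : SimpleGraph V} {ω : Sym2 V → Bool} {A : Set V} {v : V} :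
    v ∈ cl Γ ω A ↔ Rch Γ ω A {v} := by
  constructor
  · rintro ⟨a, ha, h⟩; exact ⟨a, ha, v, rfl, h⟩
  · rintro ⟨a, ha, _, rfl, h⟩; exact ⟨a, ha, h⟩

lemma subset_cl (Γ : SimpleGraph V) (ω : Sym2 V → Bool) (A : Set V) : A ⊆ cl Γ ω A :=
  fun a ha => ⟨a, ha, SimpleGraph.Reachable.refl _⟩

lemma cl_true {Γ : SimpleGraph V} {ω : Sym2 V → Bool} {A : Set V} {a w : V}
    (ha : a ∈ A) (haw : Γ.Adj a w) (h : ω s(a, w) = true) :
    cl Γ ω A = cl (del Γ a w) ω (insert w A) := by
  ext v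
  rw [mem_cl, mem_cl]
  exact rch_true ha haw h

lemma cl_false {Γ : SimpleGraph V} {ω : Sym2 V → Bool} {A : Set V} {a w : V}
    (h : ω s(a, w) = false) : cl Γ ω A = cl (del Γ a w) ω A := by
  unfold cl
  rw [openG_del_false h]

lemma cl_del_upd {Γ : SimpleGraph V} {ω : Sym2 V → Bool} {A : Set V} {a w : V} (b : Bool) :
    cl (del Γ a w) (upd s(a, w) b ω) A = cl (del Γ a w) ω A := by
  unfold cl
  rw [openG_congr (ω := upd s(a, w) b ω) (ω' := ω)]
  intro e he
  refine upd_ne ?_ b ω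
  induction e using Sym2.ind with
  | _ x y =>
    have : (del Γ a w).Adj x y := he
    exact this.2

/-- an edge touches a set -/
def tch (e : Sym2 V) (S : Set V) : Prop := ∃ v ∈ e, v ∈ S

/-- bit value -/
def bv (b : Bool) : ℝ := if b then 1 else 0

open Classical in
noncomputable def MM (E : Finset (Sym2 V)) (p : ℝ) (ω : Sym2 V → Bool) (S : Set V) : ℝ :=
  ∑ e ∈ E, if tch e S then bv (ω e) - p else 0

open Classical in
noncomputable def NN' (E : Finset (Sym2 V)) (S : Set V) : ℝ :=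
  ∑ e ∈ E, if tch e S then 1 else 0

/-- full edge induction -/
theorem full_induction [DecidableEq (Sym2 V)] (Φ : Finset (Sym2 V) → SimpleGraph V → Set V → Prop)
    (base : ∀ E Γ A, (∀ e, e ∈ E ↔ e ∈ Γ.edgeSet) → (∀ a ∈ A, ∀ w, ¬ Γ.Adj a w) → Φ E Γ A)
    (step : ∀ E Γ A a w, (∀ e, e ∈ E ↔ e ∈ Γ.edgeSet) → a ∈ A → Γ.Adj a w →
      Φ (E.erase s(a, w)) (del Γ a w) (insert w A) → Φ (E.erase s(a, w)) (del Γ a w) A → Φ E Γ A) :
    ∀ (E : Finset (Sym2 V)) (Γ : SimpleGraph V), (∀ e, e ∈ E ↔ e ∈ Γ.edgeSet) →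
      ∀ A : Set V, Φ E Γ A := by
  have key : ∀ n : ℕ, ∀ (E : Finset (Sym2 V)) (Γ : SimpleGraph V), E.card = n →
      (∀ e, e ∈ E ↔ e ∈ Γ.edgeSet) → ∀ A : Set V, Φ E Γ A := by
    intro n
    induction n with
    | zero =>
      intro E Γ hc hE A
      refine base E Γ A hE fun a _ w haw => ?_
      have : s(a, w) ∈ E := (hE _).2 haw
      rw [Finset.card_eq_zero.1 hc] at this
      exact absurd this (Finset.notMem_empty _)
    | succ n ih =>
      intro E Γ hc hE A
      by_cases h : ∀ a ∈ A, ∀ w, ¬ Γ.Adj a w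
      · exact base E Γ A hE h
      · push Not at h
        obtain ⟨a, ha, w, haw⟩ := h
        have hmem : s(a, w) ∈ E := (hE _).2 haw
        have hc' : (E.erase s(a, w)).card = n := by
          rw [Finset.card_erase_of_mem hmem, hc]; rfl
        have hE' : ∀ e, e ∈ E.erase s(a, w) ↔ e ∈ (del Γ a w).edgeSet := by
          intro e
          rw [Finset.mem_erase, del_edgeSet haw, hE e]
          constructor
          · rintro ⟨h1, h2⟩; exact ⟨h2, h1⟩
          · rintro ⟨h1, h2⟩; exact ⟨h2, h1⟩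
        exact step E Γ A a w hE ha haw (ih _ _ hc' hE' _) (ih _ _ hc' hE' _)
  intro E Γ hE A
  exact key _ E Γ rfl hE A

lemma MM_step [DecidableEq (Sym2 V)] {E : Finset (Sym2 V)} {p : ℝ} {ω : Sym2 V → Bool} {S : Set V}
    {e : Sym2 V} (he : e ∈ E) (ht : tch e S) (b : Bool) :
    MM E p (upd e b ω) S = (bv b - p) + MM (E.erase e) p ω S := by
  classical
  unfold MM
  rw [← Finset.insert_erase he, Finset.sum_insert (by simp), if_pos ht, upd_self]
  congr 1
  rw [Finset.insert_erase he]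
  refine Finset.sum_congr rfl fun e' he' => ?_
  rw [upd_ne (Finset.ne_of_mem_erase he')]

lemma NN_step [DecidableEq (Sym2 V)] {E : Finset (Sym2 V)} {S : Set V}
    {e : Sym2 V} (he : e ∈ E) (ht : tch e S) :
    NN' E S = 1 + NN' (E.erase e) S := by
  classical
  unfold NN'
  rw [← Finset.insert_erase he, Finset.sum_insert (by simp), if_pos ht]
  congr 1
  rw [Finset.insert_erase he]

lemma cl_of_isolated {Γ : SimpleGraph V} {ω : Sym2 V → Bool} {A : Set V}
    (h : ∀ a ∈ A, ∀ w, ¬ Γ.Adj a w) : cl Γ ω A = A := by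
  ext v
  constructor
  · rintro ⟨a, ha, hr⟩
    rw [SimpleGraph.reachable_iff_reflTransGen] at hr
    induction hr with
    | refl => exact ha
    | tail _ hcd ih => exact absurd hcd.1 (h _ ih _)
  · intro hv; exact subset_cl Γ ω A hv

lemma not_tch_of_isolated {E : Finset (Sym2 V)} {Γ : SimpleGraph V} {A : Set V}
    (hE : ∀ e, e ∈ E ↔ e ∈ Γ.edgeSet) (h : ∀ a ∈ A, ∀ w, ¬ Γ.Adj a w) {e : Sym2 V} (he : e ∈ E) :
    ¬ tch e A := by
  rintro ⟨v, hv, hvA⟩
  have h1 := (hE e).1 he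
  obtain ⟨w, rfl⟩ := hv
  exact h v hvA w h1

lemma exp_ineq (p lam : ℝ) (h0 : 0 ≤ p) (h1 : p ≤ 1) (hl0 : 0 ≤ lam) (hl1 : lam ≤ 1) :
    p * Real.exp (-lam * (1 - p) - lam ^ 2) + (1 - p) * Real.exp (lam * p - lam ^ 2) ≤ 1 := by
  have e1 : ∀ x : ℝ, |x| ≤ 1 → Real.exp x ≤ 1 + x + x ^ 2 := by
    intro x hx
    have := Real.abs_exp_sub_one_sub_id_le hx
    rw [abs_le] at this
    linarith
  have h2 : Real.exp (-lam * (1 - p)) ≤ 1 + (-lam * (1 - p)) + (-lam * (1 - p)) ^ 2 := by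
    refine e1 _ ?_
    rw [abs_le]
    constructor
    · nlinarith
    · nlinarith
  have h3 : Real.exp (lam * p) ≤ 1 + (lam * p) + (lam * p) ^ 2 := by
    refine e1 _ ?_
    rw [abs_le]
    constructor
    · nlinarith
    · nlinarith
  have h4 : 1 + lam ^ 2 ≤ Real.exp (lam ^ 2) := by
    have := Real.add_one_le_exp (lam ^ 2)
    linarith
  have e2 : Real.exp (-lam * (1 - p) - lam ^ 2) = Real.exp (-lam * (1 - p)) * Real.exp (-lam ^ 2) := by
    rw [← Real.exp_add]; ring_nf
  have e3 : Real.exp (lam * p - lam ^ 2) = Real.exp (lam * p) * Real.exp (-lam ^ 2) := by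
    rw [← Real.exp_add]; ring_nf
  have e4 : Real.exp (-lam ^ 2) * Real.exp (lam ^ 2) = 1 := by
    rw [← Real.exp_add]; simp
  have hpos : 0 < Real.exp (-lam ^ 2) := Real.exp_pos _
  rw [e2, e3]
  have h5 : p * Real.exp (-lam * (1 - p)) + (1 - p) * Real.exp (lam * p) ≤ Real.exp (lam ^ 2) := by
    have a1 := mul_le_mul_of_nonneg_left h2 h0
    have a2 := mul_le_mul_of_nonneg_left h3 (by linarith : 0 ≤ 1 - p)
    have h6 : p * (1 + (-lam * (1 - p)) + (-lam * (1 - p)) ^ 2) +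
        (1 - p) * (1 + (lam * p) + (lam * p) ^ 2) = 1 + lam ^ 2 * (p * (1 - p)) := by ring
    have h7 : lam ^ 2 * (p * (1 - p)) ≤ lam ^ 2 := by
      have : p * (1 - p) ≤ 1 := by nlinarith
      nlinarith [sq_nonneg lam]
    linarith
  calc p * (Real.exp (-lam * (1 - p)) * Real.exp (-lam ^ 2)) +
        (1 - p) * (Real.exp (lam * p) * Real.exp (-lam ^ 2))
      = (p * Real.exp (-lam * (1 - p)) + (1 - p) * Real.exp (lam * p)) * Real.exp (-lam ^ 2) := by
        ring
    _ ≤ Real.exp (lam ^ 2) * Real.exp (-lam ^ 2) := by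
        exact mul_le_mul_of_nonneg_right h5 hpos.le
    _ = 1 := by rw [mul_comm]; exact e4

/-- exponential moment bound for the exploration of a cluster -/
theorem exp_bound (p lam : ℝ) (h0 : 0 ≤ p) (h1 : p ≤ 1) (hl0 : 0 ≤ lam) (hl1 : lam ≤ 1) :
    ∀ (E : Finset (Sym2 V)) (Γ : SimpleGraph V), (∀ e, e ∈ E ↔ e ∈ Γ.edgeSet) →
      ∀ A : Set V, EE E p (fun ω => Real.exp (-lam * MM E p ω (cl Γ ω A) -
        lam ^ 2 * NN' E (cl Γ ω A))) ≤ 1 := by
  classical
  refine full_induction _ ?_ ?_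
  · intro E Γ A hE h
    have : ∀ ω : Sym2 V → Bool, Real.exp (-lam * MM E p ω (cl Γ ω A) -
        lam ^ 2 * NN' E (cl Γ ω A)) = 1 := by
      intro ω
      rw [cl_of_isolated h]
      have m0 : MM E p ω A = 0 := by
        unfold MM
        exact Finset.sum_eq_zero fun e he => if_neg (not_tch_of_isolated hE h he)
      have n0 : NN' E A = 0 := by
        unfold NN'
        exact Finset.sum_eq_zero fun e he => if_neg (not_tch_of_isolated hE h he)
      rw [m0, n0]; simp
    rw [EE_congr this, EE_const]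
  · intro E Γ A a w hE ha haw ih1 ih2
    have hmem : s(a, w) ∈ E := (hE _).2 haw
    rw [EE_split hmem]
    have t1 : ∀ ω : Sym2 V → Bool, Real.exp (-lam * MM E p (upd s(a, w) true ω)
        (cl Γ (upd s(a, w) true ω) A) - lam ^ 2 * NN' E (cl Γ (upd s(a, w) true ω) A)) =
        Real.exp (-lam * (1 - p) - lam ^ 2) * Real.exp (-lam * MM (E.erase s(a, w)) p ω
          (cl (del Γ a w) ω (insert w A)) -
          lam ^ 2 * NN' (E.erase s(a, w)) (cl (del Γ a w) ω (insert w A))) := by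
      intro ω
      rw [cl_true ha haw (upd_self _ _ _), cl_del_upd]
      have ht : tch s(a, w) (cl (del Γ a w) ω (insert w A)) :=
        ⟨a, by simp, subset_cl _ _ _ (Or.inr ha)⟩
      rw [MM_step hmem ht, NN_step hmem ht, ← Real.exp_add]
      congr 1
      simp only [bv]
      ring_nf
      simp
    have t0 : ∀ ω : Sym2 V → Bool, Real.exp (-lam * MM E p (upd s(a, w) false ω)
        (cl Γ (upd s(a, w) false ω) A) - lam ^ 2 * NN' E (cl Γ (upd s(a, w) false ω) A)) =
        Real.exp (lam * p - lam ^ 2) * Real.exp (-lam * MM (E.erase s(a, w)) p ω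
          (cl (del Γ a w) ω A) -
          lam ^ 2 * NN' (E.erase s(a, w)) (cl (del Γ a w) ω A)) := by
      intro ω
      rw [cl_false (upd_self _ _ _), cl_del_upd]
      have ht : tch s(a, w) (cl (del Γ a w) ω A) :=
        ⟨a, by simp, subset_cl _ _ _ ha⟩
      rw [MM_step hmem ht, NN_step hmem ht, ← Real.exp_add]
      congr 1
      simp only [bv]
      ring_nf
      simp
    rw [EE_congr t1, EE_congr t0, EE_mul, EE_mul]
    have hp1 : 0 ≤ 1 - p := by linarith
    have b1 := mul_le_mul_of_nonneg_left ih1 (Real.exp_pos (-lam * (1 - p) - lam ^ 2)).le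
    have b0 := mul_le_mul_of_nonneg_left ih2 (Real.exp_pos (lam * p - lam ^ 2)).le
    have c1 := mul_le_mul_of_nonneg_left b1 h0
    have c0 := mul_le_mul_of_nonneg_left b0 hp1
    have := exp_ineq p lam h0 h1 hl0 hl1
    linarith

/-- the exploration martingale is centred -/
theorem mart_zero (p : ℝ) :
    ∀ (E : Finset (Sym2 V)) (Γ : SimpleGraph V), (∀ e, e ∈ E ↔ e ∈ Γ.edgeSet) →
      ∀ A : Set V, EE E p (fun ω => MM E p ω (cl Γ ω A)) = 0 := by
  classical
  refine full_induction _ ?_ ?_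
  · intro E Γ A hE h
    have : ∀ ω : Sym2 V → Bool, MM E p ω (cl Γ ω A) = 0 := by
      intro ω
      rw [cl_of_isolated h]
      unfold MM
      exact Finset.sum_eq_zero fun e he => if_neg (not_tch_of_isolated hE h he)
    rw [EE_congr this, EE_const]
  · intro E Γ A a w hE ha haw ih1 ih2
    have hmem : s(a, w) ∈ E := (hE _).2 haw
    rw [EE_split hmem]
    have t1 : ∀ ω : Sym2 V → Bool, MM E p (upd s(a, w) true ω)
        (cl Γ (upd s(a, w) true ω) A) = (1 - p) +
        MM (E.erase s(a, w)) p ω (cl (del Γ a w) ω (insert w A)) := by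
      intro ω
      rw [cl_true ha haw (upd_self _ _ _), cl_del_upd]
      have ht : tch s(a, w) (cl (del Γ a w) ω (insert w A)) :=
        ⟨a, by simp, subset_cl _ _ _ (Or.inr ha)⟩
      rw [MM_step hmem ht]
      simp [bv]
    have t0 : ∀ ω : Sym2 V → Bool, MM E p (upd s(a, w) false ω)
        (cl Γ (upd s(a, w) false ω) A) = (-p) +
        MM (E.erase s(a, w)) p ω (cl (del Γ a w) ω A) := by
      intro ω
      rw [cl_false (upd_self _ _ _), cl_del_upd]
      have ht : tch s(a, w) (cl (del Γ a w) ω A) :=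
        ⟨a, by simp, subset_cl _ _ _ ha⟩
      rw [MM_step hmem ht]
      simp [bv]
    rw [EE_congr t1, EE_congr t0, EE_add, EE_add, EE_const, EE_const, ih1, ih2]
    ring

/-- both ends of `e` are connected to `B`, but not to each other -/
def TA (Γ : SimpleGraph V) (B : Set V) (e : Sym2 V) : Set (Sym2 V → Bool) :=
  {ω | ∃ x y, e = s(x, y) ∧ x ∈ cl Γ ω B ∧ y ∈ cl Γ ω B ∧ ¬ (openG Γ ω).Reachable x y}

lemma cl_single_eq {Γ : SimpleGraph V} {ω : Sym2 V → Bool} {x y : V}
    (h : (openG Γ ω).Reachable x y) : cl Γ ω {x} = cl Γ ω {y} := by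
  ext v
  constructor
  · rintro ⟨_, rfl, hr⟩; exact ⟨y, rfl, h.symm.trans hr⟩
  · rintro ⟨_, rfl, hr⟩; exact ⟨x, rfl, h.trans hr⟩

section
open Classical

/-- the set of clusters meeting `B` -/
noncomputable def CC (Γ : SimpleGraph V) (ω : Sym2 V → Bool) (B : Finset V) : Finset (Set V) :=
  B.image fun b => cl Γ ω {b}

lemma mem_CC {Γ : SimpleGraph V} {ω : Sym2 V → Bool} {B : Finset V} {C : Set V} {x : V} :
    C ∈ CC Γ ω B ∧ x ∈ C ↔ x ∈ cl Γ ω (B : Set V) ∧ C = cl Γ ω {x} := by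
  unfold CC
  rw [Finset.mem_image]
  constructor
  · rintro ⟨⟨b, hb, rfl⟩, a, ha, hr⟩
    have ha' : a = b := ha
    subst ha'
    exact ⟨⟨a, hb, hr⟩, cl_single_eq hr⟩
  · rintro ⟨⟨b, hb, hr⟩, rfl⟩
    exact ⟨⟨b, hb, cl_single_eq hr⟩, subset_cl _ _ _ rfl⟩

lemma card_touch (Γ : SimpleGraph V) (ω : Sym2 V → Bool) (B : Finset V) (e : Sym2 V) :
    (((CC Γ ω B).filter (fun C => tch e C)).card : ℝ) =
      (if tch e (cl Γ ω (B : Set V)) then 1 else 0) + (if ω ∈ TA Γ (B : Set V) e then 1 else 0) := by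
  induction e using Sym2.ind with
  | _ x y =>
    have h1 : ∀ C, C ∈ (CC Γ ω B).filter (fun C => tch s(x, y) C) ↔
        (x ∈ cl Γ ω (B : Set V) ∧ C = cl Γ ω {x}) ∨ (y ∈ cl Γ ω (B : Set V) ∧ C = cl Γ ω {y}) := by
      intro C
      rw [Finset.mem_filter, ← mem_CC, ← mem_CC]
      constructor
      · rintro ⟨h, v, hv, hvC⟩
        rw [Sym2.mem_iff] at hv
        rcases hv with rfl | rfl
        · exact Or.inl ⟨h, hvC⟩
        · exact Or.inr ⟨h, hvC⟩
      · rintro (⟨h, hx⟩ | ⟨h, hy⟩)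
        · exact ⟨h, x, by simp, hx⟩
        · exact ⟨h, y, by simp, hy⟩
    have ht : tch s(x, y) (cl Γ ω (B : Set V)) ↔ x ∈ cl Γ ω (B : Set V) ∨ y ∈ cl Γ ω (B : Set V) := by
      constructor
      · rintro ⟨v, hv, hvC⟩
        rw [Sym2.mem_iff] at hv
        rcases hv with rfl | rfl
        · exact Or.inl hvC
        · exact Or.inr hvC
      · rintro (h | h)
        · exact ⟨x, by simp, h⟩
        · exact ⟨y, by simp, h⟩
    have hTA : ω ∈ TA Γ (B : Set V) s(x, y) ↔ x ∈ cl Γ ω (B : Set V) ∧ y ∈ cl Γ ω (B : Set V) ∧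
        ¬ (openG Γ ω).Reachable x y := by
      constructor
      · rintro ⟨x', y', he, h1, h2, h3⟩
        rw [Sym2.eq_iff] at he
        rcases he with ⟨rfl, rfl⟩ | ⟨rfl, rfl⟩
        · exact ⟨h1, h2, h3⟩
        · exact ⟨h2, h1, fun h => h3 h.symm⟩
      · rintro ⟨h1, h2, h3⟩; exact ⟨x, y, rfl, h1, h2, h3⟩
    by_cases hx : x ∈ cl Γ ω (B : Set V) <;> by_cases hy : y ∈ cl Γ ω (B : Set V)
    · by_cases hr : (openG Γ ω).Reachable x y
      · have : (CC Γ ω B).filter (fun C => tch s(x, y) C) = {cl Γ ω {x}} := by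
          ext C
          rw [h1, Finset.mem_singleton, cl_single_eq hr]
          tauto
        rw [this, if_pos (ht.2 (Or.inl hx)), if_neg (by rw [hTA]; tauto)]
        simp
      · have : (CC Γ ω B).filter (fun C => tch s(x, y) C) = {cl Γ ω {x}, cl Γ ω {y}} := by
          ext C
          rw [h1, Finset.mem_insert, Finset.mem_singleton]
          tauto
        have hne : cl Γ ω {x} ≠ cl Γ ω {y} := by
          intro h
          have : y ∈ cl Γ ω {x} := by rw [h]; exact subset_cl _ _ _ rfl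
          obtain ⟨_, rfl, hr'⟩ := this
          exact hr hr'
        rw [this, if_pos (ht.2 (Or.inl hx)), if_pos (hTA.2 ⟨hx, hy, hr⟩), Finset.card_pair hne]
        norm_num
    · have : (CC Γ ω B).filter (fun C => tch s(x, y) C) = {cl Γ ω {x}} := by
        ext C
        rw [h1, Finset.mem_singleton]
        tauto
      rw [this, if_pos (ht.2 (Or.inl hx)), if_neg (by rw [hTA]; tauto)]
      simp
    · have : (CC Γ ω B).filter (fun C => tch s(x, y) C) = {cl Γ ω {y}} := by
        ext C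
        rw [h1, Finset.mem_singleton]
        tauto
      rw [this, if_pos (ht.2 (Or.inr hy)), if_neg (by rw [hTA]; tauto)]
      simp
    · have : (CC Γ ω B).filter (fun C => tch s(x, y) C) = ∅ := by
        ext C
        rw [h1]
        simp only [Finset.notMem_empty, iff_false]
        tauto
      rw [this, if_neg (by rw [ht]; tauto), if_neg (by rw [hTA]; tauto)]
      simp

lemma TA_closed {Γ : SimpleGraph V} {ω : Sym2 V → Bool} {B : Set V} {e : Sym2 V}
    (he : e ∈ Γ.edgeSet) (h : ω ∈ TA Γ B e) : ω e = false := by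
  obtain ⟨x, y, rfl, _, _, h3⟩ := h
  by_contra h4
  rw [Bool.not_eq_false] at h4
  exact h3 (SimpleGraph.Adj.reachable ⟨he, h4⟩)

/-- the combinatorial identity -/
lemma akn_identity {E : Finset (Sym2 V)} {Γ : SimpleGraph V} (hE : ∀ e, e ∈ E ↔ e ∈ Γ.edgeSet)
    (p : ℝ) (ω : Sym2 V → Bool) (B : Finset V) :
    p * ∑ e ∈ E, I1 (TA Γ (B : Set V) e) ω =
      MM E p ω (cl Γ ω (B : Set V)) - ∑ C ∈ CC Γ ω B, MM E p ω C := by
  have h1 : ∑ C ∈ CC Γ ω B, MM E p ω C = ∑ e ∈ E, (bv (ω e) - p) *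
      (((CC Γ ω B).filter (fun C => tch e C)).card : ℝ) := by
    unfold MM
    rw [Finset.sum_comm]
    refine Finset.sum_congr rfl fun e _ => ?_
    rw [← Finset.sum_filter, Finset.sum_const, nsmul_eq_mul, mul_comm]
  rw [h1]
  unfold MM
  rw [Finset.mul_sum, ← Finset.sum_sub_distrib]
  refine Finset.sum_congr rfl fun e he => ?_
  rw [card_touch]
  by_cases hT : ω ∈ TA Γ (B : Set V) e
  · rw [I1_mem hT, if_pos hT]
    have h2 := TA_closed ((hE e).1 he) hT
    have h3 : tch e (cl Γ ω (B : Set V)) := by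
      obtain ⟨x, y, rfl, hx, _⟩ := hT
      exact ⟨x, by simp, hx⟩
    rw [if_pos h3, if_pos h3, h2]
    simp only [bv]
    simp
    ring
  · rw [I1_not hT, if_neg hT]
    by_cases h3 : tch e (cl Γ ω (B : Set V))
    · rw [if_pos h3, if_pos h3]; ring
    · rw [if_neg h3, if_neg h3]; ring

lemma sum_CC_le {Γ : SimpleGraph V} {ω : Sym2 V → Bool} {B : Finset V} (f : Set V → ℝ)
    (hf : ∀ C, 0 ≤ f C) : ∑ C ∈ CC Γ ω B, f C ≤ ∑ b ∈ B, f (cl Γ ω {b}) := by
  unfold CC
  induction B using Finset.induction_on with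
  | empty => simp
  | insert b B hb ih =>
    rw [Finset.image_insert, Finset.sum_insert hb]
    by_cases h : cl Γ ω {b} ∈ B.image (fun b => cl Γ ω {b})
    · rw [Finset.insert_eq_of_mem h]
      have := hf (cl Γ ω {b})
      linarith
    · rw [Finset.sum_insert h]
      linarith

theorem akn [DecidableEq V] {E : Finset (Sym2 V)} {Γ : SimpleGraph V}
    (hE : ∀ e, e ∈ E ↔ e ∈ Γ.edgeSet)
    (p lam : ℝ) (h0 : 0 ≤ p) (h1 : p ≤ 1) (hl0 : 0 < lam) (hl1 : lam ≤ 1) (B : Finset V) :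
    p * ∑ e ∈ E, EE E p (I1 (TA Γ (B : Set V) e)) ≤ B.card / lam + 2 * lam * E.card := by
  have key : ∀ ω : Sym2 V → Bool, p * ∑ e ∈ E, I1 (TA Γ (B : Set V) e) ω ≤
      MM E p ω (cl Γ ω (B : Set V)) + ((1 / lam) * ∑ b ∈ B, Real.exp (-lam * MM E p ω
        (cl Γ ω {b}) - lam ^ 2 * NN' E (cl Γ ω {b})) + 2 * lam * E.card) := by
    intro ω
    rw [akn_identity hE p ω B]
    have h2 : ∀ C : Set V, -MM E p ω C ≤ (1 / lam) * Real.exp (-lam * MM E p ω C -
        lam ^ 2 * NN' E C) + lam * NN' E C := by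
      intro C
      have h3 := Real.add_one_le_exp (-lam * MM E p ω C - lam ^ 2 * NN' E C)
      have h4 : -lam * MM E p ω C - lam ^ 2 * NN' E C ≤ Real.exp (-lam * MM E p ω C -
        lam ^ 2 * NN' E C) := by linarith
      have h5 : -MM E p ω C = (1 / lam) * (-lam * MM E p ω C - lam ^ 2 * NN' E C) +
          lam * NN' E C := by
        field_simp
        ring
      rw [h5]
      have h6 := mul_le_mul_of_nonneg_left h4 (by positivity : (0 : ℝ) ≤ 1 / lam)
      linarith
    have h7 : -∑ C ∈ CC Γ ω B, MM E p ω C ≤ (1 / lam) * ∑ C ∈ CC Γ ω B, Real.exp (-lam *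
        MM E p ω C - lam ^ 2 * NN' E C) + lam * ∑ C ∈ CC Γ ω B, NN' E C := by
      rw [← Finset.sum_neg_distrib, Finset.mul_sum, Finset.mul_sum, ← Finset.sum_add_distrib]
      exact Finset.sum_le_sum fun C _ => h2 C
    have h8 : ∑ C ∈ CC Γ ω B, NN' E C ≤ 2 * E.card := by
      unfold NN'
      rw [Finset.sum_comm]
      have : ∀ e ∈ E, ∑ C ∈ CC Γ ω B, (if tch e C then (1 : ℝ) else 0) ≤ 2 := by
        intro e _
        rw [← Finset.sum_filter, Finset.sum_const, nsmul_eq_mul, mul_one, card_touch]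
        split_ifs <;> norm_num
      refine (Finset.sum_le_sum this).trans ?_
      rw [Finset.sum_const, nsmul_eq_mul, mul_comm]
    have h9 := sum_CC_le (Γ := Γ) (ω := ω) (B := B) (fun C => Real.exp (-lam *
        MM E p ω C - lam ^ 2 * NN' E C)) (fun C => (Real.exp_pos _).le)
    have h10 := mul_le_mul_of_nonneg_left h9 (by positivity : (0 : ℝ) ≤ 1 / lam)
    have h11 := mul_le_mul_of_nonneg_left h8 hl0.le
    linarith
  have h2 := EE_mono (E := E) h0 h1 key
  rw [EE_mul, EE_sum, EE_add, EE_add, EE_mul, EE_sum, EE_const, mart_zero p E Γ hE] at h2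
  have h3 : ∑ b ∈ B, EE E p (fun ω => Real.exp (-lam * MM E p ω
        (cl Γ ω {b}) - lam ^ 2 * NN' E (cl Γ ω {b}))) ≤ B.card := by
    refine (Finset.sum_le_sum fun b _ => exp_bound p lam h0 h1 hl0.le hl1 E Γ hE {b}).trans ?_
    simp
  have h4 := mul_le_mul_of_nonneg_left h3 (by positivity : (0 : ℝ) ≤ 1 / lam)
  have h5 : (1 / lam) * (B.card : ℝ) = B.card / lam := by ring
  linarith

end

end Pool.Agent.H978R2
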