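import Pool.Agent.H978R2.Box

/-!
# Arm events
-/

set_option autoImplicit false
set_option linter.all false
set_option linter.deprecated false

open MeasureTheory Set

namespace Pool.Agent.H978R2

/-- the box of radius `n` around `x` -/
def Bx (x : ℤ × ℤ) (n : ℕ) : Set (ℤ × ℤ) := Rc (x.1 - n) (x.1 + n) (x.2 - n) (x.2 + n)

/-- the points at distance at least `n` -/
def Far (x : ℤ × ℤ) (n : ℕ) : Set (ℤ × ℤ) :=
  {v | v.1 ≤ x.1 - n ∨ x.1 + n ≤ v.1 ∨ v.2 ≤ x.2 - n ∨ x.2 + n ≤ v.2}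

lemma mem_Bx {x v : ℤ × ℤ} {n : ℕ} : v ∈ Bx x n ↔
    (x.1 - n ≤ v.1 ∧ v.1 ≤ x.1 + n) ∧ (x.2 - n ≤ v.2 ∧ v.2 ≤ x.2 + n) := Iff.rfl

lemma mem_Far {x v : ℤ × ℤ} {n : ℕ} : v ∈ Far x n ↔
    (v.1 ≤ x.1 - n ∨ x.1 + n ≤ v.1 ∨ v.2 ≤ x.2 - n ∨ x.2 + n ≤ v.2) := Iff.rfl

lemma self_mem_Bx (x : ℤ × ℤ) (n : ℕ) : x ∈ Bx x n := by
  rw [mem_Bx]; omega

/-- a path leaving a set -/
lemma exit_latR {R S T : Set (ℤ × ℤ)} {ω : Sym2 (ℤ × ℤ) → Bool} {a b : ℤ × ℤ}
    (h : (openG (latR R) ω).Reachable a b) (ha : a ∈ S) (hb : b ∈ T)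
    (hST : ∀ c d, c ∈ S → d ∉ S → lat.Adj c d → c ∈ T) :
    ∃ c, (c ∈ S ∧ c ∈ T) ∧ (openG (latR (R ∩ S)) ω).Reachable a c := by
  rw [SimpleGraph.reachable_iff_reflTransGen] at h
  induction h using Relation.ReflTransGen.head_induction_on with
  | refl => exact ⟨b, ⟨ha, hb⟩, SimpleGraph.Reachable.refl _⟩
  | @head a a' haa' _ ih =>
    by_cases h1 : a' ∈ S
    · obtain ⟨c, hc, hr⟩ := ih h1
      refine ⟨c, hc, SimpleGraph.Reachable.trans ?_ hr⟩
      refine SimpleGraph.Adj.reachable ⟨⟨haa'.1.1, ⟨haa'.1.2.1, ha⟩, haa'.1.2.2, h1⟩, haa'.2⟩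
    · exact ⟨a, ⟨ha, hST a a' ha h1 haa'.1.1⟩, SimpleGraph.Reachable.refl _⟩

lemma Bx_exit {x c d : ℤ × ℤ} {n : ℕ} (hc : c ∈ Bx x n) (hd : d ∉ Bx x n) (h : lat.Adj c d) :
    c ∈ Far x n := by
  rw [mem_Bx] at hc hd
  rw [mem_Far]
  rw [lat_adj] at h
  omega

/-- the arm event -/
def armE (x : ℤ × ℤ) (n : ℕ) : Set (Sym2 (ℤ × ℤ) → Bool) := ev (latR (Bx x n)) {x} (Far x n)

/-- a long connection gives an arm -/
lemma arm_of_reach {R : Set (ℤ × ℤ)} {ω : Sym2 (ℤ × ℤ) → Bool} {x v : ℤ × ℤ} {n : ℕ}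
    (h : (openG (latR R) ω).Reachable x v) (hv : v ∈ Far x n) : ω ∈ armE x n := by
  obtain ⟨c, hc, hr⟩ := exit_latR (S := Bx x n) (T := Far x n) h (self_mem_Bx x n) hv
    (fun c d hc hd hcd => Bx_exit hc hd hcd)
  exact ⟨x, rfl, c, hc.2, hr.mono (openG_mono (latR_mono inter_subset_right) ω)⟩

lemma Far_anti (x : ℤ × ℤ) {n m : ℕ} (h : n ≤ m) : Far x m ⊆ Far x n := by
  intro v hv
  rw [mem_Far] at hv ⊢
  omega

lemma arm_anti (x : ℤ × ℤ) {n m : ℕ} (h : n ≤ m) : armE x m ⊆ armE x n := by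
  rintro ω ⟨a, rfl, b, hb, hr⟩
  exact arm_of_reach hr (Far_anti a h hb)

/-- the one-arm probability -/
noncomputable def th (q : NNReal) (hq : q ≤ 1) (n : ℕ) : ℝ :=
  (bm (Sym2 (ℤ × ℤ)) q hq).real (armE (0, 0) n)

lemma trs_Bx (t x : ℤ × ℤ) (n : ℕ) : trs t '' Bx x n = Bx (x + t) n := by
  unfold Bx
  rw [trs_image]
  congr 1 <;> simp <;> ring

lemma trs_Far (t x : ℤ × ℤ) (n : ℕ) : trs t '' Far x n = Far (x + t) n := by
  ext v
  constructor
  · rintro ⟨w, hw, rfl⟩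
    rw [mem_Far] at hw ⊢
    simp [trs]
    omega
  · intro hv
    refine ⟨v - t, ?_, by simp [trs]⟩
    rw [mem_Far] at hv ⊢
    simp at hv ⊢
    omega

lemma arm_eq (q : NNReal) (hq : q ≤ 1) (x : ℤ × ℤ) (n : ℕ) :
    (bm (Sym2 (ℤ × ℤ)) q hq).real (armE x n) = th q hq n := by
  unfold th Measure.real
  congr 1
  have h := hit_latR q hq (trs x) (trs_adj x) (Bx (0, 0) n) {(0, 0)} (Far (0, 0) n)
  rw [trs_Bx, trs_Far, Set.image_singleton] at h
  have e : ((0, 0) : ℤ × ℤ) + x = x := by ext <;> simp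
  have e2 : trs x (0, 0) = x := e
  rw [e, e2] at h
  exact h

lemma th_anti (q : NNReal) (hq : q ≤ 1) {n m : ℕ} (h : n ≤ m) : th q hq m ≤ th q hq n :=
  measureReal_mono (arm_anti _ h) (measure_ne_top _ _)

lemma meas_arm (x : ℤ × ℤ) (n : ℕ) : MeasurableSet (armE x n) := meas_ev _ _ _

lemma th_le_one (q : NNReal) (hq : q ≤ 1) (n : ℕ) : th q hq n ≤ 1 := measureReal_le_one

lemma th_nonneg (q : NNReal) (hq : q ≤ 1) (n : ℕ) : 0 ≤ th q hq n := measureReal_nonneg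

lemma Bx_finite (x : ℤ × ℤ) (n : ℕ) : (Bx x n).Finite := Rc_finite _ _ _ _

lemma ins_disjoint {R R' : Set (ℤ × ℤ)} (h : Disjoint R R') : Disjoint (ins R) (ins R') := by
  rw [Set.disjoint_left] at h ⊢
  intro e he he'
  induction e using Sym2.ind with
  | _ x y =>
    exact h (he x (by simp)) (he' x (by simp))

/-- probability that none of several distant points has an arm -/
lemma no_arm_prob (q : NNReal) (hq : q ≤ 1) (r M : ℕ) :
    (bm (Sym2 (ℤ × ℤ)) q hq).real {ω | ∀ i < M, ω ∉ armE (((i * (2 * r + 1) : ℕ) : ℤ), 0) r} =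
      (1 - th q hq r) ^ M := by
  induction M with
  | zero =>
    have : {ω : Sym2 (ℤ × ℤ) → Bool | ∀ i < 0, ω ∉ armE (((i * (2 * r + 1) : ℕ) : ℤ), 0) r} =
        univ := by
      ext ω; simp
    rw [this]; simp
  | succ M ih =>
    set c : ℕ → ℤ × ℤ := fun i => (((i * (2 * r + 1) : ℕ) : ℤ), 0) with hc
    have hset : {ω : Sym2 (ℤ × ℤ) → Bool | ∀ i < M + 1, ω ∉ armE (c i) r} =
        {ω | ∀ i < M, ω ∉ armE (c i) r} ∩ (armE (c M) r)ᶜ := by
      ext ω
      simp only [mem_setOf_eq, mem_inter_iff, mem_compl_iff]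
      constructor
      · intro h; exact ⟨fun i hi => h i (by omega), h M (by omega)⟩
      · rintro ⟨h1, h2⟩ i hi
        rcases Nat.lt_succ_iff_lt_or_eq.1 hi with h | rfl
        · exact h1 i h
        · exact h2
    have hdisj : Disjoint (ins (⋃ i ∈ Finset.range M, Bx (c i) r)) (ins (Bx (c M) r)) := by
      refine ins_disjoint ?_
      rw [Set.disjoint_left]
      intro v hv hv'
      simp only [mem_iUnion, Finset.mem_range, exists_prop] at hv
      obtain ⟨i, hi, hv⟩ := hv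
      rw [mem_Bx] at hv hv'
      simp only [hc] at hv hv'
      have : ((i * (2 * r + 1) : ℕ) : ℤ) + (2 * r + 1) ≤ ((M * (2 * r + 1) : ℕ) : ℤ) := by
        have : i * (2 * r + 1) + (2 * r + 1) ≤ M * (2 * r + 1) := by
          calc i * (2 * r + 1) + (2 * r + 1) = (i + 1) * (2 * r + 1) := by ring
            _ ≤ M * (2 * r + 1) := Nat.mul_le_mul_right _ hi
        exact_mod_cast this
      omega
    have hset2 : {ω : Sym2 (ℤ × ℤ) → Bool | ∀ i < M, ω ∉ armE (c i) r} =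
        ⋂ i ∈ Finset.range M, (armE (c i) r)ᶜ := by
      ext ω; simp
    have m1 : MeasurableSet {ω : Sym2 (ℤ × ℤ) → Bool | ∀ i < M, ω ∉ armE (c i) r} := by
      rw [hset2]
      exact MeasurableSet.biInter (Set.to_countable _) fun i _ => (meas_arm _ _).compl
    have d1 : DepOn (ins (⋃ i ∈ Finset.range M, Bx (c i) r))
        {ω : Sym2 (ℤ × ℤ) → Bool | ∀ i < M, ω ∉ armE (c i) r} := by
      intro ω ω' hω
      have h0 : ∀ i < M, (ω ∈ armE (c i) r ↔ ω' ∈ armE (c i) r) := by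
        intro i hi
        refine (dep_ins _ _ _).mono (ins_mono ?_) ω ω' hω
        exact Set.subset_biUnion_of_mem (u := fun i => Bx (c i) r) (Finset.mem_range.2 hi)
      constructor
      · intro h i hi; rw [← h0 i hi]; exact h i hi
      · intro h i hi; rw [h0 i hi]; exact h i hi
    have key := bm_inter q hq hdisj m1 (meas_arm (c M) r).compl d1
      (DepOn.compl (dep_ins _ _ _))
    have h1 : (bm (Sym2 (ℤ × ℤ)) q hq).real {ω | ∀ i < M + 1, ω ∉ armE (c i) r} =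
        (bm (Sym2 (ℤ × ℤ)) q hq).real {ω | ∀ i < M, ω ∉ armE (c i) r} *
        (bm (Sym2 (ℤ × ℤ)) q hq).real (armE (c M) r)ᶜ := by
      rw [hset]
      unfold Measure.real
      rw [key, ENNReal.toReal_mul]
    rw [h1, ih, probReal_compl_eq_one_sub (meas_arm _ _), arm_eq, pow_succ]

/-- If the one-arm probability does not decay, large boxes are connected to far away. -/
lemma box_far (q : NNReal) (hq : q ≤ 1) {ε : ℝ} (hε : 0 < ε) (h : ∀ n, ε ≤ th q hq n)
    {η : ℝ} (hη : 0 < η) :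
    ∃ k : ℕ, ∀ n, k < n →
      1 - η ≤ (bm (Sym2 (ℤ × ℤ)) q hq).real (ev (latR (Bx (0, 0) n)) (Bx (0, 0) k)
        (Far (0, 0) n)) := by
  have hε1 : ε ≤ 1 := (h 0).trans (th_le_one q hq 0)
  obtain ⟨M, hM⟩ := exists_pow_lt_of_lt_one (show 0 < η / 2 by positivity)
    (show 1 - ε < 1 by linarith)
  -- choose r
  have hbdd : BddBelow (Set.range (th q hq)) := ⟨ε, by rintro _ ⟨n, rfl⟩; exact h n⟩
  obtain ⟨_, ⟨r, rfl⟩, hr⟩ := exists_lt_of_csInf_lt (Set.range_nonempty (th q hq))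
    (show sInf (Set.range (th q hq)) < sInf (Set.range (th q hq)) + η / (2 * (M + 1)) by
      have : 0 < η / (2 * ((M : ℝ) + 1)) := by positivity
      linarith)
  have hr' : ∀ n, th q hq r - th q hq n ≤ η / (2 * (M + 1)) := by
    intro n
    have := csInf_le hbdd ⟨n, rfl⟩
    linarith
  refine ⟨M * (2 * r + 1) + r, fun n hn => ?_⟩
  set k := M * (2 * r + 1) + r with hk
  set μ := bm (Sym2 (ℤ × ℤ)) q hq with hμ
  set c : ℕ → ℤ × ℤ := fun i => (((i * (2 * r + 1) : ℕ) : ℤ), 0) with hc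
  set G := ev (latR (Bx (0, 0) n)) (Bx (0, 0) k) (Far (0, 0) n) with hG
  have hcb : ∀ i < M, (i * (2 * r + 1) : ℕ) ≤ k := by
    intro i hi
    have : i * (2 * r + 1) ≤ M * (2 * r + 1) := Nat.mul_le_mul_right _ hi.le
    omega
  have hsub : Gᶜ ⊆ {ω | ∀ i < M, ω ∉ armE (c i) r} ∪
      ⋃ i ∈ Finset.range M, (armE (c i) r \ armE (c i) (2 * n)) := by
    intro ω hω
    by_cases h1 : ∀ i < M, ω ∉ armE (c i) r
    · exact Or.inl h1
    · right
      push Not at h1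
      obtain ⟨i, hi, h2⟩ := h1
      simp only [mem_iUnion, Finset.mem_range, exists_prop]
      refine ⟨i, hi, h2, fun h3 => hω ?_⟩
      obtain ⟨a, rfl, b, hb, hr3⟩ := h3
      have hci := hcb i hi
      have hci' : ((i * (2 * r + 1) : ℕ) : ℤ) ≤ k := by exact_mod_cast hci
      have hci0 : (0 : ℤ) ≤ ((i * (2 * r + 1) : ℕ) : ℤ) := by positivity
      have hnk : ((k : ℕ) : ℤ) < n := by exact_mod_cast hn
      have hb' : b ∈ Far (0, 0) n := by
        rw [mem_Far] at hb ⊢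
        simp only [hc] at hb
        push_cast at hb hci' hci0 ⊢
        omega
      have ha : c i ∈ Bx (0, 0) n := by
        rw [mem_Bx]
        simp only [hc]
        omega
      obtain ⟨v, hv, hr4⟩ := exit_latR (S := Bx (0, 0) n) (T := Far (0, 0) n) hr3 ha hb'
        (fun c d hc hd hcd => Bx_exit hc hd hcd)
      refine ⟨c i, ?_, v, hv.2, hr4.mono (openG_mono (latR_mono inter_subset_right) ω)⟩
      rw [mem_Bx]
      simp only [hc]
      omega
  have hrk : r ≤ 2 * n := by omega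
  have h2 : ∀ i, μ.real (armE (c i) r \ armE (c i) (2 * n)) ≤ η / (2 * (M + 1)) := by
    intro i
    rw [measureReal_diff (arm_anti _ hrk) (meas_arm _ _), hμ, arm_eq, arm_eq]
    exact hr' _
  have h3 : μ.real Gᶜ ≤ η := by
    calc μ.real Gᶜ ≤ μ.real ({ω | ∀ i < M, ω ∉ armE (c i) r} ∪
      ⋃ i ∈ Finset.range M, (armE (c i) r \ armE (c i) (2 * n))) :=
          measureReal_mono hsub (measure_ne_top _ _)
      _ ≤ μ.real {ω | ∀ i < M, ω ∉ armE (c i) r} +
          μ.real (⋃ i ∈ Finset.range M, (armE (c i) r \ armE (c i) (2 * n))) :=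
          measureReal_union_le _ _
      _ ≤ (1 - th q hq r) ^ M + ∑ i ∈ Finset.range M, μ.real (armE (c i) r \ armE (c i) (2 * n)) := by
          refine add_le_add ?_ (measureReal_biUnion_finset_le _ _)
          rw [hμ, no_arm_prob]
      _ ≤ (1 - ε) ^ M + ∑ i ∈ Finset.range M, η / (2 * (M + 1)) := by
          refine add_le_add ?_ (Finset.sum_le_sum fun i _ => h2 i)
          refine pow_le_pow_left₀ ?_ ?_ _
          · have := th_le_one q hq r; linarith
          · have := h r; linarith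
      _ ≤ η / 2 + η / 2 := by
          refine add_le_add hM.le ?_
          rw [Finset.sum_const, Finset.card_range, nsmul_eq_mul]
          rw [mul_div_assoc', div_le_div_iff₀ (by positivity) (by positivity)]
          have : (0 : ℝ) ≤ M := by positivity
          nlinarith
      _ = η := by ring
  have h4 := probReal_compl_eq_one_sub (μ := μ) (meas_ev (latR (Bx (0, 0) n)) (Bx (0, 0) k) (Far (0, 0) n))
  rw [← hG] at h4
  linarith

end Pool.Agent.H978R2
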