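import Pool.Agent.H978R2.Main

/-!
# Choice of the parameters
-/

set_option autoImplicit false
set_option linter.all false
set_option linter.deprecated false

open MeasureTheory Set

namespace Pool.Agent.H978R2

lemma root16 (n : ℕ) : ∃ t : ℕ, t ^ 16 ≤ n ∧ n < (t + 1) ^ 16 := by
  refine ⟨Nat.sqrt (Nat.sqrt (Nat.sqrt (Nat.sqrt n))), ?_, ?_⟩
  · set a := Nat.sqrt n with ha
    set b := Nat.sqrt a with hb
    set c := Nat.sqrt b with hc
    set d := Nat.sqrt c with hd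
    have h1 : a ^ 2 ≤ n := Nat.sqrt_le' n
    have h2 : b ^ 2 ≤ a := Nat.sqrt_le' a
    have h3 : c ^ 2 ≤ b := Nat.sqrt_le' b
    have h4 : d ^ 2 ≤ c := Nat.sqrt_le' c
    calc d ^ 16 = (d ^ 2) ^ 8 := by ring
      _ ≤ c ^ 8 := Nat.pow_le_pow_left h4 8
      _ = (c ^ 2) ^ 4 := by ring
      _ ≤ b ^ 4 := Nat.pow_le_pow_left h3 4
      _ = (b ^ 2) ^ 2 := by ring
      _ ≤ a ^ 2 := Nat.pow_le_pow_left h2 2
      _ ≤ n := h1
  · set a := Nat.sqrt n with ha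
    set b := Nat.sqrt a with hb
    set c := Nat.sqrt b with hc
    set d := Nat.sqrt c with hd
    have h1 : n < (a + 1) ^ 2 := Nat.lt_succ_sqrt' n
    have h2 : a < (b + 1) ^ 2 := Nat.lt_succ_sqrt' a
    have h3 : b < (c + 1) ^ 2 := Nat.lt_succ_sqrt' b
    have h4 : c < (d + 1) ^ 2 := Nat.lt_succ_sqrt' c
    calc n < (a + 1) ^ 2 := h1
      _ ≤ ((b + 1) ^ 2) ^ 2 := Nat.pow_le_pow_left h2 2
      _ = (b + 1) ^ 4 := by ring
      _ ≤ ((c + 1) ^ 2) ^ 4 := Nat.pow_le_pow_left h3 4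
      _ = (c + 1) ^ 8 := by ring
      _ ≤ ((d + 1) ^ 2) ^ 8 := Nat.pow_le_pow_left h4 8
      _ = (d + 1) ^ 16 := by ring

lemma root4 (n : ℕ) : ∃ t : ℕ, t ^ 4 ≤ n ∧ n < (t + 1) ^ 4 := by
  refine ⟨Nat.sqrt (Nat.sqrt n), ?_, ?_⟩
  · set a := Nat.sqrt n with ha
    set b := Nat.sqrt a with hb
    have h1 : a ^ 2 ≤ n := Nat.sqrt_le' n
    have h2 : b ^ 2 ≤ a := Nat.sqrt_le' a
    calc b ^ 4 = (b ^ 2) ^ 2 := by ring
      _ ≤ a ^ 2 := Nat.pow_le_pow_left h2 2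
      _ ≤ n := h1
  · set a := Nat.sqrt n with ha
    set b := Nat.sqrt a with hb
    have h1 : n < (a + 1) ^ 2 := Nat.lt_succ_sqrt' n
    have h2 : a < (b + 1) ^ 2 := Nat.lt_succ_sqrt' a
    calc n < (a + 1) ^ 2 := h1
      _ ≤ ((b + 1) ^ 2) ^ 2 := Nat.pow_le_pow_left h2 2
      _ = (b + 1) ^ 4 := by ring

lemma exp_poly {c : ℝ} (hc : 0 < c) (d : ℕ) : ∃ C : ℝ, 0 < C ∧ ∀ x : ℝ, 0 ≤ x →
    x ^ d * Real.exp (-c * x) ≤ C := by
  refine ⟨d.factorial / c ^ d, by positivity, fun x hx => ?_⟩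
  have h1 := Real.pow_div_factorial_le_exp (c * x) (by positivity) d
  rw [div_le_iff₀ (by positivity), mul_pow] at h1
  have h2 : Real.exp (-c * x) * Real.exp (c * x) = 1 := by
    rw [← Real.exp_add]; simp
  have h3 := Real.exp_pos (-c * x)
  rw [le_div_iff₀ (by positivity)]
  calc x ^ d * Real.exp (-c * x) * c ^ d = (c ^ d * x ^ d) * Real.exp (-c * x) := by ring
    _ ≤ (Real.exp (c * x) * d.factorial) * Real.exp (-c * x) :=
        mul_le_mul_of_nonneg_right h1 h3.le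
    _ = (Real.exp (-c * x) * Real.exp (c * x)) * d.factorial := by ring
    _ = d.factorial := by rw [h2, one_mul]


/-- bound for the ratio and the second error, real version -/
lemma err_real {t n m N : ℝ} (t2 : 2 ≤ t) (h1 : t ^ 2 ≤ n) (h2 : 7 ≤ t ^ 3) (h3 : 6 * t ^ 3 ≤ n)
    (h4 : t ^ 4 * n ≤ N) (h5 : m * n ≤ N) (h6 : m * t ^ 4 ≤ n)
    (h7 : N ≤ (m + 1) * (n + 6 * t ^ 2)) (h8 : 1 ≤ m) :
    1 - (1 - 1 / t) ^ 2 * (m * n) ^ 2 / N ^ 2 +
      (m ^ 2 * ((m * (t + 1) + 2) * t ^ 2 * n) +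
        m * ((m * (t + 1) + 2) * t ^ 2 * (m * n + 2 * t ^ 2))) / N ^ 2 ≤ 30 / t := by
  have tpos : 0 < t := by linarith
  have npos : 0 < n := by nlinarith
  have mpos : 0 < m := by linarith
  have Npos : 0 < N := lt_of_lt_of_le (mul_pos mpos npos) h5
  have hx1 : m * n / N ≤ 1 := by rw [div_le_one Npos]; exact h5
  have hx2 : 1 - 2 / t ≤ m * n / N := by
    rw [le_div_iff₀ Npos]
    have a1 : n + 6 * t ^ 2 ≤ N / t := by
      rw [le_div_iff₀ tpos]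
      have b2 : (n + 6 * t ^ 2) * t ≤ (7 * n) * t := by
        refine mul_le_mul_of_nonneg_right ?_ tpos.le
        linarith
      have b4 : 7 * n * t ≤ t ^ 3 * n * t := by
        refine mul_le_mul_of_nonneg_right (mul_le_mul_of_nonneg_right h2 npos.le) tpos.le
      have b5 : t ^ 3 * n * t = t ^ 4 * n := by ring
      linarith
    have a2 : 6 * t ^ 2 * m ≤ N / t := by
      rw [le_div_iff₀ tpos]
      have b2 : 6 * t ^ 2 * m * t = m * (6 * t ^ 3) := by ring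
      rw [b2]
      calc m * (6 * t ^ 3) ≤ m * n := mul_le_mul_of_nonneg_left h3 mpos.le
        _ ≤ N := h5
    have a3 : (1 - 2 / t) * N = N - N / t - N / t := by
      field_simp
      ring
    rw [a3]
    have a4 : (m + 1) * (n + 6 * t ^ 2) = m * n + 6 * t ^ 2 * m + (n + 6 * t ^ 2) := by ring
    rw [a4] at h7
    linarith
  have hmn0 : 0 ≤ m * n / N := (div_pos (mul_pos mpos npos) Npos).le
  have hx3 : 1 - 4 / t ≤ (m * n) ^ 2 / N ^ 2 := by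
    rw [← div_pow]
    set x := m * n / N
    have : 4 / t = 2 * (2 / t) := by ring
    nlinarith [sq_nonneg (x - 1)]
  have hx3' : (m * n) ^ 2 / N ^ 2 ≤ 1 := by
    rw [← div_pow]
    exact pow_le_one₀ hmn0 hx1
  have hδ0 : 0 ≤ 1 / t := (div_pos one_pos tpos).le
  have hδ1 : 1 / t ≤ 1 := by rw [div_le_one tpos]; linarith
  have hx4 : 1 - 2 / t ≤ (1 - 1 / t) ^ 2 := by
    have : 2 / t = 2 * (1 / t) := by ring
    nlinarith [sq_nonneg (1 / t)]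
  have hx4' : (1 - 1 / t) ^ 2 ≤ 1 := pow_le_one₀ (by linarith) (by linarith)
  have hx5 : 1 - 6 / t ≤ (1 - 1 / t) ^ 2 * (m * n) ^ 2 / N ^ 2 := by
    rw [mul_div_assoc]
    have : 6 / t = 2 / t + 4 / t := by ring
    nlinarith [mul_nonneg (sub_nonneg.2 hx4') (sub_nonneg.2 hx3')]
  have ht2 : 0 ≤ t ^ 2 := sq_nonneg t
  have hx6 : (m ^ 2 * ((m * (t + 1) + 2) * t ^ 2 * n) +
      m * ((m * (t + 1) + 2) * t ^ 2 * (m * n + 2 * t ^ 2))) / N ^ 2 ≤ 24 / t := by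
    rw [div_le_div_iff₀ (pow_pos Npos 2) tpos]
    have c2 : n ≤ m * n := by nlinarith
    have c3 : m * n + 2 * t ^ 2 ≤ 3 * (m * n) := by linarith
    have c4 : m * (t + 1) + 2 ≤ 4 * (m * t) := by nlinarith
    have c4' : 0 ≤ m * (t + 1) + 2 := by nlinarith
    have c5 : m ^ 2 * ((m * (t + 1) + 2) * t ^ 2 * n) ≤
        m ^ 2 * (4 * (m * t) * t ^ 2 * n) := by
      refine mul_le_mul_of_nonneg_left ?_ (sq_nonneg m)
      refine mul_le_mul_of_nonneg_right ?_ npos.le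
      exact mul_le_mul_of_nonneg_right c4 ht2
    have c6 : m * ((m * (t + 1) + 2) * t ^ 2 * (m * n + 2 * t ^ 2)) ≤
        m * (4 * (m * t) * t ^ 2 * (3 * (m * n))) := by
      refine mul_le_mul_of_nonneg_left ?_ mpos.le
      refine mul_le_mul ?_ c3 ?_ ?_
      · exact mul_le_mul_of_nonneg_right c4 ht2
      · have := mul_pos mpos npos
        linarith
      · have h9 : 0 ≤ m * t := (mul_pos mpos tpos).le
        have h10 : 0 ≤ 4 * (m * t) := by linarith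
        exact mul_nonneg h10 ht2
    have c7 : m ^ 2 * (4 * (m * t) * t ^ 2 * n) + m * (4 * (m * t) * t ^ 2 * (3 * (m * n))) =
        16 * (m ^ 3 * n * t ^ 3) := by ring
    have c8 : m ^ 3 * n * t ^ 3 * t ≤ N ^ 2 := by
      calc m ^ 3 * n * t ^ 3 * t = (m * n) * m * (m * t ^ 4) := by ring
        _ ≤ (m * n) * m * n :=
            mul_le_mul_of_nonneg_left h6 (mul_pos (mul_pos mpos npos) mpos).le
        _ = (m * n) * (m * n) := by ring
        _ ≤ N * N := mul_le_mul h5 h5 (mul_pos mpos npos).le Npos.le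
        _ = N ^ 2 := by ring
    calc (m ^ 2 * ((m * (t + 1) + 2) * t ^ 2 * n) +
          m * ((m * (t + 1) + 2) * t ^ 2 * (m * n + 2 * t ^ 2))) * t
        ≤ (16 * (m ^ 3 * n * t ^ 3)) * t := by
          refine mul_le_mul_of_nonneg_right ?_ tpos.le
          linarith
      _ = 16 * (m ^ 3 * n * t ^ 3 * t) := by ring
      _ ≤ 16 * N ^ 2 := mul_le_mul_of_nonneg_left c8 (by norm_num)
      _ ≤ 24 * N ^ 2 := by nlinarith [sq_nonneg N]
  have : 30 / t = 6 / t + 24 / t := by ring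
  rw [this]
  linarith

/-- the integer part of the choice of parameters -/
lemma nat_params {n N t : ℕ} (ht : 2 ≤ t) (ht1 : t ^ 16 ≤ n) (h5 : n ^ 5 ≤ N ^ 4)
    (h7 : N ^ 4 ≤ n ^ 7) :
    t ^ 2 ≤ n ∧ 7 ≤ t ^ 3 ∧ 6 * t ^ 3 ≤ n ∧ t ^ 4 * n ≤ N ∧ t ≤ N / (n + 6 * t ^ 2) ∧
    N / (n + 6 * t ^ 2) * n ≤ N ∧ N / (n + 6 * t ^ 2) * t ^ 4 ≤ n ∧
    N ≤ (N / (n + 6 * t ^ 2) + 1) * (n + 6 * t ^ 2) := by
  have hnpos : 1 ≤ n := le_trans (Nat.one_le_pow _ _ (by omega)) ht1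
  have hNt : t ^ 4 * n ≤ N := by
    have h1 : (t ^ 4 * n) ^ 4 ≤ N ^ 4 := by
      calc (t ^ 4 * n) ^ 4 = t ^ 16 * n ^ 4 := by ring
        _ ≤ n * n ^ 4 := Nat.mul_le_mul_right _ ht1
        _ = n ^ 5 := by ring
        _ ≤ N ^ 4 := h5
    exact (Nat.pow_le_pow_iff_left (by norm_num)).1 h1
  have htn : t ^ 2 ≤ n := le_trans (Nat.pow_le_pow_right (by omega) (by norm_num)) ht1
  have ht3 : 7 ≤ t ^ 3 := by
    have : 2 ^ 3 ≤ t ^ 3 := Nat.pow_le_pow_left ht 3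
    linarith
  have ht6 : 6 * t ^ 3 ≤ n := by
    calc 6 * t ^ 3 ≤ t ^ 3 * t ^ 3 := Nat.mul_le_mul_right _ (by linarith)
      _ = t ^ 6 := by ring
      _ ≤ t ^ 16 := Nat.pow_le_pow_right (by omega) (by norm_num)
      _ ≤ n := ht1
  have hden : n + 6 * t ^ 2 ≤ 7 * n := by linarith
  have hdpos : 0 < n + 6 * t ^ 2 := by linarith [Nat.zero_le (6 * t ^ 2)]
  have hmN : N / (n + 6 * t ^ 2) * (n + 6 * t ^ 2) ≤ N := Nat.div_mul_le_self N _
  have hmn : N / (n + 6 * t ^ 2) * n ≤ N := le_trans (Nat.mul_le_mul_left _ (Nat.le_add_right _ _)) hmN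
  refine ⟨htn, ht3, ht6, hNt, ?_, hmn, ?_, ?_⟩
  · rw [Nat.le_div_iff_mul_le hdpos]
    calc t * (n + 6 * t ^ 2) ≤ t * (7 * n) := Nat.mul_le_mul_left _ hden
      _ = (t * 7) * n := by ring
      _ ≤ (t * t ^ 3) * n := Nat.mul_le_mul_right _ (Nat.mul_le_mul_left _ ht3)
      _ = t ^ 4 * n := by ring
      _ ≤ N := hNt
  · generalize N / (n + 6 * t ^ 2) = m at hmn
    have h1 : (m * t ^ 4) ^ 4 ≤ n ^ 4 := by
      have h2 : m ^ 4 * n ^ 4 ≤ n ^ 3 * n ^ 4 := by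
        calc m ^ 4 * n ^ 4 = (m * n) ^ 4 := by ring
          _ ≤ N ^ 4 := Nat.pow_le_pow_left hmn 4
          _ ≤ n ^ 7 := h7
          _ = n ^ 3 * n ^ 4 := by ring
      have h3 : m ^ 4 ≤ n ^ 3 := Nat.le_of_mul_le_mul_right h2 (Nat.pow_pos hnpos)
      calc (m * t ^ 4) ^ 4 = m ^ 4 * t ^ 16 := by ring
        _ ≤ n ^ 3 * n := Nat.mul_le_mul h3 ht1
        _ = n ^ 4 := by ring
    exact (Nat.pow_le_pow_iff_left (by norm_num)).1 h1
  · have := Nat.lt_mul_div_succ N hdpos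
    rw [mul_comm] at this
    exact this.le

lemma log_bound {n t : ℕ} (hn : 1 ≤ n) (ht2 : n < (t + 1) ^ 16) : Real.log n ≤ 16 * t := by
  have h1 : (n : ℝ) ≤ ((t : ℝ) + 1) ^ 16 := by exact_mod_cast ht2.le
  have npos : (0 : ℝ) < n := by exact_mod_cast hn
  calc Real.log n ≤ Real.log (((t : ℝ) + 1) ^ 16) := Real.log_le_log npos h1
    _ = 16 * Real.log ((t : ℝ) + 1) := by rw [Real.log_pow]; norm_num
    _ ≤ 16 * t := by
        have ht0 : (0 : ℝ) ≤ t := Nat.cast_nonneg t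
        have := Real.log_le_sub_one_of_pos (show (0 : ℝ) < (t : ℝ) + 1 by linarith)
        linarith

lemma cube_bound {n N t : ℕ} (ht2 : n < (t + 1) ^ 16) (h7 : N ^ 4 ≤ n ^ 7) :
    (N : ℝ) ^ 3 ≤ ((t : ℝ) + 1) ^ 84 := by
  have h1 : N ^ 4 ≤ ((t + 1) ^ 28) ^ 4 := by
    calc N ^ 4 ≤ n ^ 7 := h7
      _ ≤ ((t + 1) ^ 16) ^ 7 := Nat.pow_le_pow_left ht2.le 7
      _ = ((t + 1) ^ 28) ^ 4 := by rw [← pow_mul, ← pow_mul]
  have h2 : N ≤ (t + 1) ^ 28 := (Nat.pow_le_pow_iff_left (by norm_num)).1 h1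
  have h3 : (N : ℝ) ≤ ((t : ℝ) + 1) ^ 28 := by exact_mod_cast h2
  calc (N : ℝ) ^ 3 ≤ (((t : ℝ) + 1) ^ 28) ^ 3 := pow_le_pow_left₀ (Nat.cast_nonneg N) h3 3
    _ = ((t : ℝ) + 1) ^ 84 := by rw [← pow_mul]

lemma prob_real {K c C1 t N : ℝ} (hK : 0 < K) (hc : 0 < c) (ht : 1 ≤ t)
    (hexp : ∀ x : ℝ, 0 ≤ x → x ^ 85 * Real.exp (-c * x) ≤ C1) (hN : N ^ 3 ≤ (t + 1) ^ 84) :
    20 * K * N ^ 3 * Real.exp (-c * (t ^ 2 - 1)) ≤ 20 * K * Real.exp (2 * c) * C1 / t := by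
  have tpos : 0 < t := by linarith
  rw [le_div_iff₀ tpos]
  have hE : Real.exp (-c * (t ^ 2 - 1)) ≤ Real.exp (2 * c) * Real.exp (-c * (t + 1)) := by
    rw [← Real.exp_add, Real.exp_le_exp]
    have htt : t ≤ t ^ 2 := by nlinarith
    have hct : c * t ≤ c * t ^ 2 := mul_le_mul_of_nonneg_left htt hc.le
    linarith
  have h1 := hexp (t + 1) (by linarith)
  have hp : 0 < (t + 1) ^ 84 := pow_pos (by linarith) 84
  have hK20 : 0 < 20 * K := by linarith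
  have e1 := Real.exp_pos (2 * c)
  have e2 := Real.exp_pos (-c * (t + 1))
  have e3 := Real.exp_pos (-c * (t ^ 2 - 1))
  have s1 : 20 * K * N ^ 3 ≤ 20 * K * (t + 1) ^ 84 := mul_le_mul_of_nonneg_left hN hK20.le
  have s2 : 20 * K * N ^ 3 * Real.exp (-c * (t ^ 2 - 1)) ≤
      20 * K * (t + 1) ^ 84 * (Real.exp (2 * c) * Real.exp (-c * (t + 1))) :=
    mul_le_mul s1 hE e3.le (mul_pos hK20 hp).le
  have s3 : 0 ≤ 20 * K * (t + 1) ^ 84 * (Real.exp (2 * c) * Real.exp (-c * (t + 1))) :=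
    (mul_pos (mul_pos hK20 hp) (mul_pos e1 e2)).le
  calc 20 * K * N ^ 3 * Real.exp (-c * (t ^ 2 - 1)) * t
      ≤ 20 * K * (t + 1) ^ 84 * (Real.exp (2 * c) * Real.exp (-c * (t + 1))) * (t + 1) :=
        mul_le_mul s2 (by linarith) tpos.le s3
    _ = 20 * K * Real.exp (2 * c) * ((t + 1) ^ 85 * Real.exp (-c * (t + 1))) := by ring
    _ ≤ 20 * K * Real.exp (2 * c) * C1 :=
        mul_le_mul_of_nonneg_left h1 (mul_pos hK20 e1).le

/-- the choice of parameters -/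
theorem choose_params {K c : ℝ} (hK : 0 < K) (hc : 0 < c) :
    ∃ (C : ℝ) (n0 : ℕ), 0 < C ∧ 2 ≤ n0 ∧ ∀ n N : ℕ, n0 ≤ n → n ^ 5 ≤ N ^ 4 → N ^ 4 ≤ n ^ 7 →
      ∃ h m s : ℕ, 1 ≤ h ∧ 1 ≤ m ∧ 2 ≤ s ∧ m * (n + 6 * h) ≤ N ∧
        aerr n h m s N ≤ C / Real.log n ∧
        20 * K * N ^ 3 * Real.exp (-c * (h - 1)) ≤ C / Real.log n ∧
        1 / (m : ℝ) ≤ C / Real.log n := by
  obtain ⟨C1, hC1, hexp⟩ := exp_poly hc 85
  set C2 : ℝ := 20 * K * Real.exp (2 * c) * C1 with hC2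
  have hC2p : 0 < C2 := by positivity
  refine ⟨16 * (30 + C2), 65536, by positivity, by norm_num, fun n N hn0 h5 h7 => ?_⟩
  obtain ⟨t, ht1, ht2⟩ := root16 n
  have ht : 2 ≤ t := by
    by_contra hcon
    have h1 : t + 1 ≤ 2 := by omega
    have h2 : (t + 1) ^ 16 ≤ 2 ^ 16 := Nat.pow_le_pow_left h1 16
    have h3 : (2 : ℕ) ^ 16 = 65536 := by norm_num
    rw [h3] at h2
    exact absurd (lt_of_lt_of_le ht2 h2) (not_lt.2 hn0)
  have hnpos : 1 < n := lt_of_lt_of_le (by norm_num) hn0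
  obtain ⟨a1, a2, a3, a4, a5, a6, a7, a8⟩ := nat_params ht ht1 h5 h7
  have hlog := log_bound hnpos.le ht2
  have hcube := cube_bound ht2 h7
  have hmN : N / (n + 6 * t ^ 2) * (n + 6 * t ^ 2) ≤ N := Nat.div_mul_le_self N _
  have hlogpos : 0 < Real.log n := Real.log_pos (by exact_mod_cast hnpos)
  clear hn0 ht1 ht2 h5 h7
  generalize hm : N / (n + 6 * t ^ 2) = m at a5 a6 a7 a8 hmN
  have tpos : (0 : ℝ) < t := by
    have : 0 < t := by omega
    exact_mod_cast this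
  have t2 : (2 : ℝ) ≤ t := by exact_mod_cast ht
  have hfin : ∀ {x : ℝ} (A : ℝ), A ≤ 30 + C2 → 0 ≤ A → x ≤ A / t → x ≤ 16 * (30 + C2) / Real.log n := by
    intro x A hA hA0 hx
    refine hx.trans ?_
    rw [div_le_div_iff₀ tpos hlogpos]
    have h16 : (0 : ℝ) ≤ 16 * t := by linarith
    calc A * Real.log n ≤ A * (16 * t) := mul_le_mul_of_nonneg_left hlog hA0
      _ ≤ (30 + C2) * (16 * t) := mul_le_mul_of_nonneg_right hA h16
      _ = 16 * (30 + C2) * t := by ring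
  refine ⟨t ^ 2, m, t + 1, Nat.one_le_pow _ _ (by omega), le_trans (by omega) a5, by omega, hmN,
    ?_, ?_, ?_⟩
  · refine hfin 30 (by linarith) (by norm_num) ?_
    have h := err_real (t := (t : ℝ)) (n := (n : ℝ)) (m := (m : ℝ)) (N := (N : ℝ)) t2
      (by exact_mod_cast a1) (by exact_mod_cast a2) (by exact_mod_cast a3) (by exact_mod_cast a4)
      (by exact_mod_cast a6) (by exact_mod_cast a7) (by exact_mod_cast a8)
      (by
        have : 1 ≤ m := le_trans (by omega) a5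
        exact_mod_cast this)
    unfold aerr
    have e1 : (((t + 1 : ℕ) : ℝ) - 1) = t := by push_cast; ring
    have e2 : ((t ^ 2 : ℕ) : ℝ) = (t : ℝ) ^ 2 := by push_cast; ring
    have e3 : ((t + 1 : ℕ) : ℝ) = (t : ℝ) + 1 := by push_cast; ring
    rw [e1, e2, e3]
    exact h
  · refine hfin C2 (by linarith) hC2p.le ?_
    have e2 : ((t ^ 2 : ℕ) : ℝ) = (t : ℝ) ^ 2 := by push_cast; ring
    rw [e2]
    exact prob_real hK hc (by linarith) hexp hcube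
  · refine hfin 1 (by linarith) (by norm_num) ?_
    exact one_div_le_one_div_of_le tpos (by exact_mod_cast a5)

end Pool.Agent.H978R2
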