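import Pool.Agent.H978R2.Parity

/-!
# Planar duality on the square lattice
-/

set_option autoImplicit false
set_option linter.all false
set_option linter.deprecated false

open Set

namespace Pool.Agent.H978R2

/-- The primal edge crossed by a dual step. The face `F` is the unit square with lower left corner
`F`. -/
def dE (F F' : ℤ × ℤ) : Sym2 (ℤ × ℤ) :=
  if F.1 = F'.1 then s((F.1, max F.2 F'.2), (F.1 + 1, max F.2 F'.2))
  else s((max F.1 F'.1, F.2), (max F.1 F'.1, F.2 + 1))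

lemma dE_symm {F F' : ℤ × ℤ} (h : lat.Adj F F') : dE F F' = dE F' F := by
  rw [lat_adj] at h
  unfold dE
  obtain ⟨a, b⟩ := F
  obtain ⟨c, d⟩ := F'
  simp only at *
  rcases h with ⟨rfl, _⟩ | ⟨rfl, h⟩
  · simp [max_comm]
  · have h1 : ¬ (a = c) := by omega
    have h2 : ¬ (c = a) := by omega
    simp [h1, h2, max_comm]

/-- Primal open crossings and dual closed crossings exclude each other. -/
theorem dual_excl {ω : Sym2 (ℤ × ℤ) → Bool} {T L : List (ℤ × ℤ)}
    (hT : T.IsChain (fun F F' => lat.Adj F F' ∧ ω (dE F F') = false))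
    (hL : L.IsChain (fun v v' => lat.Adj v v' ∧ ω s(v, v') = true))
    (hTne : T ≠ []) (hLne : L ≠ []) {a0 a1 b0 b1 : ℤ}
    (h1 : ∀ F ∈ T, a0 ≤ F.1 ∧ F.1 ≤ a1 - 1) (h2 : (T.head hTne).2 ≤ b0 - 1)
    (h3 : b1 ≤ (T.getLast hTne).2) (h4 : ∀ v ∈ L, b0 ≤ v.2 ∧ v.2 ≤ b1)
    (h5 : (L.head hLne).1 ≤ a0) (h6 : a1 ≤ (L.getLast hLne).1) : False := by
  have hconst : cr (VE ((L.head hLne).1 - 1) ((L.head hLne).2 - 1)) T =
      cr (VE ((L.getLast hLne).1 - 1) ((L.getLast hLne).2 - 1)) T := by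
    refine const_of_chain (fun v : ℤ × ℤ => cr (VE (v.1 - 1) (v.2 - 1)) T) hL ?_ hLne
    have horiz : ∀ x y : ℤ, ω s((x, y), (x + 1, y)) = true →
        cr (VE (x - 1) (y - 1)) T = cr (VE (x + 1 - 1) (y - 1)) T := by
      intro x y hω
      refine cr_congr hT fun F F' hF hF' hadj => ?_
      unfold VE
      constructor
      · rintro ⟨e1, e2, e3⟩
        refine ⟨e1, ?_, e3⟩
        by_contra h4
        have h5 : F.1 = x := by omega
        have h6 : max F.2 F'.2 = y := by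
          rcases e3 with ⟨e3, e4⟩ | ⟨e3, e4⟩
          · rw [e3, e4]; simp
          · rw [e3, e4]; simp
        have h7 := hadj.2
        unfold dE at h7
        rw [if_pos e1, h6, h5, hω] at h7
        exact absurd h7 (by simp)
      · rintro ⟨e1, e2, e3⟩
        exact ⟨e1, by omega, e3⟩
    have vert : ∀ x y : ℤ, b0 ≤ y → y + 1 ≤ b1 → ω s((x, y), (x, y + 1)) = true →
        cr (VE (x - 1) (y - 1)) T = cr (VE (x - 1) (y + 1 - 1)) T := by
      intro x y hy0 hy1 hω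
      have key : cr (VE (x - 1) (y - 1)) T + cr (VE (x - 1) (y + 1 - 1)) T = 0 := by
        rw [cr_add (P'' := fun u u' => ¬ (u ∈ {w : ℤ × ℤ | x - 1 < w.1 ∧ w.2 = y} ↔
          u' ∈ {w : ℤ × ℤ | x - 1 < w.1 ∧ w.2 = y})) hT]
        · rw [cr_bd (Q := {w : ℤ × ℤ | x - 1 < w.1 ∧ w.2 = y}) hT (fun _ _ _ _ _ => Iff.rfl)
            hTne, ind_not_mem, ind_not_mem, add_zero]
          · rintro ⟨_, hh⟩; omega
          · rintro ⟨_, hh⟩; omega
        · intro F F' hF hF' hadj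
          have hne : ¬ (F.2 = y ∧ F'.2 = y ∧ max F.1 F'.1 = x ∧ F.1 ≠ F'.1) := by
            rintro ⟨e1, e2, e3, e4⟩
            have h7 := hadj.2
            unfold dE at h7
            rw [if_neg e4, e3, e1, hω] at h7
            exact absurd h7 (by simp)
          have hadj' := hadj.1
          rw [lat_adj] at hadj'
          simp only [VE, Set.mem_setOf_eq]
          obtain ⟨a, b⟩ := F
          obtain ⟨c, d⟩ := F'
          simp only at *
          omega
      have := two_zmod (cr (VE (x - 1) (y + 1 - 1)) T)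
      linear_combination key - this
    intro a b ha hb hab
    have ya := h4 a ha
    have yb := h4 b hb
    obtain ⟨hab1, hab2⟩ := hab
    rw [lat_adj] at hab1
    obtain ⟨a1, a2⟩ := a
    obtain ⟨b1, b2⟩ := b
    simp only at *
    rcases hab1 with ⟨rfl, rfl | rfl⟩ | ⟨rfl, rfl | rfl⟩
    · rw [Sym2.eq_swap] at hab2
      exact (vert _ _ (by omega) (by omega) hab2).symm
    · exact vert _ _ (by omega) (by omega) hab2
    · rw [Sym2.eq_swap] at hab2
      exact (horiz _ _ hab2).symm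
    · exact horiz _ _ hab2
  have hs : cr (VE ((L.head hLne).1 - 1) ((L.head hLne).2 - 1)) T = 1 := by
    have hmem := List.head_mem hLne
    have hy := h4 _ hmem
    rw [cr_bd (Q := {w : ℤ × ℤ | w.2 ≤ (L.head hLne).2 - 1}) hT ?_ hTne,
      ind_mem (show (T.head hTne) ∈ {w : ℤ × ℤ | w.2 ≤ (L.head hLne).2 - 1} by
        show (T.head hTne).2 ≤ (L.head hLne).2 - 1; omega),
      ind_not_mem (show (T.getLast hTne) ∉ {w : ℤ × ℤ | w.2 ≤ (L.head hLne).2 - 1} by
        show ¬ (T.getLast hTne).2 ≤ (L.head hLne).2 - 1; omega), add_zero]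
    intro u u' hu hu' hadj
    have b1 := h1 u hu
    have b2 := h1 u' hu'
    have hadj' := hadj.1
    rw [lat_adj] at hadj'
    simp only [VE, Set.mem_setOf_eq]
    omega
  have he : cr (VE ((L.getLast hLne).1 - 1) ((L.getLast hLne).2 - 1)) T = 0 := by
    refine cr_zero hT fun u u' hu hu' hadj => ?_
    rintro ⟨_, h7, _⟩
    have := (h1 u hu).2
    omega
  rw [hs, he] at hconst
  exact absurd hconst (by decide)

/-- the faces of the dual rectangle -/
def Fc (a0 a1 b0 b1 : ℤ) (F : ℤ × ℤ) : Prop :=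
  (a0 ≤ F.1 ∧ F.1 ≤ a1 - 1) ∧ (b0 - 1 ≤ F.2 ∧ F.2 ≤ b1)

/-- a rectangle -/
def Rc (a0 a1 b0 b1 : ℤ) : Set (ℤ × ℤ) := {v | (a0 ≤ v.1 ∧ v.1 ≤ a1) ∧ (b0 ≤ v.2 ∧ v.2 ≤ b1)}

/-- a dual step crossing the boundary of `W` inside the rectangle -/
def SS (W : Set (ℤ × ℤ)) (a0 a1 b0 b1 : ℤ) (F F' : ℤ × ℤ) : Prop :=
  lat.Adj F F' ∧ Fc a0 a1 b0 b1 F ∧ Fc a0 a1 b0 b1 F' ∧
    ∃ v v', dE F F' = s(v, v') ∧ lat.Adj v v' ∧ v ∈ Rc a0 a1 b0 b1 ∧ v' ∈ Rc a0 a1 b0 b1 ∧
      v ∈ W ∧ v' ∉ W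

lemma SS_symm {W : Set (ℤ × ℤ)} {a0 a1 b0 b1 : ℤ} {F F' : ℤ × ℤ} (h : SS W a0 a1 b0 b1 F F') :
    SS W a0 a1 b0 b1 F' F := by
  obtain ⟨h1, h2, h3, v, v', h4, h5⟩ := h
  exact ⟨h1.symm, h3, h2, v, v', by rw [← dE_symm h1]; exact h4, h5⟩

lemma tele (f : ℤ → ZMod 2) (a0 : ℤ) (n : ℕ) :
    ∑ i ∈ Finset.Icc a0 (a0 + n - 1), (f i + f (i + 1)) = f a0 + f (a0 + n) := by
  induction n with
  | zero => simp [two_zmod]
  | succ n ih =>
    have h : Finset.Icc a0 (a0 + ((n + 1 : ℕ) : ℤ) - 1) =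
        insert (a0 + n) (Finset.Icc a0 (a0 + n - 1)) := by
      ext x
      simp only [Finset.mem_Icc, Finset.mem_insert]
      push_cast
      omega
    rw [h, Finset.sum_insert (by simp), ih]
    have := two_zmod (f (a0 + n))
    push_cast
    have e : a0 + ((n : ℤ) + 1) = a0 + n + 1 := by ring
    rw [e]
    linear_combination this

lemma ind_ne {W : Set (ℤ × ℤ)} {v v' : ℤ × ℤ} (h : ind W v + ind W v' ≠ 0) :
    (v ∈ W ∧ v' ∉ W) ∨ (v' ∈ W ∧ v ∉ W) := by
  by_cases h1 : v ∈ W <;> by_cases h2 : v' ∈ W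
  · rw [ind_mem h1, ind_mem h2] at h; exact absurd (by decide) h
  · exact Or.inl ⟨h1, h2⟩
  · exact Or.inr ⟨h2, h1⟩
  · rw [ind_not_mem h1, ind_not_mem h2] at h; exact absurd (by decide) h

/-- existence of dual crossings -/
theorem dual_exists (W : Set (ℤ × ℤ)) (a0 a1 b0 b1 : ℤ) (ha : a0 < a1) (hb : b0 ≤ b1)
    (hL : ∀ y, b0 ≤ y → y ≤ b1 → (a0, y) ∈ W) (hR : ∀ y, b0 ≤ y → y ≤ b1 → (a1, y) ∉ W) :
    ∃ i j, Relation.ReflTransGen (SS W a0 a1 b0 b1) (i, b1) (j, b0 - 1) ∧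
      (a0 ≤ i ∧ i ≤ a1 - 1) ∧ (a0 ≤ j ∧ j ≤ a1 - 1) := by
  classical
  by_contra hcon
  push Not at hcon
  set 𝒯 : Finset (ℤ × ℤ) := (Finset.Icc a0 (a1 - 1) ×ˢ Finset.Icc (b0 - 1) b1).filter
    (fun F => ∃ i, (a0 ≤ i ∧ i ≤ a1 - 1) ∧
      Relation.ReflTransGen (SS W a0 a1 b0 b1) (i, b1) F) with hT
  have memT : ∀ F, F ∈ 𝒯 ↔ Fc a0 a1 b0 b1 F ∧ ∃ i, (a0 ≤ i ∧ i ≤ a1 - 1) ∧
      Relation.ReflTransGen (SS W a0 a1 b0 b1) (i, b1) F := by
    intro F
    rw [hT, Finset.mem_filter, Finset.mem_product, Finset.mem_Icc, Finset.mem_Icc]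
    rfl
  have closed : ∀ F F', F ∈ 𝒯 → SS W a0 a1 b0 b1 F F' → F' ∈ 𝒯 := by
    intro F F' hF hS
    rw [memT] at hF ⊢
    obtain ⟨_, i, hi, hr⟩ := hF
    exact ⟨hS.2.2.1, i, hi, hr.tail hS⟩
  have nobot : ∀ F ∈ 𝒯, b0 ≤ F.2 := by
    intro F hF
    rw [memT] at hF
    obtain ⟨h1, i, hi, hr⟩ := hF
    by_contra h2
    have h3 : F.2 = b0 - 1 := by have := h1.2.1; omega
    have h4 : F = (F.1, b0 - 1) := Prod.ext rfl h3
    rw [h4] at hr
    have := hcon i F.1 hr hi h1.1.1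
    have := h1.1.2
    omega
  set u : ℤ × ℤ → ZMod 2 := fun F => if F.2 + 1 ≤ b1 then
    ind W (F.1, F.2 + 1) + ind W (F.1 + 1, F.2 + 1) else 0 with hu
  set dn : ℤ × ℤ → ZMod 2 := fun F => ind W (F.1, F.2) + ind W (F.1 + 1, F.2) with hdn
  set l : ℤ × ℤ → ZMod 2 := fun F => if F.2 + 1 ≤ b1 then
    ind W (F.1, F.2) + ind W (F.1, F.2 + 1) else 0 with hl
  set r : ℤ × ℤ → ZMod 2 := fun F => if F.2 + 1 ≤ b1 then
    ind W (F.1 + 1, F.2) + ind W (F.1 + 1, F.2 + 1) else 0 with hr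
  have s1 : ∑ F ∈ 𝒯, u F = ∑ F ∈ 𝒯, dn F := by
    refine Finset.sum_bij_ne_zero (fun F _ _ => (F.1, F.2 + 1)) ?_ ?_ ?_ ?_
    · intro F hF hne
      have h1 := (memT F).1 hF
      by_cases hc : F.2 + 1 ≤ b1
      · have hne' : ind W (F.1, F.2 + 1) + ind W (F.1 + 1, F.2 + 1) ≠ 0 := by
          simpa only [hu, if_pos hc] using hne
        refine closed F _ hF ⟨?_, h1.1, ?_, ?_⟩
        · rw [lat_adj]; left; exact ⟨rfl, Or.inr rfl⟩
        · refine ⟨h1.1.1, ?_⟩
          have := h1.1.2.1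
          show b0 - 1 ≤ F.2 + 1 ∧ F.2 + 1 ≤ b1
          omega
        · have hb0 := nobot F hF
          have e : dE F (F.1, F.2 + 1) = s((F.1, F.2 + 1), (F.1 + 1, F.2 + 1)) := by
            unfold dE; simp
          have m1 : (F.1, F.2 + 1) ∈ Rc a0 a1 b0 b1 := by
            have := h1.1.1
            refine ⟨⟨this.1, ?_⟩, ?_, hc⟩
            · show F.1 ≤ a1
              omega
            · show b0 ≤ F.2 + 1
              omega
          have m2 : (F.1 + 1, F.2 + 1) ∈ Rc a0 a1 b0 b1 := by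
            have := h1.1.1
            refine ⟨⟨?_, ?_⟩, ?_, hc⟩
            · show a0 ≤ F.1 + 1
              omega
            · show F.1 + 1 ≤ a1
              omega
            · show b0 ≤ F.2 + 1
              omega
          have hadj : lat.Adj (F.1, F.2 + 1) (F.1 + 1, F.2 + 1) := by
            rw [lat_adj]; right; exact ⟨rfl, Or.inr rfl⟩
          rcases ind_ne hne' with ⟨w1, w2⟩ | ⟨w1, w2⟩
          · exact ⟨_, _, e, hadj, m1, m2, w1, w2⟩
          · exact ⟨_, _, by rw [e, Sym2.eq_swap], hadj.symm, m2, m1, w1, w2⟩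
      · exact absurd (by simp only [hu, if_neg hc]) hne
    · intro F _ _ F' _ _ h
      simp only [Prod.mk.injEq] at h
      exact Prod.ext h.1 (by omega)
    · intro F hF hne
      have h1 := (memT F).1 hF
      have hb0 := nobot F hF
      have hne' : ind W (F.1, F.2) + ind W (F.1 + 1, F.2) ≠ 0 := hne
      have hS : SS W a0 a1 b0 b1 F (F.1, F.2 - 1) := by
        refine ⟨?_, h1.1, ?_, ?_⟩
        · rw [lat_adj]; left; exact ⟨rfl, Or.inl (by simp)⟩
        · refine ⟨h1.1.1, ?_⟩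
          have := h1.1.2.2
          show b0 - 1 ≤ F.2 - 1 ∧ F.2 - 1 ≤ b1
          omega
        · have e : dE F (F.1, F.2 - 1) = s((F.1, F.2), (F.1 + 1, F.2)) := by
            unfold dE; simp
          have m1 : (F.1, F.2) ∈ Rc a0 a1 b0 b1 := by
            have := h1.1.1
            exact ⟨⟨this.1, by show F.1 ≤ a1; omega⟩, hb0, h1.1.2.2⟩
          have m2 : (F.1 + 1, F.2) ∈ Rc a0 a1 b0 b1 := by
            have := h1.1.1
            exact ⟨⟨by show a0 ≤ F.1 + 1; omega, by show F.1 + 1 ≤ a1; omega⟩, hb0, h1.1.2.2⟩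
          have hadj : lat.Adj (F.1, F.2) (F.1 + 1, F.2) := by
            rw [lat_adj]; right; exact ⟨rfl, Or.inr rfl⟩
          rcases ind_ne hne' with ⟨w1, w2⟩ | ⟨w1, w2⟩
          · exact ⟨_, _, e, hadj, m1, m2, w1, w2⟩
          · exact ⟨_, _, by rw [e, Sym2.eq_swap], hadj.symm, m2, m1, w1, w2⟩
      have hF' := closed F _ hF hS
      refine ⟨(F.1, F.2 - 1), hF', ?_, by simp⟩
      have hc : F.2 - 1 + 1 ≤ b1 := by have := h1.1.2.2; omega
      simp only [hu, if_pos hc, sub_add_cancel]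
      exact hne'
    · intro F hF hne
      by_cases hc : F.2 + 1 ≤ b1
      · simp only [hu, hdn, if_pos hc]
      · exact absurd (by simp only [hu, if_neg hc]) hne
  have s2 : ∑ F ∈ 𝒯, r F = ∑ F ∈ 𝒯, l F := by
    refine Finset.sum_bij_ne_zero (fun F _ _ => (F.1 + 1, F.2)) ?_ ?_ ?_ ?_
    · intro F hF hne
      have h1 := (memT F).1 hF
      have hb0 := nobot F hF
      by_cases hc : F.2 + 1 ≤ b1
      · have hne' : ind W (F.1 + 1, F.2) + ind W (F.1 + 1, F.2 + 1) ≠ 0 := by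
          simpa only [hr, if_pos hc] using hne
        have hcol : F.1 + 1 ≤ a1 - 1 := by
          by_contra h2
          have h3 : F.1 + 1 = a1 := by have := h1.1.1.2; omega
          rw [h3, ind_not_mem (hR _ hb0 (by omega)), ind_not_mem (hR _ (by omega) hc)] at hne'
          exact absurd (by decide) hne'
        refine closed F _ hF ⟨?_, h1.1, ?_, ?_⟩
        · rw [lat_adj]; right; exact ⟨rfl, Or.inr rfl⟩
        · exact ⟨⟨by have := h1.1.1.1; show a0 ≤ F.1 + 1; omega, hcol⟩, h1.1.2⟩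
        · have e : dE F (F.1 + 1, F.2) = s((F.1 + 1, F.2), (F.1 + 1, F.2 + 1)) := by
            unfold dE; simp
          have m1 : (F.1 + 1, F.2) ∈ Rc a0 a1 b0 b1 := by
            have := h1.1.1
            exact ⟨⟨by show a0 ≤ F.1 + 1; omega, by show F.1 + 1 ≤ a1; omega⟩, hb0, h1.1.2.2⟩
          have m2 : (F.1 + 1, F.2 + 1) ∈ Rc a0 a1 b0 b1 := by
            have := h1.1.1
            exact ⟨⟨by show a0 ≤ F.1 + 1; omega, by show F.1 + 1 ≤ a1; omega⟩,
              by show b0 ≤ F.2 + 1; omega, hc⟩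
          have hadj : lat.Adj (F.1 + 1, F.2) (F.1 + 1, F.2 + 1) := by
            rw [lat_adj]; left; exact ⟨rfl, Or.inr rfl⟩
          rcases ind_ne hne' with ⟨w1, w2⟩ | ⟨w1, w2⟩
          · exact ⟨_, _, e, hadj, m1, m2, w1, w2⟩
          · exact ⟨_, _, by rw [e, Sym2.eq_swap], hadj.symm, m2, m1, w1, w2⟩
      · exact absurd (by simp only [hr, if_neg hc]) hne
    · intro F _ _ F' _ _ h
      simp only [Prod.mk.injEq] at h
      exact Prod.ext (by omega) h.2
    · intro F hF hne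
      have h1 := (memT F).1 hF
      have hb0 := nobot F hF
      by_cases hc : F.2 + 1 ≤ b1
      · have hne' : ind W (F.1, F.2) + ind W (F.1, F.2 + 1) ≠ 0 := by
          simpa only [hl, if_pos hc] using hne
        have hcol : a0 ≤ F.1 - 1 := by
          by_contra h2
          have h3 : F.1 = a0 := by have := h1.1.1.1; omega
          rw [h3, ind_mem (hL _ hb0 (by omega)), ind_mem (hL _ (by omega) hc)] at hne'
          exact absurd (by decide) hne'
        have hS : SS W a0 a1 b0 b1 F (F.1 - 1, F.2) := by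
          refine ⟨?_, h1.1, ?_, ?_⟩
          · rw [lat_adj]; right; exact ⟨rfl, Or.inl (by simp)⟩
          · exact ⟨⟨hcol, by have := h1.1.1.2; show F.1 - 1 ≤ a1 - 1; omega⟩, h1.1.2⟩
          · have hne2 : ¬ (F.1 = F.1 - 1) := by omega
            have hmax : max F.1 (F.1 - 1) = F.1 := by omega
            have e : dE F (F.1 - 1, F.2) = s((F.1, F.2), (F.1, F.2 + 1)) := by
              unfold dE
              rw [if_neg hne2]
              simp only [hmax]
            have m1 : (F.1, F.2) ∈ Rc a0 a1 b0 b1 := by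
              have := h1.1.1
              exact ⟨⟨this.1, by show F.1 ≤ a1; omega⟩, hb0, h1.1.2.2⟩
            have m2 : (F.1, F.2 + 1) ∈ Rc a0 a1 b0 b1 := by
              have := h1.1.1
              exact ⟨⟨this.1, by show F.1 ≤ a1; omega⟩, by show b0 ≤ F.2 + 1; omega, hc⟩
            have hadj : lat.Adj (F.1, F.2) (F.1, F.2 + 1) := by
              rw [lat_adj]; left; exact ⟨rfl, Or.inr rfl⟩
            rcases ind_ne hne' with ⟨w1, w2⟩ | ⟨w1, w2⟩
            · exact ⟨_, _, e, hadj, m1, m2, w1, w2⟩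
            · exact ⟨_, _, by rw [e, Sym2.eq_swap], hadj.symm, m2, m1, w1, w2⟩
        have hF' := closed F _ hF hS
        refine ⟨(F.1 - 1, F.2), hF', ?_, by simp⟩
        simp only [hr, if_pos hc, sub_add_cancel]
        exact hne'
      · exact absurd (by simp only [hl, if_neg hc]) hne
    · intro F hF hne
      by_cases hc : F.2 + 1 ≤ b1
      · simp only [hr, hl, if_pos hc]
      · exact absurd (by simp only [hr, if_neg hc]) hne
  have s3 : ∑ F ∈ 𝒯, (u F + dn F + (r F + l F)) = 0 := by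
    have e1 : ∑ F ∈ 𝒯, (u F + dn F) = ∑ F ∈ 𝒯, u F + ∑ F ∈ 𝒯, dn F := Finset.sum_add_distrib
    have e2 : ∑ F ∈ 𝒯, (r F + l F) = ∑ F ∈ 𝒯, r F + ∑ F ∈ 𝒯, l F := Finset.sum_add_distrib
    rw [Finset.sum_add_distrib, e1, e2, s1, s2, two_zmod, two_zmod, add_zero]
  have s4 : ∑ F ∈ 𝒯, (u F + dn F + (r F + l F)) =
      ∑ F ∈ 𝒯, if F.2 = b1 then dn F else 0 := by
    refine Finset.sum_congr rfl fun F hF => ?_
    have h1 := (memT F).1 hF
    by_cases hc : F.2 + 1 ≤ b1
    · have hne : ¬ (F.2 = b1) := by omega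
      simp only [hu, hdn, hr, hl, if_pos hc, if_neg hne]
      have t1 := two_zmod (ind W (F.1, F.2))
      have t2 := two_zmod (ind W (F.1 + 1, F.2))
      have t3 := two_zmod (ind W (F.1, F.2 + 1))
      have t4 := two_zmod (ind W (F.1 + 1, F.2 + 1))
      linear_combination t1 + t2 + t3 + t4
    · have heq : F.2 = b1 := by have := h1.1.2.2; omega
      simp only [hu, hr, hl, if_neg hc, if_pos heq]
      ring
  have s5 : ∑ F ∈ 𝒯, (if F.2 = b1 then dn F else 0) =
      ∑ i ∈ Finset.Icc a0 (a1 - 1), (ind W (i, b1) + ind W (i + 1, b1)) := by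
    rw [← Finset.sum_filter]
    symm
    refine Finset.sum_bij (fun i _ => (i, b1)) ?_ ?_ ?_ ?_
    · intro i hi
      rw [Finset.mem_Icc] at hi
      rw [Finset.mem_filter, memT]
      exact ⟨⟨⟨hi, by show b0 - 1 ≤ b1; omega, le_refl b1⟩, i, hi, Relation.ReflTransGen.refl⟩, rfl⟩
    · intro i _ j _ h
      exact (Prod.mk.inj h).1
    · intro F hF
      rw [Finset.mem_filter, memT] at hF
      exact ⟨F.1, Finset.mem_Icc.2 hF.1.1.1, Prod.ext rfl hF.2.symm⟩
    · intro i _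
      rfl
  obtain ⟨n, hn⟩ : ∃ n : ℕ, a1 = a0 + n := ⟨(a1 - a0).toNat, by omega⟩
  have s6 := tele (fun i => ind W (i, b1)) a0 n
  rw [← hn] at s6
  have s7 : ind W (a0, b1) + ind W (a1, b1) = 1 := by
    rw [ind_mem (hL b1 hb le_rfl), ind_not_mem (hR b1 hb le_rfl), add_zero]
  rw [s4, s5, s6, s7] at s3
  exact absurd s3 (by decide)

end Pool.Agent.H978R2
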