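import Pool.Agent.H978R2.AKN
import Pool.Agent.H978R2.Dual

/-!
# Boxes, symmetries and the dual configuration
-/

set_option autoImplicit false
set_option linter.all false
set_option linter.deprecated false

open MeasureTheory Set

namespace Pool.Agent.H978R2

/-- the lattice restricted to a vertex set -/
def latR (R : Set (ℤ × ℤ)) : SimpleGraph (ℤ × ℤ) where
  Adj x y := lat.Adj x y ∧ x ∈ R ∧ y ∈ R
  symm := ⟨fun x y h => ⟨h.1.symm, h.2.2, h.2.1⟩⟩
  loopless := ⟨fun x h => lat.loopless.irrefl x h.1⟩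

lemma latR_mono {R R' : Set (ℤ × ℤ)} (h : R ⊆ R') : latR R ≤ latR R' :=
  fun x y hxy => ⟨hxy.1, h hxy.2.1, h hxy.2.2⟩

lemma latR_le (R : Set (ℤ × ℤ)) : latR R ≤ lat := fun x y hxy => hxy.1

/-- the pairs inside a vertex set -/
def ins (R : Set (ℤ × ℤ)) : Set (Sym2 (ℤ × ℤ)) := {e | ∀ v ∈ e, v ∈ R}

lemma latR_edge (R : Set (ℤ × ℤ)) : (latR R).edgeSet ⊆ ins R := by
  intro e he
  induction e using Sym2.ind with
  | _ x y =>
    have h : (latR R).Adj x y := he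
    intro v hv
    rw [Sym2.mem_iff] at hv
    rcases hv with rfl | rfl
    · exact h.2.1
    · exact h.2.2

lemma ins_mono {R R' : Set (ℤ × ℤ)} (h : R ⊆ R') : ins R ⊆ ins R' :=
  fun e he v hv => h (he v hv)

lemma ins_finite {R : Set (ℤ × ℤ)} (h : R.Finite) : (ins R).Finite := by
  classical
  refine (h.toFinset.sym2.finite_toSet).subset fun e he => ?_
  rw [Finset.mem_coe, Finset.mem_sym2_iff]
  intro v hv
  rw [Set.Finite.mem_toFinset]
  exact he v hv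

lemma dep_ins (R A B : Set (ℤ × ℤ)) : DepOn (ins R) (ev (latR R) A B) :=
  (depOn_ev _ _ _).mono (latR_edge R)

lemma Rc_finite (a0 a1 b0 b1 : ℤ) : (Rc a0 a1 b0 b1).Finite := by
  have : Rc a0 a1 b0 b1 = (Set.Icc a0 a1) ×ˢ (Set.Icc b0 b1) := by
    ext v; simp only [Rc, Set.mem_setOf_eq, Set.mem_prod, Set.mem_Icc]
  rw [this]
  exact (Set.finite_Icc _ _).prod (Set.finite_Icc _ _)

/-- invariance under graph isomorphisms -/
lemma hit_map {V W : Type*} [Countable V] [Countable W] (q : NNReal) (hq : q ≤ 1)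
    {Γ : SimpleGraph V} {Γ' : SimpleGraph W} (σ : V ≃ W)
    (h : ∀ x y, Γ'.Adj (σ x) (σ y) ↔ Γ.Adj x y) (A B : Set V) :
    hit q hq Γ' (σ '' A) (σ '' B) = hit q hq Γ A B := by
  have hj : Function.Injective (Sym2.map σ) := Sym2.map.injective σ.injective
  have hlaw := map_comp_inj q hq (Sym2.map σ) hj
  have hm : Measurable (fun (ω : Sym2 W → Bool) (i : Sym2 V) => ω (Sym2.map σ i)) := by
    rw [measurable_pi_iff]; intro i; exact measurable_pi_apply _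
  unfold hit
  rw [← hlaw, Measure.map_apply hm (meas_ev _ _ _)]
  congr 1
  ext ω
  rw [mem_preimage, mem_ev, mem_ev]
  have hadj : ∀ x y, (openG Γ' ω).Adj (σ x) (σ y) ↔
      (openG Γ (fun i => ω (Sym2.map σ i))).Adj x y := by
    intro x y
    constructor
    · rintro ⟨h1, h2⟩; exact ⟨(h x y).1 h1, h2⟩
    · rintro ⟨h1, h2⟩; exact ⟨(h x y).2 h1, h2⟩
  let φ : openG Γ (fun i => ω (Sym2.map σ i)) ≃g openG Γ' ω := ⟨σ, fun {x y} => hadj x y⟩
  have hreach : ∀ x y, (openG Γ' ω).Reachable (σ x) (σ y) ↔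
      (openG Γ (fun i => ω (Sym2.map σ i))).Reachable x y := fun x y =>
    SimpleGraph.Iso.reachable_iff (φ := φ)
  constructor
  · rintro ⟨_, ⟨a, ha, rfl⟩, _, ⟨b, hb, rfl⟩, hr⟩
    exact ⟨a, ha, b, hb, (hreach a b).1 hr⟩
  · rintro ⟨a, ha, b, hb, hr⟩
    exact ⟨σ a, ⟨a, ha, rfl⟩, σ b, ⟨b, hb, rfl⟩, (hreach a b).2 hr⟩

/-- invariance for the lattice restricted to a set -/
lemma hit_latR (q : NNReal) (hq : q ≤ 1) (σ : (ℤ × ℤ) ≃ (ℤ × ℤ))
    (h : ∀ x y, lat.Adj (σ x) (σ y) ↔ lat.Adj x y) (R A B : Set (ℤ × ℤ)) :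
    hit q hq (latR (σ '' R)) (σ '' A) (σ '' B) = hit q hq (latR R) A B := by
  refine hit_map q hq σ (fun x y => ?_) A B
  constructor
  · rintro ⟨h1, h2, h3⟩
    exact ⟨(h x y).1 h1, by simpa using h2, by simpa using h3⟩
  · rintro ⟨h1, h2, h3⟩
    exact ⟨(h x y).2 h1, ⟨x, h2, rfl⟩, ⟨y, h3, rfl⟩⟩

/-- translation -/
def trs (t : ℤ × ℤ) : (ℤ × ℤ) ≃ (ℤ × ℤ) := Equiv.addRight t

lemma trs_adj (t x y : ℤ × ℤ) : lat.Adj (trs t x) (trs t y) ↔ lat.Adj x y := by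
  show (_ : ℤ) = 1 ↔ (_ : ℤ) = 1
  have : ((trs t x).1 - (trs t y).1) ^ 2 + ((trs t x).2 - (trs t y).2) ^ 2 =
      (x.1 - y.1) ^ 2 + (x.2 - y.2) ^ 2 := by
    simp [trs]
  rw [this]

/-- transposition -/
def swp : (ℤ × ℤ) ≃ (ℤ × ℤ) := Equiv.prodComm ℤ ℤ

lemma swp_adj (x y : ℤ × ℤ) : lat.Adj (swp x) (swp y) ↔ lat.Adj x y := by
  show (_ : ℤ) = 1 ↔ (_ : ℤ) = 1
  have : ((swp x).1 - (swp y).1) ^ 2 + ((swp x).2 - (swp y).2) ^ 2 =
      (x.1 - y.1) ^ 2 + (x.2 - y.2) ^ 2 := by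
    simp [swp]; ring
  rw [this]

/-- reflection in the vertical axis -/
def rfx : (ℤ × ℤ) ≃ (ℤ × ℤ) := Equiv.prodCongr (Equiv.neg ℤ) (Equiv.refl ℤ)

lemma rfx_adj (x y : ℤ × ℤ) : lat.Adj (rfx x) (rfx y) ↔ lat.Adj x y := by
  show (_ : ℤ) = 1 ↔ (_ : ℤ) = 1
  have : ((rfx x).1 - (rfx y).1) ^ 2 + ((rfx x).2 - (rfx y).2) ^ 2 =
      (x.1 - y.1) ^ 2 + (x.2 - y.2) ^ 2 := by
    simp [rfx]; ring
  rw [this]

lemma trs_image (t : ℤ × ℤ) (a0 a1 b0 b1 : ℤ) :
    trs t '' Rc a0 a1 b0 b1 = Rc (a0 + t.1) (a1 + t.1) (b0 + t.2) (b1 + t.2) := by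
  ext v
  constructor
  · rintro ⟨w, hw, rfl⟩
    obtain ⟨⟨h1, h2⟩, h3, h4⟩ := hw
    refine ⟨⟨?_, ?_⟩, ?_, ?_⟩ <;> simp [trs] <;> omega
  · rintro ⟨⟨h1, h2⟩, h3, h4⟩
    refine ⟨v - t, ⟨⟨?_, ?_⟩, ?_, ?_⟩, by simp [trs]⟩ <;> simp <;> omega

lemma swp_image (a0 a1 b0 b1 : ℤ) : swp '' Rc a0 a1 b0 b1 = Rc b0 b1 a0 a1 := by
  ext v
  constructor
  · rintro ⟨w, hw, rfl⟩
    exact ⟨hw.2, hw.1⟩
  · intro hv
    exact ⟨(v.2, v.1), ⟨hv.2, hv.1⟩, rfl⟩

lemma rfx_image (a0 a1 b0 b1 : ℤ) : rfx '' Rc a0 a1 b0 b1 = Rc (-a1) (-a0) b0 b1 := by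
  ext v
  constructor
  · rintro ⟨w, ⟨⟨h1, h2⟩, h3⟩, rfl⟩
    refine ⟨⟨?_, ?_⟩, h3⟩ <;> simp [rfx] <;> omega
  · rintro ⟨⟨h1, h2⟩, h3⟩
    refine ⟨(-v.1, v.2), ⟨⟨?_, ?_⟩, h3⟩, by simp [rfx]⟩ <;> simp <;> omega

/-! ### The dual configuration -/

lemma dE_adj {F F' : ℤ × ℤ} (h : lat.Adj F F') : dE F F' ∈ lat.edgeSet := by
  rw [lat_adj] at h
  unfold dE
  obtain ⟨a, b⟩ := F
  obtain ⟨c, d⟩ := F'
  simp only at *
  split_ifs with h1
  · show lat.Adj _ _
    rw [lat_adj]; right; exact ⟨rfl, Or.inr rfl⟩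
  · show lat.Adj _ _
    rw [lat_adj]; left; exact ⟨rfl, Or.inr rfl⟩

lemma dE_inj {F F' G G' : ℤ × ℤ} (h : lat.Adj F F') (h' : lat.Adj G G')
    (he : dE F F' = dE G G') : s(F, F') = s(G, G') := by
  rw [lat_adj] at h h'
  unfold dE at he
  obtain ⟨a, b⟩ := F
  obtain ⟨c, d⟩ := F'
  obtain ⟨a', b'⟩ := G
  obtain ⟨c', d'⟩ := G'
  simp only at *
  split_ifs at he with h1 h2 h2
  · rw [Sym2.eq_iff] at he
    simp only [Prod.mk.injEq] at he
    rw [Sym2.eq_iff]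
    simp only [Prod.mk.injEq]
    rcases he with ⟨⟨e1, e2⟩, e3, e4⟩ | ⟨⟨e1, e2⟩, e3, e4⟩
    · omega
    · omega
  · rw [Sym2.eq_iff] at he
    simp only [Prod.mk.injEq] at he
    omega
  · rw [Sym2.eq_iff] at he
    simp only [Prod.mk.injEq] at he
    omega
  · rw [Sym2.eq_iff] at he
    simp only [Prod.mk.injEq] at he
    rw [Sym2.eq_iff]
    simp only [Prod.mk.injEq]
    rcases he with ⟨⟨e1, e2⟩, e3, e4⟩ | ⟨⟨e1, e2⟩, e3, e4⟩
    · omega
    · omega

open Classical in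
/-- the duality map on all pairs -/
noncomputable def dM (e : Sym2 (ℤ × ℤ)) : Sym2 (ℤ × ℤ) :=
  if lat.Adj (Quot.out e).1 (Quot.out e).2 then dE (Quot.out e).1 (Quot.out e).2 else e

lemma out_eq (e : Sym2 (ℤ × ℤ)) : s((Quot.out e).1, (Quot.out e).2) = e := Quot.out_eq e

lemma dM_adj {F F' : ℤ × ℤ} (h : lat.Adj F F') : dM s(F, F') = dE F F' := by
  classical
  have h1 := out_eq s(F, F')
  rw [Sym2.eq_iff] at h1
  unfold dM
  rcases h1 with ⟨h1, h2⟩ | ⟨h1, h2⟩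
  · rw [h1, h2, if_pos h]
  · rw [h1, h2, if_pos h.symm, dE_symm h]

lemma dM_not {e : Sym2 (ℤ × ℤ)} (h : e ∉ lat.edgeSet) : dM e = e := by
  classical
  unfold dM
  rw [if_neg]
  intro h1
  apply h
  rw [← out_eq e]
  exact h1

lemma dM_mem {e : Sym2 (ℤ × ℤ)} (h : e ∈ lat.edgeSet) : dM e ∈ lat.edgeSet := by
  induction e using Sym2.ind with
  | _ x y =>
    rw [dM_adj h]
    exact dE_adj h

lemma dM_inj : Function.Injective dM := by
  intro e e' he
  by_cases h : e ∈ lat.edgeSet <;> by_cases h' : e' ∈ lat.edgeSet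
  · induction e using Sym2.ind with
    | _ x y =>
      induction e' using Sym2.ind with
      | _ x' y' =>
        rw [dM_adj h, dM_adj h'] at he
        exact dE_inj h h' he
  · have := dM_mem h
    rw [he, dM_not h'] at this
    exact absurd this h'
  · have := dM_mem h'
    rw [← he, dM_not h] at this
    exact absurd this h
  · rwa [dM_not h, dM_not h'] at he

/-- flipping all bits -/
lemma map_not {ι : Type*} (q : NNReal) (hq : q ≤ 1) :
    (bm ι q hq).map (fun ω i => !(ω i)) = bm ι (1 - q) tsub_le_self := by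
  have hm : Measurable (fun (ω : ι → Bool) (i : ι) => !(ω i)) := by
    rw [measurable_pi_iff]
    intro i
    exact (measurable_of_countable (fun b : Bool => !b)).comp (measurable_pi_apply i)
  conv_rhs => unfold bm
  apply Measure.eq_infinitePi
  intro s t ht
  rw [Measure.map_apply hm (MeasurableSet.pi s.countable_toSet fun i _ => ht i)]
  have h : (fun (ω : ι → Bool) (i : ι) => !(ω i)) ⁻¹' (Set.pi (s : Set ι) t) =
      Set.pi (s : Set ι) (fun i => (fun b : Bool => !b) ⁻¹' (t i)) := by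
    ext ω; simp [Set.mem_pi]
  rw [h]
  unfold bm
  rw [Measure.infinitePi_pi _ (fun i _ => (measurable_of_countable (fun b : Bool => !b)) (ht i))]
  refine Finset.prod_congr rfl fun i _ => ?_
  have key : ((PMF.bernoulli q hq).toMeasure).map (fun b : Bool => !b) =
      (PMF.bernoulli (1 - q) tsub_le_self).toMeasure := by
    refine Measure.ext_of_singleton fun b => ?_
    rw [Measure.map_apply (measurable_of_countable _) (MeasurableSet.singleton b)]
    cases b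
    · have : (fun b : Bool => !b) ⁻¹' {false} = {true} := by ext b; cases b <;> simp
      rw [this, bern_true, bern_false]
      rw [← ENNReal.coe_one, ← ENNReal.coe_sub]
      congr 1
      exact (tsub_tsub_cancel_of_le hq).symm
    · have : (fun b : Bool => !b) ⁻¹' {true} = {false} := by ext b; cases b <;> simp
      rw [this, bern_true, bern_false]
      push_cast
      rfl
  rw [← key, Measure.map_apply (measurable_of_countable _) (ht i)]

/-- the dual configuration -/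
noncomputable def dualc (ω : Sym2 (ℤ × ℤ) → Bool) : Sym2 (ℤ × ℤ) → Bool := fun e => !(ω (dM e))

lemma measurable_dualc : Measurable dualc := by
  rw [measurable_pi_iff]
  intro i
  exact (measurable_of_countable (fun b : Bool => !b)).comp (measurable_pi_apply (dM i))

lemma map_dualc (q : NNReal) (hq : q ≤ 1) :
    (bm (Sym2 (ℤ × ℤ)) q hq).map dualc = bm (Sym2 (ℤ × ℤ)) (1 - q) tsub_le_self := by
  rw [← map_not q hq]
  conv_rhs => rw [← map_comp_inj q hq dM dM_inj]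
  rw [Measure.map_map]
  · rfl
  · rw [measurable_pi_iff]
    intro i
    exact (measurable_of_countable (fun b : Bool => !b)).comp (measurable_pi_apply i)
  · rw [measurable_pi_iff]
    intro i
    exact measurable_pi_apply _

lemma bm_dual (q : NNReal) (hq : q ≤ 1) {A : Set (Sym2 (ℤ × ℤ) → Bool)} (hA : MeasurableSet A) :
    bm (Sym2 (ℤ × ℤ)) q hq {ω | dualc ω ∈ A} =
      bm (Sym2 (ℤ × ℤ)) (1 - q) tsub_le_self A := by
  rw [← map_dualc q hq, Measure.map_apply measurable_dualc hA]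
  rfl

end Pool.Agent.H978R2
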