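import Mathlib

/-!
# Convergence from an almost monotonicity along power scales
-/

set_option autoImplicit false
set_option linter.all false
set_option linter.deprecated false

open Filter Topology

namespace Pool.Agent.H978R2

lemma pow_k1 {k : ℕ} (hk : 16 ≤ k) : (k + 1) ^ 80 ≤ k ^ 84 := by
  have h1 : 16 * (k + 1) ≤ 17 * k := by omega
  have h2 : (16 * (k + 1)) ^ 80 ≤ (17 * k) ^ 80 := Nat.pow_le_pow_left h1 80
  rw [mul_pow, mul_pow] at h2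
  have h3 : (17 : ℕ) ^ 80 ≤ 16 ^ 80 * 16 ^ 4 := by norm_num
  have h4 : (16 : ℕ) ^ 4 ≤ k ^ 4 := Nat.pow_le_pow_left hk 4
  have h5 : (16 : ℕ) ^ 80 * (k + 1) ^ 80 ≤ 16 ^ 80 * k ^ 84 := by
    calc (16 : ℕ) ^ 80 * (k + 1) ^ 80 ≤ 17 ^ 80 * k ^ 80 := h2
      _ ≤ (16 ^ 80 * 16 ^ 4) * k ^ 80 := Nat.mul_le_mul_right _ h3
      _ ≤ (16 ^ 80 * k ^ 4) * k ^ 80 := Nat.mul_le_mul_right _ (Nat.mul_le_mul_left _ h4)
      _ = 16 ^ 80 * k ^ 84 := by rw [mul_assoc, ← pow_add]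
  exact Nat.le_of_mul_le_mul_left h5 (by norm_num)

lemma pow_k2 {k n N : ℕ} (hk : 16 ≤ k) (h1 : n ^ 7 ≤ N ^ 4) (h2 : N ≤ (k + 1) ^ 4) :
    n ^ 5 ≤ (k ^ 3) ^ 4 := by
  have h3 : (n ^ 5) ^ 7 ≤ ((k ^ 3) ^ 4) ^ 7 := by
    calc (n ^ 5) ^ 7 = (n ^ 7) ^ 5 := by rw [← pow_mul, ← pow_mul]
      _ ≤ (N ^ 4) ^ 5 := Nat.pow_le_pow_left h1 5
      _ = N ^ 20 := by rw [← pow_mul]
      _ ≤ ((k + 1) ^ 4) ^ 20 := Nat.pow_le_pow_left h2 20
      _ = (k + 1) ^ 80 := by rw [← pow_mul]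
      _ ≤ k ^ 84 := pow_k1 hk
      _ = ((k ^ 3) ^ 4) ^ 7 := by rw [← pow_mul, ← pow_mul]
  exact (Nat.pow_le_pow_iff_left (by norm_num)).1 h3

lemma pow_k3 {k N : ℕ} (hk : 16 ≤ k) (h2 : N ≤ (k + 1) ^ 4) : N ^ 4 ≤ (k ^ 3) ^ 7 := by
  have h3 : (N ^ 4) ^ 5 ≤ ((k ^ 3) ^ 7) ^ 5 := by
    calc (N ^ 4) ^ 5 = N ^ 20 := by rw [← pow_mul]
      _ ≤ ((k + 1) ^ 4) ^ 20 := Nat.pow_le_pow_left h2 20
      _ = (k + 1) ^ 80 := by rw [← pow_mul]
      _ ≤ k ^ 84 := pow_k1 hk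
      _ ≤ k ^ 105 := Nat.pow_le_pow_right (by omega) (by norm_num)
      _ = ((k ^ 3) ^ 7) ^ 5 := by rw [← pow_mul, ← pow_mul]
  exact (Nat.pow_le_pow_iff_left (by norm_num)).1 h3

lemma pow_k4 {k N : ℕ} (hk : 1 ≤ k) (h : k ^ 4 ≤ N) : (k ^ 3) ^ 5 ≤ N ^ 4 := by
  calc (k ^ 3) ^ 5 = k ^ 15 := by rw [← pow_mul]
    _ ≤ k ^ 16 := Nat.pow_le_pow_right hk (by norm_num)
    _ = (k ^ 4) ^ 4 := by rw [← pow_mul]
    _ ≤ N ^ 4 := Nat.pow_le_pow_left h 4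

lemma le_of_pow54 {n N : ℕ} (hn : 1 ≤ n) (h : n ^ 5 ≤ N ^ 4) : n ≤ N := by
  have h1 : n ^ 4 ≤ N ^ 4 := le_trans (Nat.pow_le_pow_right hn (by norm_num)) h
  exact (Nat.pow_le_pow_iff_left (by norm_num)).1 h1

lemma root4' {N : ℕ} (hN : 17 ^ 4 ≤ N) : ∃ k : ℕ, 16 ≤ k ∧ k ^ 4 ≤ N ∧ N ≤ (k + 1) ^ 4 := by
  refine ⟨Nat.sqrt (Nat.sqrt N), ?_, ?_, ?_⟩
  · have h1 : 17 ^ 2 ≤ Nat.sqrt N := by
      rw [Nat.le_sqrt']
      calc (17 ^ 2) ^ 2 = 17 ^ 4 := by norm_num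
        _ ≤ N := hN
    have h2 : 17 ≤ Nat.sqrt (Nat.sqrt N) := by
      rw [Nat.le_sqrt']; exact h1
    omega
  · have h1 := Nat.sqrt_le' N
    have h2 := Nat.sqrt_le' (Nat.sqrt N)
    calc (Nat.sqrt (Nat.sqrt N)) ^ 4 = ((Nat.sqrt (Nat.sqrt N)) ^ 2) ^ 2 := by rw [← pow_mul]
      _ ≤ (Nat.sqrt N) ^ 2 := Nat.pow_le_pow_left h2 2
      _ ≤ N := h1
  · have h1 : N < (Nat.sqrt N + 1) ^ 2 := Nat.lt_succ_sqrt' N
    have h2 : Nat.sqrt N < (Nat.sqrt (Nat.sqrt N) + 1) ^ 2 := Nat.lt_succ_sqrt' (Nat.sqrt N)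
    calc N ≤ (Nat.sqrt N + 1) ^ 2 := h1.le
      _ ≤ ((Nat.sqrt (Nat.sqrt N) + 1) ^ 2) ^ 2 := Nat.pow_le_pow_left h2 2
      _ = (Nat.sqrt (Nat.sqrt N) + 1) ^ 4 := by rw [← pow_mul]

lemma log_pos_nat {n : ℕ} (hn : 2 ≤ n) : 0 < Real.log n := by
  refine Real.log_pos ?_
  have : 1 < n := by omega
  exact_mod_cast this

theorem chain_ineq {κ : ℕ → ℝ} {A : ℝ} (hA : 0 < A) {n0 : ℕ} (hn0 : 2 ≤ n0)
    (hmain : ∀ n N : ℕ, n0 ≤ n → n ^ 5 ≤ N ^ 4 → N ^ 4 ≤ n ^ 7 → κ n - A / Real.log n ≤ κ N) :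
    ∀ N n : ℕ, max n0 (17 ^ 4) ≤ n → n ^ 5 ≤ N ^ 4 →
      κ n - 5 * A / Real.log n + 4 * A / Real.log N ≤ κ N := by
  intro N
  induction N using Nat.strong_induction_on with
  | _ N ih =>
    intro n hn h5
    have hnn0 : n0 ≤ n := le_trans (le_max_left _ _) hn
    have hn17 : 17 ^ 4 ≤ n := le_trans (le_max_right _ _) hn
    have hn2 : 2 ≤ n := le_trans hn0 hnn0
    have hnN := le_of_pow54 (by omega) h5
    have hlogn := log_pos_nat hn2
    have hlogN := log_pos_nat (le_trans hn2 hnN)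
    by_cases h7 : N ^ 4 ≤ n ^ 7
    · have h1 := hmain n N hnn0 h5 h7
      have h2 : Real.log n ≤ Real.log N := by
        refine Real.log_le_log ?_ (by exact_mod_cast hnN)
        have : 0 < n := by omega
        exact_mod_cast this
      have h3 : 4 * A / Real.log N ≤ 4 * A / Real.log n :=
        div_le_div_of_nonneg_left (by linarith) hlogn h2
      have h4 : 5 * A / Real.log n = A / Real.log n + 4 * A / Real.log n := by ring
      linarith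
    · have h7' : n ^ 7 ≤ N ^ 4 := le_of_lt (not_le.1 h7)
      obtain ⟨k, hk, hk1, hk2⟩ := root4' (le_trans hn17 hnN)
      have hkn : n ^ 5 ≤ (k ^ 3) ^ 4 := pow_k2 hk h7' hk2
      have hnk : n ≤ k ^ 3 := le_of_pow54 (by omega) hkn
      have hlt : k ^ 3 < N := by
        refine lt_of_lt_of_le ?_ hk1
        exact Nat.pow_lt_pow_right (by omega) (by norm_num)
      have h1 := ih (k ^ 3) hlt n hn hkn
      have h2 := hmain (k ^ 3) N (le_trans hnn0 hnk) (pow_k4 (by omega) hk1) (pow_k3 hk hk2)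
      have hkpos : (0 : ℝ) < k := by
        have : 0 < k := by omega
        exact_mod_cast this
      have hlogk : 0 < Real.log k := log_pos_nat (by omega)
      have e1 : Real.log ((k ^ 3 : ℕ) : ℝ) = 3 * Real.log k := by
        push_cast
        rw [Real.log_pow]; norm_num
      have e2 : 4 * Real.log k ≤ Real.log N := by
        have h3 : Real.log ((k : ℝ) ^ 4) ≤ Real.log N := by
          refine Real.log_le_log (by positivity) ?_
          exact_mod_cast hk1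
        rw [Real.log_pow] at h3
        norm_num at h3
        exact h3
      rw [e1] at h1 h2
      have e3 : 4 * A / Real.log N ≤ A / Real.log k := by
        rw [div_le_div_iff₀ hlogN hlogk]
        nlinarith
      have e4 : 4 * A / (3 * Real.log k) - A / (3 * Real.log k) = A / Real.log k := by
        field_simp
        ring
      linarith

/-- convergence -/
theorem abstract_limit {κ : ℕ → ℝ} {A : ℝ} (hA : 0 < A) {n0 : ℕ} (hn0 : 2 ≤ n0)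
    (h0 : ∀ n, 0 ≤ κ n) (h1 : ∀ n, κ n ≤ 1)
    (hmain : ∀ n N : ℕ, n0 ≤ n → n ^ 5 ≤ N ^ 4 → N ^ 4 ≤ n ^ 7 → κ n - A / Real.log n ≤ κ N) :
    ∃ L : ℝ, 0 ≤ L ∧ L ≤ 1 ∧ Tendsto κ atTop (𝓝 L) := by
  have hch := chain_ineq hA hn0 hmain
  set n1 := max n0 (17 ^ 4) with hn1
  have hn12 : 2 ≤ n1 := le_trans hn0 (le_max_left _ _)
  set b : ℕ → ℝ := fun n => κ n - 5 * A / Real.log n with hb
  have hlog0 : ∀ n : ℕ, 2 ≤ n → 0 < Real.log (n : ℝ) := fun n hn => log_pos_nat hn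
  set S : Set ℝ := b '' {n | n1 ≤ n} with hS
  have hSne : S.Nonempty := ⟨b n1, n1, le_refl n1, rfl⟩
  have hSb : BddAbove S := by
    refine ⟨1, ?_⟩
    rintro _ ⟨n, hn, rfl⟩
    have h2 := hlog0 n (le_trans hn12 hn)
    have h3 : 0 ≤ 5 * A / Real.log n := by positivity
    have h4 := h1 n
    simp only [hb]
    linarith
  set L := sSup S with hL
  have hlim : Tendsto κ atTop (𝓝 L) := by
    rw [Metric.tendsto_atTop]
    intro ε hε
    obtain ⟨_, ⟨n, hn, rfl⟩, hbn⟩ := exists_lt_of_lt_csSup hSne (show L - ε < L by linarith)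
    have hlogt : Tendsto (fun n : ℕ => Real.log n) atTop atTop :=
      Real.tendsto_log_atTop.comp tendsto_natCast_atTop_atTop
    obtain ⟨n2, hn2⟩ := (Filter.tendsto_atTop.1 hlogt (10 * A / ε + 1)).exists_forall_of_atTop
    refine ⟨max (max n1 n2) (n ^ 2), fun N hN => ?_⟩
    have hN1 : n1 ≤ N := le_trans (le_trans (le_max_left _ _) (le_max_left _ _)) hN
    have hN2 : n2 ≤ N := le_trans (le_trans (le_max_right _ _) (le_max_left _ _)) hN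
    have hN3 : n ^ 2 ≤ N := le_trans (le_max_right _ _) hN
    have hn1' : 1 ≤ n := le_trans (by omega) hn
    have h5 : n ^ 5 ≤ N ^ 4 := by
      calc n ^ 5 ≤ n ^ 8 := Nat.pow_le_pow_right hn1' (by norm_num)
        _ = (n ^ 2) ^ 4 := by rw [← pow_mul]
        _ ≤ N ^ 4 := Nat.pow_le_pow_left hN3 4
    have h6 := hch N n hn h5
    have hlogN := hlog0 N (le_trans hn12 hN1)
    have h7 : 0 ≤ 4 * A / Real.log N := by positivity
    have h8 : b N ≤ L := le_csSup hSb ⟨N, hN1, rfl⟩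
    have h9 : 5 * A / Real.log N < ε := by
      have h10 := hn2 N hN2
      rw [div_lt_iff₀ hlogN]
      have h11 : 10 * A / ε * ε = 10 * A := by field_simp
      nlinarith
    rw [Real.dist_eq, abs_lt]
    simp only [hb] at h8 hbn
    constructor
    · linarith
    · linarith
  refine ⟨L, ?_, ?_, hlim⟩
  · exact ge_of_tendsto' hlim h0
  · exact le_of_tendsto' hlim h1

end Pool.Agent.H978R2
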