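import Pool.Agent.H978R2.Asym
import Pool.Agent.H978R2.Chain

/-!
# Convergence in probability
-/

set_option autoImplicit false
set_option linter.all false
set_option linter.deprecated false

open MeasureTheory Set Filter Topology

namespace Pool.Agent.H978R2

/-- normalised expectation -/
noncomputable def kap (q : NNReal) (hq : q ≤ 1) (n : ℕ) : ℝ := eC q hq n / n ^ 2

lemma kap_nonneg (q : NNReal) (hq : q ≤ 1) (n : ℕ) : 0 ≤ kap q hq n :=
  div_nonneg (eC_nonneg q hq n) (by positivity)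

lemma kap_le_one (q : NNReal) (hq : q ≤ 1) (n : ℕ) : kap q hq n ≤ 1 := by
  unfold kap
  rcases Nat.eq_zero_or_pos n with rfl | hn
  · simp
  · have : (0 : ℝ) < n := by exact_mod_cast hn
    rw [div_le_one (by positivity)]
    exact eC_le q hq n

theorem main_ineq (q : NNReal) (hq : q ≤ 1) (hqh : (1 / 2 : ℝ) < q) :
    ∃ (A : ℝ) (n0 : ℕ), 0 < A ∧ 2 ≤ n0 ∧ ∀ n N : ℕ, n0 ≤ n → n ^ 5 ≤ N ^ 4 → N ^ 4 ≤ n ^ 7 →
      kap q hq n - A / Real.log n ≤ kap q hq N ∧
      ∀ x : ℝ, 0 < x → (bm (Sym2 (ℤ × ℤ)) q hq).real {ω | (Clen (Rc 1 N 1 N) ω : ℝ) / N ^ 2 <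
        kap q hq n - A / Real.log n - x} ≤ A / Real.log n + (A / Real.log n) ^ 2 / x ^ 2 := by
  obtain ⟨K, c, hK, hc, hH, hV⟩ := cross_est q hq hqh
  obtain ⟨C, n0, hC, hn0, hpar⟩ := choose_params hK hc
  refine ⟨2 * C, n0, by linarith, hn0, fun n N hn h5 h7 => ?_⟩
  obtain ⟨h, m, s, hh, hm, hs, hN, ha, hp, hm1⟩ := hpar n N hn h5 h7
  have hn1 : 1 ≤ n := le_trans (by omega) (le_trans hn0 hn)
  have hlog : 0 < Real.log n := log_pos_nat (le_trans hn0 hn)
  have hgood := goodTwo_prob q hq hK hH hV hn1 hh hm hN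
  have hG : (bm (Sym2 (ℤ × ℤ)) q hq).real (goodTwo n h m)ᶜ ≤ C / Real.log n := hgood.trans hp
  have e2 : 2 * C / Real.log n = C / Real.log n + C / Real.log n := by ring
  have hCl : 0 ≤ C / Real.log n := by positivity
  constructor
  · have h1 := main_expect hn1 hh hm hs hN q hq
    show eC q hq n / n ^ 2 - 2 * C / Real.log n ≤ eC q hq N / N ^ 2
    linarith
  · intro x hx
    have h1 := main_tail hn1 hh hm hs hN q hq hx
    have hsub : {ω : Sym2 (ℤ × ℤ) → Bool | (Clen (Rc 1 N 1 N) ω : ℝ) / N ^ 2 <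
        kap q hq n - 2 * C / Real.log n - x} ⊆ {ω | (Clen (Rc 1 N 1 N) ω : ℝ) / N ^ 2 <
      eC q hq n / n ^ 2 - aerr n h m s N - x} := by
      intro ω hω
      have h2 : (Clen (Rc 1 N 1 N) ω : ℝ) / N ^ 2 <
        eC q hq n / n ^ 2 - 2 * C / Real.log n - x := hω
      show (Clen (Rc 1 N 1 N) ω : ℝ) / N ^ 2 < eC q hq n / n ^ 2 - aerr n h m s N - x
      linarith
    refine (measureReal_mono hsub (measure_ne_top _ _)).trans (h1.trans ?_)
    refine add_le_add (by linarith) ?_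
    have hmpos : (0 : ℝ) < m := by exact_mod_cast hm
    have h3 : 1 / (m : ℝ) ≤ 2 * C / Real.log n := by linarith
    have h4 : (1 / (m : ℝ)) ^ 2 ≤ (2 * C / Real.log n) ^ 2 := pow_le_pow_left₀ (by positivity) h3 2
    have h5 : 1 / ((m : ℝ) ^ 2 * x ^ 2) = (1 / (m : ℝ)) ^ 2 / x ^ 2 := by
      field_simp
    rw [h5]
    exact div_le_div_of_nonneg_right h4 (by positivity)

/-- Convergence in probability of the normalised length of the longest cycle. -/
theorem conv_prob (q : NNReal) (hq : q ≤ 1) (hqh : (1 / 2 : ℝ) < q) :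
    ∃ L : ℝ, ∀ ε : ℝ, 0 < ε → Tendsto (fun N : ℕ => (bm (Sym2 (ℤ × ℤ)) q hq).real
      {ω | ε ≤ |(Clen (Rc 1 N 1 N) ω : ℝ) / (N : ℝ) ^ 2 - L|}) atTop (𝓝 0) := by
  obtain ⟨A, n0, hA, hn0, hmain⟩ := main_ineq q hq hqh
  obtain ⟨L, hL0, hL1, hlim⟩ := abstract_limit hA hn0 (kap_nonneg q hq) (kap_le_one q hq)
    (fun n N hn h5 h7 => (hmain n N hn h5 h7).1)
  set μ := bm (Sym2 (ℤ × ℤ)) q hq with hμ
  set X : ℕ → (Sym2 (ℤ × ℤ) → Bool) → ℝ := fun N ω => (Clen (Rc 1 N 1 N) ω : ℝ) / (N : ℝ) ^ 2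
    with hX
  have hlogt : Tendsto (fun n : ℕ => Real.log n) atTop atTop :=
    Real.tendsto_log_atTop.comp tendsto_natCast_atTop_atTop
  have hAlog : Tendsto (fun n : ℕ => A / Real.log n) atTop (𝓝 0) := hlogt.const_div_atTop A
  -- lower tail
  have hlow : ∀ ε : ℝ, 0 < ε → ∀ η : ℝ, 0 < η → ∃ N0 : ℕ, ∀ N, N0 ≤ N →
      μ.real {ω | X N ω ≤ L - ε} ≤ η := by
    intro ε hε η hη
    -- choose n large
    have e1 : ∀ᶠ n : ℕ in atTop, A / Real.log n < min (ε / 8) (η / 2) :=
      (tendsto_order.1 hAlog).2 _ (lt_min (by linarith) (by linarith))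
    have e2 : ∀ᶠ n : ℕ in atTop, (A / Real.log n) ^ 2 / (ε / 4) ^ 2 < η / 2 := by
      have h1 : Tendsto (fun n : ℕ => (A / Real.log n) ^ 2 / (ε / 4) ^ 2) atTop (𝓝 0) := by
        have := (hAlog.pow 2).div_const ((ε / 4) ^ 2)
        simpa using this
      exact (tendsto_order.1 h1).2 _ (by linarith)
    have e3 : ∀ᶠ n : ℕ in atTop, L - ε / 4 < kap q hq n :=
      (tendsto_order.1 hlim).1 _ (by linarith)
    obtain ⟨n1, hn1⟩ := (e1.and (e2.and e3)).exists_forall_of_atTop
    refine ⟨max (17 ^ 4) ((max n0 n1 + 1) ^ 4), fun N hN => ?_⟩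
    have hN1 : 17 ^ 4 ≤ N := le_trans (le_max_left _ _) hN
    have hN2 : (max n0 n1 + 1) ^ 4 ≤ N := le_trans (le_max_right _ _) hN
    obtain ⟨k, hk, hk1, hk2⟩ := root4' hN1
    have hkn : max n0 n1 ≤ k := by
      have h1 : (max n0 n1 + 1) ^ 4 ≤ (k + 1) ^ 4 := le_trans hN2 hk2
      have h2 := (Nat.pow_le_pow_iff_left (by norm_num)).1 h1
      omega
    have hk3 : k ≤ k ^ 3 := by
      calc k = k ^ 1 := (pow_one k).symm
        _ ≤ k ^ 3 := Nat.pow_le_pow_right (by omega) (by norm_num)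
    have hn0k : n0 ≤ k ^ 3 := le_trans (le_max_left _ _) (le_trans hkn hk3)
    have hn1k : n1 ≤ k ^ 3 := le_trans (le_max_right _ _) (le_trans hkn hk3)
    obtain ⟨f1, f2, f3⟩ := hn1 (k ^ 3) hn1k
    have h1 := (hmain (k ^ 3) N hn0k (pow_k4 (by omega) hk1) (pow_k3 hk hk2)).2 (ε / 4) (by linarith)
    have f4 := lt_of_lt_of_le f1 (min_le_left _ _)
    have f5 := lt_of_lt_of_le f1 (min_le_right _ _)
    refine (measureReal_mono ?_ (measure_ne_top _ _)).trans (h1.trans ?_)
    · intro ω hω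
      have h2 : X N ω ≤ L - ε := hω
      show X N ω < kap q hq (k ^ 3) - A / Real.log ((k ^ 3 : ℕ) : ℝ) - ε / 4
      linarith
    · linarith
  -- upper tail
  have hupp : ∀ ε : ℝ, 0 < ε → ∀ η : ℝ, 0 < η → ∃ N0 : ℕ, ∀ N, N0 ≤ N →
      μ.real {ω | L + ε ≤ X N ω} ≤ η := by
    intro ε hε η hη
    set η' : ℝ := ε * η / 3 with hη'
    have hη'p : 0 < η' := by positivity
    obtain ⟨N1, hN1⟩ := hlow η' hη'p η' hη'p
    have e1 : ∀ᶠ n : ℕ in atTop, kap q hq n < L + η' := (tendsto_order.1 hlim).2 _ (by linarith)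
    obtain ⟨N2, hN2⟩ := e1.exists_forall_of_atTop
    refine ⟨max 1 (max N1 N2), fun N hN => ?_⟩
    have g1 := hN1 N (le_trans (le_trans (le_max_left _ _) (le_max_right _ _)) hN)
    have g2 := hN2 N (le_trans (le_trans (le_max_right _ _) (le_max_right _ _)) hN)
    have hXm : Measurable (X N) := (Clen_measurable_real (Rc_finite _ _ _ _)).div_const _
    set U := {ω | L + ε ≤ X N ω} with hU
    set D := {ω | X N ω ≤ L - η'} with hD
    have mU : MeasurableSet U := measurableSet_le measurable_const hXm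
    have mD : MeasurableSet D := measurableSet_le hXm measurable_const
    have hX0 : ∀ ω, 0 ≤ X N ω := fun ω => by simp only [hX]; positivity
    have hpt : ∀ ω, (L - η') + ε * U.indicator (fun _ => (1 : ℝ)) ω -
        D.indicator (fun _ => (1 : ℝ)) ω ≤ X N ω := by
      intro ω
      by_cases hω : ω ∈ D
      · have hωU : ω ∉ U := by
          intro h
          have h1 : L + ε ≤ X N ω := h
          have h2 : X N ω ≤ L - η' := hω
          linarith
        rw [Set.indicator_of_mem hω, Set.indicator_of_notMem hωU]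
        have := hX0 ω
        linarith
      · rw [Set.indicator_of_notMem hω]
        by_cases hωU : ω ∈ U
        · rw [Set.indicator_of_mem hωU]
          have h1 : L + ε ≤ X N ω := hωU
          linarith
        · rw [Set.indicator_of_notMem hωU]
          have h2 : ¬ X N ω ≤ L - η' := hω
          linarith
    have i1 : Integrable (fun ω => U.indicator (fun _ => (1 : ℝ)) ω) μ :=
      (integrable_const _).indicator mU
    have i2 : Integrable (fun ω => D.indicator (fun _ => (1 : ℝ)) ω) μ :=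
      (integrable_const _).indicator mD
    have i3 : Integrable (X N) μ := (Clen_integrable q hq (Rc_finite _ _ _ _)).div_const _
    have i4 : Integrable (fun ω => (L - η') + ε * U.indicator (fun _ => (1 : ℝ)) ω) μ :=
      (integrable_const (L - η')).add (i1.const_mul ε)
    have i5 : Integrable (fun ω => (L - η') + ε * U.indicator (fun _ => (1 : ℝ)) ω -
        D.indicator (fun _ => (1 : ℝ)) ω) μ := i4.sub i2
    have h6 := integral_mono i5 i3 hpt
    have h7 : ∫ ω, ((L - η') + ε * U.indicator (fun _ => (1 : ℝ)) ω -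
        D.indicator (fun _ => (1 : ℝ)) ω) ∂μ = (L - η') + ε * μ.real U - μ.real D := by
      rw [integral_sub i4 i2, integral_add (integrable_const _) (i1.const_mul ε),
        integral_const_mul]
      have k1 : ∫ ω, U.indicator (fun _ => (1 : ℝ)) ω ∂μ = μ.real U := integral_indicator_one mU
      have k2 : ∫ ω, D.indicator (fun _ => (1 : ℝ)) ω ∂μ = μ.real D := integral_indicator_one mD
      rw [k1, k2]
      simp
    have h8 : ∫ ω, X N ω ∂μ = kap q hq N := by
      simp only [hX]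
      rw [integral_div]; rfl
    have h9 : (L - η') + ε * μ.real U - μ.real D ≤ kap q hq N := by
      rw [← h7, ← h8]; exact h6
    have h10 : ε * μ.real U ≤ ε * η := by
      have : ε * η = 3 * η' := by rw [hη']; ring
      linarith
    exact le_of_mul_le_mul_left h10 hε
  refine ⟨L, fun ε hε => ?_⟩
  rw [Metric.tendsto_atTop]
  intro η hη
  obtain ⟨N1, hN1⟩ := hlow ε hε (η / 4) (by linarith)
  obtain ⟨N2, hN2⟩ := hupp ε hε (η / 4) (by linarith)
  refine ⟨max N1 N2, fun N hN => ?_⟩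
  have g1 := hN1 N (le_trans (le_max_left _ _) hN)
  have g2 := hN2 N (le_trans (le_max_right _ _) hN)
  have hsub : {ω : Sym2 (ℤ × ℤ) → Bool | ε ≤ |(Clen (Rc 1 N 1 N) ω : ℝ) / (N : ℝ) ^ 2 - L|} ⊆
      {ω | X N ω ≤ L - ε} ∪ {ω | L + ε ≤ X N ω} := by
    intro ω hω
    have h1 : ε ≤ |X N ω - L| := hω
    rw [le_abs] at h1
    rcases h1 with h1 | h1
    · right
      show L + ε ≤ X N ω
      linarith
    · left
      show X N ω ≤ L - ε
      linarith
  have h2 := (measureReal_mono (μ := μ) hsub (measure_ne_top _ _)).trans (measureReal_union_le _ _)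
  rw [Real.dist_eq, sub_zero, abs_of_nonneg measureReal_nonneg]
  linarith

end Pool.Agent.H978R2
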