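import Pool.Agent.H978R2.Sharp

/-!
# Crossings of long rectangles above one half
-/

set_option autoImplicit false
set_option linter.all false
set_option linter.deprecated false

open MeasureTheory Set

namespace Pool.Agent.H978R2

lemma no_cross (q : NNReal) (hq : q ≤ 1) (c r : ℕ) (hc : 1 ≤ c) :
    (bm (Sym2 (ℤ × ℤ)) q hq).real (Hev c r)ᶜ ≤ c * th (1 - q) tsub_le_self (r + 1) := by
  classical
  set μ := bm (Sym2 (ℤ × ℤ)) q hq with hμ
  have hsub : (Hev c r)ᶜ ⊆ ⋃ i ∈ Finset.range c,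
      {ω | dualc ω ∈ armE (((i : ℕ) : ℤ), (r : ℤ)) (r + 1)} := by
    intro ω hω
    set W := cl (latR (Rc 0 c 0 r)) ω {v | v ∈ Rc 0 (c : ℤ) 0 (r : ℤ) ∧ v.1 = 0} with hW
    have hL : ∀ y, (0 : ℤ) ≤ y → y ≤ (r : ℤ) → ((0 : ℤ), y) ∈ W := by
      intro y h1 h2
      exact subset_cl _ _ _ ⟨⟨⟨le_rfl, by positivity⟩, h1, h2⟩, rfl⟩
    have hR : ∀ y, (0 : ℤ) ≤ y → y ≤ (r : ℤ) → ((c : ℤ), y) ∉ W := by
      rintro y h1 h2 ⟨a, ha, hr⟩
      apply hω
      exact ⟨a, le_of_eq ha.2, ((c : ℤ), y), le_refl (c : ℤ), hr⟩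
    obtain ⟨i, j, h1, h2, h3⟩ := dual_exists W 0 c 0 r (by exact_mod_cast hc) (by positivity) hL hR
    simp only [mem_iUnion, Finset.mem_range, exists_prop]
    refine ⟨i.toNat, by omega, ?_⟩
    have hi : ((i.toNat : ℕ) : ℤ) = i := by omega
    show dualc ω ∈ armE (((i.toNat : ℕ) : ℤ), (r : ℤ)) (r + 1)
    rw [hi]
    have hreach : (openG (latR univ) (dualc ω)).Reachable (i, (r : ℤ)) (j, 0 - 1) := by
      rw [SimpleGraph.reachable_iff_reflTransGen]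
      refine Relation.ReflTransGen.mono (r := SS W 0 (c : ℤ) 0 (r : ℤ)) ?_ _ _ h1
      rintro F F' ⟨g1, _, _, v, v', g2, g3, g4, g5, g6, g7⟩
      refine ⟨⟨g1, trivial, trivial⟩, ?_⟩
      unfold dualc
      rw [dM_adj g1, g2]
      rw [Bool.not_eq_true']
      by_contra hne
      rw [Bool.not_eq_false] at hne
      apply g7
      obtain ⟨a, ha, hr⟩ := g6
      exact ⟨a, ha, hr.trans (SimpleGraph.Adj.reachable ⟨⟨g3, g4, g5⟩, hne⟩)⟩
    refine arm_of_reach hreach ?_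
    rw [mem_Far]
    right; right; left
    push_cast
    show (0 : ℤ) - 1 ≤ r - (r + 1)
    omega
  refine (measureReal_mono hsub (measure_ne_top _ _)).trans ?_
  refine (measureReal_biUnion_finset_le _ _).trans ?_
  have h1 : ∀ i ∈ Finset.range c, μ.real {ω | dualc ω ∈ armE (((i : ℕ) : ℤ), (r : ℤ)) (r + 1)} =
      th (1 - q) tsub_le_self (r + 1) := by
    intro i _
    rw [← arm_eq (1 - q) tsub_le_self (((i : ℕ) : ℤ), (r : ℤ)) (r + 1)]
    unfold Measure.real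
    rw [hμ, bm_dual q hq (meas_arm _ _)]
  rw [Finset.sum_congr rfl h1, Finset.sum_const, Finset.card_range, nsmul_eq_mul]

/-- horizontal crossing of a rectangle -/
def crH (a0 a1 b0 b1 : ℤ) : Set (Sym2 (ℤ × ℤ) → Bool) :=
  ev (latR (Rc a0 a1 b0 b1)) {v | v.1 ≤ a0} {v | a1 ≤ v.1}

/-- vertical crossing of a rectangle -/
def crV (a0 a1 b0 b1 : ℤ) : Set (Sym2 (ℤ × ℤ) → Bool) :=
  ev (latR (Rc a0 a1 b0 b1)) {v | v.2 ≤ b0} {v | b1 ≤ v.2}

lemma meas_crH (a0 a1 b0 b1 : ℤ) : MeasurableSet (crH a0 a1 b0 b1) := meas_ev _ _ _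
lemma meas_crV (a0 a1 b0 b1 : ℤ) : MeasurableSet (crV a0 a1 b0 b1) := meas_ev _ _ _

/-- Crossing estimate above one half. -/
theorem cross_est (q : NNReal) (hq : q ≤ 1) (hqh : (1 / 2 : ℝ) < q) :
    ∃ K c : ℝ, 0 < K ∧ 0 < c ∧
      (∀ a0 a1 b0 b1 : ℤ, a0 < a1 → b0 ≤ b1 → (bm (Sym2 (ℤ × ℤ)) q hq).real (crH a0 a1 b0 b1)ᶜ ≤
        K * (a1 - a0) * Real.exp (-c * (b1 - b0))) ∧
      (∀ a0 a1 b0 b1 : ℤ, a0 ≤ a1 → b0 < b1 → (bm (Sym2 (ℤ × ℤ)) q hq).real (crV a0 a1 b0 b1)ᶜ ≤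
        K * (b1 - b0) * Real.exp (-c * (a1 - a0))) := by
  have h1 : ((1 - q : NNReal) : ℝ) < 1 / 2 := by
    rw [NNReal.coe_sub hq]; push_cast; linarith
  obtain ⟨K, c, hK, hc, hd⟩ := exp_decay (1 - q) tsub_le_self h1
  have key : ∀ C R : ℤ, 0 < C → 0 ≤ R → 1 - hh q hq C R ≤ K * C * Real.exp (-c * R) := by
    intro C R hC hR
    obtain ⟨C, rfl⟩ := Int.eq_ofNat_of_zero_le hC.le
    obtain ⟨R, rfl⟩ := Int.eq_ofNat_of_zero_le hR
    have h2 := no_cross q hq C R (by omega)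
    rw [probReal_compl_eq_one_sub (show MeasurableSet (Hev C R) from meas_ev _ _ _)] at h2
    have h3 : hh q hq (C : ℤ) (R : ℤ) = (bm (Sym2 (ℤ × ℤ)) q hq).real (Hev C R) := rfl
    rw [h3]
    refine h2.trans ?_
    have h4 := hd (R + 1)
    have h5 : Real.exp (-c * ((R + 1 : ℕ) : ℝ)) ≤ Real.exp (-c * R) := by
      rw [Real.exp_le_exp]; push_cast; nlinarith
    have h6 : th (1 - q) tsub_le_self (R + 1) ≤ K * Real.exp (-c * R) :=
      h4.trans (mul_le_mul_of_nonneg_left h5 hK.le)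
    have h7 : (0 : ℝ) ≤ C := by positivity
    have := mul_le_mul_of_nonneg_left h6 h7
    push_cast
    linarith
  refine ⟨K, c, hK, hc, ?_, ?_⟩
  · intro a0 a1 b0 b1 ha hb
    rw [probReal_compl_eq_one_sub (meas_crH _ _ _ _)]
    unfold crH
    rw [hh_rect]
    have := key (a1 - a0) (b1 - b0) (by omega) (by omega)
    push_cast at this
    exact this
  · intro a0 a1 b0 b1 ha hb
    rw [probReal_compl_eq_one_sub (meas_crV _ _ _ _)]
    unfold crV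
    rw [hh_vert]
    have := key (b1 - b0) (a1 - a0) (by omega) (by omega)
    push_cast at this
    exact this

end Pool.Agent.H978R2
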