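import Pool.Agent.H978R2.ListGlue
import Pool.Agent.H978R2.Cross

/-!
# Cycles in rectangles
-/

set_option autoImplicit false
set_option linter.all false
set_option linter.deprecated false

open Set

namespace Pool.Agent.H978R2

/-- a cycle of open edges inside `R`, given as the list of its vertices -/
def IsCyc (R : Set (ℤ × ℤ)) (ω : Sym2 (ℤ × ℤ) → Bool) (l : List (ℤ × ℤ)) : Prop :=
  3 ≤ l.length ∧ l.Nodup ∧ (l ++ l).IsChain (openG (latR R) ω).Adj

/-- length of the longest open cycle inside `R` -/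
noncomputable def Clen (R : Set (ℤ × ℤ)) (ω : Sym2 (ℤ × ℤ) → Bool) : ℕ :=
  sSup {k | ∃ l, IsCyc R ω l ∧ l.length = k}

lemma adj_symm (R : Set (ℤ × ℤ)) (ω : Sym2 (ℤ × ℤ) → Bool) (a b : ℤ × ℤ)
    (h : (openG (latR R) ω).Adj a b) : (openG (latR R) ω).Adj b a := SimpleGraph.Adj.symm h

lemma adj_mono {R R' : Set (ℤ × ℤ)} (h : R ⊆ R') (ω : Sym2 (ℤ × ℤ) → Bool) (a b : ℤ × ℤ)
    (hab : (openG (latR R) ω).Adj a b) : (openG (latR R') ω).Adj a b :=
  openG_mono (latR_mono h) ω hab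

lemma IsCyc.mono {R R' : Set (ℤ × ℤ)} (h : R ⊆ R') {ω : Sym2 (ℤ × ℤ) → Bool} {l : List (ℤ × ℤ)}
    (hl : IsCyc R ω l) : IsCyc R' ω l :=
  ⟨hl.1, hl.2.1, hl.2.2.imp fun a b hab => adj_mono h ω a b hab⟩

lemma IsCyc.mem {R : Set (ℤ × ℤ)} {ω : Sym2 (ℤ × ℤ) → Bool} {l : List (ℤ × ℤ)}
    (hl : IsCyc R ω l) : ∀ v ∈ l, v ∈ R := by
  obtain ⟨h1, h2, h3⟩ := hl
  have hne : l ≠ [] := by intro h; rw [h] at h1; simp at h1
  have hc : l.IsChain (openG (latR R) ω).Adj := h3.left_of_append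
  refine chain_mem hc hne ?_
  cases l with
  | nil => exact absurd rfl hne
  | cons a l =>
    cases l with
    | nil => simp at h1
    | cons b l =>
      rw [List.isChain_cons_cons] at hc
      exact hc.1.1.2.1

lemma IsCyc.length_le {R : Set (ℤ × ℤ)} (hR : R.Finite) {ω : Sym2 (ℤ × ℤ) → Bool}
    {l : List (ℤ × ℤ)} (hl : IsCyc R ω l) : l.length ≤ hR.toFinset.card := by
  classical
  rw [← List.toFinset_card_of_nodup hl.2.1]
  refine Finset.card_le_card fun v hv => ?_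
  rw [List.mem_toFinset] at hv
  rw [Set.Finite.mem_toFinset]
  exact hl.mem v hv

lemma Clen_bdd {R : Set (ℤ × ℤ)} (hR : R.Finite) (ω : Sym2 (ℤ × ℤ) → Bool) :
    BddAbove {k | ∃ l, IsCyc R ω l ∧ l.length = k} := by
  refine ⟨hR.toFinset.card, ?_⟩
  rintro k ⟨l, hl, rfl⟩
  exact hl.length_le hR

lemma le_Clen {R : Set (ℤ × ℤ)} (hR : R.Finite) {ω : Sym2 (ℤ × ℤ) → Bool} {l : List (ℤ × ℤ)}
    (hl : IsCyc R ω l) : l.length ≤ Clen R ω :=
  le_csSup (Clen_bdd hR ω) ⟨l, hl, rfl⟩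

lemma Clen_attained {R : Set (ℤ × ℤ)} (hR : R.Finite) {ω : Sym2 (ℤ × ℤ) → Bool}
    (h : 0 < Clen R ω) : ∃ l, IsCyc R ω l ∧ l.length = Clen R ω := by
  have hne : {k | ∃ l, IsCyc R ω l ∧ l.length = k}.Nonempty := by
    by_contra h'
    rw [Set.not_nonempty_iff_eq_empty] at h'
    unfold Clen at h
    rw [h'] at h
    simp at h
  exact Nat.sSup_mem hne (Clen_bdd hR ω)

lemma Clen_mono {R R' : Set (ℤ × ℤ)} (h : R ⊆ R') (hR' : R'.Finite) (ω : Sym2 (ℤ × ℤ) → Bool) :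
    Clen R ω ≤ Clen R' ω := by
  rcases Nat.eq_zero_or_pos (Clen R ω) with h0 | h0
  · omega
  · obtain ⟨l, hl, hlen⟩ := Clen_attained (hR'.subset h) h0
    rw [← hlen]
    exact le_Clen hR' (hl.mono h)

lemma Clen_le {R : Set (ℤ × ℤ)} (hR : R.Finite) (ω : Sym2 (ℤ × ℤ) → Bool) :
    Clen R ω ≤ hR.toFinset.card := by
  rcases Nat.eq_zero_or_pos (Clen R ω) with h0 | h0
  · omega
  · obtain ⟨l, hl, hlen⟩ := Clen_attained hR h0
    rw [← hlen]
    exact hl.length_le hR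

lemma Rc_card (a0 a1 b0 b1 : ℤ) :
    (Rc_finite a0 a1 b0 b1).toFinset.card = (a1 + 1 - a0).toNat * (b1 + 1 - b0).toNat := by
  have : (Rc_finite a0 a1 b0 b1).toFinset = Finset.Icc a0 a1 ×ˢ Finset.Icc b0 b1 := by
    ext v
    rw [Set.Finite.mem_toFinset, Finset.mem_product, Finset.mem_Icc, Finset.mem_Icc]
    rfl
  rw [this, Finset.card_product, Int.card_Icc, Int.card_Icc]

/-- a self-avoiding list realising a connection -/
lemma exists_path {V : Type*} {Γ : SimpleGraph V} {ω : Sym2 V → Bool} {a b : V}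
    (h : (openG Γ ω).Reachable a b) :
    ∃ l : List V, ∃ hne : l ≠ [], l.IsChain (openG Γ ω).Adj ∧ l.Nodup ∧ l.head hne = a ∧
      l.getLast hne = b := by
  classical
  obtain ⟨p, hp⟩ := h.exists_isPath
  exact ⟨p.support, p.support_ne_nil, p.isChain_adj_support, hp.support_nodup, by simp, by simp⟩

lemma chain_reach {V : Type*} {G : SimpleGraph V} {l : List V} (h : l.IsChain G.Adj) :
    ∀ u ∈ l, ∀ v ∈ l, G.Reachable u v := by
  have key : ∀ l : List V, l.IsChain G.Adj → ∀ hne : l ≠ [], ∀ v ∈ l, G.Reachable (l.head hne) v := by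
    intro l
    induction l with
    | nil => intro _ hne; exact absurd rfl hne
    | cons a l ih =>
      intro hc hne v hv
      rw [List.mem_cons] at hv
      rcases hv with rfl | hv
      · exact SimpleGraph.Reachable.refl _
      · cases l with
        | nil => simp at hv
        | cons b l =>
          rw [List.isChain_cons_cons] at hc
          exact hc.1.reachable.trans (ih hc.2 (by simp) v hv)
  intro u hu v hv
  have hne : l ≠ [] := List.ne_nil_of_mem hu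
  exact (key l h hne u hu).symm.trans (key l h hne v hv)

/-- the crossing list of a horizontal crossing -/
lemma crH_list {ω : Sym2 (ℤ × ℤ) → Bool} {a0 a1 b0 b1 : ℤ} (ha : a0 < a1)
    (h : ω ∈ crH a0 a1 b0 b1) :
    ∃ l : List (ℤ × ℤ), ∃ hne : l ≠ [], l.IsChain (openG (latR (Rc a0 a1 b0 b1)) ω).Adj ∧
      l.Nodup ∧ (∀ v ∈ l, v ∈ Rc a0 a1 b0 b1) ∧ (l.head hne).1 ≤ a0 ∧
      a1 ≤ (l.getLast hne).1 := by
  obtain ⟨a, ha', b, hb', hr⟩ := h
  have ha1 : a.1 ≤ a0 := ha'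
  have hb1 : a1 ≤ b.1 := hb'
  have hm := reach_ne_mem hr (by intro e; rw [e] at ha1; omega)
  obtain ⟨l, hne, h1, h2, h3, h4⟩ := exists_path hr
  exact ⟨l, hne, h1, h2, chain_mem h1 hne (by rw [h3]; exact hm.1), by rw [h3]; exact ha1,
    by rw [h4]; exact hb1⟩

/-- the crossing list of a vertical crossing -/
lemma crV_list {ω : Sym2 (ℤ × ℤ) → Bool} {a0 a1 b0 b1 : ℤ} (hb : b0 < b1)
    (h : ω ∈ crV a0 a1 b0 b1) :
    ∃ l : List (ℤ × ℤ), ∃ hne : l ≠ [], l.IsChain (openG (latR (Rc a0 a1 b0 b1)) ω).Adj ∧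
      l.Nodup ∧ (∀ v ∈ l, v ∈ Rc a0 a1 b0 b1) ∧ (l.head hne).2 ≤ b0 ∧
      b1 ≤ (l.getLast hne).2 := by
  obtain ⟨a, ha', b, hb', hr⟩ := h
  have ha1 : a.2 ≤ b0 := ha'
  have hb1 : b1 ≤ b.2 := hb'
  have hm := reach_ne_mem hr (by intro e; rw [e] at ha1; omega)
  obtain ⟨l, hne, h1, h2, h3, h4⟩ := exists_path hr
  exact ⟨l, hne, h1, h2, chain_mem h1 hne (by rw [h3]; exact hm.1), by rw [h3]; exact ha1,
    by rw [h4]; exact hb1⟩

lemma chain_lat {R : Set (ℤ × ℤ)} {ω : Sym2 (ℤ × ℤ) → Bool} {l : List (ℤ × ℤ)}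
    (h : l.IsChain (openG (latR R) ω).Adj) : l.IsChain lat.Adj :=
  h.imp fun a b hab => hab.1.1

/-- a chain stays a chain when the ambient set is changed to one containing its vertices -/
lemma chain_change {R R' : Set (ℤ × ℤ)} {ω : Sym2 (ℤ × ℤ) → Bool} {l : List (ℤ × ℤ)}
    (h : l.IsChain (openG (latR R) ω).Adj) (hR' : ∀ v ∈ l, v ∈ R') :
    l.IsChain (openG (latR R') ω).Adj := by
  refine h.imp_of_mem_imp ?_
  intro a b ha hb hab
  exact ⟨⟨hab.1.1, hR' a ha, hR' b hb⟩, hab.2⟩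

/-- joining two links and an arc -/
lemma join_arc {α : Type*} {Adj : α → α → Prop} (hs : ∀ a b, Adj a b → Adj b a)
    {a b a' b' : α} {W W' A : List α} (h1 : (a :: W ++ [b]).IsChain Adj)
    (h2 : (a' :: W' ++ [b']).IsChain Adj) (hA : A.IsChain Adj) (hA1 : A.head? = some b)
    (hA2 : A.getLast? = some b') : (a :: (W ++ A ++ W'.reverse) ++ [a']).IsChain Adj := by
  have hne : A ≠ [] := by intro h; rw [h] at hA1; simp at hA1
  have h2' : ([b'] ++ (W'.reverse ++ [a'])).IsChain Adj := by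
    have := chain_rev hs h2
    simpa using this
  have e : a :: (W ++ A ++ W'.reverse) ++ [a'] = (a :: W) ++ (A ++ (W'.reverse ++ [a'])) := by
    simp
  rw [e, List.isChain_append]
  rw [List.isChain_append] at h1 h2'
  refine ⟨h1.1, ?_, ?_⟩
  · rw [List.isChain_append]
    refine ⟨hA, h2'.2.1, ?_⟩
    rw [hA2]
    exact h2'.2.2
  · rw [List.head?_append_of_ne_nil _ hne, hA1]
    exact h1.2.2

/-- closing a path to a cycle -/
lemma close_cycle {α : Type*} {Adj : α → α → Prop} {a b : α} {Δ K : List α}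
    (hΔ : Δ.IsChain Adj) (h1 : Δ.head? = some a) (h2 : Δ.getLast? = some b)
    (hK : (b :: K ++ [a]).IsChain Adj) : ((Δ ++ K) ++ (Δ ++ K)).IsChain Adj := by
  have hne : Δ ≠ [] := by intro h; rw [h] at h1; simp at h1
  have hK1 : ([b] ++ K).IsChain Adj := hK.left_of_append
  rw [List.isChain_append] at hK
  rw [List.isChain_append] at hK1
  have hΔK : (Δ ++ K).IsChain Adj := by
    rw [List.isChain_append]
    refine ⟨hΔ, hK1.2.1, ?_⟩
    rw [h2]
    exact hK1.2.2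
  rw [List.isChain_append]
  refine ⟨hΔK, hΔK, ?_⟩
  rw [List.head?_append_of_ne_nil _ hne, h1, List.getLast?_append, h2]
  have e : (b :: K).getLast? = K.getLast?.or (some b) := by
    have : b :: K = [b] ++ K := rfl
    rw [this, List.getLast?_append]
    rfl
  rw [← e]
  exact hK.2.2

end Pool.Agent.H978R2
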