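import Pool.Agent.H978R2.Russo

/-!
# Sharpness of the phase transition (Duminil-Copin and Tassion)
-/

set_option autoImplicit false
set_option linter.all false
set_option linter.deprecated false

open MeasureTheory Set

namespace Pool.Agent.H978R2

lemma dep_cluster {V : Type*} (Γ : SimpleGraph V) (A C : Set V) :
    DepOn {e | e ∈ Γ.edgeSet ∧ tch e C} {ω | cl Γ ω A = C} := by
  have key : ∀ ω ω' : Sym2 V → Bool, (∀ i ∈ {e | e ∈ Γ.edgeSet ∧ tch e C}, ω i = ω' i) →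
      cl Γ ω A = C → cl Γ ω' A = C := by
    intro ω ω' h hC
    ext v
    constructor
    · rintro ⟨a, ha, hr⟩
      rw [SimpleGraph.reachable_iff_reflTransGen] at hr
      induction hr with
      | refl => rw [← hC]; exact subset_cl _ _ _ ha
      | @tail c d _ hcd ih =>
        have h1 : ω s(c, d) = true := by
          rw [h s(c, d) ⟨hcd.1, c, by simp, ih⟩]; exact hcd.2
        rw [← hC] at ih ⊢
        obtain ⟨a', ha', hr'⟩ := ih
        exact ⟨a', ha', hr'.trans (SimpleGraph.Adj.reachable ⟨hcd.1, h1⟩)⟩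
    · intro hv
      rw [← hC] at hv
      obtain ⟨a, ha, hr⟩ := hv
      refine ⟨a, ha, ?_⟩
      rw [SimpleGraph.reachable_iff_reflTransGen] at hr
      induction hr with
      | refl => exact SimpleGraph.Reachable.refl _
      | @tail c d hac hcd ih =>
        refine ih.trans (SimpleGraph.Adj.reachable ⟨hcd.1, ?_⟩)
        rw [← h s(c, d) ⟨hcd.1, c, by simp, ?_⟩]
        · exact hcd.2
        · rw [← hC]
          exact ⟨a, ha, (SimpleGraph.reachable_iff_reflTransGen a c).2 hac⟩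
  intro ω ω' h
  exact ⟨key ω ω' h, key ω' ω fun i hi => (h i hi).symm⟩

/-- last visit to a set -/
lemma last_exit {R C : Set (ℤ × ℤ)} {ω : Sym2 (ℤ × ℤ) → Bool} {a b : ℤ × ℤ}
    (h : (openG (latR R) ω).Reachable a b) (ha : a ∈ C) (hb : b ∉ C) :
    ∃ x ∈ C, ∃ y ∉ C, (openG (latR R) ω).Adj x y ∧
      (openG (latR (R ∩ Cᶜ)) ω).Reachable y b := by
  have key : (∃ x ∈ C, ∃ y ∉ C, (openG (latR R) ω).Adj x y ∧
      (openG (latR (R ∩ Cᶜ)) ω).Reachable y b) ∨
      (a ∉ C ∧ (openG (latR (R ∩ Cᶜ)) ω).Reachable a b) := by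
    clear ha
    rw [SimpleGraph.reachable_iff_reflTransGen] at h
    induction h using Relation.ReflTransGen.head_induction_on with
    | refl => exact Or.inr ⟨hb, SimpleGraph.Reachable.refl _⟩
    | @head a a' haa' _ ih =>
      rcases ih with ih | ⟨h1, h2⟩
      · exact Or.inl ih
      · by_cases h3 : a ∈ C
        · exact Or.inl ⟨a, h3, a', h1, haa', h2⟩
        · refine Or.inr ⟨h3, SimpleGraph.Reachable.trans (SimpleGraph.Adj.reachable ?_) h2⟩
          exact ⟨⟨haa'.1.1, ⟨haa'.1.2.1, h3⟩, haa'.1.2.2, h1⟩, haa'.2⟩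
  rcases key with h1 | ⟨h1, _⟩
  · exact h1
  · exact absurd ha h1

/-- the four directions -/
def D4 : Finset (ℤ × ℤ) := {(1, 0), (-1, 0), (0, 1), (0, -1)}

lemma mem_D4 {d : ℤ × ℤ} : d ∈ D4 ↔ d = (1, 0) ∨ d = (-1, 0) ∨ d = (0, 1) ∨ d = (0, -1) := by
  simp [D4]

lemma adj_D4 {x y : ℤ × ℤ} : lat.Adj x y ↔ ∃ d ∈ D4, y = x + d := by
  rw [lat_adj]
  constructor
  · rintro (⟨e1, e2 | e2⟩ | ⟨e1, e2 | e2⟩)
    · exact ⟨(0, -1), by simp [D4], by ext <;> simp [e1, e2]⟩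
    · exact ⟨(0, 1), by simp [D4], by ext <;> simp [e1, e2]⟩
    · exact ⟨(-1, 0), by simp [D4], by ext <;> simp [e1, e2]⟩
    · exact ⟨(1, 0), by simp [D4], by ext <;> simp [e1, e2]⟩
  · rintro ⟨d, hd, rfl⟩
    rw [mem_D4] at hd
    rcases hd with rfl | rfl | rfl | rfl <;> simp

/-- the boundary pairs of a finite set -/
noncomputable def bdp (S : Finset (ℤ × ℤ)) : Finset ((ℤ × ℤ) × (ℤ × ℤ)) :=
  (S ×ˢ D4).filter (fun z => z.1 + z.2 ∉ S)

/-- the functional of Duminil-Copin and Tassion -/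
noncomputable def phi (q : NNReal) (hq : q ≤ 1) (S : Finset (ℤ × ℤ)) : ℝ :=
  q * ∑ z ∈ bdp S, (bm (Sym2 (ℤ × ℤ)) q hq).real (ev (latR (S : Set (ℤ × ℤ))) {(0, 0)} {z.1})

lemma phi_mono {q q' : NNReal} (hqq : q ≤ q') (hq : q ≤ 1) (hq' : q' ≤ 1) (S : Finset (ℤ × ℤ)) :
    phi q hq S ≤ phi q' hq' S := by
  unfold phi
  refine mul_le_mul (by exact_mod_cast hqq) (Finset.sum_le_sum fun z _ => ?_)
    (Finset.sum_nonneg fun z _ => measureReal_nonneg) q'.2
  have hf := ins_finite (R := (S : Set (ℤ × ℤ))) S.finite_toSet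
  refine bm_mono_q hqq hq hq' (J := hf.toFinset) ?_ (upper_ev _ _ _)
  have : ((hf.toFinset : Finset (Sym2 (ℤ × ℤ))) : Set _) = ins (S : Set (ℤ × ℤ)) := by simp
  rw [this]
  exact dep_ins _ _ _

/-- The renewal inequality. -/
lemma th_step (q : NNReal) (hq : q ≤ 1) (S : Finset (ℤ × ℤ)) (h0 : (0, 0) ∈ S) (L : ℕ)
    (hS : ∀ z ∈ bdp S, z.1 + z.2 ∈ Bx (0, 0) L) (hSL : (S : Set (ℤ × ℤ)) ⊆ Bx (0, 0) L) (n : ℕ)
    (hn : 1 ≤ n) :
    th q hq (n + L) ≤ phi q hq S * th q hq n := by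
  classical
  set μ := bm (Sym2 (ℤ × ℤ)) q hq with hμ
  set ΓS := latR (S : Set (ℤ × ℤ)) with hΓS
  set R := Bx (0, 0) (n + L) with hR
  set EC : Finset (ℤ × ℤ) → Set (Sym2 (ℤ × ℤ) → Bool) :=
    fun C => {ω | cl ΓS ω {(0, 0)} = (C : Set (ℤ × ℤ))} with hEC
  set O : (ℤ × ℤ) × (ℤ × ℤ) → Set (Sym2 (ℤ × ℤ) → Bool) :=
    fun z => {ω | ω s(z.1, z.1 + z.2) = true} with hO
  set RR : Finset (ℤ × ℤ) → (ℤ × ℤ) × (ℤ × ℤ) → Set (Sym2 (ℤ × ℤ) → Bool) :=
    fun C z => ev (latR (R ∩ (C : Set (ℤ × ℤ))ᶜ)) {z.1 + z.2} (Far (0, 0) (n + L)) with hRR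
  have hin : ∀ ω, ∀ v ∈ cl ΓS ω {(0, 0)}, v ∈ S := by
    rintro ω v ⟨a, ha, hr⟩
    have ha' : a = (0, 0) := ha
    subst ha'
    by_cases hv : ((0, 0) : ℤ × ℤ) = v
    · rw [← hv]; exact h0
    · exact (reach_ne_mem hr hv).2
  have hsub : armE (0, 0) (n + L) ⊆ ⋃ C ∈ S.powerset, ⋃ z ∈ (bdp S).filter (fun z => z.1 ∈ C),
      ((EC C ∩ O z) ∩ RR C z) := by
    rintro ω ⟨a, ha, b, hb, hr⟩
    have ha' : a = (0, 0) := ha
    subst ha'
    set C : Finset (ℤ × ℤ) := S.filter (fun v => v ∈ cl ΓS ω {(0, 0)}) with hC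
    have hCcl : cl ΓS ω {(0, 0)} = (C : Set (ℤ × ℤ)) := by
      ext v
      rw [Finset.mem_coe, hC, Finset.mem_filter]
      exact ⟨fun h => ⟨hin ω v h, h⟩, fun h => h.2⟩
    have h0C : ((0, 0) : ℤ × ℤ) ∈ (C : Set (ℤ × ℤ)) := by
      rw [← hCcl]; exact subset_cl _ _ _ rfl
    have hbC : b ∉ (C : Set (ℤ × ℤ)) := by
      intro h
      have h1 : b ∈ S := by
        rw [Finset.mem_coe, hC, Finset.mem_filter] at h; exact h.1
      have h2 := hSL h1
      rw [mem_Bx] at h2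
      rw [mem_Far] at hb
      push_cast at hb
      simp only [zero_sub, zero_add] at h2 hb
      omega
    obtain ⟨x, hx, y, hy, hxy, hyb⟩ := last_exit hr h0C hbC
    obtain ⟨d, hd, rfl⟩ := adj_D4.1 hxy.1.1
    have hxS : x ∈ S := by
      rw [Finset.mem_coe, hC, Finset.mem_filter] at hx; exact hx.1
    have hyS : x + d ∉ S := by
      intro hyS
      apply hy
      rw [← hCcl] at hx ⊢
      obtain ⟨a, ha, hr2⟩ := hx
      exact ⟨a, ha, hr2.trans (SimpleGraph.Adj.reachable ⟨⟨hxy.1.1, hxS, hyS⟩, hxy.2⟩)⟩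
    simp only [mem_iUnion, exists_prop]
    refine ⟨C, ?_, (x, d), ?_, ⟨hCcl, hxy.2⟩, ⟨x + d, rfl, b, hb, hyb⟩⟩
    · rw [Finset.mem_powerset]; exact Finset.filter_subset _ _
    · rw [Finset.mem_filter]
      refine ⟨?_, hx⟩
      unfold bdp
      rw [Finset.mem_filter, Finset.mem_product]
      exact ⟨⟨hxS, hd⟩, hyS⟩
  have mEC : ∀ C, MeasurableSet (EC C) := by
    intro C
    have hf := ins_finite (R := (S : Set (ℤ × ℤ))) S.finite_toSet
    refine DepOn.measurable_fin (J := hf.toFinset) ?_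
    have h1 : ((hf.toFinset : Finset (Sym2 (ℤ × ℤ))) : Set _) = ins (S : Set (ℤ × ℤ)) := by simp
    rw [h1]
    exact (dep_cluster ΓS _ _).mono fun e he => latR_edge _ he.1
  have hprob : ∀ C ∈ S.powerset, ∀ z ∈ (bdp S).filter (fun z => z.1 ∈ C),
      μ.real ((EC C ∩ O z) ∩ RR C z) ≤ (q * th q hq n) * μ.real (EC C) := by
    intro C hC z hz
    rw [Finset.mem_filter] at hz
    have hzb := hz.1
    unfold bdp at hzb
    rw [Finset.mem_filter, Finset.mem_product] at hzb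
    set e : Sym2 (ℤ × ℤ) := s(z.1, z.1 + z.2) with he
    have d1 : DepOn {e' | e' ∈ ins (S : Set (ℤ × ℤ)) ∧ tch e' (C : Set (ℤ × ℤ))} (EC C) :=
      (dep_cluster ΓS {(0, 0)} (C : Set (ℤ × ℤ))).mono fun e' he' => ⟨latR_edge _ he'.1, he'.2⟩
    have d2 : DepOn {e} (O z) := by
      intro ω ω' h; simp only [hO, mem_setOf_eq, ← he, h e rfl]
    have d3 : DepOn (ins ((C : Set (ℤ × ℤ))ᶜ)) (RR C z) :=
      (dep_ins _ _ _).mono (ins_mono inter_subset_right)
    have hz1 : (z.1 : ℤ × ℤ) ∈ (C : Set (ℤ × ℤ)) := hz.2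
    have p1 : μ (EC C ∩ O z) = μ (EC C) * μ (O z) := by
      refine bm_inter q hq ?_ (mEC C) (meas_coord _ _) d1 d2
      rw [Set.disjoint_singleton_right]
      rintro ⟨h1, _⟩
      exact hzb.2 (h1 (z.1 + z.2) (by rw [he]; simp))
    have p2 : μ ((EC C ∩ O z) ∩ RR C z) = μ (EC C ∩ O z) * μ (RR C z) := by
      refine bm_inter q hq (J := {e' | e' ∈ ins (S : Set (ℤ × ℤ)) ∧ tch e' (C : Set (ℤ × ℤ))} ∪ {e})
        (J' := ins ((C : Set (ℤ × ℤ))ᶜ)) ?_ ((mEC C).inter (meas_coord _ _)) (meas_ev _ _ _)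
        ((d1.mono subset_union_left).inter (d2.mono subset_union_right)) d3
      rw [Set.disjoint_left]
      rintro e' (⟨_, v, hv, hvC⟩ | h1) h2
      · exact h2 v hv hvC
      · rw [Set.mem_singleton_iff] at h1
        subst h1
        exact h2 z.1 (by rw [he]; simp) hz1
    have p3 : μ.real (RR C z) ≤ th q hq n := by
      rw [← arm_eq q hq (z.1 + z.2) n]
      refine measureReal_mono ?_ (measure_ne_top _ _)
      rintro ω ⟨a, rfl, b, hb, hr⟩
      refine arm_of_reach hr ?_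
      have h5 := hS z hz.1
      rw [mem_Bx] at h5
      rw [mem_Far] at hb ⊢
      push_cast at hb
      simp only [zero_sub, zero_add] at h5 hb
      omega
    have p4 : μ.real (O z) = q := by
      unfold Measure.real
      rw [hμ, hO]
      simp only
      rw [bm_eval]
      simp
    have p5 : μ.real ((EC C ∩ O z) ∩ RR C z) = μ.real (EC C) * q * μ.real (RR C z) := by
      rw [← p4]
      unfold Measure.real
      rw [p2, p1, ENNReal.toReal_mul, ENNReal.toReal_mul]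
    rw [p5]
    have : (0 : ℝ) ≤ μ.real (EC C) * q := mul_nonneg measureReal_nonneg q.2
    nlinarith [mul_le_mul_of_nonneg_left p3 this]
  have hsum : ∑ C ∈ S.powerset, ∑ z ∈ (bdp S).filter (fun z => z.1 ∈ C), μ.real (EC C) =
      ∑ z ∈ bdp S, μ.real (ev ΓS {(0, 0)} {z.1}) := by
    have h1 : ∀ C ∈ S.powerset, ∑ z ∈ (bdp S).filter (fun z => z.1 ∈ C), μ.real (EC C) =
        ∑ z ∈ bdp S, if z.1 ∈ C then μ.real (EC C) else 0 := fun C _ => Finset.sum_filter _ _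
    rw [Finset.sum_congr rfl h1, Finset.sum_comm]
    refine Finset.sum_congr rfl fun z _ => ?_
    rw [← Finset.sum_filter]
    have h2 : ev ΓS {(0, 0)} {z.1} = ⋃ C ∈ S.powerset.filter (fun C => z.1 ∈ C), EC C := by
      ext ω
      simp only [mem_iUnion, exists_prop, Finset.mem_filter, Finset.mem_powerset]
      constructor
      · rintro ⟨a, ha, b, hb, hr⟩
        have ha' : a = (0, 0) := ha
        subst ha'
        have hb' : b = z.1 := hb
        subst hb'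
        refine ⟨S.filter (fun v => v ∈ cl ΓS ω {(0, 0)}), ⟨Finset.filter_subset _ _, ?_⟩, ?_⟩
        · rw [Finset.mem_filter]
          have : z.1 ∈ cl ΓS ω {(0, 0)} := ⟨(0, 0), rfl, hr⟩
          exact ⟨hin ω _ this, this⟩
        · show cl ΓS ω {(0, 0)} = _
          ext v
          rw [Finset.mem_coe, Finset.mem_filter]
          exact ⟨fun h => ⟨hin ω v h, h⟩, fun h => h.2⟩
      · rintro ⟨C, ⟨_, hzC⟩, hE⟩
        have hE' : cl ΓS ω {(0, 0)} = (C : Set (ℤ × ℤ)) := hE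
        have : z.1 ∈ cl ΓS ω {(0, 0)} := by rw [hE']; exact hzC
        obtain ⟨a, ha, hr⟩ := this
        exact ⟨a, ha, z.1, rfl, hr⟩
    rw [h2, measureReal_biUnion_finset]
    · intro C _ C' _ hne
      rw [Function.onFun, Set.disjoint_left]
      intro ω h1 h2
      apply hne
      have h1' : cl ΓS ω {(0, 0)} = (C : Set (ℤ × ℤ)) := h1
      have h2' : cl ΓS ω {(0, 0)} = (C' : Set (ℤ × ℤ)) := h2
      exact Finset.coe_injective (h1'.symm.trans h2')
    · intro C _; exact mEC C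
  calc th q hq (n + L) ≤ μ.real (⋃ C ∈ S.powerset, ⋃ z ∈ (bdp S).filter (fun z => z.1 ∈ C),
      ((EC C ∩ O z) ∩ RR C z)) := measureReal_mono hsub (measure_ne_top _ _)
    _ ≤ ∑ C ∈ S.powerset, ∑ z ∈ (bdp S).filter (fun z => z.1 ∈ C),
        μ.real ((EC C ∩ O z) ∩ RR C z) := by
        refine (measureReal_biUnion_finset_le _ _).trans (Finset.sum_le_sum fun C _ => ?_)
        exact measureReal_biUnion_finset_le _ _
    _ ≤ ∑ C ∈ S.powerset, ∑ z ∈ (bdp S).filter (fun z => z.1 ∈ C),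
        (q * th q hq n) * μ.real (EC C) :=
        Finset.sum_le_sum fun C hC => Finset.sum_le_sum fun z hz => hprob C hC z hz
    _ = (q * th q hq n) * ∑ C ∈ S.powerset, ∑ z ∈ (bdp S).filter (fun z => z.1 ∈ C),
        μ.real (EC C) := by
        rw [Finset.mul_sum]
        exact Finset.sum_congr rfl fun C _ => by rw [Finset.mul_sum]
    _ = phi q hq S * th q hq n := by
        rw [hsum]
        unfold phi
        ring

end Pool.Agent.H978R2
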