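import Pool.Agent.H978R2.FreeProdSup

/-!
# Uncountably many critical probabilities
-/

set_option autoImplicit false
set_option linter.all false
set_option linter.deprecated false

open MeasureTheory Set Monoid.CoprodI

namespace Pool.Agent.H978R2

/-- the set of parameters without percolation on the free product -/
def pcSet {H : Type} [Group H] (S : Set H) : Set ℝ :=
  {p : ℝ | ∃ (q : NNReal) (hq : q ≤ 1), (q : ℝ) = p ∧ bm (Sym2 (FP H)) q hq
      {ω | Set.Infinite {g : FP H | (openG (cay (SG S)) ω).Reachable 1 g}} = 0}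

/-- the properties of the generating set that we use -/
structure Good {H : Type} [Group H] (S : Set H) : Prop where
  deg : Deg3 (cay S)
  low : ∀ (q : NNReal) (hq : q ≤ 1), 1 + 3 * (q : ENNReal) ≤ chi q hq (cay S) {1}
  gen : Subgroup.closure S = ⊤

section
variable {H : Type} [Group H] [Countable H] {S : Set H}

lemma Good.zero_mem (hS : Good S) : (0 : ℝ) ∈ pcSet S := by
  refine ⟨0, zero_le_one, by simp, finite_of_kap _ _ S ?_⟩
  have h1 := chi_single_le (0 : NNReal) zero_le_one 0 (by simp) (cay S) hS.deg 1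
  rw [chi_eq_kap] at h1
  simp only [zero_mul, add_zero] at h1
  have h2 : (1 : ENNReal) + kap 0 zero_le_one (cay S) ≤ 1 + 0 := by simpa using h1
  have h3 := (ENNReal.add_le_add_iff_left ENNReal.one_ne_top).1 h2
  exact lt_of_le_of_lt h3 zero_lt_one

lemma Good.chi_le_two (q : NNReal) (hq : q ≤ 1) (h : (q : ℝ) ∈ pcSet S) :
    chi q hq (cay S) {1} ≤ 2 := by
  obtain ⟨q', hq', h1, h2⟩ := h
  have : q' = q := by exact_mod_cast h1
  subst this
  by_contra h3
  push Not at h3
  rw [chi_eq_kap, ← one_add_one_eq_two] at h3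
  have h4 := (ENNReal.add_lt_add_iff_left ENNReal.one_ne_top).1 h3
  exact infinite_of_kap q' hq S h4 h2

lemma Good.two_le_chi (q : NNReal) (hq : q ≤ 1) (h : (q : ℝ) ∉ pcSet S) :
    2 ≤ chi q hq (cay S) {1} := by
  by_contra h3
  push Not at h3
  rw [chi_eq_kap, ← one_add_one_eq_two] at h3
  have h4 := (ENNReal.add_lt_add_iff_left ENNReal.one_ne_top).1 h3
  exact h ⟨q, hq, rfl, finite_of_kap q hq S h4⟩

lemma Good.le_third (hS : Good S) {p : ℝ} (hp : p ∈ pcSet S) : p ≤ 1 / 3 := by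
  obtain ⟨q, hq, rfl, h2⟩ := hp
  have h3 : chi q hq (cay S) {1} ≤ 2 := Good.chi_le_two q hq ⟨q, hq, rfl, h2⟩
  have h4 := (hS.low q hq).trans h3
  have h5 : ((1 + 3 * q : NNReal) : ENNReal) ≤ ((2 : NNReal) : ENNReal) := by
    push_cast; exact h4
  rw [ENNReal.coe_le_coe] at h5
  have h6 : (1 : ℝ) + 3 * q ≤ 2 := by exact_mod_cast h5
  linarith

lemma Good.nonneg {p : ℝ} (hp : p ∈ pcSet S) : 0 ≤ p := by
  obtain ⟨q, hq, rfl, h2⟩ := hp
  exact q.2

lemma Good.bdd (hS : Good S) : BddAbove (pcSet S) := ⟨1 / 3, fun _ hp => hS.le_third hp⟩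

/-- Lipschitz bound on `[0, 2/5]` -/
lemma Good.lip (hS : Good S) (q δ : NNReal) (hq : q ≤ 1) (hq' : q + δ ≤ 1)
    (h : q + δ ≤ 2 / 5) :
    chi (q + δ) hq' (cay S) {1} ≤ chi q hq (cay S) {1} + 105 * δ := by
  have e : (δ : ENNReal) * 35 * 3 = 105 * δ := by ring
  rw [← e]
  refine chi_lip_single q δ hq hq' 2 35 ?_ ?_ (cay S) hS.deg 1
  · have h1 : (q + δ) * (1 + 2 * 2) ≤ (2 : NNReal) := by
      have : (q + δ) * (1 + 2 * 2) ≤ (2 / 5 : NNReal) * (1 + 2 * 2) := by gcongr
      refine this.trans (le_of_eq ?_)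
      norm_num
    have h2 : (((q + δ) * (1 + 2 * 2) : NNReal) : ENNReal) ≤ ((2 : NNReal) : ENNReal) :=
      ENNReal.coe_le_coe.2 h1
    push_cast at h2 ⊢
    exact h2
  · have h0 : q ≤ 2 / 5 := le_trans (le_self_add) h
    have h1 : q * (2 * 35) + (1 + 2 * 3) ≤ (35 : NNReal) := by
      have : q * (2 * 35) + (1 + 2 * 3) ≤ (2 / 5 : NNReal) * (2 * 35) + (1 + 2 * 3) := by gcongr
      refine this.trans (le_of_eq ?_)
      norm_num
    have h2 : ((q * (2 * 35) + (1 + 2 * 3) : NNReal) : ENNReal) ≤ ((35 : NNReal) : ENNReal) :=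
      ENNReal.coe_le_coe.2 h1
    push_cast at h2 ⊢
    exact h2

lemma Good.sSup_nonneg (hS : Good S) : 0 ≤ sSup (pcSet S) := le_csSup hS.bdd hS.zero_mem

lemma Good.sSup_le (hS : Good S) : sSup (pcSet S) ≤ 1 / 3 :=
  csSup_le ⟨0, hS.zero_mem⟩ fun _ hp => hS.le_third hp

lemma Good.chi_sup_le (hS : Good S) (P : NNReal) (hP : (P : ℝ) = sSup (pcSet S)) (hP1 : P ≤ 1) :
    chi P hP1 (cay S) {1} ≤ 2 := by
  refine ENNReal.le_of_forall_pos_le_add fun ε hε _ => ?_
  have h1 : sSup (pcSet S) - ε / 105 < sSup (pcSet S) := by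
    have : (0 : ℝ) < ε / 105 := by positivity
    linarith
  obtain ⟨p, hp, hlt⟩ := exists_lt_of_lt_csSup ⟨0, hS.zero_mem⟩ h1
  have hp2 : p ≤ P := by rw [hP]; exact le_csSup hS.bdd hp
  have hp0 := Good.nonneg hp
  lift p to NNReal using hp0
  have hp3 : p ≤ P := by exact_mod_cast hp2
  obtain ⟨δ, rfl⟩ : ∃ δ, P = p + δ := ⟨P - p, (add_tsub_cancel_of_le hp3).symm⟩
  have hp1 : p ≤ 1 := hp3.trans hP1
  have h25 : p + δ ≤ 2 / 5 := by
    have h3 := hS.sSup_le
    rw [← hP] at h3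
    have : ((p + δ : NNReal) : ℝ) ≤ ((2 / 5 : NNReal) : ℝ) := by
      push_cast at h3 ⊢
      linarith
    exact_mod_cast this
  refine (hS.lip p δ hp1 hP1 h25).trans ?_
  gcongr
  · exact Good.chi_le_two p hp1 hp
  · have h4 : (105 * δ : NNReal) ≤ ε := by
      rw [← hP] at hlt
      push_cast at hlt
      have : (105 * (δ : ℝ)) ≤ ε := by linarith
      exact_mod_cast this
    have h5 : ((105 * δ : NNReal) : ENNReal) ≤ (ε : ENNReal) := ENNReal.coe_le_coe.2 h4
    push_cast at h5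
    exact h5

lemma Good.le_chi_sup (hS : Good S) (P : NNReal) (hP : (P : ℝ) = sSup (pcSet S)) (hP1 : P ≤ 1) :
    2 ≤ chi P hP1 (cay S) {1} := by
  refine ENNReal.le_of_forall_pos_le_add fun ε hε _ => ?_
  obtain ⟨δ, h0, h1, h2⟩ : ∃ δ : NNReal, 0 < δ ∧ 105 * δ ≤ ε ∧ δ ≤ 1 / 15 := by
    refine ⟨min (ε / 105) (1 / 15), lt_min (by positivity) (by positivity), ?_, min_le_right _ _⟩
    calc 105 * min (ε / 105) (1 / 15) ≤ 105 * (ε / 105) := by gcongr; exact min_le_left _ _
      _ = ε := by rw [mul_div_cancel₀]; norm_num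
  have h3 := hS.sSup_le
  rw [← hP] at h3
  have h25 : P + δ ≤ 2 / 5 := by
    have h4 : (δ : ℝ) ≤ 1 / 15 := by exact_mod_cast h2
    have : ((P + δ : NNReal) : ℝ) ≤ ((2 / 5 : NNReal) : ℝ) := by
      push_cast
      linarith
    exact_mod_cast this
  have hPδ : P + δ ≤ 1 := h25.trans (by
    rw [div_le_one (by norm_num)]; norm_num)
  have hnot : ((P + δ : NNReal) : ℝ) ∉ pcSet S := by
    intro h
    have h4 := le_csSup hS.bdd h
    rw [← hP] at h4
    push_cast at h4
    have : (0 : ℝ) < δ := by exact_mod_cast h0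
    linarith
  refine (Good.two_le_chi (P + δ) hPδ hnot).trans ((hS.lip P δ hP1 hPδ h25).trans ?_)
  gcongr
  have h5 : ((105 * δ : NNReal) : ENNReal) ≤ (ε : ENNReal) := ENNReal.coe_le_coe.2 h1
  push_cast at h5
  exact h5

end

lemma cay_reach {H : Type} [Group H] {S : Set H} (hg : Subgroup.closure S = ⊤) (x : H) :
    (cay S).Reachable 1 x := by
  have key : ∀ y ∈ Subgroup.closure S, ∀ z : H, (cay S).Reachable z (z * y) := by
    intro y hy
    induction hy using Subgroup.closure_induction with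
    | mem s hs =>
      intro z
      by_cases h : s = 1
      · subst h; simp
      · refine SimpleGraph.Adj.reachable ?_
        rw [cay_adj]
        exact ⟨by simpa using h, Or.inl ⟨s, hs, rfl⟩⟩
    | one => intro z; simp
    | mul a b _ _ iha ihb =>
      intro z
      rw [← mul_assoc]
      exact (iha z).trans (ihb (z * a))
    | inv a _ iha =>
      intro z
      have := iha (z * a⁻¹)
      rw [inv_mul_cancel_right] at this
      exact this.symm
  have := key x (by rw [hg]; trivial) 1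
  rwa [one_mul] at this

/-- strict monotonicity of the critical probability -/
theorem pc_lt {H H' : Type} [Group H] [Group H'] [Countable H] [Countable H'] {S : Set H}
    {S' : Set H'} (hS : Good S) (hS' : Good S') (π : H →* H') (hπ : π '' S = S') (n : H)
    (hn : n ≠ 1) (hπn : π n = 1) : sSup (pcSet S) < sSup (pcSet S') := by
  by_contra hcon
  push Not at hcon
  obtain ⟨P, hP⟩ : ∃ P : NNReal, (P : ℝ) = sSup (pcSet S) := ⟨⟨_, hS.sSup_nonneg⟩, rfl⟩
  obtain ⟨P', hP'⟩ : ∃ P' : NNReal, (P' : ℝ) = sSup (pcSet S') := ⟨⟨_, hS'.sSup_nonneg⟩, rfl⟩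
  have hP1 : P ≤ 1 := by
    have h3 := hS.sSup_le
    rw [← hP] at h3
    have : (P : ℝ) ≤ 1 := by linarith
    exact_mod_cast this
  have hP1' : P' ≤ 1 := by
    have h3 := hS'.sSup_le
    rw [← hP'] at h3
    have : (P' : ℝ) ≤ 1 := by linarith
    exact_mod_cast this
  have hle : P' ≤ P := by
    rw [← hP, ← hP'] at hcon
    exact_mod_cast hcon
  have h1 := hS.chi_sup_le P hP hP1
  have h2 := hS'.le_chi_sup P' hP' hP1'
  have h3 := chi_mono_q P' P hP1' hP1 hle (cay S') {1}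
  have hL : Lifts π (cay S) (cay S') := by
    intro v w' hw
    rw [cay_adj] at hw
    obtain ⟨hne, h | h⟩ := hw
    · obtain ⟨s', hs', rfl⟩ := h
      rw [← hπ] at hs'
      obtain ⟨s, hs, rfl⟩ := hs'
      refine ⟨v * s, by rw [map_mul], ?_⟩
      rw [cay_adj]
      refine ⟨fun h => hne ?_, Or.inl ⟨s, hs, rfl⟩⟩
      rw [← map_mul, ← h]
    · obtain ⟨s', hs', h4⟩ := h
      rw [← hπ] at hs'
      obtain ⟨s, hs, rfl⟩ := hs'
      have h5 : w' = π (v * s⁻¹) := by rw [map_mul, map_inv, h4, mul_inv_cancel_right]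
      refine ⟨v * s⁻¹, h5.symm, ?_⟩
      rw [cay_adj]
      refine ⟨fun h => hne ?_, Or.inr ⟨s, hs, by simp⟩⟩
      rw [h5, ← h]
  have h4 := cover_chi π P hP1 hL 1 n hn (by rw [hπn, map_one])
  rw [map_one] at h4
  have h5 : (2 : ENNReal) + hit P hP1 (cay S) {1} {n} ≤ 2 + 0 := by
    rw [add_zero]
    refine le_trans ?_ (h4.trans h1)
    gcongr
    exact h2.trans h3
  have h6 := (ENNReal.add_le_add_iff_left (by norm_num)).1 h5
  by_cases hP0 : P = 0
  · subst hP0
    have h7 := chi_single_le (0 : NNReal) hP1 0 (by simp) (cay S') hS'.deg 1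
    have h8 : (2 : ENNReal) ≤ 1 := by
      refine (h2.trans h3).trans (h7.trans ?_)
      simp
    exact absurd h8 (by norm_num)
  · have h7 := reach_pos P hP1 (pos_iff_ne_zero.2 hP0) (cay S) 1 n (cay_reach hS.gen n)
    exact absurd h6 (not_le.2 h7)

end Pool.Agent.H978R2
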