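import Pool.Agent.H978R2.Perc

/-!
# Expectations of functions of finitely many bits, Harris inequality
-/

set_option autoImplicit false
set_option linter.all false
set_option linter.deprecated false

open MeasureTheory Set

namespace Pool.Agent.H978R2

variable {ι : Type*}

open Classical in
/-- the configuration whose open edges are those in `T` -/
noncomputable def cfgOf (T : Finset ι) : ι → Bool := fun i => decide (i ∈ T)

open Classical in
/-- finite expectation -/
noncomputable def EE (E : Finset ι) (p : ℝ) (f : (ι → Bool) → ℝ) : ℝ :=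
  ∑ T ∈ E.powerset, p ^ T.card * (1 - p) ^ (E \ T).card * f (cfgOf T)

open Classical in
/-- set a coordinate -/
noncomputable def upd (e : ι) (b : Bool) (ω : ι → Bool) : ι → Bool := Function.update ω e b

lemma upd_self (e : ι) (b : Bool) (ω : ι → Bool) : upd e b ω e = b := by simp [upd]
lemma upd_ne {e i : ι} (h : i ≠ e) (b : Bool) (ω : ι → Bool) : upd e b ω i = ω i := by
  simp [upd, h]
lemma upd_of {e : ι} {b : Bool} {ω : ι → Bool} (h : ω e = b) : upd e b ω = ω := by
  subst h; simp [upd]

lemma EE_insert [inst : DecidableEq ι] {E : Finset ι} {e : ι} (he : e ∉ E) (p : ℝ)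
    (f : (ι → Bool) → ℝ) :
    EE (insert e E) p f = p * EE E p (fun ω => f (upd e true ω)) +
      (1 - p) * EE E p (fun ω => f (upd e false ω)) := by
  obtain rfl : inst = fun a b => Classical.propDecidable (a = b) := Subsingleton.elim _ _
  classical
  unfold EE
  rw [Finset.sum_powerset_insert he, add_comm, Finset.mul_sum, Finset.mul_sum]
  congr 1
  · refine Finset.sum_congr rfl fun T hT => ?_
    have hT' := Finset.mem_powerset.1 hT
    have heT : e ∉ T := fun h => he (hT' h)
    have h1 : (insert e T).card = T.card + 1 := Finset.card_insert_of_notMem heT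
    have h2 : (insert e E \ insert e T) = E \ T := by
      ext x
      simp only [Finset.mem_sdiff, Finset.mem_insert]
      constructor
      · rintro ⟨h | h, h'⟩
        · exact absurd (Or.inl h) h'
        · exact ⟨h, fun h'' => h' (Or.inr h'')⟩
      · rintro ⟨h, h'⟩
        exact ⟨Or.inr h, fun h'' => h''.elim (fun h3 => he (h3 ▸ h)) h'⟩
    have h3 : cfgOf (insert e T) = upd e true (cfgOf T) := by
      funext i
      by_cases hi : i = e
      · subst hi; simp [cfgOf, upd_self]
      · rw [upd_ne hi]; simp [cfgOf, hi]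
    rw [h3, h1, h2, pow_succ]
    ring
  · refine Finset.sum_congr rfl fun T hT => ?_
    have hT' := Finset.mem_powerset.1 hT
    have heT : e ∉ T := fun h => he (hT' h)
    have h2 : (insert e E \ T).card = (E \ T).card + 1 := by
      rw [Finset.insert_sdiff_of_notMem _ heT, Finset.card_insert_of_notMem (by simp [he])]
    have h3 : upd e false (cfgOf T) = cfgOf T := upd_of (by simp [cfgOf, heT])
    simp only [h3]
    rw [h2, pow_succ]
    ring

lemma EE_empty (p : ℝ) (f : (ι → Bool) → ℝ) : EE ∅ p f = f (cfgOf ∅) := by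
  classical
  unfold EE
  simp

lemma EE_split [DecidableEq ι] {E : Finset ι} {e : ι} (he : e ∈ E) (p : ℝ)
    (f : (ι → Bool) → ℝ) :
    EE E p f = p * EE (E.erase e) p (fun ω => f (upd e true ω)) +
      (1 - p) * EE (E.erase e) p (fun ω => f (upd e false ω)) := by
  have h := EE_insert (E := E.erase e) (e := e) (by simp) p f
  rwa [Finset.insert_erase he] at h

lemma EE_congr {E : Finset ι} {p : ℝ} {f g : (ι → Bool) → ℝ} (h : ∀ ω, f ω = g ω) :
    EE E p f = EE E p g := by
  have : f = g := funext h
  rw [this]

lemma EE_add {E : Finset ι} {p : ℝ} (f g : (ι → Bool) → ℝ) :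
    EE E p (fun ω => f ω + g ω) = EE E p f + EE E p g := by
  unfold EE
  rw [← Finset.sum_add_distrib]
  exact Finset.sum_congr rfl fun T _ => by ring

lemma EE_mul {E : Finset ι} {p : ℝ} (c : ℝ) (f : (ι → Bool) → ℝ) :
    EE E p (fun ω => c * f ω) = c * EE E p f := by
  unfold EE
  rw [Finset.mul_sum]
  exact Finset.sum_congr rfl fun T _ => by ring

lemma EE_sum {κ : Type*} {E : Finset ι} {p : ℝ} (s : Finset κ) (f : κ → (ι → Bool) → ℝ) :
    EE E p (fun ω => ∑ k ∈ s, f k ω) = ∑ k ∈ s, EE E p (f k) := by
  classical
  unfold EE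
  rw [Finset.sum_comm]
  exact Finset.sum_congr rfl fun T _ => by rw [Finset.mul_sum]

lemma EE_mono {E : Finset ι} {p : ℝ} (h0 : 0 ≤ p) (h1 : p ≤ 1) {f g : (ι → Bool) → ℝ}
    (h : ∀ ω, f ω ≤ g ω) : EE E p f ≤ EE E p g := by
  unfold EE
  refine Finset.sum_le_sum fun T _ => ?_
  have : 0 ≤ 1 - p := by linarith
  exact mul_le_mul_of_nonneg_left (h _) (by positivity)

lemma EE_const {E : Finset ι} {p : ℝ} (c : ℝ) : EE E p (fun _ => c) = c := by
  classical
  induction E using Finset.induction_on with
  | empty => rw [EE_empty]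
  | insert e E he ih => rw [EE_insert he, ih]; ring

/-- indicator as a real function -/
noncomputable def I1 (A : Set (ι → Bool)) (ω : ι → Bool) : ℝ := A.indicator (fun _ => (1 : ℝ)) ω

lemma I1_mem {A : Set (ι → Bool)} {ω : ι → Bool} (h : ω ∈ A) : I1 A ω = 1 := by simp [I1, h]
lemma I1_not {A : Set (ι → Bool)} {ω : ι → Bool} (h : ω ∉ A) : I1 A ω = 0 := by simp [I1, h]
lemma I1_nonneg (A : Set (ι → Bool)) (ω : ι → Bool) : 0 ≤ I1 A ω := by
  by_cases h : ω ∈ A
  · rw [I1_mem h]; norm_num
  · rw [I1_not h]

lemma I1_upd (A : Set (ι → Bool)) (e : ι) (b : Bool) (ω : ι → Bool) :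
    I1 A (upd e b ω) = I1 {ω | upd e b ω ∈ A} ω := by
  by_cases h : upd e b ω ∈ A
  · rw [I1_mem h, I1_mem (show ω ∈ {ω | upd e b ω ∈ A} from h)]
  · rw [I1_not h, I1_not (show ω ∉ {ω | upd e b ω ∈ A} from h)]

lemma measurable_upd (e : ι) (b : Bool) : Measurable (upd e b : (ι → Bool) → ι → Bool) := by
  rw [measurable_pi_iff]
  intro i
  by_cases h : i = e
  · subst h; simp only [upd_self]; exact measurable_const
  · simp only [upd_ne h]; exact measurable_pi_apply i

lemma depOn_upd {J : Set ι} {A : Set (ι → Bool)} (h : DepOn J A) (e : ι) (b : Bool) :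
    DepOn (J \ {e}) {ω | upd e b ω ∈ A} := by
  intro ω ω' hω
  refine h _ _ fun i hi => ?_
  by_cases hie : i = e
  · subst hie; rw [upd_self, upd_self]
  · rw [upd_ne hie, upd_ne hie]; exact hω i ⟨hi, hie⟩

lemma DepOn.measurable_fin {J : Finset ι} {A : Set (ι → Bool)} (h : DepOn (J : Set ι) A) :
    MeasurableSet A := by
  classical
  induction J using Finset.induction_on generalizing A with
  | empty =>
    by_cases h1 : cfgOf ∅ ∈ A
    · have : A = univ := by
        ext ω; simp only [mem_univ, iff_true]
        exact (h _ _ fun i hi => by simp at hi).1 h1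
      rw [this]; exact MeasurableSet.univ
    · have : A = ∅ := by
        ext ω; simp only [mem_empty_iff_false, iff_false]
        exact fun h' => h1 ((h _ _ fun i hi => by simp at hi).2 h')
      rw [this]; exact MeasurableSet.empty
  | insert e J he ih =>
    have hE : A = ({ω | ω e = true} ∩ {ω | upd e true ω ∈ A}) ∪
        ({ω | ω e = false} ∩ {ω | upd e false ω ∈ A}) := by
      ext ω
      simp only [mem_union, mem_inter_iff]
      cases hb : ω e
      · have h1 : upd e false ω = ω := upd_of hb
        simp [hb, h1]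
      · have h1 : upd e true ω = ω := upd_of hb
        simp [hb, h1]
    have hd : ∀ b, DepOn (J : Set ι) {ω | upd e b ω ∈ A} := fun b =>
      (depOn_upd h e b).mono (by
        intro i hi
        have := hi.1
        simp only [Finset.coe_insert, mem_insert_iff] at this
        exact this.resolve_left hi.2)
    rw [hE]
    exact ((meas_coord e true).inter (ih (hd true))).union ((meas_coord e false).inter (ih (hd false)))

lemma bm_real_split (q : NNReal) (hq : q ≤ 1) {A : Set (ι → Bool)} (hA : MeasurableSet A) (e : ι) :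
    (bm ι q hq).real A = q * (bm ι q hq).real {ω | upd e true ω ∈ A} +
      (1 - q) * (bm ι q hq).real {ω | upd e false ω ∈ A} := by
  have h := bm_split q hq e (E := A) (E1 := {ω | upd e true ω ∈ A})
    (E0 := {ω | upd e false ω ∈ A}) (measurable_upd e true hA) (measurable_upd e false hA)
    (fun ω ω' hω => by
      have : upd e true ω = upd e true ω' := by
        funext i
        by_cases hi : i = e
        · subst hi; rw [upd_self, upd_self]
        · rw [upd_ne hi, upd_ne hi]; exact hω i hi
      show upd e true ω ∈ A ↔ upd e true ω' ∈ A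
      rw [this])
    (fun ω ω' hω => by
      have : upd e false ω = upd e false ω' := by
        funext i
        by_cases hi : i = e
        · subst hi; rw [upd_self, upd_self]
        · rw [upd_ne hi, upd_ne hi]; exact hω i hi
      show upd e false ω ∈ A ↔ upd e false ω' ∈ A
      rw [this])
    (fun ω h => by
      show ω ∈ A ↔ upd e true ω ∈ A
      rw [upd_of h])
    (fun ω h => by
      show ω ∈ A ↔ upd e false ω ∈ A
      rw [upd_of h])
  unfold Measure.real
  have h1 : (1 : ENNReal) - q = ((1 - q : NNReal) : ENNReal) := by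
    push_cast; rfl
  rw [h, h1, ENNReal.toReal_add (ENNReal.mul_ne_top ENNReal.coe_ne_top (measure_ne_top _ _))
    (ENNReal.mul_ne_top ENNReal.coe_ne_top (measure_ne_top _ _)),
    ENNReal.toReal_mul, ENNReal.toReal_mul]
  rw [ENNReal.coe_toReal, ENNReal.coe_toReal, NNReal.coe_sub hq]
  rfl

lemma bm_real_eq_EE (q : NNReal) (hq : q ≤ 1) {J : Finset ι} {A : Set (ι → Bool)}
    (h : DepOn (J : Set ι) A) : (bm ι q hq).real A = EE J q (I1 A) := by
  classical
  induction J using Finset.induction_on generalizing A with
  | empty =>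
    rw [EE_empty]
    by_cases h1 : cfgOf ∅ ∈ A
    · have : A = univ := by
        ext ω; simp only [mem_univ, iff_true]
        exact (h _ _ fun i hi => by simp at hi).1 h1
      rw [this, I1_mem (mem_univ _)]
      simp
    · have : A = ∅ := by
        ext ω; simp only [mem_empty_iff_false, iff_false]
        exact fun h' => h1 ((h _ _ fun i hi => by simp at hi).2 h')
      rw [this, I1_not (by simp)]
      simp
  | insert e J he ih =>
    have hd : ∀ b, DepOn (J : Set ι) {ω | upd e b ω ∈ A} := fun b =>
      (depOn_upd h e b).mono (by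
        intro i hi
        have := hi.1
        simp only [Finset.coe_insert, mem_insert_iff] at this
        exact this.resolve_left hi.2)
    have t1 : EE J q (I1 {ω | upd e true ω ∈ A}) = EE J q (fun ω => I1 A (upd e true ω)) :=
      EE_congr fun ω => (I1_upd A e true ω).symm
    have t0 : EE J q (I1 {ω | upd e false ω ∈ A}) = EE J q (fun ω => I1 A (upd e false ω)) :=
      EE_congr fun ω => (I1_upd A e false ω).symm
    rw [EE_insert he, bm_real_split q hq h.measurable_fin e, ih (hd true), ih (hd false), t1, t0]

/-- Harris inequality -/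
theorem harris (q : NNReal) (hq : q ≤ 1) {J : Finset ι} {A B : Set (ι → Bool)}
    (hA : DepOn (J : Set ι) A) (hB : DepOn (J : Set ι) B) (uA : IsUpperSet A)
    (uB : IsUpperSet B) :
    (bm ι q hq).real A * (bm ι q hq).real B ≤ (bm ι q hq).real (A ∩ B) := by
  classical
  induction J using Finset.induction_on generalizing A B with
  | empty =>
    by_cases h1 : cfgOf ∅ ∈ A
    · have : A = univ := by
        ext ω; simp only [mem_univ, iff_true]
        exact (hA _ _ fun i hi => by simp at hi).1 h1
      rw [this]
      simp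
    · have : A = ∅ := by
        ext ω; simp only [mem_empty_iff_false, iff_false]
        exact fun h' => h1 ((hA _ _ fun i hi => by simp at hi).2 h')
      rw [this]
      simp
  | insert e J he ih =>
    have hd : ∀ {A : Set (ι → Bool)}, DepOn ((insert e J : Finset ι) : Set ι) A → ∀ b,
        DepOn (J : Set ι) {ω | upd e b ω ∈ A} := fun h b =>
      (depOn_upd h e b).mono (by
        intro i hi
        have := hi.1
        simp only [Finset.coe_insert, mem_insert_iff] at this
        exact this.resolve_left hi.2)
    have hu : ∀ {A : Set (ι → Bool)}, IsUpperSet A → ∀ b, IsUpperSet {ω | upd e b ω ∈ A} := by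
      intro A hA b ω ω' hω hmem
      refine hA ?_ hmem
      intro i
      by_cases hi : i = e
      · subst hi; rw [upd_self, upd_self]
      · rw [upd_ne hi, upd_ne hi]; exact hω i
    have hmono : ∀ {A : Set (ι → Bool)}, IsUpperSet A →
        (bm ι q hq).real {ω | upd e false ω ∈ A} ≤ (bm ι q hq).real {ω | upd e true ω ∈ A} := by
      intro A hA
      refine measureReal_mono ?_ (measure_ne_top _ _)
      intro ω hω
      refine hA ?_ hω
      intro i
      by_cases hi : i = e
      · subst hi; rw [upd_self, upd_self]; simp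
      · rw [upd_ne hi, upd_ne hi]
    have i1 := ih (hd hA true) (hd hB true) (hu uA true) (hu uB true)
    have i0 := ih (hd hA false) (hd hB false) (hu uA false) (hu uB false)
    rw [bm_real_split q hq hA.measurable_fin e, bm_real_split q hq hB.measurable_fin e,
      bm_real_split q hq (hA.inter hB).measurable_fin e]
    have e1 : {ω | upd e true ω ∈ A ∩ B} = {ω | upd e true ω ∈ A} ∩ {ω | upd e true ω ∈ B} := rfl
    have e0 : {ω | upd e false ω ∈ A ∩ B} = {ω | upd e false ω ∈ A} ∩ {ω | upd e false ω ∈ B} := rfl
    rw [e1, e0]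
    have q0 : (0 : ℝ) ≤ q := q.2
    have q1 : (q : ℝ) ≤ 1 := by exact_mod_cast hq
    have mA := hmono uA
    have mB := hmono uB
    set a1 := (bm ι q hq).real {ω | upd e true ω ∈ A}
    set a0 := (bm ι q hq).real {ω | upd e false ω ∈ A}
    set b1 := (bm ι q hq).real {ω | upd e true ω ∈ B}
    set b0 := (bm ι q hq).real {ω | upd e false ω ∈ B}
    have h2 : (q : ℝ) * (a1 * b1) + (1 - q) * (a0 * b0) ≤
        q * (bm ι q hq).real ({ω | upd e true ω ∈ A} ∩ {ω | upd e true ω ∈ B}) +
        (1 - q) * (bm ι q hq).real ({ω | upd e false ω ∈ A} ∩ {ω | upd e false ω ∈ B}) :=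
      add_le_add (mul_le_mul_of_nonneg_left i1 q0) (mul_le_mul_of_nonneg_left i0 (by linarith))
    refine le_trans ?_ h2
    nlinarith [mul_nonneg (mul_nonneg q0 (sub_nonneg.2 q1))
      (mul_nonneg (sub_nonneg.2 mA) (sub_nonneg.2 mB))]

end Pool.Agent.H978R2
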