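import Pool.Agent.H978R2.PercCover

/-!
# Percolation on the free product of two copies of a group
-/

set_option autoImplicit false
set_option linter.all false
set_option linter.deprecated false

open MeasureTheory Set Monoid.CoprodI

namespace Pool.Agent.H978R2

variable {H : Type} [Group H]

/-- the Cayley graph, as in the statement -/
def cay {G : Type} [Group G] (S : Set G) : SimpleGraph G :=
  SimpleGraph.fromRel (fun x y : G => ∃ s ∈ S, y = x * s)

/-- free product of two copies of `H` -/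
abbrev FP (H : Type) [Group H] : Type := Monoid.CoprodI (fun _ : Bool => H)

/-- the two inclusions -/
def ii (i : Bool) : H →* FP H := @Monoid.CoprodI.of Bool (fun _ => H) _ i

/-- the generating set -/
def SG (S : Set H) : Set (FP H) := {g | ∃ i : Bool, ∃ s ∈ S, g = ii i s}

lemma ii_inj (i : Bool) : Function.Injective (ii (H := H) i) :=
  Monoid.CoprodI.of_injective (M := fun _ : Bool => H) i

lemma word_prod_inj : Function.Injective (Word.prod : Word (fun _ : Bool => H) → FP H) := by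
  classical
  exact (Word.equiv (M := fun _ : Bool => H)).symm.injective

/-- elements that do not begin with a letter of type `i` -/
def NB (i : Bool) : Set (FP H) :=
  {g | ∃ w : Word (fun _ : Bool => H), w.fstIdx ≠ some i ∧ w.prod = g}

lemma one_mem_NB (i : Bool) : (1 : FP H) ∈ NB i := ⟨Word.empty, by simp [Word.fstIdx], rfl⟩

lemma NB_unique {i : Bool} {x x' : H} {b b' : FP H} (hb : b ∈ NB i) (hb' : b' ∈ NB i)
    (h : ii i x * b = ii i x' * b') : x = x' ∧ b = b' := by
  classical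
  obtain ⟨w, hw, rfl⟩ := hb
  obtain ⟨w', hw', rfl⟩ := hb'
  have h1 : Word.prod (Word.rcons (⟨x, w, hw⟩ : Word.Pair (fun _ : Bool => H) i)) =
      Word.prod (Word.rcons (⟨x', w', hw'⟩ : Word.Pair (fun _ : Bool => H) i)) := by
    rw [Word.prod_rcons, Word.prod_rcons]; exact h
  have h2 := Word.rcons_inj (word_prod_inj h1)
  rw [Word.Pair.mk.injEq] at h2
  exact ⟨h2.1, by rw [h2.2]⟩

lemma mul_mem_NB {i : Bool} {x : H} (hx : x ≠ 1) {b : FP H} (hb : b ∈ NB i) :
    ii i x * b ∈ NB (!i) := by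
  obtain ⟨w, hw, rfl⟩ := hb
  refine ⟨Word.cons (M := fun _ : Bool => H) x w hw hx, ?_, ?_⟩
  · rw [Word.fstIdx_cons]; simp
  · rw [Word.prod_cons]; rfl

/-- configuration seen in the coset of type `i` at `g` -/
def cfg (g : FP H) (i : Bool) (ω : Sym2 (FP H) → Bool) : Sym2 H → Bool :=
  fun e => ω (Sym2.map (fun x => g * ii i x) e)

/-- `h` is reached from `g` with `n` letters, the first one of type `i` -/
def D (Γ : SimpleGraph H) (ω : Sym2 (FP H) → Bool) : ℕ → Bool → FP H → FP H → Prop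
  | 0, _, g, h => h = g
  | n + 1, i, g, h => ∃ x : H, x ≠ 1 ∧ Rch Γ (cfg g i ω) {1} {x} ∧ D Γ ω n (!i) (g * ii i x) h

/-- non-diagonal edges inside a vertex set -/
def brE (X : Set (FP H)) : Set (Sym2 (FP H)) := {e | ¬ e.IsDiag ∧ ∀ v ∈ e, v ∈ X}

/-- the branch at `g` of type `i` -/
def T (i : Bool) (g : FP H) : Set (FP H) := {h | ∃ b ∈ NB (!i), h = g * b}

lemma brE_disj {X Y : Set (FP H)} (h : (X ∩ Y).Subsingleton) : Disjoint (brE X) (brE Y) := by
  rw [Set.disjoint_left]
  intro e h1 h2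
  induction e using Sym2.ind with
  | _ u v =>
    have hu : u ∈ X ∩ Y := ⟨h1.2 u (by simp), h2.2 u (by simp)⟩
    have hv : v ∈ X ∩ Y := ⟨h1.2 v (by simp), h2.2 v (by simp)⟩
    exact h1.1 (by rw [Sym2.mk_isDiag_iff]; exact h hu hv)

lemma brE_mono {X Y : Set (FP H)} (h : X ⊆ Y) : brE X ⊆ brE Y := fun e he =>
  ⟨he.1, fun v hv => h (he.2 v hv)⟩

lemma T_sub {i : Bool} {g : FP H} {x : H} (hx : x ≠ 1) : T (!i) (g * ii i x) ⊆ T i g := by
  rintro h ⟨b, hb, rfl⟩
  rw [Bool.not_not] at hb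
  exact ⟨ii i x * b, mul_mem_NB hx hb, by rw [mul_assoc]⟩

lemma coset_sub (i : Bool) (g : FP H) : range (fun x : H => g * ii i x) ⊆ T i g := by
  rintro h ⟨x, rfl⟩
  by_cases hx : x = 1
  · subst hx
    exact ⟨1, one_mem_NB _, by simp⟩
  · refine ⟨ii i x, ?_, rfl⟩
    have := mul_mem_NB hx (one_mem_NB (H := H) i)
    rwa [mul_one] at this

lemma coset_T (i : Bool) (g : FP H) (x : H) :
    ((range (fun x : H => g * ii i x)) ∩ T (!i) (g * ii i x)).Subsingleton := by
  have key : ∀ h ∈ ((range (fun x : H => g * ii i x)) ∩ T (!i) (g * ii i x)),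
      h = g * ii i x := by
    rintro h ⟨⟨y, rfl⟩, b, hb, hy⟩
    rw [Bool.not_not] at hb
    simp only at hy ⊢
    rw [mul_assoc] at hy
    have h2 : ii i y * 1 = ii i x * b := by rw [mul_one]; exact mul_left_cancel hy
    have := NB_unique (one_mem_NB i) hb h2
    rw [this.1]
  intro a ha b hb
  rw [key a ha, key b hb]

lemma T_T (i : Bool) (g : FP H) {x x' : H} (hx : x ≠ x') :
    (T (!i) (g * ii i x) ∩ T (!i) (g * ii i x')).Subsingleton := by
  rintro h ⟨⟨b, hb, rfl⟩, b', hb', hy⟩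
  rw [Bool.not_not] at hb hb'
  rw [mul_assoc, mul_assoc] at hy
  exact absurd (NB_unique hb hb' (mul_left_cancel hy)).1 hx

lemma map_inj (g : FP H) (i : Bool) : Function.Injective (fun x : H => g * ii i x) :=
  fun x y h => ii_inj i (mul_left_cancel h)

/-- the event of reaching `x` in the coset -/
def evC (Γ : SimpleGraph H) (i : Bool) (g : FP H) (x : H) : Set (Sym2 (FP H) → Bool) :=
  {ω | Rch Γ (cfg g i ω) {1} {x}}

def evD (Γ : SimpleGraph H) (n : ℕ) (i : Bool) (g h : FP H) : Set (Sym2 (FP H) → Bool) :=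
  {ω | D Γ ω n i g h}

lemma meas_cfg (g : FP H) (i : Bool) : Measurable (cfg g i) := by
  rw [measurable_pi_iff]
  intro e
  exact measurable_pi_apply _

lemma meas_evC [Countable H] (Γ : SimpleGraph H) (i : Bool) (g : FP H) (x : H) :
    MeasurableSet (evC Γ i g x) := meas_cfg g i (meas_ev Γ {1} {x})

lemma evD_succ (Γ : SimpleGraph H) (n : ℕ) (i : Bool) (g h : FP H) :
    evD Γ (n + 1) i g h = ⋃ x : {x : H // x ≠ 1},
      (evC Γ i g x ∩ evD Γ n (!i) (g * ii i (x : H)) h) := by
  ext ω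
  rw [mem_iUnion]
  constructor
  · rintro ⟨x, hx, h1, h2⟩
    exact ⟨⟨x, hx⟩, h1, h2⟩
  · rintro ⟨⟨x, hx⟩, h1, h2⟩
    exact ⟨x, hx, h1, h2⟩

lemma meas_evD [Countable H] (Γ : SimpleGraph H) (n : ℕ) (i : Bool) (g h : FP H) :
    MeasurableSet (evD Γ n i g h) := by
  induction n generalizing i g with
  | zero =>
    by_cases hh : h = g
    · have : evD Γ 0 i g h = univ := by
        ext ω; exact ⟨fun _ => trivial, fun _ => hh⟩
      rw [this]; exact MeasurableSet.univ
    · have : evD Γ 0 i g h = ∅ := by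
        ext ω; exact ⟨fun h' => (hh h').elim, fun h' => h'.elim⟩
      rw [this]; exact MeasurableSet.empty
  | succ n ih =>
    rw [evD_succ]
    exact MeasurableSet.iUnion fun x => (meas_evC Γ i g x).inter (ih _ _)

lemma dep_evC (Γ : SimpleGraph H) (i : Bool) (g : FP H) (x : H) :
    DepOn (brE (range (fun x : H => g * ii i x))) (evC Γ i g x) := by
  intro ω ω' h
  refine depOn_ev Γ {1} {x} (cfg g i ω) (cfg g i ω') fun e he => h _ ⟨?_, ?_⟩
  · induction e using Sym2.ind with
    | _ u v =>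
      have huv : Γ.Adj u v := he
      rw [Sym2.map_mk, Sym2.mk_isDiag_iff]
      exact fun h' => huv.ne (map_inj g i h')
  · intro v hv
    rw [Sym2.mem_map] at hv
    obtain ⟨y, _, rfl⟩ := hv
    exact ⟨y, rfl⟩

lemma dep_evD (Γ : SimpleGraph H) (n : ℕ) (i : Bool) (g h : FP H) :
    DepOn (brE (T i g)) (evD Γ n i g h) := by
  induction n generalizing i g with
  | zero => exact fun ω ω' _ => Iff.rfl
  | succ n ih =>
    intro ω ω' hω
    rw [evD_succ, mem_iUnion, mem_iUnion]
    refine exists_congr fun x => and_congr ?_ ?_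
    · exact ((dep_evC Γ i g x).mono (brE_mono (coset_sub i g))) ω ω' hω
    · exact ((ih (!i) (g * ii i (x : H))).mono (brE_mono (T_sub x.2))) ω ω' hω

lemma bm_evC [Countable H] (q : NNReal) (hq : q ≤ 1) (Γ : SimpleGraph H) (i : Bool) (g : FP H)
    (x : H) : bm (Sym2 (FP H)) q hq (evC Γ i g x) = hit q hq Γ {1} {x} := by
  have h : (bm (Sym2 (FP H)) q hq).map (cfg g i) = bm (Sym2 H) q hq :=
    map_comp_inj q hq (Sym2.map (fun x : H => g * ii i x))
    (Sym2.map.injective (map_inj g i))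
  unfold hit
  rw [← h, Measure.map_apply (meas_cfg g i) (meas_ev _ _ _)]
  rfl

/-- expected number of non-identity elements in the cluster -/
noncomputable def kap (q : NNReal) (hq : q ≤ 1) (Γ : SimpleGraph H) : ENNReal :=
  ∑' x : {x : H // x ≠ 1}, hit q hq Γ {1} {(x : H)}

lemma chi_eq_kap (q : NNReal) (hq : q ≤ 1) (Γ : SimpleGraph H) :
    chi q hq Γ {1} = 1 + kap q hq Γ := by
  classical
  unfold chi kap
  rw [← hit_self q hq Γ (1 : H)]
  have h := ENNReal.tsum_eq_add_tsum_ite (f := fun v : H => hit q hq Γ {1} {v}) 1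
  rw [h]
  congr 1
  show _ = ∑' x : ({x : H | x ≠ 1} : Set H), hit q hq Γ {1} {(x : H)}
  rw [tsum_subtype {x : H | x ≠ 1} (fun v : H => hit q hq Γ {1} {v})]
  refine tsum_congr fun v => ?_
  by_cases hv : v = 1
  · simp [hv]
  · simp [hv, Set.indicator]

lemma sum_evD_le [Countable H] (q : NNReal) (hq : q ≤ 1) (Γ : SimpleGraph H) (n : ℕ) (i : Bool)
    (g : FP H) : ∑' h, bm (Sym2 (FP H)) q hq (evD Γ n i g h) ≤ kap q hq Γ ^ n := by
  classical
  induction n generalizing i g with
  | zero =>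
    have : ∀ h, bm (Sym2 (FP H)) q hq (evD Γ 0 i g h) = if h = g then 1 else 0 := by
      intro h
      split_ifs with hh
      · have : evD Γ 0 i g h = univ := by
          ext ω; exact ⟨fun _ => trivial, fun _ => hh⟩
        rw [this, measure_univ]
      · have : evD Γ 0 i g h = ∅ := by
          ext ω; exact ⟨fun h' => (hh h').elim, fun h' => h'.elim⟩
        rw [this, measure_empty]
    simp_rw [this]
    rw [tsum_ite_eq]
    simp
  | succ n ih =>
    calc ∑' h, bm (Sym2 (FP H)) q hq (evD Γ (n + 1) i g h)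
        ≤ ∑' h, ∑' x : {x : H // x ≠ 1}, bm (Sym2 (FP H)) q hq
            (evC Γ i g x ∩ evD Γ n (!i) (g * ii i (x : H)) h) := by
          refine ENNReal.tsum_le_tsum fun h => ?_
          rw [evD_succ]
          exact measure_iUnion_le _
      _ = ∑' h, ∑' x : {x : H // x ≠ 1}, hit q hq Γ {1} {(x : H)} *
            bm (Sym2 (FP H)) q hq (evD Γ n (!i) (g * ii i (x : H)) h) := by
          refine tsum_congr fun h => tsum_congr fun x => ?_
          rw [bm_inter q hq (brE_disj (coset_T i g x)) (meas_evC _ _ _ _) (meas_evD _ _ _ _ _)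
            (dep_evC _ _ _ _) (dep_evD _ _ _ _ _), bm_evC]
      _ = ∑' x : {x : H // x ≠ 1}, hit q hq Γ {1} {(x : H)} *
            ∑' h, bm (Sym2 (FP H)) q hq (evD Γ n (!i) (g * ii i (x : H)) h) := by
          rw [ENNReal.tsum_comm]
          refine tsum_congr fun x => ?_
          rw [ENNReal.tsum_mul_left]
      _ ≤ ∑' x : {x : H // x ≠ 1}, hit q hq Γ {1} {(x : H)} * kap q hq Γ ^ n :=
          ENNReal.tsum_le_tsum fun x => by gcongr; exact ih _ _
      _ = kap q hq Γ ^ (n + 1) := by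
          rw [ENNReal.tsum_mul_right, pow_succ', kap]

/-- transfer of adjacency -/
lemma cay_adj {G : Type} [Group G] (S : Set G) (u v : G) :
    (cay S).Adj u v ↔ u ≠ v ∧ ((∃ s ∈ S, v = u * s) ∨ (∃ s ∈ S, u = v * s)) :=
  SimpleGraph.fromRel_adj _ _ _

lemma cayG_adj (S : Set H) {u v : FP H} (h : (cay (SG S)).Adj u v) :
    ∃ (j : Bool) (t : H), t ≠ 1 ∧ v = u * ii j t ∧ ∀ x, (cay S).Adj x (x * t) := by
  rw [cay_adj] at h
  obtain ⟨hne, h | h⟩ := h
  · obtain ⟨_, ⟨j, s, hs, rfl⟩, rfl⟩ := h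
    have hs1 : s ≠ 1 := by
      rintro rfl
      simp at hne
    refine ⟨j, s, hs1, rfl, fun x => ?_⟩
    rw [cay_adj]
    exact ⟨by simpa using hs1, Or.inl ⟨s, hs, rfl⟩⟩
  · obtain ⟨_, ⟨j, s, hs, rfl⟩, rfl⟩ := h
    have hs1 : s ≠ 1 := by
      rintro rfl
      simp at hne
    refine ⟨j, s⁻¹, by simpa using hs1, ?_, fun x => ?_⟩
    · rw [mul_assoc, ← map_mul]; simp
    · rw [cay_adj]
      exact ⟨by simpa using hs1, Or.inr ⟨s, hs, by simp⟩⟩

lemma adj_cayG (S : Set H) (g : FP H) (i : Bool) {x y : H} (h : (cay S).Adj x y) :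
    (cay (SG S)).Adj (g * ii i x) (g * ii i y) := by
  rw [cay_adj] at h ⊢
  obtain ⟨hne, h | h⟩ := h
  · obtain ⟨s, hs, rfl⟩ := h
    exact ⟨fun h => hne (map_inj g i h), Or.inl ⟨ii i s, ⟨i, s, hs, rfl⟩, by
      rw [map_mul, mul_assoc]⟩⟩
  · obtain ⟨s, hs, rfl⟩ := h
    exact ⟨fun h => hne (map_inj g i h), Or.inr ⟨ii i s, ⟨i, s, hs, rfl⟩, by
      rw [map_mul, mul_assoc]⟩⟩

lemma D_reach (S : Set H) {Γ : SimpleGraph H} (hΓ : Γ ≤ cay S) {ω : Sym2 (FP H) → Bool} {n : ℕ}
    {i : Bool} {g h : FP H} (hD : D Γ ω n i g h) : (openG (cay (SG S)) ω).Reachable g h := by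
  induction n generalizing i g with
  | zero => cases hD; exact SimpleGraph.Reachable.refl _
  | succ n ih =>
    obtain ⟨x, hx, ⟨_, rfl, _, rfl, h1⟩, h2⟩ := hD
    refine SimpleGraph.Reachable.trans ?_ (ih h2)
    have h3 : ∀ y, (openG Γ (cfg g i ω)).Reachable 1 y →
        (openG (cay (SG S)) ω).Reachable g (g * ii i y) := by
      intro y hy
      rw [SimpleGraph.reachable_iff_reflTransGen] at hy
      induction hy with
      | refl => simp
      | @tail c d _ hcd ih2 =>
        refine ih2.trans (SimpleGraph.Adj.reachable ⟨adj_cayG S g i (hΓ hcd.1), ?_⟩)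
        exact hcd.2
    exact h3 _ h1

lemma D_form {Γ : SimpleGraph H} {ω : Sym2 (FP H) → Bool} {n : ℕ}
    {i : Bool} {g h : FP H} (hD : D Γ ω n i g h) :
    ∃ w : Word (fun _ : Bool => H), w.fstIdx ≠ some (!i) ∧ h = g * w.prod ∧
      w.toList.length = n := by
  induction n generalizing i g with
  | zero => cases hD; exact ⟨Word.empty, by simp [Word.fstIdx], by simp, by simp⟩
  | succ n ih =>
    obtain ⟨x, hx, _, h2⟩ := hD
    obtain ⟨w, hw, rfl, hl⟩ := ih h2
    rw [Bool.not_not] at hw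
    refine ⟨Word.cons (M := fun _ : Bool => H) x w hw hx, ?_, ?_, ?_⟩
    · rw [Word.fstIdx_cons]; simp
    · rw [Word.prod_cons, mul_assoc]; rfl
    · simp [Word.cons, hl]

lemma infinite_of_D (S : Set H) {Γ : SimpleGraph H} (hΓ : Γ ≤ cay S) {ω : Sym2 (FP H) → Bool}
    (h : ∀ n, ∃ h, D Γ ω n true 1 h) :
    Set.Infinite {g : FP H | (openG (cay (SG S)) ω).Reachable 1 g} := by
  classical
  choose f hf using h
  have hlen : ∀ n, ((Word.equiv (M := fun _ : Bool => H)) (f n)).toList.length = n := by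
    intro n
    obtain ⟨w, _, h2, h3⟩ := D_form (hf n)
    rw [h2, one_mul]
    have : (Word.equiv (M := fun _ : Bool => H)) w.prod = w :=
      (Word.equiv (M := fun _ : Bool => H)).apply_symm_apply w
    rw [this, h3]
  refine Set.infinite_of_injective_forall_mem (f := f) ?_ fun n => D_reach S hΓ (hf n)
  intro m n hmn
  rw [← hlen m, ← hlen n, hmn]

lemma D_closed (S : Set H) {ω : Sym2 (FP H) → Bool} (n : ℕ) (i : Bool) (g h : FP H)
    (hD : D (cay S) ω (n + 1) i g h) (j : Bool) (t : H) (ht : t ≠ 1)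
    (hadj : ∀ x, (cay S).Adj x (x * t)) (hω : ω s(h, h * ii j t) = true) :
    ∃ n', D (cay S) ω n' i g (h * ii j t) := by
  induction n generalizing i g with
  | zero =>
    obtain ⟨x, hx, h1, h2⟩ := hD
    have h2' : h = g * ii i x := h2
    subst h2'
    by_cases hj : j = i
    · subst hj
      have e : g * ii j x * ii j t = g * ii j (x * t) := by rw [map_mul, mul_assoc]
      by_cases hxt : x * t = 1
      · refine ⟨0, ?_⟩
        show g * ii j x * ii j t = g
        rw [e, hxt, map_one, mul_one]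
      · refine ⟨1, x * t, hxt, ?_, e⟩
        obtain ⟨_, rfl, _, rfl, h3⟩ := h1
        refine ⟨1, rfl, _, rfl, h3.trans (SimpleGraph.Adj.reachable ⟨hadj _, ?_⟩)⟩
        show ω (Sym2.map _ s(_, _)) = true
        rw [Sym2.map_mk, ← e]
        exact hω
    · have hj' : j = !i := by cases i <;> cases j <;> simp_all
      subst hj'
      refine ⟨2, x, hx, h1, t, ht, ?_, rfl⟩
      refine ⟨1, rfl, t, rfl, SimpleGraph.Adj.reachable ⟨?_, ?_⟩⟩
      · have := hadj 1
        rwa [one_mul] at this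
      · show ω (Sym2.map _ s(_, _)) = true
        rw [Sym2.map_mk, map_one, mul_one]
        exact hω
  | succ n ih =>
    obtain ⟨x, hx, h1, h2⟩ := hD
    obtain ⟨n', hn'⟩ := ih (!i) (g * ii i x) h2
    exact ⟨n' + 1, x, hx, h1, hn'⟩

lemma reach_D (S : Set H) {ω : Sym2 (FP H) → Bool} {h : FP H}
    (hr : (openG (cay (SG S)) ω).Reachable 1 h) : ∃ i n, D (cay S) ω n i 1 h := by
  rw [SimpleGraph.reachable_iff_reflTransGen] at hr
  induction hr with
  | refl => exact ⟨true, 0, rfl⟩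
  | @tail c d _ hcd ih =>
    obtain ⟨i, n, hn⟩ := ih
    obtain ⟨j, t, ht, rfl, hadj⟩ := cayG_adj S hcd.1
    cases n with
    | zero =>
      have hc : c = 1 := hn
      subst hc
      refine ⟨j, 1, t, ht, ?_, ?_⟩
      · refine ⟨1, rfl, t, rfl, SimpleGraph.Adj.reachable ⟨?_, ?_⟩⟩
        · have := hadj 1
          rwa [one_mul] at this
        · show ω (Sym2.map _ s(_, _)) = true
          rw [Sym2.map_mk, map_one, mul_one]
          exact hcd.2
      · rfl
    | succ n =>
      obtain ⟨n', hn'⟩ := D_closed S n i 1 c hn j t ht hadj hcd.2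
      exact ⟨i, n', hn'⟩

instance [Countable H] : Countable (FP H) := by
  classical
  have h1 : Function.Injective (fun w : Word (fun _ : Bool => H) => w.toList) :=
    fun w w' h => Word.ext h
  haveI : Countable (Word (fun _ : Bool => H)) := h1.countable
  exact (Word.equiv (M := fun _ : Bool => H)).injective.countable

/-- subcritical case -/
theorem finite_of_kap [Countable H] (q : NNReal) (hq : q ≤ 1) (S : Set H)
    (h : kap q hq (cay S) < 1) :
    bm (Sym2 (FP H)) q hq
      {ω | Set.Infinite {g : FP H | (openG (cay (SG S)) ω).Reachable 1 g}} = 0 := by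
  classical
  have h1 : ∑' g : FP H, bm (Sym2 (FP H)) q hq
      (⋃ i : Bool, ⋃ n : ℕ, evD (cay S) n i 1 g) ≠ ⊤ := by
    have h2 : ∑' g : FP H, bm (Sym2 (FP H)) q hq
        (⋃ i : Bool, ⋃ n : ℕ, evD (cay S) n i 1 g) ≤
        ∑' i : Bool, ∑' n : ℕ, kap q hq (cay S) ^ n := by
      calc ∑' g : FP H, bm (Sym2 (FP H)) q hq (⋃ i : Bool, ⋃ n : ℕ, evD (cay S) n i 1 g)
          ≤ ∑' g : FP H, ∑' i : Bool, ∑' n : ℕ, bm (Sym2 (FP H)) q hq (evD (cay S) n i 1 g) := by
            refine ENNReal.tsum_le_tsum fun g => ?_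
            refine (measure_iUnion_le _).trans ?_
            exact ENNReal.tsum_le_tsum fun i => measure_iUnion_le _
        _ = ∑' i : Bool, ∑' n : ℕ, ∑' g : FP H, bm (Sym2 (FP H)) q hq (evD (cay S) n i 1 g) := by
            rw [ENNReal.tsum_comm]
            refine tsum_congr fun i => ?_
            rw [ENNReal.tsum_comm]
        _ ≤ ∑' i : Bool, ∑' n : ℕ, kap q hq (cay S) ^ n :=
            ENNReal.tsum_le_tsum fun i => ENNReal.tsum_le_tsum fun n => sum_evD_le q hq _ n i 1
    refine ne_top_of_le_ne_top ?_ h2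
    rw [tsum_fintype]
    simp only [Finset.sum_const, Finset.card_univ, Fintype.card_bool, nsmul_eq_mul]
    rw [ENNReal.tsum_geometric]
    refine ENNReal.mul_ne_top (by simp) ?_
    rw [Ne, ENNReal.inv_eq_top]
    exact (tsub_pos_of_lt h).ne'
  have h3 := MeasureTheory.ae_finite_setOf_mem h1
  rw [ae_iff] at h3
  refine measure_mono_null ?_ h3
  intro ω hω hfin
  refine hω (hfin.subset ?_)
  intro g hg
  obtain ⟨i, n, hD⟩ := reach_D S hg
  simp only [mem_setOf_eq, mem_iUnion]
  exact ⟨i, n, hD⟩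

end Pool.Agent.H978R2
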