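import Pool.Agent.H978R2.FreeProd

/-!
# Percolation on the free product of two copies of a group: supercritical case
-/

set_option autoImplicit false
set_option linter.all false
set_option linter.deprecated false

open MeasureTheory Set Monoid.CoprodI

namespace Pool.Agent.H978R2

variable {H : Type} [Group H]

/-- survival up to generation `n`, using only letters in `F` -/
def R (Γ : SimpleGraph H) (F : Finset H) (ω : Sym2 (FP H) → Bool) : ℕ → Bool → FP H → Prop
  | 0, _, _ => True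
  | n + 1, i, g => ∃ x ∈ F, Rch Γ (cfg g i ω) {1} {x} ∧ R Γ F ω n (!i) (g * ii i x)

lemma R_D {Γ : SimpleGraph H} {F : Finset H} (hF : (1 : H) ∉ F) {ω : Sym2 (FP H) → Bool} {n : ℕ}
    {i : Bool} {g : FP H} (h : R Γ F ω n i g) : ∃ k, D Γ ω n i g k := by
  induction n generalizing i g with
  | zero => exact ⟨g, rfl⟩
  | succ n ih =>
    obtain ⟨x, hx, h1, h2⟩ := h
    obtain ⟨k, hk⟩ := ih h2
    exact ⟨k, x, fun h => hF (h ▸ hx), h1, hk⟩

lemma R_anti {Γ : SimpleGraph H} {F : Finset H} {ω : Sym2 (FP H) → Bool} {n : ℕ}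
    {i : Bool} {g : FP H} (h : R Γ F ω (n + 1) i g) : R Γ F ω n i g := by
  induction n generalizing i g with
  | zero => trivial
  | succ n ih =>
    obtain ⟨x, hx, h1, h2⟩ := h
    exact ⟨x, hx, h1, ih h2⟩

def evR (Γ : SimpleGraph H) (F : Finset H) (n : ℕ) (i : Bool) (g : FP H) :
    Set (Sym2 (FP H) → Bool) := {ω | R Γ F ω n i g}

lemma evR_succ (Γ : SimpleGraph H) (F : Finset H) (n : ℕ) (i : Bool) (g : FP H) :
    evR Γ F (n + 1) i g = ⋃ x ∈ F, (evC Γ i g x ∩ evR Γ F n (!i) (g * ii i x)) := by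
  ext ω
  simp only [mem_iUnion, exists_prop]
  rfl

lemma meas_evR [Countable H] (Γ : SimpleGraph H) (F : Finset H) (n : ℕ) (i : Bool) (g : FP H) :
    MeasurableSet (evR Γ F n i g) := by
  induction n generalizing i g with
  | zero =>
    have : evR Γ F 0 i g = univ := by
      ext ω; exact ⟨fun _ => trivial, fun _ => trivial⟩
    rw [this]; exact MeasurableSet.univ
  | succ n ih =>
    rw [evR_succ]
    exact Finset.measurableSet_biUnion F fun x _ => (meas_evC Γ i g x).inter (ih _ _)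

lemma dep_evR (Γ : SimpleGraph H) (F : Finset H) (hF : (1 : H) ∉ F) (n : ℕ) (i : Bool)
    (g : FP H) : DepOn (brE (T i g)) (evR Γ F n i g) := by
  induction n generalizing i g with
  | zero => exact fun ω ω' _ => Iff.rfl
  | succ n ih =>
    intro ω ω' hω
    rw [evR_succ]
    simp only [mem_iUnion, exists_prop]
    refine exists_congr fun x => and_congr_right fun hx => and_congr ?_ ?_
    · exact ((dep_evC Γ i g x).mono (brE_mono (coset_sub i g))) ω ω' hω
    · exact ((ih (!i) (g * ii i x)).mono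
        (brE_mono (T_sub (fun h => hF (h ▸ hx))))) ω ω' hω

lemma indep_prod [Countable H] (q : NNReal) (hq : q ≤ 1) (Γ : SimpleGraph H) (F : Finset H)
    (hF : (1 : H) ∉ F) (n : ℕ) (i : Bool) (g : FP H) (Z : Set (Sym2 (FP H) → Bool))
    (hZ : MeasurableSet Z) (dZ : DepOn (brE (range (fun x : H => g * ii i x))) Z)
    (A : Finset H) :
    bm (Sym2 (FP H)) q hq (Z ∩ ⋂ x ∈ A, (evR Γ F n (!i) (g * ii i x))ᶜ) =
      bm (Sym2 (FP H)) q hq Z * ∏ x ∈ A, bm (Sym2 (FP H)) q hq (evR Γ F n (!i) (g * ii i x))ᶜ := by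
  classical
  induction A using Finset.induction_on with
  | empty => simp
  | insert a A ha ih =>
    rw [Finset.prod_insert ha]
    have e : (Z ∩ ⋂ x ∈ insert a A, (evR Γ F n (!i) (g * ii i x))ᶜ) =
        (Z ∩ ⋂ x ∈ A, (evR Γ F n (!i) (g * ii i x))ᶜ) ∩ (evR Γ F n (!i) (g * ii i a))ᶜ := by
      ext ω
      simp only [mem_inter_iff, mem_iInter, Finset.mem_insert, forall_eq_or_imp]
      tauto
    rw [e, bm_inter q hq (J := brE (range (fun x : H => g * ii i x)) ∪
      ⋃ x ∈ A, brE (T (!i) (g * ii i x))) (J' := brE (T (!i) (g * ii i a))), ih]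
    · ring
    · rw [Set.disjoint_union_left]
      refine ⟨brE_disj (coset_T i g a), ?_⟩
      rw [Set.disjoint_iUnion₂_left]
      intro x hx
      exact brE_disj (T_T i g (fun h => ha (h ▸ hx)))
    · exact hZ.inter (Finset.measurableSet_biInter A fun x _ => (meas_evR Γ F n _ _).compl)
    · exact (meas_evR Γ F n _ _).compl
    · refine (dZ.mono subset_union_left).inter ?_
      intro ω ω' hω
      simp only [mem_iInter]
      refine forall_congr' fun x => forall_congr' fun hx => ?_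
      refine ((dep_evR Γ F hF n (!i) (g * ii i x)).compl) ω ω' fun e he => hω e ?_
      exact Or.inr (mem_iUnion₂.2 ⟨x, hx, he⟩)
    · exact (dep_evR Γ F hF n (!i) (g * ii i a)).compl

open Classical in
/-- the reached set -/
noncomputable def XX (Γ : SimpleGraph H) (F : Finset H) (i : Bool) (g : FP H)
    (ω : Sym2 (FP H) → Bool) : Finset H := F.filter fun x => ω ∈ evC Γ i g x

def ZZ (Γ : SimpleGraph H) (F : Finset H) (i : Bool) (g : FP H) (A : Finset H) :
    Set (Sym2 (FP H) → Bool) := {ω | XX Γ F i g ω = A}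

lemma meas_ZZ [Countable H] (Γ : SimpleGraph H) (F : Finset H) (i : Bool) (g : FP H)
    (A : Finset H) : MeasurableSet (ZZ Γ F i g A) := by
  classical
  have : ZZ Γ F i g A = ⋂ x : H, {ω | x ∈ XX Γ F i g ω ↔ x ∈ A} := by
    ext ω
    rw [mem_iInter]
    exact Finset.ext_iff
  rw [this]
  refine MeasurableSet.iInter fun x => ?_
  by_cases hF : x ∈ F
  · by_cases hA : x ∈ A
    · have : {ω | x ∈ XX Γ F i g ω ↔ x ∈ A} = evC Γ i g x := by
        ext ω
        show (x ∈ XX Γ F i g ω ↔ x ∈ A) ↔ _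
        simp [XX, hF, hA]
      rw [this]; exact meas_evC Γ i g x
    · have : {ω | x ∈ XX Γ F i g ω ↔ x ∈ A} = (evC Γ i g x)ᶜ := by
        ext ω
        show (x ∈ XX Γ F i g ω ↔ x ∈ A) ↔ _
        simp [XX, hF, hA]
      rw [this]; exact (meas_evC Γ i g x).compl
  · by_cases hA : x ∈ A
    · have : {ω | x ∈ XX Γ F i g ω ↔ x ∈ A} = ∅ := by
        ext ω
        show (x ∈ XX Γ F i g ω ↔ x ∈ A) ↔ _
        simp [XX, hF, hA]
      rw [this]; exact MeasurableSet.empty
    · have : {ω | x ∈ XX Γ F i g ω ↔ x ∈ A} = univ := by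
        ext ω
        show (x ∈ XX Γ F i g ω ↔ x ∈ A) ↔ _
        simp [XX, hF, hA]
      rw [this]; exact MeasurableSet.univ

lemma dep_ZZ (Γ : SimpleGraph H) (F : Finset H) (i : Bool) (g : FP H) (A : Finset H) :
    DepOn (brE (range (fun x : H => g * ii i x))) (ZZ Γ F i g A) := by
  classical
  intro ω ω' h
  show XX Γ F i g ω = A ↔ XX Γ F i g ω' = A
  have : XX Γ F i g ω = XX Γ F i g ω' := by
    unfold XX
    exact Finset.filter_congr fun x _ => dep_evC Γ i g x ω ω' h
  rw [this]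

lemma sum_ZZ [Countable H] (q : NNReal) (hq : q ≤ 1) (Γ : SimpleGraph H) (F : Finset H)
    (i : Bool) (g : FP H) (P : Finset H → Prop) [DecidablePred P] :
    (bm (Sym2 (FP H)) q hq).real {ω | P (XX Γ F i g ω)} =
      ∑ A ∈ F.powerset.filter P, (bm (Sym2 (FP H)) q hq).real (ZZ Γ F i g A) := by
  classical
  have : {ω | P (XX Γ F i g ω)} = ⋃ A ∈ F.powerset.filter P, ZZ Γ F i g A := by
    ext ω
    simp only [mem_iUnion, exists_prop, Finset.mem_filter, Finset.mem_powerset]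
    constructor
    · intro h
      exact ⟨XX Γ F i g ω, ⟨Finset.filter_subset _ _, h⟩, rfl⟩
    · rintro ⟨A, ⟨_, hA⟩, h⟩
      have h' : XX Γ F i g ω = A := h
      show P (XX Γ F i g ω)
      rw [h']; exact hA
  rw [this, measureReal_biUnion_finset]
  · intro A _ B _ hAB
    refine Set.disjoint_left.2 fun ω h1 h2 => hAB ?_
    have h1' : XX Γ F i g ω = A := h1
    have h2' : XX Γ F i g ω = B := h2
    rw [← h1', ← h2']
  · intro A _
    exact meas_ZZ Γ F i g A

lemma pow_bound (ε : ℝ) (h0 : 0 ≤ ε) (h1 : ε ≤ 1) (k : ℕ) :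
    (1 - ε) ^ k ≤ 1 - k * ε + (k : ℝ) ^ 2 * ε ^ 2 := by
  induction k with
  | zero => simp
  | succ k ih =>
    have h2 : 0 ≤ 1 - ε := by linarith
    have h3 : (1 - ε) ^ (k + 1) ≤ (1 - ε) * (1 - k * ε + (k : ℝ) ^ 2 * ε ^ 2) := by
      rw [pow_succ']
      exact mul_le_mul_of_nonneg_left ih h2
    refine h3.trans ?_
    push_cast
    have h4 : (0 : ℝ) ≤ k := Nat.cast_nonneg k
    nlinarith [mul_nonneg (mul_nonneg h4 h4) (mul_nonneg (mul_nonneg h0 h0) h0),
      mul_nonneg h4 (mul_nonneg h0 h0), mul_nonneg h0 h0]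

/-- the main recursion -/
lemma surv_bound [Countable H] (q : NNReal) (hq : q ≤ 1) (Γ : SimpleGraph H) (F : Finset H)
    (hF : (1 : H) ∉ F) (ε : ℝ) (h0 : 0 ≤ ε) (h1 : ε ≤ 1)
    (hε : (F.card : ℝ) ^ 2 * ε ≤ (∑ x ∈ F, (hit q hq Γ {1} {x}).toReal) - 1) (n : ℕ) :
    ∀ (i : Bool) (g : FP H), (bm (Sym2 (FP H)) q hq).real (evR Γ F n i g)ᶜ ≤ 1 - ε := by
  classical
  induction n with
  | zero =>
    intro i g
    have : evR Γ F 0 i g = univ := by
      ext ω; exact ⟨fun _ => trivial, fun _ => trivial⟩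
    rw [this]
    simp
    exact h1
  | succ n ih =>
    intro i g
    set μ := bm (Sym2 (FP H)) q hq with hμ
    have hsub : (evR Γ F (n + 1) i g)ᶜ ⊆ ⋃ A ∈ F.powerset,
        (ZZ Γ F i g A ∩ ⋂ x ∈ A, (evR Γ F n (!i) (g * ii i x))ᶜ) := by
      intro ω hω
      rw [mem_compl_iff, evR_succ] at hω
      simp only [mem_iUnion, exists_prop, not_exists, not_and] at hω
      simp only [mem_iUnion, exists_prop, Finset.mem_powerset]
      refine ⟨XX Γ F i g ω, Finset.filter_subset _ _, rfl, ?_⟩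
      simp only [mem_iInter]
      intro x hx
      have hx' : x ∈ F ∧ ω ∈ evC Γ i g x := by
        unfold XX at hx
        rwa [Finset.mem_filter] at hx
      exact fun h => hω x hx'.1 ⟨hx'.2, h⟩
    have e1 : ∀ A ∈ F.powerset, μ.real (ZZ Γ F i g A ∩ ⋂ x ∈ A, (evR Γ F n (!i) (g * ii i x))ᶜ) ≤
        μ.real (ZZ Γ F i g A) * (1 - A.card * ε + (F.card : ℝ) ^ 2 * ε ^ 2) := by
      intro A hA
      have hAc : A.card ≤ F.card := Finset.card_le_card (Finset.mem_powerset.1 hA)
      have h2 := indep_prod q hq Γ F hF n i g (ZZ Γ F i g A) (meas_ZZ Γ F i g A)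
        (dep_ZZ Γ F i g A) A
      have h3 : μ.real (ZZ Γ F i g A ∩ ⋂ x ∈ A, (evR Γ F n (!i) (g * ii i x))ᶜ) =
          μ.real (ZZ Γ F i g A) * ∏ x ∈ A, μ.real (evR Γ F n (!i) (g * ii i x))ᶜ := by
        unfold Measure.real
        rw [h2, ENNReal.toReal_mul, ENNReal.toReal_prod]
      rw [h3]
      refine mul_le_mul_of_nonneg_left ?_ measureReal_nonneg
      calc ∏ x ∈ A, μ.real (evR Γ F n (!i) (g * ii i x))ᶜ ≤ ∏ x ∈ A, (1 - ε) :=
            Finset.prod_le_prod (fun _ _ => measureReal_nonneg) fun x _ => ih _ _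
        _ = (1 - ε) ^ A.card := by rw [Finset.prod_const]
        _ ≤ 1 - A.card * ε + (A.card : ℝ) ^ 2 * ε ^ 2 := pow_bound ε h0 h1 _
        _ ≤ 1 - A.card * ε + (F.card : ℝ) ^ 2 * ε ^ 2 := by
            have : (A.card : ℝ) ≤ F.card := by exact_mod_cast hAc
            gcongr
    have s1 : ∑ A ∈ F.powerset, μ.real (ZZ Γ F i g A) = 1 := by
      have := sum_ZZ q hq Γ F i g (fun _ => True)
      simp only [Finset.filter_true] at this
      rw [← this]
      have h : {ω : Sym2 (FP H) → Bool | True} = univ := by ext; simp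
      rw [h]
      simp
    have s2 : ∑ A ∈ F.powerset, μ.real (ZZ Γ F i g A) * A.card =
        ∑ x ∈ F, (hit q hq Γ {1} {x}).toReal := by
      have h2 : ∀ x ∈ F, (hit q hq Γ {1} {x}).toReal =
          ∑ A ∈ F.powerset, if x ∈ A then μ.real (ZZ Γ F i g A) else 0 := by
        intro x hx
        rw [← Finset.sum_filter, ← sum_ZZ q hq Γ F i g (fun A => x ∈ A), ← bm_evC q hq Γ i g x]
        unfold Measure.real
        congr 2
        ext ω
        show _ ↔ x ∈ XX Γ F i g ω
        simp [XX, hx]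
      rw [Finset.sum_congr rfl h2, Finset.sum_comm]
      refine Finset.sum_congr rfl fun A hA => ?_
      rw [← Finset.sum_filter]
      have : F.filter (fun x => x ∈ A) = A := by
        ext x
        simp only [Finset.mem_filter]
        exact ⟨fun h => h.2, fun h => ⟨Finset.mem_powerset.1 hA h, h⟩⟩
      rw [this, Finset.sum_const, nsmul_eq_mul, mul_comm]
    calc μ.real (evR Γ F (n + 1) i g)ᶜ
        ≤ μ.real (⋃ A ∈ F.powerset,
          (ZZ Γ F i g A ∩ ⋂ x ∈ A, (evR Γ F n (!i) (g * ii i x))ᶜ)) :=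
          measureReal_mono hsub (measure_ne_top _ _)
      _ ≤ ∑ A ∈ F.powerset, μ.real (ZZ Γ F i g A ∩ ⋂ x ∈ A, (evR Γ F n (!i) (g * ii i x))ᶜ) :=
          measureReal_biUnion_finset_le _ _
      _ ≤ ∑ A ∈ F.powerset, μ.real (ZZ Γ F i g A) * (1 - A.card * ε + (F.card : ℝ) ^ 2 * ε ^ 2) :=
          Finset.sum_le_sum e1
      _ = (∑ A ∈ F.powerset, μ.real (ZZ Γ F i g A)) * (1 + (F.card : ℝ) ^ 2 * ε ^ 2) -
            ε * ∑ A ∈ F.powerset, μ.real (ZZ Γ F i g A) * A.card := by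
          rw [Finset.sum_mul, Finset.mul_sum, ← Finset.sum_sub_distrib]
          exact Finset.sum_congr rfl fun A _ => by ring
      _ = 1 + (F.card : ℝ) ^ 2 * ε ^ 2 - ε * ∑ x ∈ F, (hit q hq Γ {1} {x}).toReal := by
          rw [s1, s2, one_mul]
      _ ≤ 1 - ε := by nlinarith [mul_le_mul_of_nonneg_left hε h0]

/-- supercritical case -/
theorem infinite_of_kap [Countable H] (q : NNReal) (hq : q ≤ 1) (S : Set H)
    (h : 1 < kap q hq (cay S)) :
    bm (Sym2 (FP H)) q hq
      {ω | Set.Infinite {g : FP H | (openG (cay (SG S)) ω).Reachable 1 g}} ≠ 0 := by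
  classical
  unfold kap at h
  rw [ENNReal.tsum_eq_iSup_sum, lt_iSup_iff] at h
  obtain ⟨F', hF'⟩ := h
  set F : Finset H := F'.map ⟨Subtype.val, Subtype.val_injective⟩ with hFdef
  have hF : (1 : H) ∉ F := by
    intro h
    rw [hFdef, Finset.mem_map] at h
    obtain ⟨x, _, hx⟩ := h
    exact x.2 hx
  have hsum : 1 < ∑ x ∈ F, hit q hq (cay S) {1} {x} := by
    rw [hFdef, Finset.sum_map]; exact hF'
  have hsum' : 1 < ∑ x ∈ F, (hit q hq (cay S) {1} {x}).toReal := by
    rw [← ENNReal.toReal_sum (fun x _ => ne_top_of_le_ne_top ENNReal.one_ne_top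
      (hit_le_one q hq _ _ _))]
    have hne : ∑ x ∈ F, hit q hq (cay S) {1} {x} ≠ ⊤ :=
      ENNReal.sum_ne_top.2 fun x _ => ne_top_of_le_ne_top ENNReal.one_ne_top
      (hit_le_one q hq _ _ _)
    rw [← ENNReal.toReal_one]
    exact (ENNReal.toReal_lt_toReal ENNReal.one_ne_top hne).2 hsum
  set m := ∑ x ∈ F, (hit q hq (cay S) {1} {x}).toReal
  obtain ⟨ε, h0, h1, hε⟩ : ∃ ε : ℝ, 0 < ε ∧ ε ≤ 1 ∧ (F.card : ℝ) ^ 2 * ε ≤ m - 1 := by
    refine ⟨min 1 ((m - 1) / ((F.card : ℝ) ^ 2 + 1)), ?_, min_le_left _ _, ?_⟩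
    · refine lt_min one_pos (div_pos (by linarith) (by positivity))
    · have h2 : (F.card : ℝ) ^ 2 * min 1 ((m - 1) / ((F.card : ℝ) ^ 2 + 1)) ≤
          (F.card : ℝ) ^ 2 * ((m - 1) / ((F.card : ℝ) ^ 2 + 1)) := by
        gcongr
        exact min_le_right _ _
      refine h2.trans ?_
      rw [mul_div_assoc', div_le_iff₀ (by positivity)]
      nlinarith
  have hb : ∀ n, (bm (Sym2 (FP H)) q hq).real (evR (cay S) F n true 1)ᶜ ≤ 1 - ε := fun n =>
    surv_bound q hq (cay S) F hF ε h0.le h1 hε n true 1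
  have hb2 : ∀ n, ENNReal.ofReal ε ≤ bm (Sym2 (FP H)) q hq (evR (cay S) F n true 1) := by
    intro n
    have h2 := hb n
    rw [probReal_compl_eq_one_sub (meas_evR (cay S) F n true 1)] at h2
    have h3 : ε ≤ (bm (Sym2 (FP H)) q hq).real (evR (cay S) F n true 1) := by linarith
    exact ENNReal.ofReal_le_of_le_toReal h3
  have hanti : Antitone fun n => evR (cay S) F n true 1 :=
    antitone_nat_of_succ_le fun n ω hω => R_anti hω
  have hlim := tendsto_measure_iInter_atTop (μ := bm (Sym2 (FP H)) q hq)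
    (fun n => (meas_evR (cay S) F n true 1).nullMeasurableSet) hanti
    ⟨0, measure_ne_top _ _⟩
  have h5 : ENNReal.ofReal ε ≤ bm (Sym2 (FP H)) q hq (⋂ n, evR (cay S) F n true 1) :=
    ge_of_tendsto hlim (Filter.Eventually.of_forall hb2)
  have h6 : (⋂ n, evR (cay S) F n true 1) ⊆
      {ω | Set.Infinite {g : FP H | (openG (cay (SG S)) ω).Reachable 1 g}} := by
    intro ω hω
    rw [mem_iInter] at hω
    exact infinite_of_D S le_rfl fun n => R_D hF (hω n)
  have h7 := h5.trans (measure_mono h6)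
  intro h8
  rw [h8] at h7
  have : 0 < ENNReal.ofReal ε := ENNReal.ofReal_pos.2 h0
  exact absurd h7 (not_le.2 this)

end Pool.Agent.H978R2
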