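import Pool.Agent.H978R2.TwoStage

/-!
# Probability of the good event; integrals of cycle lengths
-/

set_option autoImplicit false
set_option linter.all false
set_option linter.deprecated false

open MeasureTheory Set

namespace Pool.Agent.H978R2

lemma meas_goodRow (x0 y0 : ℤ) (n b w h m : ℕ) : MeasurableSet (goodRow x0 y0 n b w h m) := by
  have : goodRow x0 y0 n b w h m =
      crH (x0 - w) (x0 + m * n + w - 1) (y0 - w) (y0 - 1) ∩
      (crH (x0 - w) (x0 + m * n + w - 1) (y0 + b) (y0 + b + w - 1) ∩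
      (crV (x0 - w) (x0 - 1) (y0 - w) (y0 + b + w - 1) ∩
      (crV (x0 + m * n) (x0 + m * n + w - 1) (y0 - w) (y0 + b + w - 1) ∩
      ⋂ i : ℕ, ⋂ _ : i < m, ⋂ j : ℕ, ⋂ _ : (j + 1) * h ≤ n,
        crV (x0 + (i * n : ℕ) + j * h) (x0 + (i * n : ℕ) + j * h + h - 1) (y0 - w)
          (y0 + b - 1)))) := by
    ext ω
    simp only [mem_inter_iff, mem_iInter]
    rfl
  rw [this]
  refine (meas_crH _ _ _ _).inter ((meas_crH _ _ _ _).inter ((meas_crV _ _ _ _).inter
    ((meas_crV _ _ _ _).inter ?_)))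
  exact MeasurableSet.iInter fun i => MeasurableSet.iInter fun _ => MeasurableSet.iInter fun j =>
    MeasurableSet.iInter fun _ => meas_crV _ _ _ _

lemma goodRow_prob (q : NNReal) (hq : q ≤ 1) {K c : ℝ} (hK : 0 < K)
    (hH : ∀ a0 a1 b0 b1 : ℤ, a0 < a1 → b0 ≤ b1 →
      (bm (Sym2 (ℤ × ℤ)) q hq).real (crH a0 a1 b0 b1)ᶜ ≤
        K * (a1 - a0) * Real.exp (-c * (b1 - b0)))
    (hV : ∀ a0 a1 b0 b1 : ℤ, a0 ≤ a1 → b0 < b1 →
      (bm (Sym2 (ℤ × ℤ)) q hq).real (crV a0 a1 b0 b1)ᶜ ≤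
        K * (b1 - b0) * Real.exp (-c * (a1 - a0)))
    (x0 y0 : ℤ) {n b h m : ℕ} (hn : 1 ≤ n) (hb : 1 ≤ b) (hh : 1 ≤ h) (hm : 1 ≤ m) :
    (bm (Sym2 (ℤ × ℤ)) q hq).real (goodRow x0 y0 n b h h m)ᶜ ≤
      (4 + m * n) * (K * (m * n + b + 2 * h) * Real.exp (-c * (h - 1))) := by
  classical
  set μ := bm (Sym2 (ℤ × ℤ)) q hq with hμ
  set ρ : ℝ := K * (m * n + b + 2 * h) * Real.exp (-c * (h - 1)) with hρ
  have hn' : (1 : ℝ) ≤ n := by exact_mod_cast hn
  have hb' : (1 : ℝ) ≤ b := by exact_mod_cast hb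
  have hh' : (1 : ℝ) ≤ h := by exact_mod_cast hh
  have hm' : (1 : ℝ) ≤ m := by exact_mod_cast hm
  have hexp := Real.exp_pos (-c * ((h : ℝ) - 1))
  have hmnz : (1 : ℤ) ≤ m * n := by
    have : 1 ≤ m * n := Nat.mul_pos hm hn
    exact_mod_cast this
  have hmn0 : (0 : ℝ) ≤ m * n := by positivity
  -- all events have probability at most ρ
  have e1 : μ.real (crH (x0 - h) (x0 + m * n + h - 1) (y0 - h) (y0 - 1))ᶜ ≤ ρ := by
    refine (hH _ _ _ _ (by omega) (by omega)).trans ?_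
    rw [hρ]
    push_cast
    have : (y0 : ℝ) - 1 - (y0 - h) = h - 1 := by ring
    rw [this]
    refine mul_le_mul_of_nonneg_right (mul_le_mul_of_nonneg_left ?_ hK.le) hexp.le
    linarith
  have e2 : μ.real (crH (x0 - h) (x0 + m * n + h - 1) (y0 + b) (y0 + b + h - 1))ᶜ ≤ ρ := by
    refine (hH _ _ _ _ (by omega) (by omega)).trans ?_
    rw [hρ]
    push_cast
    have : (y0 : ℝ) + b + h - 1 - (y0 + b) = h - 1 := by ring
    rw [this]
    refine mul_le_mul_of_nonneg_right (mul_le_mul_of_nonneg_left ?_ hK.le) hexp.le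
    linarith
  have e3 : μ.real (crV (x0 - h) (x0 - 1) (y0 - h) (y0 + b + h - 1))ᶜ ≤ ρ := by
    refine (hV _ _ _ _ (by omega) (by omega)).trans ?_
    rw [hρ]
    push_cast
    have : (x0 : ℝ) - 1 - (x0 - h) = h - 1 := by ring
    rw [this]
    refine mul_le_mul_of_nonneg_right (mul_le_mul_of_nonneg_left ?_ hK.le) hexp.le
    linarith
  have e4 : μ.real (crV (x0 + m * n) (x0 + m * n + h - 1) (y0 - h) (y0 + b + h - 1))ᶜ ≤ ρ := by
    refine (hV _ _ _ _ (by omega) (by omega)).trans ?_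
    rw [hρ]
    push_cast
    have : (x0 : ℝ) + m * n + h - 1 - (x0 + m * n) = h - 1 := by ring
    rw [this]
    refine mul_le_mul_of_nonneg_right (mul_le_mul_of_nonneg_left ?_ hK.le) hexp.le
    linarith
  have e5 : ∀ i j : ℕ, μ.real (crV (x0 + (i * n : ℕ) + j * h) (x0 + (i * n : ℕ) + j * h + h - 1)
      (y0 - h) (y0 + b - 1))ᶜ ≤ ρ := by
    intro i j
    refine (hV _ _ _ _ (by omega) (by omega)).trans ?_
    rw [hρ]
    push_cast
    have : (x0 : ℝ) + i * n + j * h + h - 1 - (x0 + i * n + j * h) = h - 1 := by ring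
    rw [this]
    refine mul_le_mul_of_nonneg_right (mul_le_mul_of_nonneg_left ?_ hK.le) hexp.le
    linarith
  have hsub : (goodRow x0 y0 n b h h m)ᶜ ⊆
      (crH (x0 - h) (x0 + m * n + h - 1) (y0 - h) (y0 - 1))ᶜ ∪
      ((crH (x0 - h) (x0 + m * n + h - 1) (y0 + b) (y0 + b + h - 1))ᶜ ∪
      ((crV (x0 - h) (x0 - 1) (y0 - h) (y0 + b + h - 1))ᶜ ∪
      ((crV (x0 + m * n) (x0 + m * n + h - 1) (y0 - h) (y0 + b + h - 1))ᶜ ∪
      ⋃ i ∈ Finset.range m, ⋃ j ∈ Finset.range n,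
        (crV (x0 + (i * n : ℕ) + j * h) (x0 + (i * n : ℕ) + j * h + h - 1) (y0 - h)
          (y0 + b - 1))ᶜ))) := by
    intro ω hω
    by_contra hcon
    simp only [mem_union, mem_compl_iff, not_or, not_not, mem_iUnion, Finset.mem_range,
      exists_prop, not_exists, not_and] at hcon
    apply hω
    refine ⟨hcon.1, hcon.2.1, hcon.2.2.1, hcon.2.2.2.1, fun i hi j hj => ?_⟩
    refine hcon.2.2.2.2 i hi j ?_
    have : (j + 1) * 1 ≤ (j + 1) * h := Nat.mul_le_mul_left _ hh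
    omega
  have hstr : μ.real (⋃ i ∈ Finset.range m, ⋃ j ∈ Finset.range n,
        (crV (x0 + (i * n : ℕ) + j * h) (x0 + (i * n : ℕ) + j * h + h - 1) (y0 - h)
          (y0 + b - 1))ᶜ) ≤ m * n * ρ := by
    refine (measureReal_biUnion_finset_le _ _).trans ?_
    have : ∀ i ∈ Finset.range m, μ.real (⋃ j ∈ Finset.range n,
        (crV (x0 + (i * n : ℕ) + j * h) (x0 + (i * n : ℕ) + j * h + h - 1) (y0 - h)
          (y0 + b - 1))ᶜ) ≤ n * ρ := by
      intro i _
      refine (measureReal_biUnion_finset_le _ _).trans ?_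
      refine (Finset.sum_le_sum fun j _ => e5 i j).trans ?_
      rw [Finset.sum_const, Finset.card_range, nsmul_eq_mul]
    refine (Finset.sum_le_sum this).trans ?_
    rw [Finset.sum_const, Finset.card_range, nsmul_eq_mul]
    linarith
  refine (measureReal_mono hsub (measure_ne_top _ _)).trans ?_
  refine (measureReal_union_le _ _).trans ?_
  refine (add_le_add e1 ((measureReal_union_le _ _).trans (add_le_add e2
    ((measureReal_union_le _ _).trans (add_le_add e3 ((measureReal_union_le _ _).trans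
      (add_le_add e4 hstr))))))).trans ?_
  linarith

lemma rel_measurable (σ : (ℤ × ℤ) ≃ (ℤ × ℤ)) : Measurable (rel σ) := by
  rw [measurable_pi_iff]; intro i; exact measurable_pi_apply _

lemma map_rel (q : NNReal) (hq : q ≤ 1) (σ : (ℤ × ℤ) ≃ (ℤ × ℤ)) :
    (bm (Sym2 (ℤ × ℤ)) q hq).map (rel σ) = bm (Sym2 (ℤ × ℤ)) q hq :=
  map_comp_inj q hq (Sym2.map σ) (Sym2.map.injective σ.injective)

lemma goodTwo_prob (q : NNReal) (hq : q ≤ 1) {K c : ℝ} (hK : 0 < K)
    (hH : ∀ a0 a1 b0 b1 : ℤ, a0 < a1 → b0 ≤ b1 →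
      (bm (Sym2 (ℤ × ℤ)) q hq).real (crH a0 a1 b0 b1)ᶜ ≤
        K * (a1 - a0) * Real.exp (-c * (b1 - b0)))
    (hV : ∀ a0 a1 b0 b1 : ℤ, a0 ≤ a1 → b0 < b1 →
      (bm (Sym2 (ℤ × ℤ)) q hq).real (crV a0 a1 b0 b1)ᶜ ≤
        K * (b1 - b0) * Real.exp (-c * (a1 - a0)))
    {n h m N : ℕ} (hn : 1 ≤ n) (hh : 1 ≤ h) (hm : 1 ≤ m) (hN : m * (n + 6 * h) ≤ N) :
    (bm (Sym2 (ℤ × ℤ)) q hq).real (goodTwo n h m)ᶜ ≤
      20 * K * N ^ 3 * Real.exp (-c * (h - 1)) := by
  classical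
  set μ := bm (Sym2 (ℤ × ℤ)) q hq with hμ
  have hsub : (goodTwo n h m)ᶜ ⊆
      (⋃ r ∈ Finset.range m, (goodRow (2 * h + 1) (h + 1 + (r * (n + 2 * h) : ℕ) + h) n n h h m)ᶜ) ∪
      {ω | rel swp ω ∈ (goodRow (h + 1) (h + 1) (n + 2 * h) (m * n + 2 * h) h h m)ᶜ} := by
    intro ω hω
    by_contra hcon
    simp only [mem_union, mem_compl_iff, not_or, not_not, mem_iUnion, Finset.mem_range,
      exists_prop, not_exists, not_and, mem_setOf_eq] at hcon
    exact hω hcon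
  set E := Real.exp (-c * ((h : ℝ) - 1)) with hE
  have hE0 : 0 < E := Real.exp_pos _
  have p1 : ∀ r ∈ Finset.range m,
      μ.real (goodRow (2 * h + 1) (h + 1 + (r * (n + 2 * h) : ℕ) + h) n n h h m)ᶜ ≤
        (4 + m * n) * (K * (m * n + n + 2 * h) * E) := fun r _ =>
    goodRow_prob q hq hK hH hV _ _ hn hn hh hm
  have p2 : μ.real {ω | rel swp ω ∈ (goodRow (h + 1) (h + 1) (n + 2 * h) (m * n + 2 * h) h h m)ᶜ} ≤
      (4 + m * (n + 2 * h)) * (K * (m * (n + 2 * h) + (m * n + 2 * h) + 2 * h) * E) := by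
    have h1 := goodRow_prob q hq hK hH hV (h + 1) (h + 1) (n := n + 2 * h) (b := m * n + 2 * h)
      (h := h) (m := m) (by omega) (by omega) hh hm
    have h2 : μ.real {ω | rel swp ω ∈ (goodRow (h + 1) (h + 1) (n + 2 * h) (m * n + 2 * h) h h m)ᶜ} =
        μ.real (goodRow (h + 1) (h + 1) (n + 2 * h) (m * n + 2 * h) h h m)ᶜ := by
      unfold Measure.real
      conv_rhs => rw [hμ, ← map_rel q hq swp]
      rw [Measure.map_apply (rel_measurable swp) (meas_goodRow _ _ _ _ _ _ _).compl]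
      rfl
    rw [h2]
    push_cast at h1
    exact h1
  have hn' : (1 : ℝ) ≤ n := by exact_mod_cast hn
  have hh' : (1 : ℝ) ≤ h := by exact_mod_cast hh
  have hm' : (1 : ℝ) ≤ m := by exact_mod_cast hm
  have hN' : (m : ℝ) * (n + 6 * h) ≤ N := by exact_mod_cast hN
  have hmh : (h : ℝ) ≤ m * h := by nlinarith
  have hmn1 : (n : ℝ) ≤ m * n := by nlinarith
  have hmn2 : (m : ℝ) ≤ m * n := by nlinarith
  have hmhm : (m : ℝ) ≤ m * h := by nlinarith
  have hNe : (m : ℝ) * (n + 6 * h) = m * n + 6 * (m * h) := by ring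
  rw [hNe] at hN'
  have hN1 : (1 : ℝ) ≤ N := by linarith
  have q1 : (4 + m * n : ℝ) ≤ 5 * N := by linarith
  have q2 : (m * n + n + 2 * h : ℝ) ≤ 2 * N := by linarith
  have q3 : (m : ℝ) ≤ N := by linarith
  have q4 : (4 + m * (n + 2 * h) : ℝ) ≤ 5 * N := by
    have : (m : ℝ) * (n + 2 * h) = m * n + 2 * (m * h) := by ring
    rw [this]; linarith
  have q5 : (m * (n + 2 * h) + (m * n + 2 * h) + 2 * h : ℝ) ≤ 2 * N := by
    have : (m : ℝ) * (n + 2 * h) = m * n + 2 * (m * h) := by ring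
    rw [this]; linarith
  have r1 : (4 + m * n : ℝ) * (K * (m * n + n + 2 * h) * E) ≤ 5 * N * (K * (2 * N) * E) := by
    refine mul_le_mul q1 ?_ (by positivity) (by positivity)
    exact mul_le_mul_of_nonneg_right (mul_le_mul_of_nonneg_left q2 hK.le) hE0.le
  have r2 : (4 + m * (n + 2 * h) : ℝ) * (K * (m * (n + 2 * h) + (m * n + 2 * h) + 2 * h) * E) ≤
      5 * N * (K * (2 * N) * E) := by
    refine mul_le_mul q4 ?_ (by positivity) (by positivity)
    exact mul_le_mul_of_nonneg_right (mul_le_mul_of_nonneg_left q5 hK.le) hE0.le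
  calc μ.real (goodTwo n h m)ᶜ ≤ μ.real ((⋃ r ∈ Finset.range m, (goodRow (2 * h + 1)
        (h + 1 + (r * (n + 2 * h) : ℕ) + h) n n h h m)ᶜ) ∪
        {ω | rel swp ω ∈ (goodRow (h + 1) (h + 1) (n + 2 * h) (m * n + 2 * h) h h m)ᶜ}) :=
        measureReal_mono hsub (measure_ne_top _ _)
    _ ≤ _ := measureReal_union_le _ _
    _ ≤ m * (5 * N * (K * (2 * N) * E)) + 5 * N * (K * (2 * N) * E) := by
        refine add_le_add ?_ (p2.trans r2)
        refine (measureReal_biUnion_finset_le _ _).trans ?_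
        refine (Finset.sum_le_sum fun r hr => (p1 r hr).trans r1).trans ?_
        rw [Finset.sum_const, Finset.card_range, nsmul_eq_mul]
    _ ≤ N * (5 * N * (K * (2 * N) * E)) + N * (5 * N * (K * (2 * N) * E)) := by
        refine add_le_add (mul_le_mul_of_nonneg_right q3 (by positivity)) ?_
        have : 0 ≤ 5 * (N : ℝ) * (K * (2 * N) * E) := by positivity
        nlinarith
    _ = 20 * K * N ^ 3 * E := by ring

end Pool.Agent.H978R2
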