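import Pool.Agent.H978R2.Family

/-!
# A strictly decreasing family of normal subgroups of the free group, indexed by the reals
-/

set_option autoImplicit false
set_option linter.all false
set_option linter.deprecated false

open MeasureTheory Set Monoid.CoprodI

namespace Pool.Agent.H978R2

/-- the free group -/
abbrev F2 : Type := FreeGroup Bool

abbrev PZ : Type := Equiv.Perm (ℤ × Fin 3)

def sg : Equiv.Perm (Fin 3) := Equiv.swap 0 1
def tu : Equiv.Perm (Fin 3) := Equiv.swap 1 2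

lemma sg_sg (x : Fin 3) : sg (sg x) = x := by fin_cases x <;> rfl
lemma tu_tu (x : Fin 3) : tu (tu x) = x := by fin_cases x <;> rfl

/-- fibrewise map -/
def fa (k : ℕ) (m : ℤ) (p : ℤ × Fin 3) : ℤ × Fin 3 :=
  (p.1, if p.1 = m then sg p.2 else if p.1 = m + ((k : ℤ) + 1) then tu p.2 else p.2)

lemma fa_fa (k : ℕ) (m : ℤ) (p : ℤ × Fin 3) : fa k m (fa k m p) = p := by
  unfold fa
  ext
  · rfl
  · simp only
    split_ifs <;> simp [sg_sg, tu_tu]

def aP (k : ℕ) (m : ℤ) : PZ := ⟨fa k m, fa k m, fa_fa k m, fa_fa k m⟩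

def tP : PZ := ⟨fun p => (p.1 + 1, p.2), fun p => (p.1 - 1, p.2), fun p => by simp,
  fun p => by simp⟩

lemma tP_pow (j : ℕ) (p : ℤ × Fin 3) : (tP ^ j) p = (p.1 + j, p.2) := by
  induction j with
  | zero => simp
  | succ j ih =>
    rw [pow_succ', Equiv.Perm.mul_apply, ih]
    show (p.1 + j + 1, p.2) = _
    push_cast
    rw [add_assoc]

lemma tP_pow_inv (j : ℕ) (p : ℤ × Fin 3) : ((tP ^ j)⁻¹) p = (p.1 - j, p.2) := by
  rw [Equiv.Perm.inv_eq_iff_eq, tP_pow]
  simp

lemma conj_aP (k j : ℕ) : tP ^ j * aP k 0 * (tP ^ j)⁻¹ = aP k j := by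
  ext p : 1
  rw [Equiv.Perm.mul_apply, Equiv.Perm.mul_apply, tP_pow_inv]
  have h : (aP k 0) (p.1 - j, p.2) = (p.1 - j, if p.1 = j then sg p.2 else
      if p.1 = j + ((k : ℤ) + 1) then tu p.2 else p.2) := by
    show fa k 0 _ = _
    unfold fa
    simp only [zero_add, sub_eq_zero]
    have : (p.1 - (j : ℤ) = (k : ℤ) + 1) ↔ (p.1 = j + ((k : ℤ) + 1)) := by
      constructor <;> intro h <;> linarith
    simp only [this]
  rw [h, tP_pow]
  show _ = fa k j p
  unfold fa
  simp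

lemma aP_sq (k : ℕ) (m : ℤ) : aP k m * aP k m = 1 := by
  ext p : 1
  exact fa_fa k m p

/-- the homomorphisms -/
def phi (k : ℕ) : F2 →* PZ := FreeGroup.lift (fun b => if b then aP k 0 else tP)

def ga : F2 := FreeGroup.of true
def gt : F2 := FreeGroup.of false

lemma phi_ga (k : ℕ) : phi k ga = aP k 0 := by simp [phi, ga]
lemma phi_gt (k : ℕ) : phi k gt = tP := by simp [phi, gt]

/-- commutator words -/
def wd (j : ℕ) : F2 :=
  (ga * (gt ^ (j + 1) * ga * (gt ^ (j + 1))⁻¹)) *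
    ((gt ^ (j + 1) * ga * (gt ^ (j + 1))⁻¹) * ga)⁻¹

lemma phi_wd (k j : ℕ) : phi k (wd j) = (aP k 0 * aP k (j + 1)) * (aP k (j + 1) * aP k 0)⁻¹ := by
  have h := conj_aP k (j + 1)
  push_cast at h
  simp only [wd, map_mul, map_inv, map_pow, phi_ga, phi_gt, h]

lemma phi_wd_ne (k j : ℕ) (h : k ≠ j) : phi k (wd j) = 1 := by
  rw [phi_wd, mul_inv_eq_one]
  ext p : 1
  rw [Equiv.Perm.mul_apply, Equiv.Perm.mul_apply]
  show fa k 0 (fa k (j + 1) p) = fa k (j + 1) (fa k 0 p)
  unfold fa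
  simp only [zero_add]
  have hkj : (k : ℤ) ≠ j := by exact_mod_cast h
  by_cases h1 : p.1 = 0
  · have h2 : ¬ (p.1 = (j : ℤ) + 1) := by omega
    have h3 : ¬ (p.1 = (j : ℤ) + 1 + (k + 1)) := by omega
    have h5 : ¬ ((0 : ℤ) = (j : ℤ) + 1) := by omega
    have h6 : ¬ ((0 : ℤ) = (j : ℤ) + 1 + (k + 1)) := by omega
    simp [h1, h5, h6]
  · by_cases h4 : p.1 = (k : ℤ) + 1
    · have h2 : ¬ (p.1 = (j : ℤ) + 1) := by omega
      have h3 : ¬ (p.1 = (j : ℤ) + 1 + (k + 1)) := by omega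
      simp [h1, h2, h3]
    · simp [h1, h4]

lemma phi_wd_self (k : ℕ) : phi k (wd k) ≠ 1 := by
  rw [phi_wd, Ne, mul_inv_eq_one]
  intro h
  have h1 := DFunLike.congr_fun h (((k : ℤ) + 1, (0 : Fin 3)) : ℤ × Fin 3)
  rw [Equiv.Perm.mul_apply, Equiv.Perm.mul_apply] at h1
  have h2 : fa k 0 (fa k (k + 1) ((k : ℤ) + 1, (0 : Fin 3))) =
    fa k (k + 1) (fa k 0 ((k : ℤ) + 1, (0 : Fin 3))) := h1
  unfold fa at h2
  have h3 : ¬ ((k : ℤ) + 1 = 0) := by omega
  simp [h3] at h2
  exact absurd h2 (by decide)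

/-- the normal subgroups -/
def NN (B : Set ℕ) : Subgroup F2 := ⨅ k : B, (phi k).ker

instance (B : Set ℕ) : (NN B).Normal := by
  unfold NN
  refine Subgroup.normal_iInf_normal fun k => ?_
  infer_instance

lemma mem_NN {B : Set ℕ} {x : F2} : x ∈ NN B ↔ ∀ k ∈ B, phi k x = 1 := by
  unfold NN
  rw [Subgroup.mem_iInf]
  simp [MonoidHom.mem_ker]

lemma NN_anti {B B' : Set ℕ} (h : B ⊆ B') : NN B' ≤ NN B := fun x hx =>
  mem_NN.2 fun k hk => mem_NN.1 hx k (h hk)

/-- the groups -/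
abbrev HB (B : Set ℕ) : Type := F2 ⧸ NN B

def gS (B : Set ℕ) : Set (HB B) := {((ga : F2) : HB B), ((gt : F2) : HB B)}

instance (B : Set ℕ) : Countable (HB B) := by
  haveI : Countable F2 := by
    unfold F2 FreeGroup
    infer_instance
  exact (QuotientGroup.mk_surjective (s := NN B)).countable

lemma gS_gen (B : Set ℕ) : Subgroup.closure (gS B) = ⊤ := by
  have h1 : gS B = (QuotientGroup.mk' (NN B)) '' (range (FreeGroup.of : Bool → F2)) := by
    ext x
    constructor
    · rintro (rfl | rfl)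
      · exact ⟨_, ⟨true, rfl⟩, rfl⟩
      · exact ⟨_, ⟨false, rfl⟩, rfl⟩
    · rintro ⟨_, ⟨b, rfl⟩, rfl⟩
      cases b
      · exact Or.inr rfl
      · exact Or.inl rfl
  rw [h1, ← MonoidHom.map_closure, FreeGroup.closure_range_of,
    Subgroup.map_top_of_surjective _ (QuotientGroup.mk'_surjective _)]

lemma ga_sq (B : Set ℕ) : ((ga : F2) : HB B) * ((ga : F2) : HB B) = 1 := by
  rw [← QuotientGroup.mk_mul, QuotientGroup.eq_one_iff, mem_NN]
  intro k _
  rw [map_mul, phi_ga, aP_sq]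

/-- the induced homomorphism -/
def phiB (B : Set ℕ) (k : ℕ) (hk : k ∈ B) : HB B →* PZ :=
  QuotientGroup.lift (NN B) (phi k) fun x hx => mem_NN.1 hx k hk

lemma phiB_mk (B : Set ℕ) (k : ℕ) (hk : k ∈ B) (x : F2) :
    phiB B k hk ((x : F2) : HB B) = phi k x := rfl

lemma gS_deg (B : Set ℕ) : Deg3 (cay (gS B)) := by
  classical
  intro v
  refine ⟨{v * ((ga : F2) : HB B), v * ((gt : F2) : HB B), v * ((gt : F2) : HB B)⁻¹},
    Finset.card_le_three, ?_⟩
  intro w hw
  rw [cay_adj] at hw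
  simp only [Finset.mem_insert, Finset.mem_singleton]
  obtain ⟨_, h | h⟩ := hw
  · obtain ⟨s, hs, rfl⟩ := h
    simp only [gS, mem_insert_iff, mem_singleton_iff] at hs
    rcases hs with rfl | rfl
    · exact Or.inl rfl
    · exact Or.inr (Or.inl rfl)
  · obtain ⟨s, hs, h⟩ := h
    simp only [gS, mem_insert_iff, mem_singleton_iff] at hs
    rcases hs with rfl | rfl
    · left
      rw [h, mul_assoc, ga_sq, mul_one]
    · right; right
      rw [h, mul_inv_cancel_right]

lemma gS_low (B : Set ℕ) (hB : B.Nonempty) (q : NNReal) (hq : q ≤ 1) :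
    1 + 3 * (q : ENNReal) ≤ chi q hq (cay (gS B)) {1} := by
  classical
  obtain ⟨k, hk⟩ := hB
  set a : HB B := ((ga : F2) : HB B) with ha
  set t : HB B := ((gt : F2) : HB B) with ht
  let f : HB B → ℤ × Fin 3 := fun x => phiB B k hk x (0, 0)
  have f1 : f 1 = (0, 0) := by simp [f]
  have fa' : f a = (0, 1) := by
    show phi k ga (0, 0) = _
    rw [phi_ga]
    show fa k 0 (0, 0) = _
    unfold fa
    simp
    rfl
  have ft : f t = (1, 0) := by
    show phi k gt (0, 0) = _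
    rw [phi_gt]
    rfl
  have fti : f t⁻¹ = (-1, 0) := by
    show phiB B k hk t⁻¹ (0, 0) = _
    rw [map_inv]
    have : phiB B k hk t = tP := phi_gt k
    rw [this, Equiv.Perm.inv_eq_iff_eq]
    rfl
  have n1 : (1 : HB B) ≠ a := fun h => by
    have := congrArg f h; rw [f1, fa'] at this; exact absurd this (by decide)
  have n2 : (1 : HB B) ≠ t := fun h => by
    have := congrArg f h; rw [f1, ft] at this; exact absurd this (by decide)
  have n3 : (1 : HB B) ≠ t⁻¹ := fun h => by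
    have := congrArg f h; rw [f1, fti] at this; exact absurd this (by decide)
  have n4 : a ≠ t := fun h => by
    have := congrArg f h; rw [fa', ft] at this; exact absurd this (by decide)
  have n5 : a ≠ t⁻¹ := fun h => by
    have := congrArg f h; rw [fa', fti] at this; exact absurd this (by decide)
  have n6 : t ≠ t⁻¹ := fun h => by
    have := congrArg f h; rw [ft, fti] at this; exact absurd this (by decide)
  have hadj1 : (cay (gS B)).Adj 1 a := by
    rw [cay_adj]; exact ⟨n1, Or.inl ⟨a, by simp [gS, ha], by simp⟩⟩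
  have hadj2 : (cay (gS B)).Adj 1 t := by
    rw [cay_adj]; exact ⟨n2, Or.inl ⟨t, by simp [gS, ht], by simp⟩⟩
  have hadj3 : (cay (gS B)).Adj 1 t⁻¹ := by
    rw [cay_adj]; exact ⟨n3, Or.inr ⟨t, by simp [gS, ht], by simp⟩⟩
  have h1 := ENNReal.sum_le_tsum (f := fun v => hit q hq (cay (gS B)) {1} {v})
    ({1, a, t, t⁻¹} : Finset (HB B))
  rw [Finset.sum_insert (by simp [n1, n2, n3]), Finset.sum_insert (by simp [n4, n5]),
    Finset.sum_insert (by simpa using n6), Finset.sum_singleton] at h1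
  refine le_trans ?_ h1
  rw [hit_self]
  have e : (1 : ENNReal) + 3 * q = 1 + (q + (q + q)) := by ring
  rw [e]
  gcongr
  · exact adj_le_hit q hq _ _ _ hadj1
  · exact adj_le_hit q hq _ _ _ hadj2
  · exact adj_le_hit q hq _ _ _ hadj3

lemma gS_good (B : Set ℕ) (hB : B.Nonempty) : Good (gS B) :=
  ⟨gS_deg B, gS_low B hB, gS_gen B⟩

/-- the quotient maps -/
def qm {B B' : Set ℕ} (h : B ⊆ B') : HB B' →* HB B :=
  QuotientGroup.map (NN B') (NN B) (MonoidHom.id F2) (by
    intro x hx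
    exact NN_anti h hx)

lemma qm_mk {B B' : Set ℕ} (h : B ⊆ B') (x : F2) : qm h ((x : F2) : HB B') = ((x : F2) : HB B) :=
  rfl

lemma qm_gS {B B' : Set ℕ} (h : B ⊆ B') : qm h '' gS B' = gS B := by
  unfold gS
  rw [image_insert_eq, image_singleton, qm_mk, qm_mk]

theorem pc_strict {B B' : Set ℕ} (hB : B.Nonempty) (h : B ⊂ B') :
    sSup (pcSet (gS B')) < sSup (pcSet (gS B)) := by
  obtain ⟨hsub, hne⟩ := h
  obtain ⟨j, hj, hj'⟩ := Set.not_subset.1 hne
  refine pc_lt (gS_good B' (hB.mono hsub)) (gS_good B hB) (qm hsub) (qm_gS hsub)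
    ((wd j : F2) : HB B') ?_ ?_
  · intro h
    rw [QuotientGroup.eq_one_iff, mem_NN] at h
    exact phi_wd_self j (h j hj)
  · rw [qm_mk, QuotientGroup.eq_one_iff, mem_NN]
    intro k hk
    exact phi_wd_ne k j fun h => hj' (h ▸ hk)

/-- an uncountable chain of sets of natural numbers -/
theorem exists_chain : ∃ B : ℝ → Set ℕ, (∀ r, (B r).Nonempty) ∧ ∀ r s, r < s → B r ⊂ B s := by
  obtain ⟨f, hf⟩ := exists_surjective_nat ℚ
  refine ⟨fun r => {k | (f k : ℝ) < r}, ?_, ?_⟩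
  · intro r
    obtain ⟨x, hx⟩ := exists_rat_lt r
    obtain ⟨k, rfl⟩ := hf x
    exact ⟨k, hx⟩
  · intro r s hrs
    refine ⟨fun k (hk : (f k : ℝ) < r) => lt_trans hk hrs, fun h => ?_⟩
    obtain ⟨x, hx1, hx2⟩ := exists_rat_btwn hrs
    obtain ⟨k, rfl⟩ := hf x
    have := h hx2
    exact absurd (show (f k : ℝ) < r from this) (not_lt.2 hx1.le)

theorem exists_transcendental : ∃ B : Set ℕ, Transcendental ℚ (sSup (pcSet (gS B))) := by
  by_contra hcon
  push Not at hcon
  have hcon' : ∀ B : Set ℕ, IsAlgebraic ℚ (sSup (pcSet (gS B))) := fun B => by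
    have := hcon B
    unfold Transcendental at this
    exact not_not.1 this
  obtain ⟨B, hne, hB⟩ := exists_chain
  have hanti : StrictAnti fun r : ℝ => sSup (pcSet (gS (B r))) := fun r s hrs =>
    pc_strict (hne r) (hB r s hrs)
  let f : ℝ → {x : ℝ | IsAlgebraic ℚ x} := fun r => ⟨sSup (pcSet (gS (B r))), hcon' (B r)⟩
  have hinj : Function.Injective f := fun r s h =>
    hanti.injective (congrArg Subtype.val h)
  haveI : Countable {x : ℝ | IsAlgebraic ℚ x} := (Algebraic.countable ℚ ℝ).to_subtype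
  have : Countable ℝ := hinj.countable
  exact not_countable this

end Pool.Agent.H978R2
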