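import Pool.Agent.H978R2.Good

/-!
# Integrals of cycle lengths, independence of disjoint boxes
-/

set_option autoImplicit false
set_option linter.all false
set_option linter.deprecated false

open MeasureTheory Set

namespace Pool.Agent.H978R2

lemma Clen_congr {R : Set (ℤ × ℤ)} {ω ω' : Sym2 (ℤ × ℤ) → Bool} (h : ∀ e ∈ ins R, ω e = ω' e) :
    Clen R ω = Clen R ω' := by
  have : openG (latR R) ω = openG (latR R) ω' := openG_congr fun e he => h e (latR_edge R he)
  unfold Clen IsCyc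
  rw [this]

lemma Clen_measurable {R : Set (ℤ × ℤ)} (hR : R.Finite) :
    Measurable (fun ω : Sym2 (ℤ × ℤ) → Bool => Clen R ω) := by
  refine measurable_to_countable' fun k => ?_
  have hf := ins_finite hR
  refine DepOn.measurable_fin (J := hf.toFinset) ?_
  have h1 : ((hf.toFinset : Finset (Sym2 (ℤ × ℤ))) : Set _) = ins R := by simp
  rw [h1]
  intro ω ω' h
  show Clen R ω = k ↔ Clen R ω' = k
  rw [Clen_congr h]

lemma Clen_measurable_real {R : Set (ℤ × ℤ)} (hR : R.Finite) :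
    Measurable (fun ω : Sym2 (ℤ × ℤ) → Bool => (Clen R ω : ℝ)) :=
  (measurable_of_countable (fun k : ℕ => (k : ℝ))).comp (Clen_measurable hR)

/-- product formula for functions of disjoint sets of coordinates -/
lemma integral_indep {ι : Type*} (q : NNReal) (hq : q ≤ 1) {J J' : Set ι} (hJ : Disjoint J J')
    {f g : (ι → Bool) → ℝ} (hf : Measurable f) (hg : Measurable g)
    (df : ∀ ω ω', (∀ i ∈ J, ω i = ω' i) → f ω = f ω')
    (dg : ∀ ω ω', (∀ i ∈ J', ω i = ω' i) → g ω = g ω') :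
    ∫ ω, f ω * g ω ∂(bm ι q hq) = (∫ ω, f ω ∂(bm ι q hq)) * ∫ ω, g ω ∂(bm ι q hq) := by
  classical
  have h1 : ∫ ω, f ω * g ω ∂(bm ι q hq) =
      ∫ x, f (mix J x) * g (mix J x) ∂((bm ι q hq).prod (bm ι q hq)) := by
    conv_lhs => rw [← map_mix q hq J]
    exact integral_map (f := fun ω => f ω * g ω) (measurable_mix J).aemeasurable
      (hf.mul hg).aestronglyMeasurable
  rw [h1]
  have h2 : ∀ x : (ι → Bool) × (ι → Bool), f (mix J x) * g (mix J x) = f x.1 * g x.2 := by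
    intro x
    rw [df (mix J x) x.1 fun i hi => by simp [mix, hi], dg (mix J x) x.2 fun i hi => by
      have : i ∉ J := fun h => Set.disjoint_left.1 hJ h hi
      simp [mix, this]]
  simp only [h2]
  exact integral_prod_mul f g

section

variable (q : NNReal) (hq : q ≤ 1)

lemma integrable_bdd {ι : Type*} {f : (ι → Bool) → ℝ} (hf : Measurable f) (M : ℝ)
    (h : ∀ ω, |f ω| ≤ M) : Integrable f (bm ι q hq) := by
  refine Integrable.of_bound hf.aestronglyMeasurable M ?_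
  exact Filter.Eventually.of_forall fun ω => by rw [Real.norm_eq_abs]; exact h ω

lemma Clen_integrable {R : Set (ℤ × ℤ)} (hR : R.Finite) :
    Integrable (fun ω : Sym2 (ℤ × ℤ) → Bool => (Clen R ω : ℝ)) (bm _ q hq) := by
  refine integrable_bdd q hq (Clen_measurable_real hR) hR.toFinset.card fun ω => ?_
  rw [abs_of_nonneg (by positivity)]
  exact_mod_cast Clen_le hR ω

lemma integral_rel {f : (Sym2 (ℤ × ℤ) → Bool) → ℝ} (hf : Measurable f) (σ : (ℤ × ℤ) ≃ (ℤ × ℤ)) :
    ∫ ω, f (rel σ ω) ∂(bm _ q hq) = ∫ ω, f ω ∂(bm _ q hq) := by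
  conv_rhs => rw [← map_rel q hq σ]
  rw [integral_map (rel_measurable σ).aemeasurable hf.aestronglyMeasurable]

/-- expected length of the longest cycle of the `n × n` box -/
noncomputable def eC (n : ℕ) : ℝ := ∫ ω, (Clen (Rc 1 n 1 n) ω : ℝ) ∂(bm (Sym2 (ℤ × ℤ)) q hq)

lemma integral_box (a b : ℤ) (n : ℕ) :
    ∫ ω, (Clen (Rc a (a + n - 1) b (b + n - 1)) ω : ℝ) ∂(bm (Sym2 (ℤ × ℤ)) q hq) = eC q hq n := by
  unfold eC
  have h := integral_rel q hq (Clen_measurable_real (Rc_finite 1 n 1 n)) (trs (a - 1, b - 1))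
  rw [← h]
  congr 1
  funext ω
  rw [Clen_rel _ (trs_adj _), trs_image]
  congr 2
  congr 1 <;> ring

lemma box_card (a b : ℤ) (n : ℕ) :
    (Rc_finite a (a + n - 1) b (b + n - 1)).toFinset.card = n ^ 2 := by
  rw [Rc_card]
  have h1 : (a + n - 1 + 1 - a).toNat = n := by omega
  have h2 : (b + n - 1 + 1 - b).toNat = n := by omega
  rw [h1, h2]; ring

lemma box_le (a b : ℤ) (n : ℕ) (ω : Sym2 (ℤ × ℤ) → Bool) :
    (Clen (Rc a (a + n - 1) b (b + n - 1)) ω : ℝ) ≤ n ^ 2 := by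
  have h := Clen_le (Rc_finite a (a + n - 1) b (b + n - 1)) ω
  rw [box_card] at h
  exact_mod_cast h

lemma box1_le (n : ℕ) (ω : Sym2 (ℤ × ℤ) → Bool) : (Clen (Rc 1 n 1 n) ω : ℝ) ≤ n ^ 2 := by
  have h := box_le 1 1 n ω
  have e : Rc 1 (1 + (n : ℤ) - 1) 1 (1 + n - 1) = Rc 1 n 1 n := by
    congr 1 <;> ring
  rwa [e] at h

lemma eC_nonneg (n : ℕ) : 0 ≤ eC q hq n := integral_nonneg fun ω => by positivity

lemma eC_le (n : ℕ) : eC q hq n ≤ n ^ 2 := by
  unfold eC
  calc ∫ ω, (Clen (Rc 1 n 1 n) ω : ℝ) ∂(bm (Sym2 (ℤ × ℤ)) q hq)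
      ≤ ∫ ω, ((n : ℝ) ^ 2) ∂(bm (Sym2 (ℤ × ℤ)) q hq) :=
        integral_mono (Clen_integrable q hq (Rc_finite _ _ _ _)) (integrable_const _)
          fun ω => box1_le n ω
    _ = n ^ 2 := by simp

end

/-- the small boxes are pairwise disjoint -/
lemma sbox_disjoint {n h r i r' i' : ℕ} (hne : (r, i) ≠ (r', i')) :
    Disjoint (sbox n h r i) (sbox n h r' i') := by
  rw [Set.disjoint_left]
  rintro v ⟨⟨h1, h2⟩, h3, h4⟩ ⟨⟨g1, g2⟩, g3, g4⟩
  by_cases hr : r = r'
  · have hi : i ≠ i' := by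
      intro e; apply hne; rw [hr, e]
    rcases Nat.lt_or_gt_of_ne hi with hlt | hlt
    · have := box_cols (n := n) hlt
      have e : ((i' * n : ℕ) : ℤ) = i' * n := by push_cast; ring
      omega
    · have := box_cols (n := n) hlt
      have e : ((i * n : ℕ) : ℤ) = i * n := by push_cast; ring
      omega
  · rcases Nat.lt_or_gt_of_ne hr with hlt | hlt
    · have := box_cols (n := n + 2 * h) hlt
      have e : ((r' * (n + 2 * h) : ℕ) : ℤ) = r' * ((n + 2 * h : ℕ) : ℤ) := by push_cast; ring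
      omega
    · have := box_cols (n := n + 2 * h) hlt
      have e : ((r * (n + 2 * h) : ℕ) : ℤ) = r * ((n + 2 * h : ℕ) : ℤ) := by push_cast; ring
      omega

lemma sbox_finite (n h r i : ℕ) : (sbox n h r i).Finite := Rc_finite _ _ _ _

section

variable (q : NNReal) (hq : q ≤ 1)

lemma sbox_integral (n h r i : ℕ) :
    ∫ ω, (Clen (sbox n h r i) ω : ℝ) ∂(bm (Sym2 (ℤ × ℤ)) q hq) = eC q hq n :=
  integral_box q hq _ _ n

lemma sbox_le (n h r i : ℕ) (ω : Sym2 (ℤ × ℤ) → Bool) : (Clen (sbox n h r i) ω : ℝ) ≤ n ^ 2 :=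
  box_le _ _ n ω

/-- the sum over the small boxes -/
noncomputable def SB (n h m : ℕ) (ω : Sym2 (ℤ × ℤ) → Bool) : ℝ :=
  ∑ z ∈ Finset.range m ×ˢ Finset.range m, (Clen (sbox n h z.1 z.2) ω : ℝ)

lemma SB_eq (n h m : ℕ) (ω : Sym2 (ℤ × ℤ) → Bool) :
    ∑ r ∈ Finset.range m, ∑ i ∈ Finset.range m, (Clen (sbox n h r i) ω : ℝ) = SB n h m ω := by
  unfold SB
  rw [Finset.sum_product]

lemma SB_measurable (n h m : ℕ) : Measurable (SB n h m) := by
  unfold SB
  exact Finset.measurable_sum _ fun z _ => Clen_measurable_real (sbox_finite _ _ _ _)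

lemma SB_nonneg (n h m : ℕ) (ω : Sym2 (ℤ × ℤ) → Bool) : 0 ≤ SB n h m ω :=
  Finset.sum_nonneg fun _ _ => by positivity

lemma SB_le (n h m : ℕ) (ω : Sym2 (ℤ × ℤ) → Bool) : SB n h m ω ≤ m ^ 2 * n ^ 2 := by
  unfold SB
  refine (Finset.sum_le_sum fun z _ => sbox_le n h z.1 z.2 ω).trans ?_
  rw [Finset.sum_const, Finset.card_product, Finset.card_range, nsmul_eq_mul]
  push_cast
  nlinarith

lemma SB_integral (n h m : ℕ) :
    ∫ ω, SB n h m ω ∂(bm (Sym2 (ℤ × ℤ)) q hq) = m ^ 2 * eC q hq n := by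
  unfold SB
  rw [integral_finset_sum _ fun z _ => Clen_integrable q hq (sbox_finite _ _ _ _)]
  simp only [sbox_integral]
  rw [Finset.sum_const, Finset.card_product, Finset.card_range, nsmul_eq_mul]
  push_cast
  ring

/-- second moment of the centred sum -/
lemma SB_var (n h m : ℕ) :
    ∫ ω, (SB n h m ω - m ^ 2 * eC q hq n) ^ 2 ∂(bm (Sym2 (ℤ × ℤ)) q hq) ≤ m ^ 2 * n ^ 4 := by
  classical
  set μ := bm (Sym2 (ℤ × ℤ)) q hq with hμ
  set I := Finset.range m ×ˢ Finset.range m with hI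
  set Y : ℕ × ℕ → (Sym2 (ℤ × ℤ) → Bool) → ℝ := fun z ω => (Clen (sbox n h z.1 z.2) ω : ℝ) - eC q hq n
    with hY
  have hYm : ∀ z, Measurable (Y z) := fun z =>
    (Clen_measurable_real (sbox_finite _ _ _ _)).sub measurable_const
  have hYb : ∀ z ω, |Y z ω| ≤ n ^ 2 := by
    intro z ω
    have h1 := sbox_le n h z.1 z.2 ω
    have h2 : (0 : ℝ) ≤ Clen (sbox n h z.1 z.2) ω := by positivity
    have h3 := eC_nonneg q hq n
    have h4 := eC_le q hq n
    rw [abs_le]
    constructor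
    · simp only [hY]; linarith
    · simp only [hY]; linarith
  have hYi : ∀ z, Integrable (Y z) μ := fun z => integrable_bdd q hq (hYm z) _ (hYb z)
  have hYY : ∀ z z', Integrable (fun ω => Y z ω * Y z' ω) μ := by
    intro z z'
    refine integrable_bdd q hq ((hYm z).mul (hYm z')) ((n : ℝ) ^ 2 * n ^ 2) fun ω => ?_
    rw [abs_mul]
    exact mul_le_mul (hYb z ω) (hYb z' ω) (abs_nonneg _) (by positivity)
  have hY0 : ∀ z, ∫ ω, Y z ω ∂μ = 0 := by
    intro z
    simp only [hY]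
    rw [integral_sub (Clen_integrable q hq (sbox_finite _ _ _ _)) (integrable_const _),
      sbox_integral]
    simp
  have hsq : ∀ ω, (SB n h m ω - m ^ 2 * eC q hq n) ^ 2 = ∑ z ∈ I, ∑ z' ∈ I, Y z ω * Y z' ω := by
    intro ω
    have h1 : SB n h m ω - m ^ 2 * eC q hq n = ∑ z ∈ I, Y z ω := by
      simp only [hY]
      rw [Finset.sum_sub_distrib, Finset.sum_const, hI, Finset.card_product, Finset.card_range,
        nsmul_eq_mul]
      unfold SB
      push_cast
      ring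
    rw [h1, sq, Finset.sum_mul_sum]
  simp only [hsq]
  rw [integral_finset_sum _ fun z _ => integrable_finset_sum _ fun z' _ => hYY z z']
  have h2 : ∀ z ∈ I, ∫ ω, ∑ z' ∈ I, Y z ω * Y z' ω ∂μ ≤ n ^ 4 := by
    intro z hz
    rw [integral_finset_sum _ fun z' _ => hYY z z']
    have h3 : ∀ z' ∈ I, ∫ ω, Y z ω * Y z' ω ∂μ = if z' = z then ∫ ω, Y z ω * Y z ω ∂μ else 0 := by
      intro z' _
      split_ifs with hc
      · rw [hc]
      · have hdis : Disjoint (ins (sbox n h z.1 z.2)) (ins (sbox n h z'.1 z'.2)) := by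
          refine ins_disjoint (sbox_disjoint ?_)
          intro e
          apply hc
          exact (Prod.ext (congrArg Prod.fst e) (congrArg Prod.snd e)).symm
        have h4 := integral_indep q hq hdis (hYm z) (hYm z')
          (fun ω ω' hω => by simp only [hY]; rw [Clen_congr hω])
          (fun ω ω' hω => by simp only [hY]; rw [Clen_congr hω])
        rw [h4]
        have h5 : ∫ ω, Y z ω ∂(bm (Sym2 (ℤ × ℤ)) q hq) = 0 := hY0 z
        rw [h5, zero_mul]
    rw [Finset.sum_congr rfl h3, Finset.sum_ite_eq' I z]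
    rw [if_pos hz]
    calc ∫ ω, Y z ω * Y z ω ∂μ ≤ ∫ ω, ((n : ℝ) ^ 4) ∂μ := by
          refine integral_mono (hYY z z) (integrable_const _) fun ω => ?_
          have h6 := hYb z ω
          have h7 : Y z ω * Y z ω = |Y z ω| * |Y z ω| := (abs_mul_abs_self _).symm
          show Y z ω * Y z ω ≤ (n : ℝ) ^ 4
          rw [h7]
          calc |Y z ω| * |Y z ω| ≤ (n : ℝ) ^ 2 * n ^ 2 :=
                mul_le_mul h6 h6 (abs_nonneg _) (by positivity)
            _ = (n : ℝ) ^ 4 := by ring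
      _ = n ^ 4 := by simp
  refine (Finset.sum_le_sum h2).trans ?_
  rw [Finset.sum_const, hI, Finset.card_product, Finset.card_range, nsmul_eq_mul]
  push_cast
  nlinarith

end

end Pool.Agent.H978R2
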