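import Pool.Agent.H978R2.Uni

/-!
# Crossing probabilities and the absence of percolation at `1/2`
-/

set_option autoImplicit false
set_option linter.all false
set_option linter.deprecated false

open MeasureTheory Set

namespace Pool.Agent.H978R2

/-- horizontal crossing event -/
def Hev (c r : ℤ) : Set (Sym2 (ℤ × ℤ) → Bool) :=
  ev (latR (Rc 0 c 0 r)) {v | v.1 ≤ 0} {v | c ≤ v.1}

/-- horizontal crossing probability -/
noncomputable def hh (q : NNReal) (hq : q ≤ 1) (c r : ℤ) : ℝ :=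
  (bm (Sym2 (ℤ × ℤ)) q hq).real (Hev c r)

lemma hh_rect (q : NNReal) (hq : q ≤ 1) (a0 a1 b0 b1 : ℤ) :
    (bm (Sym2 (ℤ × ℤ)) q hq).real (ev (latR (Rc a0 a1 b0 b1)) {v | v.1 ≤ a0} {v | a1 ≤ v.1}) =
      hh q hq (a1 - a0) (b1 - b0) := by
  unfold hh Hev Measure.real
  congr 1
  have h := hit_latR q hq (trs (a0, b0)) (trs_adj (a0, b0)) (Rc 0 (a1 - a0) 0 (b1 - b0))
    {v | v.1 ≤ 0} {v | (a1 - a0) ≤ v.1}
  rw [trs_image] at h
  have e1 : trs (a0, b0) '' {v : ℤ × ℤ | v.1 ≤ 0} = {v | v.1 ≤ a0} := by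
    ext v
    constructor
    · rintro ⟨w, hw, rfl⟩
      have : w.1 ≤ 0 := hw
      show w.1 + a0 ≤ a0
      omega
    · intro hv
      have : v.1 ≤ a0 := hv
      refine ⟨v - (a0, b0), ?_, by simp [trs]⟩
      show v.1 - a0 ≤ 0
      omega
  have e2 : trs (a0, b0) '' {v : ℤ × ℤ | a1 - a0 ≤ v.1} = {v | a1 ≤ v.1} := by
    ext v
    constructor
    · rintro ⟨w, hw, rfl⟩
      have : a1 - a0 ≤ w.1 := hw
      show a1 ≤ w.1 + a0
      omega
    · intro hv
      have : a1 ≤ v.1 := hv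
      refine ⟨v - (a0, b0), ?_, by simp [trs]⟩
      show a1 - a0 ≤ v.1 - a0
      omega
  rw [e1, e2] at h
  simp only [zero_add, sub_add_cancel] at h
  exact h

lemma hh_vert (q : NNReal) (hq : q ≤ 1) (a0 a1 b0 b1 : ℤ) :
    (bm (Sym2 (ℤ × ℤ)) q hq).real (ev (latR (Rc a0 a1 b0 b1)) {v | v.2 ≤ b0} {v | b1 ≤ v.2}) =
      hh q hq (b1 - b0) (a1 - a0) := by
  rw [← hh_rect q hq b0 b1 a0 a1]
  unfold Measure.real
  congr 1
  have h := hit_latR q hq swp swp_adj (Rc b0 b1 a0 a1) {v | v.1 ≤ b0} {v | b1 ≤ v.1}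
  rw [swp_image] at h
  have e1 : swp '' {v : ℤ × ℤ | v.1 ≤ b0} = {v | v.2 ≤ b0} := by
    ext v
    constructor
    · rintro ⟨w, hw, rfl⟩; exact hw
    · intro hv; exact ⟨(v.2, v.1), hv, rfl⟩
  have e2 : swp '' {v : ℤ × ℤ | b1 ≤ v.1} = {v | b1 ≤ v.2} := by
    ext v
    constructor
    · rintro ⟨w, hw, rfl⟩; exact hw
    · intro hv; exact ⟨(v.2, v.1), hv, rfl⟩
  rw [e1, e2] at h
  exact h

lemma Rc_mono {a0 a1 b0 b1 a0' a1' b0' b1' : ℤ} (h1 : a0' ≤ a0) (h2 : a1 ≤ a1') (h3 : b0' ≤ b0)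
    (h4 : b1 ≤ b1') : Rc a0 a1 b0 b1 ⊆ Rc a0' a1' b0' b1' := by
  rintro v ⟨⟨g1, g2⟩, g3, g4⟩
  exact ⟨⟨by omega, by omega⟩, by omega, by omega⟩

lemma hh_rows (q : NNReal) (hq : q ≤ 1) (c : ℤ) {r r' : ℤ} (h : r ≤ r') :
    hh q hq c r ≤ hh q hq c r' := by
  unfold hh Hev
  refine measureReal_mono (ev_mono (latR_mono ?_) le_rfl le_rfl) (measure_ne_top _ _)
  exact Rc_mono le_rfl le_rfl le_rfl h

/-- squares are crossed if there is percolation -/
lemma sq_cross (q : NNReal) (hq : q ≤ 1) (hq0 : 0 < q) {ε : ℝ} (hε : 0 < ε)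
    (h : ∀ n, ε ≤ th q hq n) {δ : ℝ} (hδ : 0 < δ) :
    ∃ n0 : ℕ, ∀ n : ℕ, n0 ≤ n → 1 - δ ≤ hh q hq (2 * n) (2 * n) := by
  obtain ⟨k, hk⟩ := side_prob q hq hε h (show 0 < δ / 3 by positivity)
  obtain ⟨n1, hn1⟩ := bad_small q hq hq0 k (show 0 < δ / 3 by positivity)
  refine ⟨max n1 (k + 1), fun n hn => ?_⟩
  have h1 := hk n (by have := le_max_right n1 (k + 1); omega)
  have h2 := hn1 n (by have := le_max_left n1 (k + 1); omega)
  have h3 := side_R q hq (Bx (0, 0) n) (Bx (0, 0) k) n (rfx_Bx n) (rfx_Bx k)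
  set μ := bm (Sym2 (ℤ × ℤ)) q hq with hμ
  set Γ := latR (Bx (0, 0) n) with hΓ
  set K := Bx (0, 0) k
  set aL := ev Γ K {v | v.1 ≤ -(n : ℤ)}
  set aR := ev Γ K {v | (n : ℤ) ≤ v.1}
  set bad := Bad Γ (Far (0, 0) n) K
  have hc : hh q hq (2 * n) (2 * n) = μ.real (ev Γ {v | v.1 ≤ -(n : ℤ)} {v | (n : ℤ) ≤ v.1}) := by
    rw [hΓ]
    unfold Bx
    simp only [zero_sub, zero_add]
    rw [hh_rect]
    congr 1 <;> ring
  rw [hc]
  set C := ev Γ {v | v.1 ≤ -(n : ℤ)} {v | (n : ℤ) ≤ v.1} with hC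
  have hsub : Cᶜ ⊆ aLᶜ ∪ (aRᶜ ∪ bad) := by
    intro ω hω
    by_contra hcon
    simp only [mem_union, mem_compl_iff, not_or, not_not] at hcon
    obtain ⟨⟨u, hu, a, ha, hua⟩, ⟨v, hv, b, hb, hvb⟩, h6⟩ := hcon
    apply hω
    have huv : (openG Γ ω).Reachable u v := by
      by_contra hne
      refine h6 ⟨u, hu, v, hv, ⟨u, rfl, a, ?_, hua⟩, ⟨v, rfl, b, ?_, hvb⟩, hne⟩
      · rw [mem_Far]; simp only [zero_sub, zero_add]; exact Or.inl ha
      · rw [mem_Far]; simp only [zero_sub, zero_add]; exact Or.inr (Or.inl hb)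
    exact ⟨a, ha, b, hb, (hua.symm.trans huv).trans hvb⟩
  have m1 : μ.real Cᶜ ≤ μ.real aLᶜ + (μ.real aRᶜ + μ.real bad) :=
    (measureReal_mono hsub (measure_ne_top _ _)).trans
      ((measureReal_union_le _ _).trans (add_le_add le_rfl (measureReal_union_le _ _)))
  rw [probReal_compl_eq_one_sub (meas_ev _ _ _), probReal_compl_eq_one_sub (meas_ev _ _ _),
    probReal_compl_eq_one_sub (meas_ev _ _ _)] at m1
  have e3 : μ.real aR = μ.real aL := h3
  linarith

/-- adding independent edges -/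
lemma ext_open {ι : Type*} (q : NNReal) (hq : q ≤ 1) (J : Set ι) (N : ℤ → Set (ι → Bool))
    (hN : ∀ y, MeasurableSet (N y)) (dN : ∀ y, DepOn J (N y)) (e : ℤ → ι) (he : ∀ y, e y ∉ J)
    (s : Finset ℤ) :
    q * (bm ι q hq).real (⋃ y ∈ s, N y) ≤
      (bm ι q hq).real (⋃ y ∈ s, (N y ∩ {ω | ω (e y) = true})) := by
  classical
  induction s using Finset.induction_on with
  | empty => simp
  | insert y s hy ih =>
    set μ := bm ι q hq
    set U := ⋃ y ∈ s, N y with hU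
    set W := ⋃ y ∈ s, (N y ∩ {ω | ω (e y) = true}) with hW
    have mU : MeasurableSet U := MeasurableSet.biUnion (Set.to_countable _) fun y _ => hN y
    have mO : ∀ y, MeasurableSet {ω : ι → Bool | ω (e y) = true} := fun y => meas_coord _ _
    have mW : MeasurableSet W :=
      MeasurableSet.biUnion (Set.to_countable _) fun y _ => (hN y).inter (mO y)
    have dU : DepOn J U := by
      intro ω ω' h
      rw [hU]
      simp only [mem_iUnion]
      exact exists_congr fun z => exists_congr fun _ => dN z ω ω' h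
    have e1 : (⋃ z ∈ insert y s, N z) = U ∪ (N y \ U) := by
      rw [Finset.set_biUnion_insert, Set.union_diff_self, Set.union_comm]
    have e2 : W ∪ ((N y \ U) ∩ {ω | ω (e y) = true}) ⊆
        ⋃ z ∈ insert y s, (N z ∩ {ω | ω (e z) = true}) := by
      rw [Finset.set_biUnion_insert]
      rintro ω (h | ⟨⟨h1, h2⟩, h3⟩)
      · exact Or.inr h
      · exact Or.inl ⟨h1, h3⟩
    have hWU : W ⊆ U := Set.iUnion₂_mono fun z _ => inter_subset_left
    have hind : μ ((N y \ U) ∩ {ω | ω (e y) = true}) = μ (N y \ U) * μ {ω | ω (e y) = true} := by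
      refine bm_inter q hq (J := J) (J' := {e y}) ?_ ((hN y).diff mU) (mO y) ?_ ?_
      · rw [Set.disjoint_singleton_right]; exact he y
      · exact (dN y).inter dU.compl
      · intro ω ω' h; simp only [mem_setOf_eq, h (e y) rfl]
    have hindr : μ.real ((N y \ U) ∩ {ω | ω (e y) = true}) = q * μ.real (N y \ U) := by
      unfold Measure.real
      rw [hind, ENNReal.toReal_mul, bm_eval]
      simp [mul_comm]
    calc (q : ℝ) * μ.real (⋃ z ∈ insert y s, N z) = q * (μ.real U + μ.real (N y \ U)) := by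
          rw [e1, measureReal_union disjoint_sdiff_right ((hN y).diff mU) (measure_ne_top _ _)
            (measure_ne_top _ _)]
      _ ≤ μ.real W + μ.real ((N y \ U) ∩ {ω | ω (e y) = true}) := by
          rw [hindr, mul_add]; linarith
      _ = μ.real (W ∪ ((N y \ U) ∩ {ω | ω (e y) = true})) := by
          exact (measureReal_union (Set.disjoint_of_subset_left hWU
              (Set.disjoint_of_subset_right inter_subset_left disjoint_sdiff_right))
            (((hN y).diff mU).inter (mO y)) (measure_ne_top _ _) (measure_ne_top _ _)).symm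
      _ ≤ _ := measureReal_mono e2 (measure_ne_top _ _)

lemma reach_ne_mem {R : Set (ℤ × ℤ)} {ω : Sym2 (ℤ × ℤ) → Bool} {a b : ℤ × ℤ}
    (h : (openG (latR R) ω).Reachable a b) (hne : a ≠ b) : a ∈ R ∧ b ∈ R := by
  have key : ∀ a b, (openG (latR R) ω).Reachable a b → a ≠ b → a ∈ R := by
    intro a b h hne
    rw [SimpleGraph.reachable_iff_reflTransGen] at h
    rcases Relation.ReflTransGen.cases_head h with h1 | ⟨c, h1, _⟩
    · exact absurd h1 hne
    · exact h1.1.2.1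
  exact ⟨key a b h hne, key b a h.symm hne.symm⟩

lemma hh_ext (q : NNReal) (hq : q ≤ 1) (c r : ℤ) (hc : 1 ≤ c) :
    q * hh q hq c r ≤ hh q hq (c + 1) r := by
  set N : ℤ → Set (Sym2 (ℤ × ℤ) → Bool) := fun y => ev (latR (Rc 0 c 0 r)) {v | v.1 ≤ 0} {(c, y)}
    with hN
  have h := ext_open q hq (ins (Rc 0 c 0 r)) N (fun y => meas_ev _ _ _) (fun y => dep_ins _ _ _)
    (fun y => s((c, y), (c + 1, y))) (fun y hy => by
      have := hy (c + 1, y) (by simp)
      have := this.1.2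
      simp at this) (Finset.Icc 0 r)
  refine le_trans (mul_le_mul_of_nonneg_left ?_ q.2) (h.trans ?_)
  · refine measureReal_mono ?_ (measure_ne_top _ _)
    rintro ω ⟨a, ha, b, hb, hr⟩
    have ha' : a.1 ≤ 0 := ha
    have hb' : c ≤ b.1 := hb
    have hm := reach_ne_mem hr (by intro e; rw [e] at ha'; omega)
    have hbc : b = (c, b.2) := Prod.ext (by have := hm.2.1.2; show b.1 = c; omega) rfl
    simp only [mem_iUnion, Finset.mem_Icc, exists_prop]
    exact ⟨b.2, hm.2.2, a, ha, b, by rw [hbc]; rfl, hr⟩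
  · refine measureReal_mono ?_ (measure_ne_top _ _)
    intro ω hω
    simp only [mem_iUnion, Finset.mem_Icc, exists_prop] at hω
    obtain ⟨y, hy, ⟨a, ha, b, hb, hr⟩, hop⟩ := hω
    have hb' : b = (c, y) := hb
    subst hb'
    refine ⟨a, ha, (c + 1, y), ?_, ?_⟩
    · show c + 1 ≤ c + 1
      exact le_rfl
    · refine (hr.mono (openG_mono (latR_mono (Rc_mono le_rfl (by omega) le_rfl le_rfl)) ω)).trans ?_
      refine SimpleGraph.Adj.reachable ⟨⟨?_, ?_, ?_⟩, hop⟩
      · rw [lat_adj]; right; simp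
      · refine ⟨⟨?_, ?_⟩, hy⟩
        · show 0 ≤ c
          omega
        · show c ≤ c + 1
          omega
      · refine ⟨⟨?_, ?_⟩, hy⟩
        · show 0 ≤ c + 1
          omega
        · show c + 1 ≤ c + 1
          omega

/-- a list realising a connection -/
lemma exists_list {V : Type*} {Γ : SimpleGraph V} {ω : Sym2 V → Bool} {a b : V}
    (h : (openG Γ ω).Reachable a b) :
    ∃ l : List V, ∃ hne : l ≠ [], l.IsChain (openG Γ ω).Adj ∧ l.head hne = a ∧
      l.getLast hne = b := by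
  rw [SimpleGraph.reachable_iff_reflTransGen] at h
  obtain ⟨l, hl, hlast⟩ := List.exists_isChain_cons_of_relationReflTransGen h
  exact ⟨a :: l, by simp, hl, rfl, hlast⟩

lemma chain_mem {R : Set (ℤ × ℤ)} {ω : Sym2 (ℤ × ℤ) → Bool} {l : List (ℤ × ℤ)}
    (hl : l.IsChain (openG (latR R) ω).Adj) (hne : l ≠ []) (h : l.head hne ∈ R) :
    ∀ v ∈ l, v ∈ R := by
  induction l with
  | nil => exact absurd rfl hne
  | cons a l ih =>
    cases l with
    | nil => intro v hv; simp only [List.mem_singleton] at hv; rw [hv]; exact h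
    | cons b l =>
      rw [List.isChain_cons_cons] at hl
      intro v hv
      rw [List.mem_cons] at hv
      rcases hv with rfl | hv
      · exact h
      · exact ih hl.2 (by simp) hl.1.1.2.2 v hv

lemma dual_ineq (q : NNReal) (hq : q ≤ 1) (c r : ℤ) (hc : 1 ≤ c) (hr : 0 ≤ r) :
    hh q hq c r + hh (1 - q) tsub_le_self (r + 1) (c - 1) ≤ 1 := by
  set A : Set (Sym2 (ℤ × ℤ) → Bool) :=
    ev (latR (Rc 0 (c - 1) (-1) r)) {v | v.2 ≤ -1} {v | r ≤ v.2} with hA
  have mA : MeasurableSet A := meas_ev _ _ _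
  have h1 : hh (1 - q) tsub_le_self (r + 1) (c - 1) =
      (bm (Sym2 (ℤ × ℤ)) q hq).real {ω | dualc ω ∈ A} := by
    have h2 := hh_vert (1 - q) tsub_le_self 0 (c - 1) (-1) r
    have e1 : r - -1 = r + 1 := by ring
    have e2 : c - 1 - 0 = c - 1 := by ring
    rw [e1, e2] at h2
    rw [← h2]
    unfold Measure.real
    rw [bm_dual q hq mA]
  rw [h1]
  have hdis : Disjoint (Hev c r) {ω | dualc ω ∈ A} := by
    rw [Set.disjoint_left]
    rintro ω ⟨a, ha, b, hb, hr1⟩ ⟨F, hF, F', hF', hr2⟩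
    have ha' : a.1 ≤ 0 := ha
    have hb' : c ≤ b.1 := hb
    have hF1 : F.2 ≤ -1 := hF
    have hF2 : r ≤ F'.2 := hF'
    have hm1 := reach_ne_mem hr1 (by intro e; rw [e] at ha'; omega)
    have hm2 := reach_ne_mem hr2 (by intro e; rw [e] at hF1; omega)
    obtain ⟨L, hLne, hL, hL1, hL2⟩ := exists_list hr1
    obtain ⟨T, hTne, hT, hT1, hT2⟩ := exists_list hr2
    have hLm := chain_mem hL hLne (by rw [hL1]; exact hm1.1)
    have hTm := chain_mem hT hTne (by rw [hT1]; exact hm2.1)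
    refine dual_excl (ω := ω) (T := T) (L := L) ?_ ?_ hTne hLne (a0 := 0) (a1 := c) (b0 := 0)
      (b1 := r) (fun F hF => (hTm F hF).1) (by rw [hT1]; omega) (by rw [hT2]; omega)
      (fun v hv => (hLm v hv).2) (by rw [hL1]; omega) (by rw [hL2]; omega)
    · refine hT.imp ?_
      rintro u v ⟨g1, g2⟩
      refine ⟨g1.1, ?_⟩
      unfold dualc at g2
      rw [dM_adj g1.1] at g2
      simpa using g2
    · refine hL.imp ?_
      rintro u v ⟨g1, g2⟩
      exact ⟨g1.1, g2⟩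
  have h3 := measureReal_union (μ := bm (Sym2 (ℤ × ℤ)) q hq) hdis
    (measurable_dualc mA : MeasurableSet {ω | dualc ω ∈ A}) (measure_ne_top _ _)
    (measure_ne_top _ _)
  unfold hh
  rw [← h3]
  exact measureReal_le_one

lemma hh_congr {q q' : NNReal} (h : q = q') (hq : q ≤ 1) (hq' : q' ≤ 1) (c r : ℤ) :
    hh q hq c r = hh q' hq' c r := by
  subst h; rfl

lemma half_le : (1 / 2 : NNReal) ≤ 1 := by
  rw [← NNReal.coe_le_coe]; norm_num

/-- no percolation at `1/2` -/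
theorem no_perc_half {ε : ℝ} (hε : 0 < ε) (h : ∀ n, ε ≤ th (1 / 2) half_le n) : False := by
  have hq0 : (0 : NNReal) < 1 / 2 := by
    rw [← NNReal.coe_lt_coe]; norm_num
  obtain ⟨n0, hn0⟩ := sq_cross (1 / 2) half_le hq0 hε h (show (0 : ℝ) < 1 / 32 by norm_num)
  set n := n0 + 2 with hn
  have h1 := hn0 n (by omega)
  have h2 := hn0 (n - 1) (by omega)
  have e0 : (2 * ((n - 1 : ℕ) : ℤ)) = 2 * n - 2 := by
    have : ((n - 1 : ℕ) : ℤ) = n - 1 := by omega
    rw [this]; ring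
  rw [e0] at h2
  have hn2 : (2 : ℤ) ≤ n := by omega
  have k1 := hh_ext (1 / 2) half_le (2 * n - 2) (2 * n - 2) (by omega)
  have k2 := hh_ext (1 / 2) half_le (2 * n - 2 + 1) (2 * n - 2) (by omega)
  have k3 := hh_ext (1 / 2) half_le (2 * n - 2 + 1 + 1) (2 * n - 2) (by omega)
  have k4 := hh_rows (1 / 2) half_le (2 * n - 2 + 1 + 1 + 1) (show (2 * n - 2 : ℤ) ≤ 2 * n - 1 by omega)
  have k5 := dual_ineq (1 / 2) half_le (2 * n) (2 * n) (by omega) (by omega)
  have e1 : (1 - 1 / 2 : NNReal) = 1 / 2 := by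
    rw [← NNReal.coe_inj, NNReal.coe_sub half_le]; norm_num
  rw [hh_congr e1 tsub_le_self half_le] at k5
  have e2 : (2 * (n : ℤ) - 2 + 1 + 1 + 1) = 2 * n + 1 := by ring
  rw [e2] at k3 k4
  have e3 : ((1 / 2 : NNReal) : ℝ) = 1 / 2 := by norm_num
  rw [e3] at k1 k2 k3
  linarith

end Pool.Agent.H978R2
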