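import Mathlib

/-!
# Combinatorics of paths given as lists
-/

set_option autoImplicit false
set_option linter.all false
set_option linter.deprecated false

open Set

namespace Pool.Agent.H978R2

variable {α : Type*}

lemma first_hit {B : Set α} {l : List α} (h : ∃ v ∈ l, v ∈ B) :
    ∃ Y b Z, l = Y ++ b :: Z ∧ b ∈ B ∧ ∀ y ∈ Y, y ∉ B := by
  induction l with
  | nil => obtain ⟨v, hv, _⟩ := h; simp at hv
  | cons x l ih =>
    by_cases hx : x ∈ B
    · exact ⟨[], x, l, rfl, hx, by simp⟩
    · obtain ⟨v, hv, hvB⟩ := h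
      rw [List.mem_cons] at hv
      have hv' : v ∈ l := hv.resolve_left (fun e => hx (e ▸ hvB))
      obtain ⟨Y, b, Z, e, h1, h2⟩ := ih ⟨v, hv', hvB⟩
      refine ⟨x :: Y, b, Z, by rw [e]; rfl, h1, ?_⟩
      intro y hy
      rw [List.mem_cons] at hy
      rcases hy with rfl | hy
      · exact hx
      · exact h2 y hy

lemma chain_rev {Adj : α → α → Prop} (hs : ∀ a b, Adj a b → Adj b a) {l : List α}
    (h : l.IsChain Adj) : l.reverse.IsChain Adj := by
  rw [List.isChain_reverse]
  exact h.imp fun a b hab => hs a b hab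

/-- a piece of a path between two sets -/
lemma between {Adj : α → α → Prop} (hs : ∀ a b, Adj a b → Adj b a) {A B : Set α}
    (hAB : ∀ v, v ∈ A → v ∉ B) {l : List α} (hc : l.IsChain Adj) (hn : l.Nodup)
    (hA : ∃ u ∈ l, u ∈ A) (hB : ∃ v ∈ l, v ∈ B) :
    ∃ a b W, a ∈ A ∧ b ∈ B ∧ (a :: W ++ [b]).IsChain Adj ∧ (a :: W ++ [b]).Nodup ∧
      (∀ v ∈ a :: W ++ [b], v ∈ l) ∧ (∀ v ∈ W, v ∉ A ∧ v ∉ B) := by
  induction l with
  | nil => obtain ⟨v, hv, _⟩ := hA; simp at hv
  | cons x l ih =>
    rw [List.nodup_cons] at hn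
    have hcl : l.IsChain Adj := by
      rw [List.isChain_cons] at hc; exact hc.2
    by_cases h1 : ∃ u ∈ l, u ∈ A
    · by_cases h2 : ∃ v ∈ l, v ∈ B
      · obtain ⟨a, b, W, g1, g2, g3, g4, g5, g6⟩ := ih hcl hn.2 h1 h2
        exact ⟨a, b, W, g1, g2, g3, g4, fun v hv => List.mem_cons_of_mem _ (g5 v hv), g6⟩
      · -- x ∈ B
        have hxB : x ∈ B := by
          obtain ⟨v, hv, hvB⟩ := hB
          rw [List.mem_cons] at hv
          rcases hv with rfl | hv
          · exact hvB
          · exact absurd ⟨v, hv, hvB⟩ h2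
        obtain ⟨Y, a, Z, e, haA, hY⟩ := first_hit h1
        have hch : (x :: Y ++ [a]).IsChain Adj := by
          have : (x :: Y ++ a :: Z).IsChain Adj := by rw [List.cons_append, ← e]; exact hc
          exact (List.isChain_split.1 this).1
        have hnd : (x :: Y ++ [a]).Nodup := by
          have h3 : (x :: l).Nodup := List.nodup_cons.2 hn
          rw [e] at h3
          refine h3.sublist ?_
          rw [List.cons_append]
          refine List.Sublist.cons_cons x (List.Sublist.append_left ?_ Y)
          simp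
        refine ⟨a, x, Y.reverse, haA, hxB, ?_, ?_, ?_, ?_⟩
        · have := chain_rev hs hch
          simpa using this
        · have := List.nodup_reverse.2 hnd
          simpa using this
        · intro v hv
          simp only [List.cons_append, List.mem_cons, List.mem_append, List.mem_reverse,
            List.mem_nil_iff, or_false] at hv
          rw [List.mem_cons, e]
          rcases hv with rfl | hv | rfl
          · right; simp
          · right; simp [hv]
          · left; rfl
        · intro v hv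
          rw [List.mem_reverse] at hv
          refine ⟨hY v hv, fun hvB => h2 ⟨v, ?_, hvB⟩⟩
          rw [e]; simp [hv]
    · have hxA : x ∈ A := by
        obtain ⟨v, hv, hvA⟩ := hA
        rw [List.mem_cons] at hv
        rcases hv with rfl | hv
        · exact hvA
        · exact absurd ⟨v, hv, hvA⟩ h1
      have h2 : ∃ v ∈ l, v ∈ B := by
        obtain ⟨v, hv, hvB⟩ := hB
        rw [List.mem_cons] at hv
        rcases hv with rfl | hv
        · exact absurd hvB (hAB v hxA)
        · exact ⟨v, hv, hvB⟩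
      obtain ⟨Y, b, Z, e, hbB, hY⟩ := first_hit h2
      have hch : (x :: Y ++ [b]).IsChain Adj := by
        have : (x :: Y ++ b :: Z).IsChain Adj := by rw [List.cons_append, ← e]; exact hc
        exact (List.isChain_split.1 this).1
      have hnd : (x :: Y ++ [b]).Nodup := by
        have h3 : (x :: l).Nodup := List.nodup_cons.2 hn
        rw [e] at h3
        refine h3.sublist ?_
        rw [List.cons_append]
        refine List.Sublist.cons_cons x (List.Sublist.append_left ?_ Y)
        simp
      refine ⟨x, b, Y, hxA, hbB, hch, hnd, ?_, ?_⟩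
      · intro v hv
        simp only [List.cons_append, List.mem_cons, List.mem_append,
          List.mem_nil_iff, or_false] at hv
        rw [List.mem_cons, e]
        rcases hv with rfl | hv | rfl
        · left; rfl
        · right; simp [hv]
        · right; simp
      · intro v hv
        refine ⟨fun hvA => h1 ⟨v, ?_, hvA⟩, hY v hv⟩
        rw [e]; simp [hv]

/-- replacing a piece of a path -/
lemma replace_piece {Adj : α → α → Prop} (hs : ∀ a b, Adj a b → Adj b a) {P : List α}
    (hc : P.IsChain Adj) (hn : P.Nodup) {a b : α} (ha : a ∈ P) (hb : b ∈ P) (hab : a ≠ b)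
    {D : List α} (hD : (a :: D ++ [b]).IsChain Adj) (hDn : D.Nodup) (hdis : ∀ v ∈ D, v ∉ P) :
    ∃ P' : List α, P'.IsChain Adj ∧ P'.Nodup ∧ P'.head? = P.head? ∧ P'.getLast? = P.getLast? ∧
      (∀ v ∈ P', v ∈ P ∨ v ∈ D) ∧ D.length ≤ P'.length := by
  -- ordered version
  have key : ∀ (a b : α) (D : List α), (a :: D ++ [b]).IsChain Adj → D.Nodup →
      (∀ v ∈ D, v ∉ P) → ∀ P1 P2 P3 : List α, P = P1 ++ a :: (P2 ++ b :: P3) →
      ∃ P' : List α, P'.IsChain Adj ∧ P'.Nodup ∧ P'.head? = P.head? ∧ P'.getLast? = P.getLast? ∧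
      (∀ v ∈ P', v ∈ P ∨ v ∈ D) ∧ D.length ≤ P'.length := by
    intro a b D hD hDn hdis P1 P2 P3 e
    refine ⟨P1 ++ a :: (D ++ b :: P3), ?_, ?_, ?_, ?_, ?_, ?_⟩
    · rw [List.isChain_split]
      have hc' := hc
      rw [e, List.isChain_split] at hc'
      refine ⟨hc'.1, ?_⟩
      have h2 : (a :: P2 ++ b :: P3).IsChain Adj := hc'.2
      rw [List.isChain_split] at h2
      show (a :: D ++ b :: P3).IsChain Adj
      rw [List.isChain_split]
      exact ⟨hD, h2.2⟩
    · have hn' : (P1 ++ a :: (b :: P3)).Nodup := by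
        rw [e] at hn
        refine hn.sublist ?_
        refine List.Sublist.append_left (List.Sublist.cons_cons a ?_) P1
        exact List.sublist_append_right P2 _
      have hperm : (P1 ++ a :: (D ++ b :: P3)).Perm (D ++ (P1 ++ a :: (b :: P3))) := by
        calc (P1 ++ a :: (D ++ b :: P3)).Perm (P1 ++ (D ++ a :: (b :: P3))) := by
              refine List.Perm.append_left P1 ?_
              exact List.perm_middle.symm
          _ = (P1 ++ D) ++ (a :: (b :: P3)) := by rw [List.append_assoc]
          _ |>.Perm ((D ++ P1) ++ (a :: (b :: P3))) := List.Perm.append_right _ List.perm_append_comm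
          _ = D ++ (P1 ++ a :: (b :: P3)) := by rw [List.append_assoc]
      rw [hperm.nodup_iff, List.nodup_append]
      refine ⟨hDn, hn', ?_⟩
      intro x hx y hy hxy
      subst hxy
      apply hdis x hx
      rw [e]
      simp only [List.mem_append, List.mem_cons] at hy ⊢
      tauto
    · rw [e]; cases P1 <;> simp
    · rw [e]
      have h1 : (P1 ++ a :: (D ++ b :: P3)) = (P1 ++ a :: D) ++ (b :: P3) := by simp
      have h2 : (P1 ++ a :: (P2 ++ b :: P3)) = (P1 ++ a :: P2) ++ (b :: P3) := by simp
      rw [h1, h2, List.getLast?_append_of_ne_nil _ (by simp),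
        List.getLast?_append_of_ne_nil _ (by simp)]
    · intro v hv
      rw [e]
      simp only [List.mem_append, List.mem_cons] at hv ⊢
      tauto
    · simp only [List.length_append, List.length_cons]
      omega
  obtain ⟨P1, P4, e1⟩ := List.append_of_mem ha
  have hb' : b ∈ P1 ∨ b ∈ P4 := by
    rw [e1] at hb
    simp only [List.mem_append, List.mem_cons] at hb
    rcases hb with h | h | h
    · exact Or.inl h
    · exact absurd h.symm hab
    · exact Or.inr h
  rcases hb' with h | h
  · obtain ⟨Q1, Q2, e2⟩ := List.append_of_mem h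
    obtain ⟨P', h1, h2, h3, h4, h5, h6⟩ := key b a D.reverse (by
        have := chain_rev hs hD
        simpa using this) (List.nodup_reverse.2 hDn)
      (fun v hv => hdis v (List.mem_reverse.1 hv)) Q1 Q2 P4 (by rw [e1, e2]; simp)
    refine ⟨P', h1, h2, h3, h4, fun v hv => ?_, by rwa [List.length_reverse] at h6⟩
    rcases h5 v hv with h | h
    · exact Or.inl h
    · exact Or.inr (List.mem_reverse.1 h)
  · obtain ⟨Q1, Q2, e2⟩ := List.append_of_mem h
    exact key a b D hD hDn hdis P1 Q1 Q2 (by rw [e1, e2])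

open Classical in
/-- number of marked points -/
noncomputable def cnt (P : Set α) (l : List α) : ℕ := (l.filter (fun v => decide (v ∈ P))).length

lemma cnt_append (P : Set α) (l l' : List α) : cnt P (l ++ l') = cnt P l + cnt P l' := by
  unfold cnt
  rw [List.filter_append, List.length_append]

lemma cnt_take_succ (P : Set α) (l : List α) (k : ℕ) :
    cnt P (l.take (k + 1)) ≤ cnt P (l.take k) + 1 := by
  rw [List.take_succ, cnt_append]
  refine Nat.add_le_add_left ?_ _
  unfold cnt
  refine (List.length_filter_le _ _).trans ?_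
  cases l[k]? <;> simp

/-- Replacing disjoint pieces of a path by detours, one for each colour. -/
theorem glue {ι : Type*} [DecidableEq ι] {Adj : α → α → Prop} (hs : ∀ a b, Adj a b → Adj b a)
    (s : ℕ) (hs1 : 1 ≤ s) (P Reg : ι → Set α) (ℓ : ι → ℕ) (F0 : Finset ι)
    (hReg : ∀ i ∈ F0, ∀ j ∈ F0, i ≠ j → ∀ v, v ∈ Reg i → v ∉ Reg j)
    (hdet : ∀ i ∈ F0, ∀ A' : List α, A'.Nodup → (∀ a ∈ A', a ∈ P i) → s ≤ A'.length →
      ∃ a ∈ A', ∃ b ∈ A', a ≠ b ∧ ∃ D : List α, (a :: D ++ [b]).IsChain Adj ∧ D.Nodup ∧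
        (∀ v ∈ D, v ∈ Reg i) ∧ ℓ i ≤ D.length) :
    ∀ (F : Finset ι), F ⊆ F0 → ∀ Δ : List α, Δ.IsChain Adj → Δ.Nodup →
      (∀ i ∈ F, ∀ v ∈ Δ, v ∉ Reg i) → (∀ i ∈ F, F.card * s ≤ cnt (P i) Δ) →
      ∃ Δ' : List α, Δ'.IsChain Adj ∧ Δ'.Nodup ∧ Δ'.head? = Δ.head? ∧ Δ'.getLast? = Δ.getLast? ∧
        (∀ v ∈ Δ', v ∈ Δ ∨ ∃ i ∈ F, v ∈ Reg i) ∧ ∑ i ∈ F, ℓ i ≤ Δ'.length := by
  classical
  intro F
  induction hcard : F.card generalizing F with
  | zero =>
    intro _ Δ hc hn _ _
    rw [Finset.card_eq_zero] at hcard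
    subst hcard
    exact ⟨Δ, hc, hn, rfl, rfl, fun v hv => Or.inl hv, by simp⟩
  | succ N ih =>
    intro hF0 Δ hc hn hdisj hcount
    have hne : F.Nonempty := by
      rw [← Finset.card_pos]; omega
    have hex : ∃ k, ∃ i ∈ F, s ≤ cnt (P i) (Δ.take k) := by
      obtain ⟨i, hi⟩ := hne
      refine ⟨Δ.length, i, hi, ?_⟩
      rw [List.take_length]
      refine le_trans ?_ (hcount i hi)
      nlinarith
    set k := Nat.find hex with hk
    obtain ⟨i, hiF, hi⟩ := Nat.find_spec hex
    rw [← hk] at hi
    have hmin : ∀ k' < k, ∀ j ∈ F, cnt (P j) (Δ.take k') < s := by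
      intro k' hk' j hj
      have := Nat.find_min hex hk'
      push Not at this
      exact this j hj
    have hk1 : 1 ≤ k := by
      by_contra h
      have h0 : k = 0 := by omega
      rw [h0] at hi
      simp [cnt] at hi
      omega
    have hle : ∀ j ∈ F, cnt (P j) (Δ.take k) ≤ s := by
      intro j hj
      obtain ⟨k', hk'⟩ : ∃ k', k = k' + 1 := ⟨k - 1, by omega⟩
      have h1 := hmin k' (by omega) j hj
      have h2 := cnt_take_succ (P j) Δ k'
      rw [← hk'] at h2
      omega
    set Pk := Δ.take k with hPk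
    set Q := Δ.drop k with hQ
    have hPQ : Pk ++ Q = Δ := List.take_append_drop k Δ
    have hcP : Pk.IsChain Adj := hc.take k
    have hcQ : Q.IsChain Adj := hc.drop k
    have hjoin : ∀ x ∈ Pk.getLast?, ∀ y ∈ Q.head?, Adj x y := by
      have := hc
      rw [← hPQ, List.isChain_append] at this
      exact this.2.2
    have hnPQ : Pk.Nodup ∧ Q.Nodup ∧ ∀ a ∈ Pk, ∀ b ∈ Q, a ≠ b := by
      have := hn
      rw [← hPQ, List.nodup_append] at this
      exact this
    -- the detour for colour i
    obtain ⟨a, haA, b, hbA, hab, D, hD, hDn, hDR, hDl⟩ := hdet i (hF0 hiF)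
      (Pk.filter (fun v => decide (v ∈ P i))) (hnPQ.1.filter _)
      (fun a ha => by rw [List.mem_filter] at ha; simpa using ha.2) hi
    have haP : a ∈ Pk := (List.mem_filter.1 haA).1
    have hbP : b ∈ Pk := (List.mem_filter.1 hbA).1
    have hPΔ : ∀ v ∈ Pk, v ∈ Δ := fun v hv => List.mem_of_mem_take hv
    have hQΔ : ∀ v ∈ Q, v ∈ Δ := fun v hv => List.mem_of_mem_drop hv
    obtain ⟨P', p1, p2, p3, p4, p5, p6⟩ := replace_piece hs hcP hnPQ.1 haP hbP hab hD hDn
      (fun v hv hvP => hdisj i hiF v (hPΔ v hvP) (hDR v hv))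
    -- the remaining colours
    have hcardE : (F.erase i).card = N := by
      rw [Finset.card_erase_of_mem hiF]; omega
    have hsubE : F.erase i ⊆ F := Finset.erase_subset _ _
    obtain ⟨Q', q1, q2, q3, q4, q5, q6⟩ := ih (F.erase i) hcardE (hsubE.trans hF0) Q hcQ hnPQ.2.1
      (fun j hj v hv => hdisj j (hsubE hj) v (hQΔ v hv)) (by
        intro j hj
        have h1 := hcount j (hsubE hj)
        have h2 := hle j (hsubE hj)
        rw [← hPQ, cnt_append] at h1
        rw [Nat.succ_mul] at h1
        omega)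
    refine ⟨P' ++ Q', ?_, ?_, ?_, ?_, ?_, ?_⟩
    · rw [List.isChain_append]
      refine ⟨p1, q1, ?_⟩
      rw [p4, q3]
      exact hjoin
    · rw [List.nodup_append]
      refine ⟨p2, q2, ?_⟩
      intro x hx y hy hxy
      subst hxy
      rcases p5 x hx with h1 | h1
      · rcases q5 x hy with h2 | ⟨j, hj, h2⟩
        · exact hnPQ.2.2 x h1 x h2 rfl
        · exact hdisj j (hsubE hj) x (hPΔ x h1) h2
      · have h1' := hDR x h1
        rcases q5 x hy with h2 | ⟨j, hj, h2⟩
        · exact hdisj i hiF x (hQΔ x h2) h1'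
        · exact hReg i (hF0 hiF) j (hF0 (hsubE hj)) (Finset.ne_of_mem_erase hj).symm x h1' h2
    · rw [← hPQ, List.head?_append, List.head?_append, p3, q3]
    · rw [← hPQ, List.getLast?_append, List.getLast?_append, p4, q4]
    · intro v hv
      rw [List.mem_append] at hv
      rcases hv with hv | hv
      · rcases p5 v hv with h | h
        · exact Or.inl (hPΔ v h)
        · exact Or.inr ⟨i, hiF, hDR v h⟩
      · rcases q5 v hv with h | ⟨j, hj, h⟩
        · exact Or.inl (hQΔ v h)
        · exact Or.inr ⟨j, hsubE hj, h⟩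
    · rw [List.length_append, ← Finset.add_sum_erase F ℓ hiF]
      omega

/-- a long arc of a cycle between two of many marked points -/
lemma long_arc {Adj : α → α → Prop} {γ : List α} (hn : γ.Nodup)
    (hc : (γ ++ γ).IsChain Adj) {s : ℕ} (hs : 2 ≤ s) (B : Finset α) (hB : ∀ b ∈ B, b ∈ γ)
    (hBs : s ≤ B.card) :
    ∃ b ∈ B, ∃ b' ∈ B, b ≠ b' ∧ ∃ A : List α, A.IsChain Adj ∧ A.Nodup ∧ A.head? = some b ∧
      A.getLast? = some b' ∧ (∀ v ∈ A, v ∈ γ) ∧ γ.length - γ.length / (s - 1) ≤ A.length := by
  classical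
  set L := γ.length with hL
  have hfact := Nat.lt_mul_div_succ L (show 0 < s - 1 by omega)
  generalize hDv : L / (s - 1) = Dv at hfact ⊢
  set t := Dv + 1 with ht
  have hlt : ∀ b ∈ B, γ.idxOf b < L := fun b hb => List.idxOf_lt_length_iff.2 (hB b hb)
  have hmap : ∀ b ∈ B, γ.idxOf b / t ∈ Finset.range (s - 1) := by
    intro b hb
    rw [Finset.mem_range]
    rw [Nat.div_lt_iff_lt_mul (by omega)]
    have h1 := hlt b hb
    have h2 : L < (s - 1) * t := hfact
    rw [mul_comm] at h2
    omega
  obtain ⟨b, hb, b', hb', hne, heq⟩ := Finset.exists_ne_map_eq_of_card_lt_of_maps_to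
    (s := B) (t := Finset.range (s - 1)) (by rw [Finset.card_range]; omega) hmap
  -- ordered version
  have key : ∀ b ∈ B, ∀ b' ∈ B, γ.idxOf b < γ.idxOf b' → γ.idxOf b / t = γ.idxOf b' / t →
      ∃ A : List α, A.IsChain Adj ∧ A.Nodup ∧ A.head? = some b' ∧
      A.getLast? = some b ∧ (∀ v ∈ A, v ∈ γ) ∧ L - Dv ≤ A.length := by
    intro b hb b' hb' hlt1 heq
    set p := γ.idxOf b with hp
    set p' := γ.idxOf b' with hp'
    have hp'L : p' < L := hlt b' hb'
    have hpp : p' - p ≤ Dv := by
      have h1 := Nat.div_add_mod p t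
      have h2 := Nat.div_add_mod p' t
      have h3 : p' % t < t := Nat.mod_lt _ (by omega)
      rw [heq] at h1
      omega
    have gb : γ[p]'(by omega) = b := List.getElem_idxOf (by omega)
    have gb' : γ[p']'(by omega) = b' := List.getElem_idxOf (by omega)
    refine ⟨γ.drop p' ++ γ.take (p + 1), ?_, ?_, ?_, ?_, ?_, ?_⟩
    · have h1 : γ.drop p' ++ γ.take (p + 1) = ((γ ++ γ).drop p').take (L - p' + (p + 1)) := by
        rw [List.drop_append_of_le_length (by omega), List.take_append]
        congr 1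
        · rw [List.take_of_length_le]
          rw [List.length_drop]; omega
        · congr 1
          rw [List.length_drop]; omega
      rw [h1]
      exact (hc.drop p').take _
    · rw [List.nodup_append]
      refine ⟨hn.sublist (List.drop_sublist _ _), hn.sublist (List.take_sublist _ _), ?_⟩
      intro x hx y hy hxy
      subst hxy
      rw [List.mem_drop_iff_getElem] at hx
      rw [List.mem_take_iff_getElem] at hy
      obtain ⟨i, hi, e1⟩ := hx
      obtain ⟨j, hj, e2⟩ := hy
      have := (List.Nodup.getElem_inj_iff hn).1 (e1.trans e2.symm)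
      omega
    · rw [List.head?_append_of_ne_nil]
      · rw [List.head?_drop, List.getElem?_eq_getElem (by omega), gb']
      · intro h
        rw [List.drop_eq_nil_iff] at h
        omega
    · rw [List.getLast?_append_of_ne_nil]
      · rw [List.getLast?_take]
        simp only [Nat.add_eq_zero_iff, one_ne_zero, and_false, if_false, Nat.add_sub_cancel]
        rw [List.getElem?_eq_getElem (by omega), gb]
        rfl
      · intro h
        rw [List.take_eq_nil_iff] at h
        rcases h with h | h
        · omega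
        · rw [h] at hL; simp at hL; omega
    · intro v hv
      rw [List.mem_append] at hv
      rcases hv with hv | hv
      · exact List.mem_of_mem_drop hv
      · exact List.mem_of_mem_take hv
    · rw [List.length_append, List.length_drop, List.length_take]
      omega
  have hpne : γ.idxOf b ≠ γ.idxOf b' := fun h => hne (List.idxOf_inj (hB b hb) |>.1 h)
  rcases lt_or_gt_of_ne hpne with h | h
  · obtain ⟨A, h1⟩ := key b hb b' hb' h heq
    exact ⟨b', hb', b, hb, hne.symm, A, h1⟩
  · obtain ⟨A, h1⟩ := key b' hb' b hb h heq.symm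
    exact ⟨b, hb, b', hb', hne, A, h1⟩

end Pool.Agent.H978R2
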