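import Pool.Agent.H978R2.Integ

/-!
# The main inequalities
-/

set_option autoImplicit false
set_option linter.all false
set_option linter.deprecated false

open MeasureTheory Set

namespace Pool.Agent.H978R2

lemma meas_goodTwo (n h m : ℕ) : MeasurableSet (goodTwo n h m) := by
  have : goodTwo n h m = (⋂ r : ℕ, ⋂ _ : r < m,
      goodRow (2 * h + 1) (h + 1 + (r * (n + 2 * h) : ℕ) + h) n n h h m) ∩
      (rel swp ⁻¹' goodRow (h + 1) (h + 1) (n + 2 * h) (m * n + 2 * h) h h m) := by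
    ext ω
    simp only [mem_inter_iff, mem_iInter]
    rfl
  rw [this]
  exact (MeasurableSet.iInter fun r => MeasurableSet.iInter fun _ => meas_goodRow _ _ _ _ _ _ _).inter
    (rel_measurable swp (meas_goodRow _ _ _ _ _ _ _))

/-- the deterministic relative error -/
noncomputable def aerr (n h m s N : ℕ) : ℝ :=
  1 - (1 - 1 / ((s : ℝ) - 1)) ^ 2 * (m * n) ^ 2 / N ^ 2 +
    (m ^ 2 * ((m * s + 2) * h * n) + m * ((m * s + 2) * h * (m * n + 2 * h))) / N ^ 2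

section

variable {n h m s N : ℕ} (hn : 1 ≤ n) (hh : 1 ≤ h) (hm : 1 ≤ m) (hs : 2 ≤ s)
  (hN : m * (n + 6 * h) ≤ N)

include hn hm hs hN

lemma par_facts : (0 : ℝ) < N ∧ (m * n : ℝ) ≤ N ∧ 0 < (m * n : ℝ) ∧
    0 ≤ 1 - 1 / ((s : ℝ) - 1) ∧ 1 - 1 / ((s : ℝ) - 1) ≤ 1 := by
  have h1 : m * n ≤ N := by
    have : m * n ≤ m * (n + 6 * h) := Nat.mul_le_mul_left m (by omega)
    omega
  have h2 : 0 < m * n := Nat.mul_pos hm hn
  have hs1 : (1 : ℝ) ≤ (s : ℝ) - 1 := by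
    have : (2 : ℝ) ≤ s := by exact_mod_cast hs
    linarith
  refine ⟨?_, by exact_mod_cast h1, by exact_mod_cast h2, ?_, ?_⟩
  · have : 0 < N := by omega
    exact_mod_cast this
  · have : 1 / ((s : ℝ) - 1) ≤ 1 := by
      rw [div_le_one (by linarith)]; exact hs1
    linarith
  · have : 0 ≤ 1 / ((s : ℝ) - 1) := by positivity
    linarith

lemma ratio_le_one : (1 - 1 / ((s : ℝ) - 1)) ^ 2 * (m * n) ^ 2 / N ^ 2 ≤ 1 := by
  obtain ⟨h1, h2, h3, h4, h5⟩ := par_facts hn hm hs hN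
  rw [div_le_one (by positivity)]
  have h6 : (1 - 1 / ((s : ℝ) - 1)) ^ 2 ≤ 1 := pow_le_one₀ h4 h5
  have h7 : ((m : ℝ) * n) ^ 2 ≤ N ^ 2 := pow_le_pow_left₀ h3.le h2 2
  nlinarith [sq_nonneg ((m : ℝ) * n)]

lemma aerr_nonneg : 0 ≤ aerr n h m s N := by
  have h1 := ratio_le_one hn hm hs hN
  unfold aerr
  have h2 : (0 : ℝ) ≤ (m ^ 2 * ((m * s + 2) * h * n) + m * ((m * s + 2) * h * (m * n + 2 * h))) /
      N ^ 2 := by positivity
  linarith

include hh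

lemma main_pointwise {ω : Sym2 (ℤ × ℤ) → Bool} (hgood : ω ∈ goodTwo n h m) :
    SB n h m ω / (m * n) ^ 2 - aerr n h m s N ≤ (Clen (Rc 1 N 1 N) ω : ℝ) / N ^ 2 := by
  obtain ⟨h1, h2, h3, h4, h5⟩ := par_facts hn hm hs hN
  have h6 := two_stage hn hh hm hs hN hgood
  rw [SB_eq] at h6
  have h7 := ratio_le_one hn hm hs hN
  set ρ : ℝ := (1 - 1 / ((s : ℝ) - 1)) ^ 2 * (m * n) ^ 2 / N ^ 2 with hρ
  set E : ℝ := m ^ 2 * ((m * s + 2) * h * n) + m * ((m * s + 2) * h * (m * n + 2 * h)) with hE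
  have h8 : aerr n h m s N = 1 - ρ + E / N ^ 2 := rfl
  rw [h8]
  have h9 : 0 ≤ SB n h m ω / (m * n) ^ 2 := div_nonneg (SB_nonneg _ _ _ _) (by positivity)
  have h10 : SB n h m ω / (m * n) ^ 2 ≤ 1 := by
    rw [div_le_one (by positivity)]
    have := SB_le n h m ω
    nlinarith
  have h11 : (1 - 1 / ((s : ℝ) - 1)) ^ 2 * SB n h m ω / N ^ 2 = ρ * (SB n h m ω / (m * n) ^ 2) := by
    rw [hρ]
    field_simp
  have h12 : ((1 - 1 / ((s : ℝ) - 1)) ^ 2 * SB n h m ω - E) / N ^ 2 ≤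
      (Clen (Rc 1 N 1 N) ω : ℝ) / N ^ 2 := div_le_div_of_nonneg_right h6 (by positivity)
  rw [sub_div, h11] at h12
  nlinarith

variable (q : NNReal) (hq : q ≤ 1)

lemma main_expect : eC q hq n / n ^ 2 - aerr n h m s N -
    (bm (Sym2 (ℤ × ℤ)) q hq).real (goodTwo n h m)ᶜ ≤ eC q hq N / N ^ 2 := by
  classical
  obtain ⟨h1, h2, h3, h4, h5⟩ := par_facts hn hm hs hN
  set μ := bm (Sym2 (ℤ × ℤ)) q hq with hμ
  have hpt : ∀ ω, SB n h m ω / (m * n) ^ 2 - aerr n h m s N -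
      (goodTwo n h m)ᶜ.indicator (fun _ => (1 : ℝ)) ω ≤ (Clen (Rc 1 N 1 N) ω : ℝ) / N ^ 2 := by
    intro ω
    by_cases hω : ω ∈ goodTwo n h m
    · rw [Set.indicator_of_notMem (by simpa using hω)]
      have := main_pointwise hn hh hm hs hN hω
      linarith
    · rw [Set.indicator_of_mem (by simpa using hω)]
      have h9 : (0 : ℝ) ≤ (Clen (Rc 1 N 1 N) ω : ℝ) / N ^ 2 := by positivity
      have h10 : SB n h m ω / (m * n) ^ 2 ≤ 1 := by
        rw [div_le_one (by positivity)]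
        have := SB_le n h m ω
        nlinarith
      have h11 := aerr_nonneg (h := h) hn hm hs hN
      linarith
  have i1 : Integrable (fun ω => SB n h m ω / ((m : ℝ) * n) ^ 2) μ := by
    refine integrable_bdd q hq ((SB_measurable n h m).div_const _) 1 fun ω => ?_
    rw [abs_of_nonneg (div_nonneg (SB_nonneg _ _ _ _) (by positivity))]
    rw [div_le_one (by positivity)]
    have := SB_le n h m ω
    nlinarith
  have i2 : Integrable (fun ω => (goodTwo n h m)ᶜ.indicator (fun _ => (1 : ℝ)) ω) μ :=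
    (integrable_const _).indicator (meas_goodTwo n h m).compl
  have i3 : Integrable (fun ω => (Clen (Rc 1 N 1 N) ω : ℝ) / (N : ℝ) ^ 2) μ :=
    (Clen_integrable q hq (Rc_finite _ _ _ _)).div_const _
  have i12 : Integrable (fun ω => SB n h m ω / ((m : ℝ) * n) ^ 2 - aerr n h m s N) μ :=
    i1.sub (integrable_const (aerr n h m s N))
  have i123 : Integrable (fun ω => SB n h m ω / ((m : ℝ) * n) ^ 2 - aerr n h m s N -
      (goodTwo n h m)ᶜ.indicator (fun _ => (1 : ℝ)) ω) μ := i12.sub i2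
  have h6 := integral_mono i123 i3 hpt
  have h7 : ∫ ω, (SB n h m ω / ((m : ℝ) * n) ^ 2 - aerr n h m s N -
      (goodTwo n h m)ᶜ.indicator (fun _ => (1 : ℝ)) ω) ∂μ =
      (m ^ 2 * eC q hq n) / (m * n) ^ 2 - aerr n h m s N - μ.real (goodTwo n h m)ᶜ := by
    rw [integral_sub i12 i2, integral_sub i1 (integrable_const _),
      integral_div, SB_integral]
    congr 1
    · simp
    · exact integral_indicator_one (meas_goodTwo n h m).compl
  have h8 : ∫ ω, (Clen (Rc 1 N 1 N) ω : ℝ) / (N : ℝ) ^ 2 ∂μ = eC q hq N / N ^ 2 := by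
    rw [integral_div]; rfl
  have h9 : ((m : ℝ) ^ 2 * eC q hq n) / (m * n) ^ 2 = eC q hq n / n ^ 2 := by
    have hm0 : (m : ℝ) ≠ 0 := by
      have : 0 < m := hm
      positivity
    have hn0 : (n : ℝ) ≠ 0 := by
      have : 0 < n := hn
      positivity
    field_simp
  rw [← h9, ← h8]
  refine le_trans (le_of_eq h7.symm) ?_
  exact h6

lemma main_tail {x : ℝ} (hx : 0 < x) :
    (bm (Sym2 (ℤ × ℤ)) q hq).real {ω | (Clen (Rc 1 N 1 N) ω : ℝ) / N ^ 2 <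
      eC q hq n / n ^ 2 - aerr n h m s N - x} ≤
    (bm (Sym2 (ℤ × ℤ)) q hq).real (goodTwo n h m)ᶜ + 1 / (m ^ 2 * x ^ 2) := by
  classical
  obtain ⟨h1, h2, h3, h4, h5⟩ := par_facts hn hm hs hN
  set μ := bm (Sym2 (ℤ × ℤ)) q hq with hμ
  have hm0 : (0 : ℝ) < m := by exact_mod_cast hm
  have hn0 : (0 : ℝ) < n := by exact_mod_cast hn
  have hsub : {ω | (Clen (Rc 1 N 1 N) ω : ℝ) / N ^ 2 <
      eC q hq n / n ^ 2 - aerr n h m s N - x} ⊆ (goodTwo n h m)ᶜ ∪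
      {ω | x ^ 2 * (m ^ 4 * n ^ 4) ≤ (SB n h m ω - m ^ 2 * eC q hq n) ^ 2} := by
    intro ω hω
    by_cases hg : ω ∈ goodTwo n h m
    · right
      have h6 := main_pointwise hn hh hm hs hN hg
      have h7 : (Clen (Rc 1 N 1 N) ω : ℝ) / N ^ 2 <
        eC q hq n / n ^ 2 - aerr n h m s N - x := hω
      have h8 : SB n h m ω / (m * n) ^ 2 < eC q hq n / n ^ 2 - x := by linarith
      have h9 : eC q hq n / n ^ 2 = (m ^ 2 * eC q hq n) / (m * n) ^ 2 := by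
        field_simp
      rw [h9, div_lt_iff₀ (by positivity), sub_mul, div_mul_cancel₀ _ (by positivity)] at h8
      have h10 : x * (m * n) ^ 2 ≤ m ^ 2 * eC q hq n - SB n h m ω := by linarith
      have h11 : 0 ≤ x * ((m : ℝ) * n) ^ 2 := by positivity
      have h12 := pow_le_pow_left₀ h11 h10 2
      show x ^ 2 * (m ^ 4 * n ^ 4) ≤ (SB n h m ω - m ^ 2 * eC q hq n) ^ 2
      nlinarith
    · left; exact hg
  refine (measureReal_mono hsub (measure_ne_top _ _)).trans ((measureReal_union_le _ _).trans ?_)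
  refine add_le_add le_rfl ?_
  have hint : Integrable (fun ω => (SB n h m ω - m ^ 2 * eC q hq n) ^ 2) μ := by
    refine integrable_bdd q hq (((SB_measurable n h m).sub measurable_const).pow_const 2)
      (((m : ℝ) ^ 2 * n ^ 2) ^ 2) fun ω => ?_
    rw [abs_of_nonneg (sq_nonneg _)]
    have e1 := SB_nonneg n h m ω
    have e2 := SB_le n h m ω
    have e3 := eC_nonneg q hq n
    have e4 := eC_le q hq n
    have e5 : (m : ℝ) ^ 2 * eC q hq n ≤ m ^ 2 * n ^ 2 :=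
      mul_le_mul_of_nonneg_left e4 (by positivity)
    have e6 : 0 ≤ (m : ℝ) ^ 2 * eC q hq n := by positivity
    refine sq_le_sq' ?_ ?_ <;> linarith
  have hmk := mul_meas_ge_le_integral_of_nonneg (μ := μ)
    (Filter.Eventually.of_forall fun ω => sq_nonneg (SB n h m ω - m ^ 2 * eC q hq n)) hint
    (x ^ 2 * ((m : ℝ) ^ 4 * n ^ 4))
  have hv := SB_var q hq n h m
  have h13 : 0 < x ^ 2 * ((m : ℝ) ^ 4 * n ^ 4) := by positivity
  rw [le_div_iff₀ (by positivity)]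
  have h14 : x ^ 2 * ((m : ℝ) ^ 4 * n ^ 4) *
      μ.real {ω | x ^ 2 * ((m : ℝ) ^ 4 * n ^ 4) ≤ (SB n h m ω - m ^ 2 * eC q hq n) ^ 2} ≤
      m ^ 2 * n ^ 4 := hmk.trans hv
  set T := μ.real {ω | x ^ 2 * ((m : ℝ) ^ 4 * n ^ 4) ≤ (SB n h m ω - m ^ 2 * eC q hq n) ^ 2}
  have h15 : ((m : ℝ) ^ 2 * (n : ℝ) ^ 4) * (T * ((m : ℝ) ^ 2 * x ^ 2)) ≤
      ((m : ℝ) ^ 2 * (n : ℝ) ^ 4) * 1 := by
    calc ((m : ℝ) ^ 2 * (n : ℝ) ^ 4) * (T * ((m : ℝ) ^ 2 * x ^ 2)) =
          x ^ 2 * ((m : ℝ) ^ 4 * (n : ℝ) ^ 4) * T := by ring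
      _ ≤ (m : ℝ) ^ 2 * (n : ℝ) ^ 4 := h14
      _ = ((m : ℝ) ^ 2 * (n : ℝ) ^ 4) * 1 := by ring
  exact le_of_mul_le_mul_left h15 (by positivity)

end

end Pool.Agent.H978R2
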