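import Mathlib

/-!
# Planar topology of the square lattice by parity arguments
-/

set_option autoImplicit false
set_option linter.all false
set_option linter.deprecated false

open Set

namespace Pool.Agent.H978R2

/-- The square lattice `ℤ^2`. -/
def lat : SimpleGraph (ℤ × ℤ) where
  Adj x y := (x.1 - y.1) ^ 2 + (x.2 - y.2) ^ 2 = 1
  symm := ⟨fun x y h => by rw [← h]; ring⟩
  loopless := ⟨fun x h => by simp at h⟩

lemma lat_adj {x y : ℤ × ℤ} : lat.Adj x y ↔
    (x.1 = y.1 ∧ (x.2 = y.2 + 1 ∨ y.2 = x.2 + 1)) ∨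
    (x.2 = y.2 ∧ (x.1 = y.1 + 1 ∨ y.1 = x.1 + 1)) := by
  show (x.1 - y.1) ^ 2 + (x.2 - y.2) ^ 2 = 1 ↔ _
  constructor
  · intro h
    have h1 : (x.1 - y.1) ^ 2 ≤ 1 := by nlinarith [sq_nonneg (x.2 - y.2)]
    have h2 : (x.2 - y.2) ^ 2 ≤ 1 := by nlinarith [sq_nonneg (x.1 - y.1)]
    have h3 : |x.1 - y.1| ≤ 1 := by
      rw [← sq_le_one_iff_abs_le_one]; exact h1
    have h4 : |x.2 - y.2| ≤ 1 := by
      rw [← sq_le_one_iff_abs_le_one]; exact h2
    rw [abs_le] at h3 h4
    obtain h5 | h5 | h5 : x.1 - y.1 = -1 ∨ x.1 - y.1 = 0 ∨ x.1 - y.1 = 1 := by omega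
    · rw [h5] at h
      have h6 : (x.2 - y.2) ^ 2 = 0 := by linarith
      have h7 := pow_eq_zero_iff (two_ne_zero) |>.1 h6
      right; constructor <;> omega
    · rw [h5] at h
      have h6 : (x.2 - y.2) ^ 2 = 1 := by linarith
      have h7 : x.2 - y.2 = 1 ∨ x.2 - y.2 = -1 := mul_self_eq_one_iff.1 (by rw [← sq]; exact h6)
      left; constructor
      · omega
      · rcases h7 with h7 | h7
        · left; omega
        · right; omega
    · rw [h5] at h
      have h6 : (x.2 - y.2) ^ 2 = 0 := by linarith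
      have h7 := pow_eq_zero_iff (two_ne_zero) |>.1 h6
      right; constructor <;> omega
  · rintro (⟨h1, h2 | h2⟩ | ⟨h1, h2 | h2⟩)
    · rw [h1, h2]; ring
    · rw [h1, h2]; ring
    · rw [h1, h2]; ring
    · rw [h1, h2]; ring

open Classical in
/-- number (mod 2) of the steps of a list satisfying `P` -/
noncomputable def cr {α : Type*} (P : α → α → Prop) : List α → ZMod 2
  | [] => 0
  | [_] => 0
  | a :: b :: l => (if P a b then 1 else 0) + cr P (b :: l)

open Classical in
/-- indicator mod 2 -/
noncomputable def ind {α : Type*} (Q : Set α) (a : α) : ZMod 2 := if a ∈ Q then 1 else 0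

lemma ind_mem {α : Type*} {Q : Set α} {a : α} (h : a ∈ Q) : ind Q a = 1 := by simp [ind, h]
lemma ind_not_mem {α : Type*} {Q : Set α} {a : α} (h : a ∉ Q) : ind Q a = 0 := by simp [ind, h]

lemma two_zmod (x : ZMod 2) : x + x = 0 := CharTwo.add_self_eq_zero x

lemma cr_congr {α : Type*} {R P P' : α → α → Prop} {l : List α} (hl : l.IsChain R)
    (h : ∀ a b, a ∈ l → b ∈ l → R a b → (P a b ↔ P' a b)) : cr P l = cr P' l := by
  classical
  induction l with
  | nil => rfl
  | cons a l ih =>
    cases l with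
    | nil => rfl
    | cons b l =>
      rw [List.isChain_cons_cons] at hl
      have h1 := ih hl.2 (fun c d hc hd => h c d (List.mem_cons_of_mem _ hc)
        (List.mem_cons_of_mem _ hd))
      have h2 := h a b (by simp) (by simp) hl.1
      simp only [cr, h1, h2]

lemma cr_add {α : Type*} {R P P' P'' : α → α → Prop} {l : List α} (hl : l.IsChain R)
    (h : ∀ a b, a ∈ l → b ∈ l → R a b → (P'' a b ↔ ¬ (P a b ↔ P' a b))) :
    cr P l + cr P' l = cr P'' l := by
  classical
  induction l with
  | nil => simp [cr]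
  | cons a l ih =>
    cases l with
    | nil => simp [cr]
    | cons b l =>
      rw [List.isChain_cons_cons] at hl
      have h1 := ih hl.2 (fun c d hc hd => h c d (List.mem_cons_of_mem _ hc)
        (List.mem_cons_of_mem _ hd))
      have h2 := h a b (by simp) (by simp) hl.1
      simp only [cr]
      rw [← h1]
      have h3 : (if P'' a b then (1 : ZMod 2) else 0) =
          (if P a b then 1 else 0) + (if P' a b then 1 else 0) := by
        by_cases hp : P a b <;> by_cases hp' : P' a b
        · have : ¬ P'' a b := by rw [h2]; simp [hp, hp']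
          simp only [hp, hp', this, if_true, if_false]; decide
        · have : P'' a b := by rw [h2]; simp [hp, hp']
          simp only [hp, hp', this, if_true, if_false]; decide
        · have : P'' a b := by rw [h2]; simp [hp, hp']
          simp only [hp, hp', this, if_true, if_false]; decide
        · have : ¬ P'' a b := by rw [h2]; simp [hp, hp']
          simp only [hp, hp', this, if_true, if_false]; decide
      rw [h3]; ring

/-- number of crossings of the boundary of a set -/
lemma cr_bd {α : Type*} {R P : α → α → Prop} {Q : Set α} {l : List α} (hl : l.IsChain R)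
    (h : ∀ a b, a ∈ l → b ∈ l → R a b → (P a b ↔ ¬ (a ∈ Q ↔ b ∈ Q))) (hne : l ≠ []) :
    cr P l = ind Q (l.head hne) + ind Q (l.getLast hne) := by
  classical
  induction l with
  | nil => exact absurd rfl hne
  | cons a l ih =>
    cases l with
    | nil => simp [cr, two_zmod]
    | cons b l =>
      rw [List.isChain_cons_cons] at hl
      have h1 := ih hl.2 (fun c d hc hd => h c d (List.mem_cons_of_mem _ hc)
        (List.mem_cons_of_mem _ hd)) (by simp)
      have h2 := h a b (by simp) (by simp) hl.1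
      simp only [cr]
      rw [h1]
      simp only [List.head_cons, List.getLast_cons_cons]
      have h3 : (if P a b then (1 : ZMod 2) else 0) = ind Q a + ind Q b := by
        unfold ind
        by_cases hp : a ∈ Q <;> by_cases hp' : b ∈ Q
        · have : ¬ P a b := by rw [h2]; simp [hp, hp']
          simp only [hp, hp', this, if_true, if_false]; decide
        · have : P a b := by rw [h2]; simp [hp, hp']
          simp only [hp, hp', this, if_true, if_false]; decide
        · have : P a b := by rw [h2]; simp [hp, hp']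
          simp only [hp, hp', this, if_true, if_false]; decide
        · have : ¬ P a b := by rw [h2]; simp [hp, hp']
          simp only [hp, hp', this, if_true, if_false]; decide
      rw [h3]
      have := two_zmod (ind Q b)
      linear_combination this

lemma cr_zero {α : Type*} {R P : α → α → Prop} {l : List α} (hl : l.IsChain R)
    (h : ∀ a b, a ∈ l → b ∈ l → R a b → ¬ P a b) : cr P l = 0 := by
  classical
  induction l with
  | nil => rfl
  | cons a l ih =>
    cases l with
    | nil => rfl
    | cons b l =>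
      rw [List.isChain_cons_cons] at hl
      have h1 := ih hl.2 (fun c d hc hd => h c d (List.mem_cons_of_mem _ hc)
        (List.mem_cons_of_mem _ hd))
      have h2 := h a b (by simp) (by simp) hl.1
      simp only [cr, h1, h2, if_false, add_zero]

/-- vertical steps between the heights `y` and `y + 1`, strictly to the right of `x` -/
def VE (x y : ℤ) (u u' : ℤ × ℤ) : Prop :=
  u.1 = u'.1 ∧ x < u.1 ∧ ((u.2 = y ∧ u'.2 = y + 1) ∨ (u.2 = y + 1 ∧ u'.2 = y))

/-- a potential is constant along a list -/
lemma const_of_chain {α β : Type*} {R : α → α → Prop} (f : α → β) {L : List α}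
    (hL : L.IsChain R) (h : ∀ a b, a ∈ L → b ∈ L → R a b → f a = f b) (hne : L ≠ []) :
    f (L.head hne) = f (L.getLast hne) := by
  induction L with
  | nil => exact absurd rfl hne
  | cons a l ih =>
    cases l with
    | nil => rfl
    | cons b l =>
      rw [List.isChain_cons_cons] at hL
      have h1 := ih hL.2 (fun c d hc hd => h c d (List.mem_cons_of_mem _ hc)
        (List.mem_cons_of_mem _ hd)) (by simp)
      have h2 := h a b (by simp) (by simp) hL.1
      simp only [List.head_cons, List.getLast_cons_cons] at h1 ⊢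
      rw [h2, h1]

lemma VE_horiz {l : List (ℤ × ℤ)} (hl : l.IsChain lat.Adj) {x y : ℤ} (h : (x + 1, y) ∉ l) :
    cr (VE x y) l = cr (VE (x + 1) y) l := by
  refine cr_congr hl fun u u' hu hu' hadj => ?_
  unfold VE
  constructor
  · rintro ⟨h1, h2, h3⟩
    refine ⟨h1, ?_, h3⟩
    by_contra h4
    have h5 : u.1 = x + 1 := by omega
    rcases h3 with ⟨h3, _⟩ | ⟨_, h3⟩
    · exact h (by rw [← h5, ← h3]; exact hu)
    · exact h (by rw [← h5, ← h3, h1]; exact hu')
  · rintro ⟨h1, h2, h3⟩
    exact ⟨h1, by omega, h3⟩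

lemma VE_vert {l : List (ℤ × ℤ)} (hl : l.IsChain lat.Adj) {x y : ℤ} (h : (x, y + 1) ∉ l)
    (hne : l ≠ []) (h1 : (l.head hne).2 ≠ y + 1) (h2 : (l.getLast hne).2 ≠ y + 1) :
    cr (VE x y) l = cr (VE x (y + 1)) l := by
  have key : cr (VE x y) l + cr (VE x (y + 1)) l = 0 := by
    rw [cr_add (P'' := fun u u' => ¬ (u ∈ {w : ℤ × ℤ | x < w.1 ∧ w.2 = y + 1} ↔
      u' ∈ {w : ℤ × ℤ | x < w.1 ∧ w.2 = y + 1})) hl]
    · rw [cr_bd (Q := {w : ℤ × ℤ | x < w.1 ∧ w.2 = y + 1}) hl (fun _ _ _ _ _ => Iff.rfl) hne,
        ind_not_mem (fun hh => h1 hh.2), ind_not_mem (fun hh => h2 hh.2), add_zero]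
    · intro u u' hu hu' hadj
      rw [lat_adj] at hadj
      have e1 : u ≠ (x, y + 1) := fun hh => h (hh ▸ hu)
      have e2 : u' ≠ (x, y + 1) := fun hh => h (hh ▸ hu')
      have e1' : ¬ (u.1 = x ∧ u.2 = y + 1) := fun hh => e1 (Prod.ext hh.1 hh.2)
      have e2' : ¬ (u'.1 = x ∧ u'.2 = y + 1) := fun hh => e2 (Prod.ext hh.1 hh.2)
      simp only [VE, Set.mem_setOf_eq]
      obtain ⟨a, b⟩ := u
      obtain ⟨c, d⟩ := u'
      simp only at *
      omega
  have := two_zmod (cr (VE x (y + 1)) l)
  linear_combination key - this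

/-- A vertical crossing and a horizontal crossing have a common vertex. -/
theorem cross_common {l L : List (ℤ × ℤ)} (hl : l.IsChain lat.Adj) (hL : L.IsChain lat.Adj)
    (hlne : l ≠ []) (hLne : L ≠ []) {α β y0 y1 : ℤ}
    (h1 : ∀ u ∈ l, α ≤ u.1 ∧ u.1 ≤ β) (h2 : (l.head hlne).2 ≤ y0) (h3 : y1 ≤ (l.getLast hlne).2)
    (h4 : ∀ v ∈ L, y0 < v.2 ∧ v.2 < y1) (h5 : (L.head hLne).1 ≤ α)
    (h6 : β ≤ (L.getLast hLne).1) : ∃ v, v ∈ l ∧ v ∈ L := by
  by_contra hcon
  push Not at hcon
  have hdis : ∀ v ∈ L, v ∉ l := fun v hv hv' => hcon v hv' hv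
  have hconst := const_of_chain (fun v : ℤ × ℤ => cr (VE v.1 v.2) l) hL (fun a b ha hb hab => by
    have ha' := hdis a ha
    have hb' := hdis b hb
    have ya := h4 a ha
    have yb := h4 b hb
    rw [lat_adj] at hab
    obtain ⟨a1, a2⟩ := a
    obtain ⟨b1, b2⟩ := b
    simp only at *
    rcases hab with ⟨rfl, rfl | rfl⟩ | ⟨rfl, rfl | rfl⟩
    · exact (VE_vert hl ha' hlne (by omega) (by omega)).symm
    · exact VE_vert hl hb' hlne (by omega) (by omega)
    · exact (VE_horiz hl ha').symm
    · exact VE_horiz hl hb') hLne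
  have hs : cr (VE (L.head hLne).1 (L.head hLne).2) l = 1 := by
    have hmem := List.head_mem hLne
    have hn := hdis _ hmem
    have hy := h4 _ hmem
    rw [cr_bd (Q := {w : ℤ × ℤ | w.2 ≤ (L.head hLne).2}) hl ?_ hlne,
      ind_mem (show (l.head hlne) ∈ {w : ℤ × ℤ | w.2 ≤ (L.head hLne).2} by
        show (l.head hlne).2 ≤ (L.head hLne).2; omega),
      ind_not_mem (show (l.getLast hlne) ∉ {w : ℤ × ℤ | w.2 ≤ (L.head hLne).2} by
        show ¬ (l.getLast hlne).2 ≤ (L.head hLne).2; omega), add_zero]
    intro u u' hu hu' hadj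
    have e1 : u ≠ L.head hLne := fun hh => hn (hh ▸ hu)
    have e2 : u' ≠ L.head hLne := fun hh => hn (hh ▸ hu')
    have e1' : ¬ (u.1 = (L.head hLne).1 ∧ u.2 = (L.head hLne).2) :=
      fun hh => e1 (Prod.ext hh.1 hh.2)
    have e2' : ¬ (u'.1 = (L.head hLne).1 ∧ u'.2 = (L.head hLne).2) :=
      fun hh => e2 (Prod.ext hh.1 hh.2)
    have b1 := h1 u hu
    have b2 := h1 u' hu'
    rw [lat_adj] at hadj
    simp only [VE, Set.mem_setOf_eq]
    omega
  have he : cr (VE (L.getLast hLne).1 (L.getLast hLne).2) l = 0 := by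
    refine cr_zero hl fun u u' hu hu' hadj => ?_
    rintro ⟨_, h7, _⟩
    have := (h1 u hu).2
    omega
  have hconst' : cr (VE (L.head hLne).1 (L.head hLne).2) l =
    cr (VE (L.getLast hLne).1 (L.getLast hLne).2) l := hconst
  rw [hs, he] at hconst'
  exact absurd hconst' (by decide)

/-- Version with closed rows: the vertical list starts in row `≤ y0` and ends in row `≥ y1`, the
horizontal list stays in the rows `[y0, y1]`. -/
theorem cross_common' {l L : List (ℤ × ℤ)} (hl : l.IsChain lat.Adj) (hL : L.IsChain lat.Adj)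
    (hlne : l ≠ []) (hLne : L ≠ []) {α β y0 y1 : ℤ}
    (h1 : ∀ u ∈ l, α ≤ u.1 ∧ u.1 ≤ β) (h2 : (l.head hlne).2 ≤ y0) (h3 : y1 ≤ (l.getLast hlne).2)
    (h4 : ∀ v ∈ L, y0 ≤ v.2 ∧ v.2 ≤ y1) (h5 : (L.head hLne).1 ≤ α)
    (h6 : β ≤ (L.getLast hLne).1) : ∃ v, v ∈ l ∧ v ∈ L := by
  set s : ℤ × ℤ := ((l.head hlne).1, (l.head hlne).2 - 1) with hs
  set e : ℤ × ℤ := ((l.getLast hlne).1, (l.getLast hlne).2 + 1) with he
  have hc : (s :: (l ++ [e])).IsChain lat.Adj := by
    rw [List.isChain_cons]
    refine ⟨?_, ?_⟩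
    · intro y hy
      rw [List.head?_append_of_ne_nil _ hlne, List.head?_eq_some_head hlne,
        Option.mem_def, Option.some_inj] at hy
      subst hy
      rw [lat_adj]
      left
      exact ⟨rfl, Or.inr (by simp [hs])⟩
    · rw [List.isChain_append]
      refine ⟨hl, List.isChain_singleton _, ?_⟩
      intro x hx y hy
      rw [List.getLast?_eq_some_getLast hlne, Option.mem_def, Option.some_inj] at hx
      simp only [List.head?_cons, Option.mem_def, Option.some_inj] at hy
      subst hx
      subst hy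
      rw [lat_adj]
      left
      exact ⟨rfl, Or.inr (by simp [he])⟩
  obtain ⟨v, hv1, hv2⟩ := cross_common (l := s :: (l ++ [e])) (L := L) (y0 := y0 - 1)
    (y1 := y1 + 1) (α := α) (β := β) hc hL (by simp) hLne (by
      intro u hu
      simp only [List.mem_cons, List.mem_append, List.mem_nil_iff, or_false] at hu
      rcases hu with rfl | hu | rfl
      · exact h1 (l.head hlne) (List.head_mem hlne)
      · exact h1 u hu
      · exact h1 (l.getLast hlne) (List.getLast_mem hlne)) (by simp [hs]; omega)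
    (by
      rw [List.getLast_cons (by simp), List.getLast_append_singleton]
      simp [he]; omega)
    (fun v hv => by have := h4 v hv; omega) h5 h6
  refine ⟨v, ?_, hv2⟩
  simp only [List.mem_cons, List.mem_append, List.mem_nil_iff, or_false] at hv1
  rcases hv1 with rfl | hv1 | rfl
  · exfalso
    have := h4 _ hv2
    simp [hs] at this
    omega
  · exact hv1
  · exfalso
    have := h4 _ hv2
    simp [he] at this
    omega

end Pool.Agent.H978R2
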