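import Mathlib

/-!
# Bernoulli bond percolation on a countable graph: basic tools
-/

set_option autoImplicit false
set_option linter.all false
set_option linter.deprecated false

open MeasureTheory Set

namespace Pool.Agent.H978R2

/-- The product Bernoulli measure on configurations indexed by `ι`. -/
noncomputable def bm (ι : Type*) (q : NNReal) (hq : q ≤ 1) : Measure (ι → Bool) :=
  Measure.infinitePi (fun _ : ι => (PMF.bernoulli q hq).toMeasure)

instance (ι : Type*) (q : NNReal) (hq : q ≤ 1) : IsProbabilityMeasure (bm ι q hq) := by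
  unfold bm; infer_instance

/-- mix two configurations -/
def mix {ι : Type*} (J : Set ι) [DecidablePred (· ∈ J)] (x : (ι → Bool) × (ι → Bool)) : ι → Bool :=
  fun i => if i ∈ J then x.1 i else x.2 i

lemma measurable_mix {ι : Type*} (J : Set ι) [DecidablePred (· ∈ J)] : Measurable (mix J) := by
  rw [measurable_pi_iff]
  intro i
  unfold mix
  by_cases h : i ∈ J
  · simp only [h, if_true]; fun_prop
  · simp only [h, if_false]; fun_prop

lemma map_mix {ι : Type*} (q : NNReal) (hq : q ≤ 1) (J : Set ι) [DecidablePred (· ∈ J)] :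
    ((bm ι q hq).prod (bm ι q hq)).map (mix J) = bm ι q hq := by
  classical
  conv_rhs => unfold bm
  apply Measure.eq_infinitePi
  intro s t ht
  rw [Measure.map_apply (measurable_mix J) (MeasurableSet.pi s.countable_toSet fun i _ => ht i)]
  have h : mix J ⁻¹' (Set.pi (s : Set ι) t) =
      (Set.pi ((s.filter (· ∈ J) : Finset ι) : Set ι) t) ×ˢ
      (Set.pi ((s.filter (· ∉ J) : Finset ι) : Set ι) t) := by
    ext x
    simp only [mem_preimage, Set.mem_pi, Finset.mem_coe, mem_prod, Finset.mem_filter, and_imp, mix]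
    constructor
    · intro h
      refine ⟨fun i hi hJ => ?_, fun i hi hJ => ?_⟩
      · have := h i hi; rwa [if_pos hJ] at this
      · have := h i hi; rwa [if_neg hJ] at this
    · rintro ⟨h1, h2⟩ i hi
      by_cases hJ : i ∈ J
      · rw [if_pos hJ]; exact h1 i hi hJ
      · rw [if_neg hJ]; exact h2 i hi hJ
  rw [h, Measure.prod_prod]
  unfold bm
  rw [Measure.infinitePi_pi _ (fun i _ => ht i), Measure.infinitePi_pi _ (fun i _ => ht i)]
  rw [← Finset.prod_filter_mul_prod_filter_not s (· ∈ J)]

/-- an event depends only on the coordinates in `J` -/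
def DepOn {ι : Type*} (J : Set ι) (E : Set (ι → Bool)) : Prop :=
  ∀ ω ω' : ι → Bool, (∀ i ∈ J, ω i = ω' i) → (ω ∈ E ↔ ω' ∈ E)

lemma DepOn.mono {ι : Type*} {J J' : Set ι} {E : Set (ι → Bool)} (h : DepOn J E) (hJ : J ⊆ J') :
    DepOn J' E := fun ω ω' hω => h ω ω' fun i hi => hω i (hJ hi)

lemma DepOn.inter {ι : Type*} {J : Set ι} {E E' : Set (ι → Bool)} (h : DepOn J E)
    (h' : DepOn J E') : DepOn J (E ∩ E') := fun ω ω' hω => by
  simp only [mem_inter_iff, h ω ω' hω, h' ω ω' hω]

lemma DepOn.compl {ι : Type*} {J : Set ι} {E : Set (ι → Bool)} (h : DepOn J E) :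
    DepOn J Eᶜ := fun ω ω' hω => by
  simp only [mem_compl_iff, h ω ω' hω]

lemma DepOn.iInter {ι κ : Type*} {J : Set ι} {E : κ → Set (ι → Bool)} (h : ∀ k, DepOn J (E k)) :
    DepOn J (⋂ k, E k) := fun ω ω' hω => by
  simp only [mem_iInter, fun k => h k ω ω' hω]

/-- two-block independence -/
lemma bm_inter {ι : Type*} (q : NNReal) (hq : q ≤ 1) {J J' : Set ι} (hJ : Disjoint J J')
    {E E' : Set (ι → Bool)} (hE : MeasurableSet E) (hE' : MeasurableSet E')
    (dE : DepOn J E) (dE' : DepOn J' E') :
    bm ι q hq (E ∩ E') = bm ι q hq E * bm ι q hq E' := by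
  classical
  conv_lhs => rw [← map_mix q hq J]
  rw [Measure.map_apply (measurable_mix J) (hE.inter hE')]
  have h : mix J ⁻¹' (E ∩ E') = E ×ˢ E' := by
    ext x
    simp only [mem_preimage, mem_inter_iff, mem_prod]
    refine and_congr ?_ ?_
    · exact dE _ _ fun i hi => by simp [mix, hi]
    · exact dE' _ _ fun i hi => by
        have : i ∉ J := fun h => Set.disjoint_left.1 hJ h hi
        simp [mix, this]
  rw [h, Measure.prod_prod]

lemma bern_true (q : NNReal) (hq : q ≤ 1) : (PMF.bernoulli q hq).toMeasure {true} = q := by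
  rw [PMF.toMeasure_apply_singleton _ _ (MeasurableSet.singleton _)]
  simp [PMF.bernoulli_apply]

lemma bern_false (q : NNReal) (hq : q ≤ 1) :
    (PMF.bernoulli q hq).toMeasure {false} = 1 - q := by
  rw [PMF.toMeasure_apply_singleton _ _ (MeasurableSet.singleton _)]
  simp [PMF.bernoulli_apply]

lemma bm_eval {ι : Type*} (q : NNReal) (hq : q ≤ 1) (i : ι) (b : Bool) :
    bm ι q hq {ω | ω i = b} = if b then (q : ENNReal) else 1 - q := by
  have h := Measure.infinitePi_map_eval (fun _ : ι => (PMF.bernoulli q hq).toMeasure) i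
  have h2 : bm ι q hq {ω | ω i = b} = (bm ι q hq).map (fun x => x i) {b} := by
    rw [Measure.map_apply (measurable_pi_apply i) (MeasurableSet.singleton _)]
    rfl
  rw [h2]
  unfold bm
  rw [h]
  cases b
  · rw [bern_false]; simp
  · rw [bern_true]; simp

/-- reindexing along an injective map -/
lemma map_comp_inj {ι κ : Type*} (q : NNReal) (hq : q ≤ 1) (j : ι → κ)
    (hj : Function.Injective j) :
    (bm κ q hq).map (fun ω i => ω (j i)) = bm ι q hq := by
  classical
  conv_rhs => unfold bm
  apply Measure.eq_infinitePi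
  intro s t ht
  have hm : Measurable (fun (ω : κ → Bool) (i : ι) => ω (j i)) := by
    rw [measurable_pi_iff]; intro i; exact measurable_pi_apply _
  rw [Measure.map_apply hm (MeasurableSet.pi s.countable_toSet fun i _ => ht i)]
  have h : (fun (ω : κ → Bool) (i : ι) => ω (j i)) ⁻¹' (Set.pi (s : Set ι) t) =
      Set.pi ((s.image j : Finset κ) : Set κ)
        (fun k => if h : ∃ i, j i = k then t h.choose else univ) := by
    ext ω
    simp only [mem_preimage, Set.mem_pi, Finset.mem_coe, Finset.coe_image, mem_image,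
      forall_exists_index, and_imp]
    constructor
    · rintro h k i hi rfl
      have hex : ∃ i', j i' = j i := ⟨i, rfl⟩
      rw [dif_pos hex]
      have : hex.choose = i := hj hex.choose_spec
      rw [this]
      exact h i hi
    · intro h i hi
      have := h (j i) i hi rfl
      have hex : ∃ i', j i' = j i := ⟨i, rfl⟩
      rw [dif_pos hex] at this
      have h2 : hex.choose = i := hj hex.choose_spec
      rwa [h2] at this
  rw [h]
  unfold bm
  rw [Measure.infinitePi_pi]
  · rw [Finset.prod_image (fun a _ b _ h => hj h)]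
    refine Finset.prod_congr rfl fun i _ => ?_
    have hex : ∃ i', j i' = j i := ⟨i, rfl⟩
    rw [dif_pos hex]
    have : hex.choose = i := hj hex.choose_spec
    rw [this]
  · intro k _
    split_ifs
    · exact ht _
    · exact MeasurableSet.univ

lemma meas_coord {ι : Type*} (e : ι) (b : Bool) : MeasurableSet {ω : ι → Bool | ω e = b} := by
  have : {ω : ι → Bool | ω e = b} = (fun ω : ι → Bool => ω e) ⁻¹' {b} := rfl
  rw [this]
  exact measurable_pi_apply e (MeasurableSet.singleton b)

/-- conditioning on one coordinate -/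
lemma bm_split {ι : Type*} (q : NNReal) (hq : q ≤ 1) (e : ι) {E E1 E0 : Set (ι → Bool)}
    (h1 : MeasurableSet E1) (h0 : MeasurableSet E0)
    (d1 : DepOn {e}ᶜ E1) (d0 : DepOn {e}ᶜ E0)
    (c1 : ∀ ω, ω e = true → (ω ∈ E ↔ ω ∈ E1)) (c0 : ∀ ω, ω e = false → (ω ∈ E ↔ ω ∈ E0)) :
    bm ι q hq E = q * bm ι q hq E1 + (1 - q) * bm ι q hq E0 := by
  have hE : E = ({ω | ω e = true} ∩ E1) ∪ ({ω | ω e = false} ∩ E0) := by
    ext ω
    simp only [mem_union, mem_inter_iff, mem_setOf_eq]
    cases h : ω e
    · simp [c0 ω h]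
    · simp [c1 ω h]
  have m1 : MeasurableSet {ω : ι → Bool | ω e = true} := meas_coord e true
  have m0 : MeasurableSet {ω : ι → Bool | ω e = false} := meas_coord e false
  have de : ∀ b, DepOn {e} {ω : ι → Bool | ω e = b} := fun b ω ω' h => by
    simp only [mem_setOf_eq, h e rfl]
  rw [hE, measure_union _ (m0.inter h0), bm_inter q hq disjoint_compl_right m1 h1 (de _) d1,
    bm_inter q hq disjoint_compl_right m0 h0 (de _) d0, bm_eval, bm_eval]
  · simp
  · rw [Set.disjoint_left]
    rintro ω ⟨h, _⟩ ⟨h', _⟩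
    simp only [mem_setOf_eq] at h h'
    rw [h] at h'; exact absurd h' (by simp)

end Pool.Agent.H978R2
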