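import Pool.Agent.H978R2.PercGraph

/-!
# Bounds on expected cluster sizes: finiteness, monotonicity, Lipschitz continuity, coverings
-/

set_option autoImplicit false
set_option linter.all false
set_option linter.deprecated false

open MeasureTheory Set

namespace Pool.Agent.H978R2

variable {V : Type*}

lemma q_add (q : NNReal) (hq : q ≤ 1) : (q : ENNReal) + (1 - q) = 1 := by
  have : (q : ENNReal) ≤ 1 := by exact_mod_cast hq
  exact add_tsub_cancel_of_le this

lemma one_sub_q (q δ : NNReal) (hq : q ≤ 1) (hq' : q + δ ≤ 1) :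
    (1 : ENNReal) - q = δ + (1 - (q + δ : NNReal)) := by
  have h1 := q_add q hq
  have h2 := q_add (q + δ) hq'
  have h3 : (q : ENNReal) + (δ + (1 - (q + δ : NNReal))) = q + (1 - q) := by
    rw [h1, ← add_assoc, ← ENNReal.coe_add, h2]
  exact ((ENNReal.add_right_inj ENNReal.coe_ne_top).1 h3).symm

/-- the degrees are at most 3 -/
def Deg3 (Γ : SimpleGraph V) : Prop := ∀ v, ∃ s : Finset V, s.card ≤ 3 ∧ ∀ w, Γ.Adj v w → w ∈ s

lemma Deg3.mono {Γ Γ' : SimpleGraph V} (h : Γ ≤ Γ') (hd : Deg3 Γ') : Deg3 Γ := fun v => by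
  obtain ⟨s, hs, h2⟩ := hd v
  exact ⟨s, hs, fun w hw => h2 w (h hw)⟩

/-- the set of boundary darts -/
def bdS (Γ : SimpleGraph V) (A : Set V) : Set (V × V) :=
  {x | x.1 ∈ A ∧ x.2 ∉ A ∧ Γ.Adj x.1 x.2}

lemma bdS_finite {Γ : SimpleGraph V} (hf : Γ.edgeSet.Finite) (A : Set V) : (bdS Γ A).Finite := by
  have h1 : ((fun x : V × V => s(x.1, x.2)) ⁻¹' Γ.edgeSet).Finite := by
    refine Set.Finite.preimage' hf fun e _ => ?_
    induction e using Sym2.ind with
    | _ x y =>
      refine Set.Finite.subset (Set.toFinite {(x, y), (y, x)}) ?_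
      rintro ⟨u, v⟩ h
      have h' : s(u, v) = s(x, y) := h
      rw [Sym2.eq_iff] at h'
      rcases h' with ⟨rfl, rfl⟩ | ⟨rfl, rfl⟩ <;> simp
  exact h1.subset fun x hx => hx.2.2

/-- number of boundary darts -/
noncomputable def bd (Γ : SimpleGraph V) (A : Set V) : ℕ := (bdS Γ A).ncard

lemma bd_del {Γ : SimpleGraph V} (hf : Γ.edgeSet.Finite) {A : Set V} {a w : V} (ha : a ∈ A)
    (hw : w ∉ A) (haw : Γ.Adj a w) : bd (del Γ a w) A + 1 ≤ bd Γ A := by
  have hmem : (a, w) ∈ bdS Γ A := ⟨ha, hw, haw⟩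
  have h : bdS (del Γ a w) A ⊆ bdS Γ A \ {(a, w)} := by
    rintro ⟨u, v⟩ ⟨h1, h2, h3⟩
    refine ⟨⟨h1, h2, h3.1⟩, fun h => ?_⟩
    simp only [mem_singleton_iff, Prod.mk.injEq] at h
    obtain ⟨rfl, rfl⟩ := h
    exact h3.2 rfl
  have h2 := Set.ncard_le_ncard h ((bdS_finite hf A).subset diff_subset)
  rw [Set.ncard_diff_singleton_of_mem hmem] at h2
  have h3 : 0 < (bdS Γ A).ncard := (Set.ncard_pos (bdS_finite hf A)).2 ⟨_, hmem⟩
  unfold bd
  omega

lemma bd_insert {Γ : SimpleGraph V} (hf : Γ.edgeSet.Finite) (hd : Deg3 Γ) {A : Set V} {a w : V}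
    (ha : a ∈ A) (hw : w ∉ A) (haw : Γ.Adj a w) :
    bd (del Γ a w) (insert w A) ≤ (bd Γ A - 1) + 2 := by
  classical
  have hmem : (a, w) ∈ bdS Γ A := ⟨ha, hw, haw⟩
  obtain ⟨s, hs, h2⟩ := hd w
  have has : a ∈ s := h2 a haw.symm
  have h : bdS (del Γ a w) (insert w A) ⊆ (bdS Γ A \ {(a, w)}) ∪
      ((fun v => (w, v)) '' ((s.erase a : Finset V) : Set V)) := by
    rintro ⟨u, v⟩ ⟨h1, h3, h4⟩
    have hv1 : v ∉ A := fun h => h3 (Or.inr h)
    rcases h1 with h1 | h1
    · right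
      simp only at h1
      subst h1
      refine ⟨v, ?_, rfl⟩
      rw [Finset.mem_coe, Finset.mem_erase]
      exact ⟨fun h => hv1 (h ▸ ha), h2 v h4.1⟩
    · left
      refine ⟨⟨h1, hv1, h4.1⟩, fun h => ?_⟩
      simp only [mem_singleton_iff, Prod.mk.injEq] at h
      obtain ⟨rfl, rfl⟩ := h
      exact h4.2 rfl
  have hfin : ((bdS Γ A \ {(a, w)}) ∪
      ((fun v => (w, v)) '' ((s.erase a : Finset V) : Set V))).Finite :=
    ((bdS_finite hf A).subset diff_subset).union ((Finset.finite_toSet _).image _)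
  have h5 := Set.ncard_le_ncard h hfin
  have h6 := Set.ncard_union_le (bdS Γ A \ {(a, w)})
    ((fun v => (w, v)) '' ((s.erase a : Finset V) : Set V))
  rw [Set.ncard_diff_singleton_of_mem hmem] at h6
  have h7 : ((fun v => (w, v)) '' ((s.erase a : Finset V) : Set V)).ncard ≤ 2 := by
    refine (Set.ncard_image_le (Finset.finite_toSet _)).trans ?_
    rw [Set.ncard_coe_finset, Finset.card_erase_of_mem has]
    omega
  unfold bd
  omega

lemma rch_closed {Γ : SimpleGraph V} {A : Set V} (h : ∀ a ∈ A, ∀ w, Γ.Adj a w → w ∈ A)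
    (ω : Sym2 V → Bool) (B : Set V) : Rch Γ ω A B ↔ (A ∩ B).Nonempty := by
  constructor
  · rintro ⟨a, ha, b, hb, hab⟩
    rw [SimpleGraph.reachable_iff_reflTransGen] at hab
    have : b ∈ A := by
      clear hb
      induction hab with
      | refl => exact ha
      | tail _ hcd ih => exact h _ ih _ hcd.1
    exact ⟨b, this, hb⟩
  · rintro ⟨b, hA, hB⟩
    exact ⟨b, hA, b, hB, SimpleGraph.Reachable.refl _⟩

lemma hit_closed (q : NNReal) (hq : q ≤ 1) {Γ : SimpleGraph V} {A : Set V}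
    (h : ∀ a ∈ A, ∀ w, Γ.Adj a w → w ∈ A) (B : Set V) [Decidable (A ∩ B).Nonempty] :
    hit q hq Γ A B = if (A ∩ B).Nonempty then 1 else 0 := by
  unfold hit
  split_ifs with hAB
  · have : ev Γ A B = univ := by
      ext ω; simp only [mem_univ, iff_true]; exact (rch_closed h ω B).2 hAB
    rw [this, measure_univ]
  · have : ev Γ A B = ∅ := by
      ext ω; simp only [mem_empty_iff_false, iff_false]
      exact fun h' => hAB ((rch_closed h ω B).1 h')
    rw [this, measure_empty]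

lemma chi_closed (q : NNReal) (hq : q ≤ 1) {Γ : SimpleGraph V} {A : Set V} (hA : A.Finite)
    (h : ∀ a ∈ A, ∀ w, Γ.Adj a w → w ∈ A) :
    chi q hq Γ A = A.ncard := by
  classical
  unfold chi
  have h1 : ∀ v, hit q hq Γ A {v} = if v ∈ hA.toFinset then 1 else 0 := by
    intro v
    rw [hit_closed q hq h]
    congr 1
    simp [Set.inter_singleton_nonempty]
  simp_rw [h1]
  rw [tsum_eq_sum (s := hA.toFinset) (fun v hv => if_neg hv)]
  rw [Finset.sum_congr rfl (fun v hv => if_pos hv)]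
  simp [Set.ncard_eq_toFinset_card A hA]

/-- first moment bound -/
lemma chi_le_bd [Countable V] (q : NNReal) (hq : q ≤ 1) (c : ENNReal)
    (hc : (q : ENNReal) * (1 + 2 * c) ≤ c) :
    ∀ Γ : SimpleGraph V, Γ.edgeSet.Finite → ∀ A : Set V, Deg3 Γ → A.Finite →
      chi q hq Γ A ≤ A.ncard + c * bd Γ A := by
  refine edge_induction _ ?_ ?_
  · intro Γ A h _ hA
    rw [chi_closed q hq hA h]
    exact le_self_add
  · intro Γ A a w hf ha hw haw ih1 ih2 hd hA
    have hd' := hd.mono (del_le Γ a w)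
    have i1 := ih1 hd' (hA.insert w)
    have i2 := ih2 hd' hA
    rw [chi_step q hq ha haw]
    have b1 := bd_insert hf hd ha hw haw
    have b2 := bd_del hf ha hw haw
    obtain ⟨b, hb⟩ : ∃ b, bd Γ A = b + 1 := ⟨bd Γ A - 1, by omega⟩
    rw [hb] at b1 b2 ⊢
    have b1' : bd (del Γ a w) (insert w A) ≤ b + 2 := by omega
    have b2' : bd (del Γ a w) A ≤ b := by omega
    have hn : (insert w A).ncard = A.ncard + 1 := Set.ncard_insert_of_notMem hw hA
    rw [hn] at i1
    have j1 : chi q hq (del Γ a w) (insert w A) ≤ (A.ncard + 1) + c * (b + 2) := by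
      refine i1.trans ?_
      push_cast
      gcongr
      exact_mod_cast b1'
    have j2 : chi q hq (del Γ a w) A ≤ A.ncard + c * b := by
      refine i2.trans ?_
      gcongr
    calc q * chi q hq (del Γ a w) (insert w A) + (1 - q) * chi q hq (del Γ a w) A
        ≤ q * ((A.ncard + 1) + c * (b + 2)) + (1 - q) * (A.ncard + c * b) := by gcongr
      _ = (q + (1 - q)) * (A.ncard + c * b) + q * (1 + 2 * c) := by ring
      _ ≤ 1 * (A.ncard + c * b) + c := by rw [q_add q hq]; gcongr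
      _ = A.ncard + c * ((b + 1 : ℕ) : ENNReal) := by push_cast; ring

/-- monotonicity in `q` -/
lemma hit_mono_q [Countable V] (q q' : NNReal) (hq : q ≤ 1) (hq' : q' ≤ 1) (h : q ≤ q')
    (B : Set V) :
    ∀ Γ : SimpleGraph V, Γ.edgeSet.Finite → ∀ A : Set V,
      hit q hq Γ A B ≤ hit q' hq' Γ A B := by
  classical
  refine edge_induction _ ?_ ?_
  · intro Γ A h
    rw [hit_closed q hq h, hit_closed q' hq' h]
  · intro Γ A a w hf ha hw haw ih1 ih2
    rw [hit_step q hq B ha haw, hit_step q' hq' B ha haw]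
    obtain ⟨δ, rfl⟩ : ∃ δ, q' = q + δ := ⟨q' - q, (add_tsub_cancel_of_le h).symm⟩
    have e1 : (1 : ENNReal) - q = δ + (1 - (q + δ : NNReal)) := one_sub_q q δ hq hq'
    rw [e1]
    have mA : hit (q + δ) hq' (del Γ a w) A B ≤ hit (q + δ) hq' (del Γ a w) (insert w A) B :=
      hit_mono _ _ le_rfl (subset_insert _ _) le_rfl
    set r := (1 : ENNReal) - (q + δ : NNReal)
    calc q * hit q hq (del Γ a w) (insert w A) B + (δ + r) * hit q hq (del Γ a w) A B
        ≤ q * hit (q + δ) hq' (del Γ a w) (insert w A) B +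
          (δ + r) * hit (q + δ) hq' (del Γ a w) A B := by gcongr
      _ = q * hit (q + δ) hq' (del Γ a w) (insert w A) B +
          δ * hit (q + δ) hq' (del Γ a w) A B + r * hit (q + δ) hq' (del Γ a w) A B := by ring
      _ ≤ q * hit (q + δ) hq' (del Γ a w) (insert w A) B +
          δ * hit (q + δ) hq' (del Γ a w) (insert w A) B +
          r * hit (q + δ) hq' (del Γ a w) A B := by gcongr
      _ = ((q + δ : NNReal) : ENNReal) * hit (q + δ) hq' (del Γ a w) (insert w A) B +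
          r * hit (q + δ) hq' (del Γ a w) A B := by push_cast; ring

lemma chi_mono_q [Countable V] (q q' : NNReal) (hq : q ≤ 1) (hq' : q' ≤ 1) (h : q ≤ q')
    (Γ : SimpleGraph V) (A : Set V) : chi q hq Γ A ≤ chi q' hq' Γ A := by
  rw [chi_eq_iSup q hq, chi_eq_iSup q' hq']
  exact iSup_mono fun E => ENNReal.tsum_le_tsum fun v =>
    hit_mono_q q q' hq hq' h {v} _ (sub_finite Γ E) A

lemma hit_insert_le (q : NNReal) (hq : q ≤ 1) (Γ : SimpleGraph V) (A B : Set V) (w : V) :
    hit q hq Γ (insert w A) B ≤ hit q hq Γ {w} B + hit q hq Γ A B := by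
  unfold hit
  refine le_trans (measure_mono ?_) (measure_union_le _ _)
  rintro ω ⟨a, ha, b, hb, hab⟩
  rcases ha with rfl | ha
  · exact Or.inl ⟨a, rfl, b, hb, hab⟩
  · exact Or.inr ⟨a, ha, b, hb, hab⟩

lemma chi_insert_le (q : NNReal) (hq : q ≤ 1) (Γ : SimpleGraph V) (A : Set V) (w : V) :
    chi q hq Γ (insert w A) ≤ chi q hq Γ {w} + chi q hq Γ A := by
  unfold chi
  rw [← ENNReal.tsum_add]
  exact ENNReal.tsum_le_tsum fun v => hit_insert_le q hq Γ A {v} w

lemma bd_singleton_le {Γ : SimpleGraph V} (hd : Deg3 Γ) (w : V) : bd Γ {w} ≤ 3 := by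
  obtain ⟨s, hs, h2⟩ := hd w
  have h : bdS Γ {w} ⊆ (fun v => (w, v)) '' (s : Set V) := by
    rintro ⟨u, v⟩ ⟨h1, h3, h4⟩
    simp only [mem_singleton_iff] at h1
    subst h1
    exact ⟨v, h2 v h4, rfl⟩
  unfold bd
  refine (Set.ncard_le_ncard h (s.finite_toSet.image _)).trans ?_
  refine (Set.ncard_image_le s.finite_toSet).trans ?_
  rw [Set.ncard_coe_finset]; exact hs

lemma chi_single_le [Countable V] (q : NNReal) (hq : q ≤ 1) (c : ENNReal)
    (hc : (q : ENNReal) * (1 + 2 * c) ≤ c) (Γ : SimpleGraph V) (hd : Deg3 Γ) (w : V) :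
    chi q hq Γ {w} ≤ 1 + c * 3 := by
  rw [chi_eq_iSup]
  refine iSup_le fun E => ?_
  have hd' := hd.mono (sub_le Γ E)
  refine (chi_le_bd q hq c hc _ (sub_finite Γ E) {w} hd' (Set.finite_singleton w)).trans ?_
  rw [Set.ncard_singleton]
  push_cast
  gcongr
  exact_mod_cast bd_singleton_le hd' w

/-- Lipschitz bound in `q` -/
lemma chi_lip [Countable V] (q δ : NNReal) (hq : q ≤ 1) (hq' : q + δ ≤ 1) (c K : ENNReal)
    (hc : ((q + δ : NNReal) : ENNReal) * (1 + 2 * c) ≤ c)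
    (hK : (q : ENNReal) * (2 * K) + (1 + c * 3) ≤ K) :
    ∀ Γ : SimpleGraph V, Γ.edgeSet.Finite → ∀ A : Set V, Deg3 Γ → A.Finite →
      chi (q + δ) hq' Γ A ≤ chi q hq Γ A + δ * K * bd Γ A := by
  refine edge_induction _ ?_ ?_
  · intro Γ A h _ hA
    rw [chi_closed q hq hA h, chi_closed (q + δ) hq' hA h]
    exact le_self_add
  · intro Γ A a w hf ha hw haw ih1 ih2 hd hA
    have hd' := hd.mono (del_le Γ a w)
    have i1 := ih1 hd' (hA.insert w)
    have i2 := ih2 hd' hA
    rw [chi_step q hq ha haw, chi_step (q + δ) hq' ha haw]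
    have b1 := bd_insert hf hd ha hw haw
    have b2 := bd_del hf ha hw haw
    obtain ⟨b, hb⟩ : ∃ b, bd Γ A = b + 1 := ⟨bd Γ A - 1, by omega⟩
    rw [hb] at b1 b2 ⊢
    have b1' : bd (del Γ a w) (insert w A) ≤ b + 2 := by omega
    have b2' : bd (del Γ a w) A ≤ b := by omega
    have e1 : (1 : ENNReal) - q = δ + (1 - (q + δ : NNReal)) := one_sub_q q δ hq hq'
    have hM : chi (q + δ) hq' (del Γ a w) (insert w A) ≤
        (1 + c * 3) + chi (q + δ) hq' (del Γ a w) A :=
      (chi_insert_le _ _ _ _ _).trans (by gcongr; exact chi_single_le _ _ c hc _ hd' w)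
    rw [e1]
    set r := (1 : ENNReal) - (q + δ : NNReal) with hr
    set X' := chi (q + δ) hq' (del Γ a w) (insert w A)
    set Y' := chi (q + δ) hq' (del Γ a w) A
    set X := chi q hq (del Γ a w) (insert w A)
    set Y := chi q hq (del Γ a w) A
    have j1 : X' ≤ X + δ * K * (b + 2) := by
      refine i1.trans ?_
      gcongr
      exact_mod_cast b1'
    have j2 : Y' ≤ Y + δ * K * b := by
      refine i2.trans ?_
      gcongr
    have e2 : (q : ENNReal) + (δ + r) = 1 := by rw [← e1]; exact q_add q hq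
    calc ((q + δ : NNReal) : ENNReal) * X' + r * Y'
        = q * X' + δ * X' + r * Y' := by push_cast; ring
      _ ≤ q * X' + δ * ((1 + c * 3) + Y') + r * Y' := by gcongr
      _ = q * X' + (δ + r) * Y' + δ * (1 + c * 3) := by ring
      _ ≤ q * (X + δ * K * (b + 2)) + (δ + r) * (Y + δ * K * b) + δ * (1 + c * 3) := by gcongr
      _ = q * X + (δ + r) * Y + ((q + (δ + r)) * (δ * K * b) +
            δ * (q * (2 * K) + (1 + c * 3))) := by ring
      _ ≤ q * X + (δ + r) * Y + (1 * (δ * K * b) + δ * K) := by rw [e2]; gcongr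
      _ = q * X + (δ + r) * Y + δ * K * ((b + 1 : ℕ) : ENNReal) := by push_cast; ring

lemma chi_lip_single [Countable V] (q δ : NNReal) (hq : q ≤ 1) (hq' : q + δ ≤ 1) (c K : ENNReal)
    (hc : ((q + δ : NNReal) : ENNReal) * (1 + 2 * c) ≤ c)
    (hK : (q : ENNReal) * (2 * K) + (1 + c * 3) ≤ K) (Γ : SimpleGraph V) (hd : Deg3 Γ) (w : V) :
    chi (q + δ) hq' Γ {w} ≤ chi q hq Γ {w} + δ * K * 3 := by
  rw [chi_eq_iSup]
  refine iSup_le fun E => ?_
  have hd' := hd.mono (sub_le Γ E)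
  refine (chi_lip q δ hq hq' c K hc hK _ (sub_finite Γ E) {w} hd' (Set.finite_singleton w)).trans ?_
  gcongr
  · exact chi_mono q hq (sub_le Γ _) le_rfl
  · exact_mod_cast bd_singleton_le hd' w

end Pool.Agent.H978R2
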