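import Pool.Agent.H978R2.PercBound

/-!
# Percolation and coverings
-/

set_option autoImplicit false
set_option linter.all false
set_option linter.deprecated false

open MeasureTheory Set

namespace Pool.Agent.H978R2

variable {V V' : Type*}

/-- lifting property -/
def Lifts (π : V → V') (Γ : SimpleGraph V) (Γ' : SimpleGraph V') : Prop :=
  ∀ v w', Γ'.Adj (π v) w' → ∃ w, π w = w' ∧ Γ.Adj v w

lemma Lifts.del {π : V → V'} {Γ : SimpleGraph V} {Γ' : SimpleGraph V'} (h : Lifts π Γ Γ')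
    (a w : V) : Lifts π (del Γ a w) (del Γ' (π a) (π w)) := by
  intro v u' hu
  obtain ⟨u, hu1, hu2⟩ := h v u' hu.1
  refine ⟨u, hu1, hu2, fun he => hu.2 ?_⟩
  have := congrArg (Sym2.map π) he
  simpa [hu1] using this

lemma Lifts.sub {π : V → V'} {Γ : SimpleGraph V} {Γ' : SimpleGraph V'} (h : Lifts π Γ Γ')
    (E : Set (Sym2 V')) : Lifts π Γ (sub Γ' E) := fun v w' hw => h v w' hw.1

/-- the covering inequality, finite case -/
theorem cover_fin [Countable V] [Countable V'] (π : V → V') (q : NNReal) (hq : q ≤ 1) (v' : V') :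
    ∀ Γ' : SimpleGraph V', Γ'.edgeSet.Finite → ∀ A' : Set V', ∀ (Γ : SimpleGraph V) (A : Set V),
      Lifts π Γ Γ' → π '' A = A' → hit q hq Γ' A' {v'} ≤ hit q hq Γ A (π ⁻¹' {v'}) := by
  classical
  refine edge_induction _ ?_ ?_
  · intro Γ' A' h Γ A hL hA
    rw [hit_closed q hq h]
    split_ifs with hv
    · obtain ⟨b, hb1, hb2⟩ := hv
      rw [← hA] at hb1
      obtain ⟨a, ha, rfl⟩ := hb1
      have : ev Γ A (π ⁻¹' {v'}) = univ := by
        ext ω
        simp only [mem_univ, iff_true]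
        exact ⟨a, ha, a, hb2, SimpleGraph.Reachable.refl _⟩
      unfold hit
      rw [this, measure_univ]
    · exact zero_le
  · intro Γ' A' a' w' hf ha' hw' haw' ih1 ih2 Γ A hL hA
    rw [← hA] at ha'
    obtain ⟨a, ha, rfl⟩ := ha'
    obtain ⟨w, rfl, haw⟩ := hL a w' haw'
    have hL' := hL.del a w
    have i1 := ih1 _ (insert w A) hL' (by rw [image_insert_eq, hA])
    have i2 := ih2 _ A hL' hA
    rw [hit_step q hq {v'} (by rw [← hA]; exact ⟨a, ha, rfl⟩) haw', hit_step q hq (π ⁻¹' {v'}) ha haw]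
    gcongr

theorem cover_hit [Countable V] [Countable V'] (π : V → V') (q : NNReal) (hq : q ≤ 1)
    {Γ : SimpleGraph V} {Γ' : SimpleGraph V'} (hL : Lifts π Γ Γ') (a : V) (v' : V') :
    hit q hq Γ' {π a} {v'} ≤ hit q hq Γ {a} (π ⁻¹' {v'}) := by
  rw [hit_eq_iSup]
  refine iSup_le fun E => ?_
  exact cover_fin π q hq v' _ (sub_finite Γ' E) _ Γ {a} (hL.sub _) (by simp)

lemma hit_self (q : NNReal) (hq : q ≤ 1) (Γ : SimpleGraph V) (a : V) :
    hit q hq Γ {a} {a} = 1 := by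
  have : ev Γ {a} {a} = univ := by
    ext ω
    simp only [mem_univ, iff_true]
    exact ⟨a, rfl, a, rfl, SimpleGraph.Reachable.refl _⟩
  unfold hit
  rw [this, measure_univ]

lemma hit_le_one (q : NNReal) (hq : q ≤ 1) (Γ : SimpleGraph V) (A B : Set V) :
    hit q hq Γ A B ≤ 1 := prob_le_one

lemma hit_le_tsum [Countable V] (q : NNReal) (hq : q ≤ 1) (Γ : SimpleGraph V) (A B : Set V) :
    hit q hq Γ A B ≤ ∑' b : B, hit q hq Γ A {(b : V)} := by
  have : ev Γ A B = ⋃ b : B, ev Γ A {(b : V)} := by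
    ext ω
    rw [mem_iUnion]
    constructor
    · rintro ⟨a, ha, b, hb, hab⟩
      exact ⟨⟨b, hb⟩, a, ha, b, rfl, hab⟩
    · rintro ⟨⟨b, hb⟩, a, ha, b', rfl, hab⟩
      exact ⟨a, ha, _, hb, hab⟩
  unfold hit
  rw [this]
  exact measure_iUnion_le _

theorem cover_chi [Countable V] [Countable V'] (π : V → V') (q : NNReal) (hq : q ≤ 1)
    {Γ : SimpleGraph V} {Γ' : SimpleGraph V'} (hL : Lifts π Γ Γ') (a n : V) (hn : n ≠ a)
    (hπ : π n = π a) :
    chi q hq Γ' {π a} + hit q hq Γ {a} {n} ≤ chi q hq Γ {a} := by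
  classical
  unfold chi
  rw [← ENNReal.tsum_fiberwise (fun v => hit q hq Γ {a} {v}) π]
  have h1 : hit q hq Γ {a} {n} = ∑' v' : V', (if v' = π a then hit q hq Γ {a} {n} else 0) := by
    rw [tsum_ite_eq]
  rw [h1, ← ENNReal.tsum_add]
  refine ENNReal.tsum_le_tsum fun v' => ?_
  split_ifs with h
  · subst h
    have h2 : hit q hq Γ {a} {a} + hit q hq Γ {a} {n} ≤
        ∑' b : (π ⁻¹' {π a} : Set V), hit q hq Γ {a} {(b : V)} := by
      have := ENNReal.sum_le_tsum (f := fun b : (π ⁻¹' {π a} : Set V) => hit q hq Γ {a} {(b : V)})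
        {⟨a, rfl⟩, ⟨n, hπ⟩}
      rw [Finset.sum_pair] at this
      · exact this
      · intro h; exact hn (congrArg Subtype.val h).symm
    refine le_trans ?_ h2
    rw [hit_self q hq Γ a]
    exact add_le_add (hit_le_one _ _ _ _ _) le_rfl
  · rw [add_zero]
    exact (cover_hit π q hq hL a v').trans (hit_le_tsum q hq Γ {a} _)

lemma pow_le_open (ι : Type*) (q : NNReal) (hq : q ≤ 1) (E : Finset ι) :
    bm ι q hq {ω | ∀ e ∈ E, ω e = true} = (q : ENNReal) ^ E.card := by
  have : {ω : ι → Bool | ∀ e ∈ E, ω e = true} = Set.pi (E : Set ι) (fun _ => {true}) := by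
    ext ω; simp [Set.mem_pi]
  rw [this]
  unfold bm
  rw [Measure.infinitePi_pi _ (fun _ _ => MeasurableSet.singleton _)]
  rw [Finset.prod_congr rfl fun _ _ => bern_true q hq, Finset.prod_const]

lemma reach_pos [Countable V] (q : NNReal) (hq : q ≤ 1) (h0 : 0 < q) (Γ : SimpleGraph V) (a b : V)
    (h : Γ.Reachable a b) : 0 < hit q hq Γ {a} {b} := by
  classical
  obtain ⟨p⟩ := h
  have hsub : {ω : Sym2 V → Bool | ∀ e ∈ p.edges.toFinset, ω e = true} ⊆ ev Γ {a} {b} := by
    intro ω hω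
    refine ⟨a, rfl, b, rfl, ?_⟩
    have hω' : ∀ e ∈ p.edges, ω e = true := fun e he => hω e (List.mem_toFinset.2 he)
    clear hω
    induction p with
    | nil => exact SimpleGraph.Reachable.refl _
    | cons h p ih =>
      refine SimpleGraph.Reachable.trans (SimpleGraph.Adj.reachable ⟨h, hω' _ (by simp)⟩) ?_
      exact ih fun e he => hω' e (by simp [he])
  refine lt_of_lt_of_le ?_ (measure_mono hsub)
  rw [pow_le_open]
  have : (q : ENNReal) ≠ 0 := by simpa using h0.ne'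
  exact pos_iff_ne_zero.2 (pow_ne_zero _ this)

lemma adj_le_hit (q : NNReal) (hq : q ≤ 1) (Γ : SimpleGraph V) (a b : V)
    (h : Γ.Adj a b) : (q : ENNReal) ≤ hit q hq Γ {a} {b} := by
  have h1 := bm_eval (ι := Sym2 V) q hq s(a, b) true
  simp only [if_true] at h1
  rw [← h1]
  refine measure_mono fun ω hω => ?_
  exact ⟨a, rfl, b, rfl, SimpleGraph.Adj.reachable ⟨h, hω⟩⟩

end Pool.Agent.H978R2
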