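import Pool.Agent.H978R2.Cyc

/-!
# Gluing the cycles of a row of boxes
-/

set_option autoImplicit false
set_option linter.all false
set_option linter.deprecated false

open Set

namespace Pool.Agent.H978R2

/-- A vertical crossing of a strip links the hub path and the cycle of the box. -/
lemma strip_link {ω : Sym2 (ℤ × ℤ) → Bool} {R : Set (ℤ × ℤ)} {xa xb y0 : ℤ} {b w : ℕ}
    (hb : 1 ≤ b) (hw : 1 ≤ w) {Δ : List (ℤ × ℤ)} (hΔ : Δ.IsChain (openG (latR R) ω).Adj)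
    (hΔne : Δ ≠ []) (hΔrow : ∀ v ∈ Δ, y0 - w ≤ v.2 ∧ v.2 ≤ y0 - 1)
    (hΔ0 : (Δ.head hΔne).1 ≤ xa) (hΔ1 : xb ≤ (Δ.getLast hΔne).1)
    {γ : List (ℤ × ℤ)} (hγ : γ.IsChain (openG (latR R) ω).Adj) (hγn : γ.Nodup)
    (hγrow : ∀ v ∈ γ, y0 ≤ v.2 ∧ v.2 ≤ y0 + b - 1) (hγ0 : ∃ u ∈ γ, u.1 ≤ xa)
    (hγ1 : ∃ u ∈ γ, xb ≤ u.1) (hab : xa < xb ∨ (xa ≤ xb ∧ ∃ u ∈ γ, u.1 < xa ∨ xb < u.1))
    (hV : ω ∈ crV xa xb (y0 - w) (y0 + b - 1)) (hR : Rc xa xb (y0 - w) (y0 + b - 1) ⊆ R) :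
    ∃ a' b' W, a' ∈ Δ ∧ b' ∈ γ ∧ (a' :: W ++ [b']).IsChain (openG (latR R) ω).Adj ∧
      (a' :: W ++ [b']).Nodup ∧ (∀ v ∈ a' :: W ++ [b'], v ∈ Rc xa xb (y0 - w) (y0 + b - 1)) ∧
      (∀ v ∈ W, v ∉ Δ ∧ v ∉ γ) := by
  obtain ⟨V, hVne, hVc, hVn, hVm, hV0, hV1⟩ := crV_list (by omega) hV
  have hVlat := chain_lat hVc
  -- the hub path meets the strip
  obtain ⟨u, huV, huΔ⟩ := cross_common' (l := V) (L := Δ) hVlat (chain_lat hΔ) hVne hΔne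
    (α := xa) (β := xb) (y0 := y0 - w) (y1 := y0 - 1) (fun v hv => (hVm v hv).1) hV0 (by omega)
    hΔrow hΔ0 hΔ1
  -- the cycle meets the strip
  obtain ⟨v, hvV, hvγ⟩ : ∃ v ∈ V, v ∈ γ := by
    obtain ⟨u1, hu1, h1⟩ := hγ0
    obtain ⟨u2, hu2, h2⟩ := hγ1
    obtain ⟨p, q, W, g1, g2, g3, g4, g5, g6⟩ : ∃ p q W, p ∈ {v : ℤ × ℤ | v.1 ≤ xa} ∧
        q ∈ {v : ℤ × ℤ | xb ≤ v.1} ∧ (p :: W ++ [q]).IsChain (openG (latR R) ω).Adj ∧
        (p :: W ++ [q]).Nodup ∧ (∀ v ∈ p :: W ++ [q], v ∈ γ) ∧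
        (∀ v ∈ W, True) := by
      rcases hab with hab | ⟨hab, u3, hu3, h3 | h3⟩
      · obtain ⟨p, q, W, g1, g2, g3, g4, g5, g6⟩ := between (adj_symm R ω)
          (A := {v : ℤ × ℤ | v.1 ≤ xa}) (B := {v : ℤ × ℤ | xb ≤ v.1}) (by
            intro v hv hv'
            have e1 : v.1 ≤ xa := hv
            have e2 : xb ≤ v.1 := hv'
            omega) hγ hγn ⟨u1, hu1, h1⟩ ⟨u2, hu2, h2⟩
        exact ⟨p, q, W, g1, g2, g3, g4, g5, fun _ _ => trivial⟩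
      · obtain ⟨p, q, W, g1, g2, g3, g4, g5, g6⟩ := between (adj_symm R ω)
          (A := {v : ℤ × ℤ | v.1 < xa}) (B := {v : ℤ × ℤ | xb ≤ v.1}) (by
            intro v hv hv'
            have e1 : v.1 < xa := hv
            have e2 : xb ≤ v.1 := hv'
            omega) hγ hγn ⟨u3, hu3, h3⟩ ⟨u2, hu2, h2⟩
        exact ⟨p, q, W, (show p.1 < xa from g1).le, g2, g3, g4, g5, fun _ _ => trivial⟩
      · obtain ⟨p, q, W, g1, g2, g3, g4, g5, g6⟩ := between (adj_symm R ω)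
          (A := {v : ℤ × ℤ | v.1 ≤ xa}) (B := {v : ℤ × ℤ | xb < v.1}) (by
            intro v hv hv'
            have e1 : v.1 ≤ xa := hv
            have e2 : xb < v.1 := hv'
            omega) hγ hγn ⟨u1, hu1, h1⟩ ⟨u3, hu3, h3⟩
        exact ⟨p, q, W, g1, (show xb < q.1 from g2).le, g3, g4, g5, fun _ _ => trivial⟩
    obtain ⟨v, hv1, hv2⟩ := cross_common' (l := V) (L := p :: W ++ [q]) hVlat (chain_lat g3) hVne
      (by simp) (α := xa) (β := xb) (y0 := y0) (y1 := y0 + b - 1) (fun v hv => (hVm v hv).1)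
      (by omega) hV1 (fun v hv => hγrow v (g5 v hv)) (by simpa using g1) (by
        rw [List.getLast_append_of_ne_nil _ (by simp)]
        simpa using g2)
    exact ⟨v, hv1, g5 v hv2⟩
  have hVR : V.IsChain (openG (latR R) ω).Adj := hVc.imp fun a b hab => adj_mono hR ω a b hab
  obtain ⟨a', b', W, g1, g2, g3, g4, g5, g6⟩ := between (adj_symm R ω) (A := {v | v ∈ Δ})
    (B := {v | v ∈ γ}) (by
      intro v hv hv'
      have e1 := hΔrow v hv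
      have e2 := hγrow v hv'
      omega) hVR hVn ⟨u, huV, huΔ⟩ ⟨v, hvV, hvγ⟩
  exact ⟨a', b', W, g1, g2, g3, g4, fun v hv => hVm v (g5 v hv), g6⟩

/-- A long cycle in a box with `b` rows meets many disjoint strips. -/
lemma many_links {ω : Sym2 (ℤ × ℤ) → Bool} {R : Set (ℤ × ℤ)} {X y0 : ℤ} {n b w h k : ℕ}
    (hb : 1 ≤ b) (hw : 1 ≤ w) (hh : 1 ≤ h) (hk : 1 ≤ k)
    {Δ : List (ℤ × ℤ)} (hΔ : Δ.IsChain (openG (latR R) ω).Adj)
    (hΔne : Δ ≠ []) (hΔrow : ∀ v ∈ Δ, y0 - w ≤ v.2 ∧ v.2 ≤ y0 - 1)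
    (hΔ0 : (Δ.head hΔne).1 ≤ X) (hΔ1 : X + n - 1 ≤ (Δ.getLast hΔne).1)
    {γ : List (ℤ × ℤ)} (hγ : IsCyc (Rc X (X + n - 1) y0 (y0 + b - 1)) ω γ)
    (hlen : (k + 2) * h * b ≤ γ.length)
    (hV : ∀ j : ℕ, (j + 1) * h ≤ n → ω ∈ crV (X + j * h) (X + j * h + h - 1) (y0 - w) (y0 + b - 1))
    (hR : Rc X (X + n - 1) (y0 - w) (y0 + b - 1) ⊆ R) :
    ∃ (aa bb : ℕ → ℤ × ℤ) (WW : ℕ → List (ℤ × ℤ)), ∀ t < k,
      aa t ∈ Δ ∧ bb t ∈ γ ∧ (aa t :: WW t ++ [bb t]).IsChain (openG (latR R) ω).Adj ∧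
      (aa t :: WW t ++ [bb t]).Nodup ∧
      (∀ v ∈ aa t :: WW t ++ [bb t], v ∈ Rc X (X + n - 1) (y0 - w) (y0 + b - 1)) ∧
      (∀ v ∈ WW t, v ∉ Δ ∧ v ∉ γ) ∧
      (∀ t' < k, t ≠ t' → ∀ v ∈ aa t :: WW t ++ [bb t], v ∉ aa t' :: WW t' ++ [bb t']) := by
  classical
  have hmem := hγ.mem
  have hγne : γ ≠ [] := by intro e; have := hγ.1; rw [e] at this; simp at this
  -- extremal vertices
  have hne : γ.toFinset.Nonempty := by
    rw [List.toFinset_nonempty_iff]; exact hγne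
  obtain ⟨u1, hu1, hmin⟩ := Finset.exists_min_image γ.toFinset (fun v => v.1) hne
  obtain ⟨u2, hu2, hmax⟩ := Finset.exists_max_image γ.toFinset (fun v => v.1) hne
  rw [List.mem_toFinset] at hu1 hu2
  have hcard : γ.length ≤ (u2.1 + 1 - u1.1).toNat * b := by
    rw [← List.toFinset_card_of_nodup hγ.2.1]
    have hsub : γ.toFinset ⊆ Finset.Icc u1.1 u2.1 ×ˢ Finset.Icc y0 (y0 + b - 1) := by
      intro v hv
      rw [Finset.mem_product, Finset.mem_Icc, Finset.mem_Icc]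
      exact ⟨⟨hmin v hv, hmax v hv⟩, (hmem v (List.mem_toFinset.1 hv)).2⟩
    have h1 := Finset.card_le_card hsub
    rw [Finset.card_product, Int.card_Icc, Int.card_Icc] at h1
    have h2 : (y0 + b - 1 + 1 - y0).toNat = b := by omega
    rw [h2] at h1
    exact h1
  have hext : (k + 2) * h ≤ (u2.1 + 1 - u1.1).toNat := by
    have h1 := hlen.trans hcard
    exact Nat.le_of_mul_le_mul_right h1 hb
  have hu1m := (hmem u1 hu1).1
  have hu2m := (hmem u2 hu2).1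
  have hkh : 3 * h ≤ (k + 2) * h := Nat.mul_le_mul_right h (by omega)
  have hextZ : ((k + 2) * h : ℕ) ≤ u2.1 + 1 - u1.1 := by omega
  set j0 : ℕ := ((u1.1 - X) / h).toNat + 1 with hj0
  have hhz : (0 : ℤ) < h := by exact_mod_cast hh
  have hdiv0 : 0 ≤ (u1.1 - X) / h := Int.ediv_nonneg (by omega) hhz.le
  have hdiv1 : (u1.1 - X) / h * h ≤ u1.1 - X := Int.ediv_mul_le _ hhz.ne'
  have hdiv2 : u1.1 - X < ((u1.1 - X) / h + 1) * h := Int.lt_ediv_add_one_mul_self _ hhz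
  have hj0z : (j0 : ℤ) = (u1.1 - X) / h + 1 := by rw [hj0]; push_cast; omega
  have hlow : ∀ t : ℕ, u1.1 < X + ((j0 + t : ℕ) : ℤ) * h := by
    intro t
    have : ((u1.1 - X) / h + 1) * h ≤ ((j0 + t : ℕ) : ℤ) * h := by
      refine mul_le_mul_of_nonneg_right ?_ hhz.le
      push_cast; omega
    omega
  have hupp : ∀ t : ℕ, t < k → X + ((j0 + t : ℕ) : ℤ) * h + h - 1 ≤ u2.1 := by
    intro t ht
    have h1 : ((j0 + t : ℕ) : ℤ) * h ≤ ((u1.1 - X) / h + 1 + (k - 1)) * h := by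
      refine mul_le_mul_of_nonneg_right ?_ hhz.le
      push_cast; omega
    have h2 : ((u1.1 - X) / h + 1 + ((k : ℤ) - 1)) * h = (u1.1 - X) / h * h + k * h := by ring
    have h3 : (((k + 2) * h : ℕ) : ℤ) = k * h + 2 * h := by push_cast; ring
    omega
  have hstrip : ∀ t : ℕ, t < k → ∃ a' b' W, a' ∈ Δ ∧ b' ∈ γ ∧
      (a' :: W ++ [b']).IsChain (openG (latR R) ω).Adj ∧
      (a' :: W ++ [b']).Nodup ∧ (∀ v ∈ a' :: W ++ [b'],
        v ∈ Rc (X + ((j0 + t : ℕ) : ℤ) * h) (X + ((j0 + t : ℕ) : ℤ) * h + h - 1)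
          (y0 - w) (y0 + b - 1)) ∧
      (∀ v ∈ W, v ∉ Δ ∧ v ∉ γ) := by
    intro t ht
    have g1 := hlow t
    have g2 := hupp t ht
    have hjn : ((j0 + t) + 1) * h ≤ n := by
      have : (((j0 + t + 1) * h : ℕ) : ℤ) = ((j0 + t : ℕ) : ℤ) * h + h := by push_cast; ring
      omega
    refine strip_link hb hw hΔ hΔne hΔrow (by omega) (by omega) (R := R)
      (γ := γ) ?_ hγ.2.1 (fun v hv => (hmem v hv).2) ⟨u1, hu1, by omega⟩ ⟨u2, hu2, by omega⟩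
      (Or.inr ⟨by omega, u1, hu1, Or.inl (by omega)⟩) (hV (j0 + t) hjn) ?_
    · exact hγ.2.2.left_of_append.imp fun a b hab => adj_mono (fun v hv => hR
        ⟨hv.1, by have := hv.2; omega⟩) ω a b hab
    · refine (Rc_mono ?_ ?_ le_rfl le_rfl).trans hR
      · omega
      · omega
  choose! aa bb WW hh1 using hstrip
  refine ⟨aa, bb, WW, fun t ht => ?_⟩
  obtain ⟨g1, g2, g3, g4, g5, g6⟩ := hh1 t ht
  refine ⟨g1, g2, g3, g4, ?_, g6, ?_⟩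
  · intro v hv
    have h1 := g5 v hv
    have h2 := hlow t
    have h3 := hupp t ht
    exact ⟨⟨by have := h1.1.1; omega, by have := h1.1.2; omega⟩, h1.2⟩
  · intro t' ht' hne v hv hv'
    have h1 := (g5 v hv).1
    have h2 := ((hh1 t' ht').2.2.2.2.1 v hv').1
    rcases Nat.lt_or_gt_of_ne hne with hlt | hlt
    · have h3 : ((j0 + t : ℕ) : ℤ) * h + h ≤ ((j0 + t' : ℕ) : ℤ) * h := by
        have : (((j0 + t : ℕ) : ℤ) + 1) * h ≤ ((j0 + t' : ℕ) : ℤ) * h := by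
          refine mul_le_mul_of_nonneg_right ?_ hhz.le
          push_cast; omega
        linarith
      omega
    · have h3 : ((j0 + t' : ℕ) : ℤ) * h + h ≤ ((j0 + t : ℕ) : ℤ) * h := by
        have : (((j0 + t' : ℕ) : ℤ) + 1) * h ≤ ((j0 + t : ℕ) : ℤ) * h := by
          refine mul_le_mul_of_nonneg_right ?_ hhz.le
          push_cast; omega
        linarith
      omega

end Pool.Agent.H978R2
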