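import Pool.Agent.H978R2.Row

/-!
# Gluing the cycles of a row of boxes
-/

set_option autoImplicit false
set_option linter.all false
set_option linter.deprecated false

open Set

namespace Pool.Agent.H978R2

/-- the good event for a row of `m` boxes with `n` columns and `b` rows -/
def goodRow (x0 y0 : ℤ) (n b w h m : ℕ) : Set (Sym2 (ℤ × ℤ) → Bool) :=
  {ω | ω ∈ crH (x0 - w) (x0 + m * n + w - 1) (y0 - w) (y0 - 1) ∧
    ω ∈ crH (x0 - w) (x0 + m * n + w - 1) (y0 + b) (y0 + b + w - 1) ∧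
    ω ∈ crV (x0 - w) (x0 - 1) (y0 - w) (y0 + b + w - 1) ∧
    ω ∈ crV (x0 + m * n) (x0 + m * n + w - 1) (y0 - w) (y0 + b + w - 1) ∧
    ∀ i < m, ∀ j : ℕ, (j + 1) * h ≤ n →
      ω ∈ crV (x0 + (i * n : ℕ) + j * h) (x0 + (i * n : ℕ) + j * h + h - 1) (y0 - w) (y0 + b - 1)}

lemma box_cols {m n i : ℕ} (hi : i < m) : ((i * n : ℕ) : ℤ) + n ≤ m * n := by
  have : (i + 1) * n ≤ m * n := Nat.mul_le_mul_right n hi
  have h2 : ((i + 1) * n : ℕ) = i * n + n := by ring
  rw [h2] at this
  exact_mod_cast this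

lemma card_le_cnt {α : Type*} {P : Set α} {l : List α} (A : Finset α)
    (h : ∀ a ∈ A, a ∈ l ∧ a ∈ P) : A.card ≤ cnt P l := by
  classical
  unfold cnt
  refine le_trans (Finset.card_le_card ?_) (List.toFinset_card_le _)
  intro v hv
  rw [List.mem_toFinset, List.mem_filter, decide_eq_true_iff]
  exact h v hv

/-- Deterministic gluing for a row of boxes. -/
theorem row_glue_nat {ω : Sym2 (ℤ × ℤ) → Bool} {x0 y0 : ℤ} {n b w h m s : ℕ} (hn : 1 ≤ n)
    (hb : 1 ≤ b) (hw : 1 ≤ w) (hh : 1 ≤ h) (hm : 1 ≤ m) (hs : 2 ≤ s)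
    (hgood : ω ∈ goodRow x0 y0 n b w h m) (F : Finset ℕ) (hF : F ⊆ Finset.range m)
    (hlen : ∀ i ∈ F, (m * s + 2) * h * b ≤
      Clen (Rc (x0 + (i * n : ℕ)) (x0 + (i * n : ℕ) + n - 1) y0 (y0 + b - 1)) ω) :
    ∑ i ∈ F, (Clen (Rc (x0 + (i * n : ℕ)) (x0 + (i * n : ℕ) + n - 1) y0 (y0 + b - 1)) ω -
      Clen (Rc (x0 + (i * n : ℕ)) (x0 + (i * n : ℕ) + n - 1) y0 (y0 + b - 1)) ω / (s - 1)) ≤
      Clen (Rc (x0 - w) (x0 + m * n + w - 1) (y0 - w) (y0 + b + w - 1)) ω := by
  classical
  obtain ⟨hD, hT, hU, hU', hV⟩ := hgood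
  have hmn : (1 : ℤ) ≤ m * n := by
    have : 1 ≤ m * n := Nat.mul_pos hm hn
    exact_mod_cast this
  set R := Rc (x0 - w) (x0 + m * n + w - 1) (y0 - w) (y0 + b + w - 1) with hR
  set Adj := (openG (latR R) ω).Adj with hAdj
  have hsym : ∀ a b, Adj a b → Adj b a := adj_symm R ω
  -- the four corridor crossings
  obtain ⟨dl, dne, dc, dn, dm, d0, d1⟩ := crH_list (by omega) hD
  obtain ⟨tl, tne, tc, tn, tm, t0, t1⟩ := crH_list (by omega) hT
  obtain ⟨ul, une, uc, un, um, u0, u1⟩ := crV_list (by omega) hU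
  obtain ⟨vl, vne, vc, vn, vm, v0, v1⟩ := crV_list (by omega) hU'
  have um' : ∀ v ∈ ul, v.1 ≤ x0 - 1 := fun v hv => (um v hv).1.2
  have vm' : ∀ v ∈ vl, x0 + m * n ≤ v.1 := fun v hv => (vm v hv).1.1
  have dm' : ∀ v ∈ dl, y0 - w ≤ v.2 ∧ v.2 ≤ y0 - 1 := fun v hv => (dm v hv).2
  have tm' : ∀ v ∈ tl, y0 + b ≤ v.2 := fun v hv => (tm v hv).2.1
  obtain ⟨p1, p1u, p1d⟩ := cross_common' (chain_lat uc) (chain_lat dc) une dne
    (α := x0 - w) (β := x0 - 1) (y0 := y0 - w) (y1 := y0 - 1) (fun v hv => (um v hv).1) u0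
    (by omega) dm' d0 (by omega)
  obtain ⟨p2, p2v, p2d⟩ := cross_common' (chain_lat vc) (chain_lat dc) vne dne
    (α := x0 + m * n) (β := x0 + m * n + w - 1) (y0 := y0 - w) (y1 := y0 - 1)
    (fun v hv => (vm v hv).1) v0 (by omega) dm' (by omega) d1
  obtain ⟨p3, p3u, p3t⟩ := cross_common' (chain_lat uc) (chain_lat tc) une tne
    (α := x0 - w) (β := x0 - 1) (y0 := y0 + b) (y1 := y0 + b + w - 1) (fun v hv => (um v hv).1)
    (by omega) u1 (fun v hv => (tm v hv).2) t0 (by omega)
  obtain ⟨p4, p4v, p4t⟩ := cross_common' (chain_lat vc) (chain_lat tc) vne tne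
    (α := x0 + m * n) (β := x0 + m * n + w - 1) (y0 := y0 + b) (y1 := y0 + b + w - 1)
    (fun v hv => (vm v hv).1) (by omega) v1 (fun v hv => (tm v hv).2) (by omega) t1
  -- the hub path
  obtain ⟨a, b', W, ha, hb', hWc, hWn, hWm, hWd⟩ := between (adj_symm _ ω)
    (A := {v | v ∈ ul}) (B := {v | v ∈ vl}) (by
      intro v hv hv'
      have e1 := um' v hv
      have e2 := vm' v hv'
      omega) dc dn ⟨p1, p1d, p1u⟩ ⟨p2, p2d, p2v⟩
  have ha' : a ∈ ul := ha
  have hb'' : b' ∈ vl := hb'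
  set Δ := a :: W ++ [b'] with hΔ
  have hΔne : Δ ≠ [] := by rw [hΔ]; simp
  have hΔhead : Δ.head hΔne = a := by simp [hΔ]
  have hΔlast : Δ.getLast hΔne = b' := by
    simp only [hΔ]
    rw [List.getLast_append_of_ne_nil _ (by simp)]
    rfl
  have hsubD : Rc (x0 - w) (x0 + m * n + w - 1) (y0 - w) (y0 - 1) ⊆ R :=
    Rc_mono le_rfl le_rfl le_rfl (by omega)
  have hΔc : Δ.IsChain Adj := hWc.imp fun a b hab => adj_mono hsubD ω a b hab
  have hΔrow : ∀ v ∈ Δ, y0 - w ≤ v.2 ∧ v.2 ≤ y0 - 1 := fun v hv => dm' v (hWm v hv)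
  have hax := um' a ha'
  have hbx := vm' b' hb''
  have hab : a ≠ b' := by intro e; rw [e] at hax; omega
  -- the closing path
  set Z : Set (ℤ × ℤ) := {v | v ∈ ul ∨ v ∈ vl ∨ v ∈ tl} with hZ
  have ucZ : ul.IsChain (openG (latR Z) ω).Adj := chain_change uc fun v hv => Or.inl hv
  have vcZ : vl.IsChain (openG (latR Z) ω).Adj := chain_change vc fun v hv => Or.inr (Or.inl hv)
  have tcZ : tl.IsChain (openG (latR Z) ω).Adj := chain_change tc fun v hv => Or.inr (Or.inr hv)
  have hreach : (openG (latR Z) ω).Reachable b' a :=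
    ((chain_reach vcZ b' hb'' p4 p4v).trans (chain_reach tcZ p4 p4t p3 p3t)).trans
      (chain_reach ucZ p3 p3u a ha')
  obtain ⟨K0, K0ne, K0c, K0n, K0h, K0l⟩ := exists_path hreach
  have K0m : ∀ v ∈ K0, v ∈ Z :=
    chain_mem K0c K0ne (by rw [K0h]; exact Or.inr (Or.inl hb''))
  obtain ⟨K, hK⟩ : ∃ K, K0 = b' :: K ++ [a] := by
    cases K0 with
    | nil => exact absurd rfl K0ne
    | cons c K1 =>
      have hc : c = b' := K0h
      subst hc
      have hK1 : K1 ≠ [] := by
        intro e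
        subst e
        exact hab K0l.symm
      refine ⟨K1.dropLast, ?_⟩
      rw [List.getLast_cons hK1] at K0l
      rw [List.cons_append]
      congr 1
      rw [← K0l]
      exact (List.dropLast_append_getLast hK1).symm
  rw [hK] at K0c K0n K0m
  have hZR : Z ⊆ R := by
    intro v hv
    rcases hv with hv | hv | hv
    · exact Rc_mono le_rfl (by omega) le_rfl le_rfl (um v hv)
    · exact Rc_mono (by omega) le_rfl le_rfl le_rfl (vm v hv)
    · exact Rc_mono le_rfl le_rfl (by omega) le_rfl (tm v hv)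
  have hKc : (b' :: K ++ [a]).IsChain Adj := K0c.imp fun a b hab => adj_mono hZR ω a b hab
  have hKne : K ≠ [] := by
    intro e
    rw [e] at hKc
    have h1 : Adj b' a := by simpa using hKc
    have h2 := h1.1.1
    rw [lat_adj] at h2
    omega
  -- the cycles in the boxes
  set X : ℕ → ℤ := fun i => x0 + (i * n : ℕ) with hX
  have hXb : ∀ i ∈ F, x0 ≤ X i ∧ X i + n ≤ x0 + m * n := by
    intro i hi
    have h1 := hF hi
    rw [Finset.mem_range] at h1
    have h2 := box_cols (n := n) h1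
    simp only [hX]
    constructor
    · omega
    · omega
  have hcyc : ∀ i ∈ F, ∃ γ : List (ℤ × ℤ), IsCyc (Rc (X i) (X i + n - 1) y0 (y0 + b - 1)) ω γ ∧
      γ.length = Clen (Rc (X i) (X i + n - 1) y0 (y0 + b - 1)) ω := by
    intro i hi
    refine Clen_attained (Rc_finite _ _ _ _) (lt_of_lt_of_le ?_ (hlen i hi))
    positivity
  choose! γ hγ hγlen using hcyc
  have hboxR : ∀ i ∈ F, Rc (X i) (X i + n - 1) (y0 - w) (y0 + b - 1) ⊆ R := by
    intro i hi
    have h1 := hXb i hi
    exact Rc_mono (by omega) (by omega) le_rfl (by omega)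
  have hms : 1 ≤ m * s := Nat.mul_pos hm (by omega)
  have hlinks : ∀ i ∈ F, ∃ (aa bb : ℕ → ℤ × ℤ) (WW : ℕ → List (ℤ × ℤ)), ∀ t < m * s,
      aa t ∈ Δ ∧ bb t ∈ γ i ∧ (aa t :: WW t ++ [bb t]).IsChain Adj ∧
      (aa t :: WW t ++ [bb t]).Nodup ∧
      (∀ v ∈ aa t :: WW t ++ [bb t], v ∈ Rc (X i) (X i + n - 1) (y0 - w) (y0 + b - 1)) ∧
      (∀ v ∈ WW t, v ∉ Δ ∧ v ∉ γ i) ∧
      (∀ t' < m * s, t ≠ t' → ∀ v ∈ aa t :: WW t ++ [bb t], v ∉ aa t' :: WW t' ++ [bb t']) := by
    intro i hi
    have h1 := hXb i hi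
    refine many_links hb hw hh hms hΔc hΔne hΔrow (by rw [hΔhead]; omega) (by rw [hΔlast]; omega)
      (hγ i hi) ?_ ?_ (hboxR i hi)
    · rw [hγlen i hi]; exact hlen i hi
    · intro j hj
      exact hV i (Finset.mem_range.1 (hF hi)) j hj
  choose! aa bb WW hlk using hlinks
  set P : ℕ → Set (ℤ × ℤ) := fun i => {v | ∃ t < m * s, v = aa i t} with hP
  set Reg : ℕ → Set (ℤ × ℤ) := fun i =>
    {v | v ∈ Rc (X i) (X i + n - 1) (y0 - w) (y0 + b - 1) ∧ v ∉ Δ} with hReg
  set ℓ : ℕ → ℕ := fun i => Clen (Rc (X i) (X i + n - 1) y0 (y0 + b - 1)) ω -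
      Clen (Rc (X i) (X i + n - 1) y0 (y0 + b - 1)) ω / (s - 1) with hℓ
  have hRegdisj : ∀ i ∈ F, ∀ j ∈ F, i ≠ j → ∀ v, v ∈ Reg i → v ∉ Reg j := by
    rintro i hi j hj hij v ⟨⟨hv, _⟩, _⟩ ⟨⟨hv', _⟩, _⟩
    rcases Nat.lt_or_gt_of_ne hij with h1 | h1
    · have h2 := box_cols (n := n) h1
      simp only [hX] at hv hv'
      have h3 : ((j * n : ℕ) : ℤ) = j * n := by push_cast; ring
      omega
    · have h2 := box_cols (n := n) h1
      simp only [hX] at hv hv'
      have h3 : ((i * n : ℕ) : ℤ) = i * n := by push_cast; ring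
      omega
  have hγΔ : ∀ i ∈ F, ∀ v ∈ γ i, v ∉ Δ := by
    intro i hi v hv hv'
    have e1 := ((hγ i hi).mem v hv).2
    have e2 := hΔrow v hv'
    omega
  have hdet : ∀ i ∈ F, ∀ A' : List (ℤ × ℤ), A'.Nodup → (∀ a ∈ A', a ∈ P i) → s ≤ A'.length →
      ∃ a ∈ A', ∃ b ∈ A', a ≠ b ∧ ∃ D : List (ℤ × ℤ), (a :: D ++ [b]).IsChain Adj ∧ D.Nodup ∧
        (∀ v ∈ D, v ∈ Reg i) ∧ ℓ i ≤ D.length := by
    intro i hi A' hA'n hA'P hA's
    have htt : ∀ a ∈ A', ∃ t, t < m * s ∧ a = aa i t := hA'P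
    choose! tt htt1 htt2 using htt
    set B : Finset (ℤ × ℤ) := A'.toFinset.image (fun a => bb i (tt a)) with hB
    have hinj : Set.InjOn (fun a => bb i (tt a)) (A'.toFinset : Set (ℤ × ℤ)) := by
      intro a1 ha1 a2 ha2 he
      rw [Finset.mem_coe, List.mem_toFinset] at ha1 ha2
      by_contra hne
      have htne : tt a1 ≠ tt a2 := by
        intro e
        apply hne
        rw [htt2 a1 ha1, htt2 a2 ha2, e]
      have h1 := (hlk i hi (tt a1) (htt1 a1 ha1)).2.2.2.2.2.2 (tt a2) (htt1 a2 ha2) htne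
        (bb i (tt a1)) (by simp)
      apply h1
      simp only at he
      rw [he]
      simp
    have hBcard : s ≤ B.card := by
      rw [hB, Finset.card_image_of_injOn hinj, List.toFinset_card_of_nodup hA'n]
      exact hA's
    have hBγ : ∀ v ∈ B, v ∈ γ i := by
      intro v hv
      rw [hB, Finset.mem_image] at hv
      obtain ⟨a1, ha1, rfl⟩ := hv
      rw [List.mem_toFinset] at ha1
      exact (hlk i hi (tt a1) (htt1 a1 ha1)).2.1
    obtain ⟨q1, hq1, q2, hq2, hqne, A, hA1, hA2, hA3, hA4, hA5, hA6⟩ :=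
      long_arc (hγ i hi).2.1 (Adj := Adj) ((hγ i hi).2.2.imp fun a b hab => adj_mono (by
        refine Subset.trans ?_ (hboxR i hi)
        exact Rc_mono le_rfl le_rfl (by omega) le_rfl) ω a b hab) hs B hBγ hBcard
    rw [hB, Finset.mem_image] at hq1 hq2
    obtain ⟨a1, ha1, e1⟩ := hq1
    obtain ⟨a2, ha2, e2⟩ := hq2
    rw [List.mem_toFinset] at ha1 ha2
    have hane : a1 ≠ a2 := by
      intro e
      apply hqne
      rw [← e1, ← e2, e]
    have htne : tt a1 ≠ tt a2 := by
      intro e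
      apply hane
      rw [htt2 a1 ha1, htt2 a2 ha2, e]
    obtain ⟨k1, k2, k3, k4, k5, k6, k7⟩ := hlk i hi (tt a1) (htt1 a1 ha1)
    obtain ⟨m1, m2, m3, m4, m5, m6, m7⟩ := hlk i hi (tt a2) (htt1 a2 ha2)
    have f1 := htt2 a1 ha1
    have f2 := htt2 a2 ha2
    have hk7 := k7 (tt a2) (htt1 a2 ha2) htne
    rw [← f1, e1] at k3 k4 k5 hk7
    rw [← f2, e2] at m3 m4 m5 hk7
    refine ⟨a1, ha1, a2, ha2, hane, WW i (tt a1) ++ A ++ (WW i (tt a2)).reverse, ?_, ?_, ?_, ?_⟩
    · exact join_arc hsym k3 m3 hA1 hA3 hA4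
    · rw [List.nodup_append, List.nodup_append]
      refine ⟨⟨?_, hA2, ?_⟩, ?_, ?_⟩
      · refine k4.sublist ?_
        rw [List.cons_append]
        exact (List.sublist_append_left _ _).cons _
      · intro x hx y hy hxy
        subst hxy
        exact (k6 x hx).2 (hA5 x hy)
      · rw [List.nodup_reverse]
        refine m4.sublist ?_
        rw [List.cons_append]
        exact (List.sublist_append_left _ _).cons _
      · intro x hx y hy hxy
        subst hxy
        rw [List.mem_reverse] at hy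
        rw [List.mem_append] at hx
        rcases hx with hx | hx
        · exact hk7 x (by simp [hx]) (by simp [hy])
        · exact (m6 x hy).2 (hA5 x hx)
    · intro v hv
      rw [List.mem_append, List.mem_append, List.mem_reverse] at hv
      rcases hv with (hv | hv) | hv
      · exact ⟨k5 v (by simp [hv]), (k6 v hv).1⟩
      · refine ⟨?_, hγΔ i hi v (hA5 v hv)⟩
        exact Rc_mono le_rfl le_rfl (by omega) le_rfl ((hγ i hi).mem v (hA5 v hv))
      · exact ⟨m5 v (by simp [hv]), (m6 v hv).1⟩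
    · rw [List.length_append, List.length_append]
      simp only [hℓ]
      rw [hγlen i hi] at hA6
      omega
  -- counting
  have hcount : ∀ i ∈ F, F.card * s ≤ cnt (P i) Δ := by
    intro i hi
    have h1 : F.card ≤ m := by
      have := Finset.card_le_card hF
      rwa [Finset.card_range] at this
    have h2 : F.card * s ≤ m * s := Nat.mul_le_mul_right s h1
    refine h2.trans ?_
    have hinj : Set.InjOn (fun t => aa i t) (Finset.range (m * s) : Set ℕ) := by
      intro t ht t' ht' he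
      rw [Finset.mem_coe, Finset.mem_range] at ht ht'
      by_contra hne
      have h3 := (hlk i hi t ht).2.2.2.2.2.2 t' ht' hne (aa i t) (by simp)
      apply h3
      simp only at he
      rw [he]
      simp
    have h3 : ((Finset.range (m * s)).image (fun t => aa i t)).card = m * s := by
      rw [Finset.card_image_of_injOn hinj, Finset.card_range]
    rw [← h3]
    refine card_le_cnt _ ?_
    intro v hv
    rw [Finset.mem_image] at hv
    obtain ⟨t, ht, rfl⟩ := hv
    rw [Finset.mem_range] at ht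
    exact ⟨(hlk i hi t ht).1, t, ht, rfl⟩
  obtain ⟨Δ', r1, r2, r3, r4, r5, r6⟩ := glue hsym s (by omega) P Reg ℓ F hRegdisj hdet F
    (Finset.Subset.refl F) Δ hΔc hWn (fun i _ v hv hv' => hv'.2 hv) hcount
  have r3' : Δ'.head? = some a := by rw [r3, hΔ]; rfl
  have r4' : Δ'.getLast? = some b' := by
    rw [r4, hΔ, List.getLast?_append_of_ne_nil _ (by simp)]; rfl
  have hKn := K0n
  have hfinal : IsCyc R ω (Δ' ++ K) := by
    refine ⟨?_, ?_, close_cycle r1 r3' r4' hKc⟩
    · have hl1 : 2 ≤ Δ'.length := by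
        cases hΔ' : Δ' with
        | nil => rw [hΔ'] at r3'; simp at r3'
        | cons c l =>
          cases l with
          | nil =>
            rw [hΔ'] at r3' r4'
            simp at r3' r4'
            exact absurd (r3'.symm.trans r4') hab
          | cons d l => simp
      have hl2 : 1 ≤ K.length := List.length_pos_iff.2 hKne
      rw [List.length_append]
      omega
    · rw [List.nodup_append]
      refine ⟨r2, ?_, ?_⟩
      · refine hKn.sublist ?_
        rw [List.cons_append]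
        exact (List.sublist_append_left _ _).cons _
      · intro x hx y hy hxy
        subst hxy
        have hxZ : x ∈ Z := K0m x (by simp [hy])
        have hxa : x ≠ a := by
          intro e
          rw [e] at hy
          rw [List.nodup_append] at hKn
          exact hKn.2.2 a (by simp [hy]) a (by simp) rfl
        have hxb : x ≠ b' := by
          intro e
          rw [e] at hy
          rw [List.cons_append, List.nodup_cons] at hKn
          exact hKn.1 (by simp [hy])
        rcases r5 x hx with h1 | ⟨i, hi, h1⟩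
        · rw [hΔ] at h1
          simp only [List.cons_append, List.mem_cons, List.mem_append, List.mem_nil_iff,
            or_false] at h1
          rcases h1 with h1 | h1 | h1
          · exact hxa h1
          · have h2 := hWd x h1
            rcases hxZ with h3 | h3 | h3
            · exact h2.1 h3
            · exact h2.2 h3
            · have h4 := tm' x h3
              have h5 := dm' x (hWm x (by rw [hΔ]; simp [h1]))
              omega
          · exact hxb h1
        · have h2 := hXb i hi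
          have h6 := h1.1
          rcases hxZ with h3 | h3 | h3
          · have h4 := um' x h3
            have h5 := h6.1.1
            omega
          · have h4 := vm' x h3
            have h5 := h6.1.2
            omega
          · have h4 := tm' x h3
            have h5 := h6.2.2
            omega
  have hle := le_Clen (Rc_finite _ _ _ _) hfinal
  rw [List.length_append] at hle
  exact r6.trans ((Nat.le_add_right _ _).trans hle)

end Pool.Agent.H978R2
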