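import Pool.Agent.H978R2.Kc

/-!
# Russo's formula
-/

set_option autoImplicit false
set_option linter.all false
set_option linter.deprecated false

open MeasureTheory Set

namespace Pool.Agent.H978R2

variable {ι : Type*}

lemma upd_comm {e e' : ι} (h : e ≠ e') (b b' : Bool) (ω : ι → Bool) :
    upd e b (upd e' b' ω) = upd e' b' (upd e b ω) := by
  funext i
  by_cases h1 : i = e
  · subst h1
    rw [upd_self, upd_ne h, upd_self]
  · by_cases h2 : i = e'
    · subst h2
      rw [upd_ne h1, upd_self, upd_self]
    · rw [upd_ne h1, upd_ne h2, upd_ne h2, upd_ne h1]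

lemma upd_upd (e : ι) (b b' : Bool) (ω : ι → Bool) : upd e b (upd e b' ω) = upd e b ω := by
  funext i
  by_cases h1 : i = e
  · subst h1; rw [upd_self, upd_self]
  · rw [upd_ne h1, upd_ne h1, upd_ne h1]

/-- discrete derivative -/
noncomputable def DD (e : ι) (f : (ι → Bool) → ℝ) (ω : ι → Bool) : ℝ :=
  f (upd e true ω) - f (upd e false ω)

lemma EE_sub {E : Finset ι} {p : ℝ} (f g : (ι → Bool) → ℝ) :
    EE E p (fun ω => f ω - g ω) = EE E p f - EE E p g := by
  unfold EE
  rw [← Finset.sum_sub_distrib]
  exact Finset.sum_congr rfl fun T _ => by ring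

lemma EE_erase_indep [DecidableEq ι] {E : Finset ι} {e : ι} (he : e ∈ E) (p : ℝ)
    {f : (ι → Bool) → ℝ} (hf : ∀ b ω, f (upd e b ω) = f ω) :
    EE (E.erase e) p f = EE E p f := by
  rw [EE_split he p f, EE_congr (fun ω => hf true ω), EE_congr (fun ω => hf false ω)]
  ring

/-- Russo's formula -/
theorem russo [DecidableEq ι] (E : Finset ι) (f : (ι → Bool) → ℝ) (p : ℝ) :
    HasDerivAt (fun p => EE E p f) (∑ e ∈ E, EE (E.erase e) p (DD e f)) p := by
  induction E using Finset.induction_on generalizing f with
  | empty =>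
    have : (fun p => EE ∅ p f) = fun _ : ℝ => f (cfgOf ∅) := by
      funext p; exact EE_empty p f
    rw [this]
    simpa using hasDerivAt_const p (f (cfgOf ∅))
  | insert e E he ih =>
    have h1 := ih (fun ω => f (upd e true ω))
    have h0 := ih (fun ω => f (upd e false ω))
    have hfun : (fun p => EE (insert e E) p f) = fun p => p * EE E p (fun ω => f (upd e true ω)) +
        (1 - p) * EE E p (fun ω => f (upd e false ω)) := by
      funext p; exact EE_insert he p f
    rw [hfun]
    have hd := ((hasDerivAt_id p).mul h1).add (((hasDerivAt_const p (1 : ℝ)).sub (hasDerivAt_id p)).mul h0)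
    refine hd.congr_deriv ?_
    rw [Finset.sum_insert he, Finset.erase_insert he]
    have e1 : EE E p (DD e f) = EE E p (fun ω => f (upd e true ω)) -
        EE E p (fun ω => f (upd e false ω)) := EE_sub _ _
    have e2 : ∑ x ∈ E, EE ((insert e E).erase x) p (DD x f) =
        p * ∑ x ∈ E, EE (E.erase x) p (DD x (fun ω => f (upd e true ω))) +
        (1 - p) * ∑ x ∈ E, EE (E.erase x) p (DD x (fun ω => f (upd e false ω))) := by
      rw [Finset.mul_sum, Finset.mul_sum, ← Finset.sum_add_distrib]
      refine Finset.sum_congr rfl fun x hx => ?_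
      have hxe : x ≠ e := fun h => he (h ▸ hx)
      rw [Finset.erase_insert_of_ne (Ne.symm hxe)]
      rw [EE_insert (by simp [he])]
      congr 2
      · refine EE_congr fun ω => ?_
        unfold DD
        rw [upd_comm hxe, upd_comm hxe]
      · refine EE_congr fun ω => ?_
        unfold DD
        rw [upd_comm hxe, upd_comm hxe]
    rw [e1, e2]
    simp only [id, Pi.sub_apply]
    ring

/-- the pivotal event -/
def Piv (A : Set (ι → Bool)) (e : ι) : Set (ι → Bool) :=
  {ω | upd e true ω ∈ A ∧ upd e false ω ∉ A}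

lemma DD_I1 {A : Set (ι → Bool)} (hA : IsUpperSet A) (e : ι) (ω : ι → Bool) :
    DD e (I1 A) ω = I1 (Piv A e) ω := by
  unfold DD
  by_cases h1 : upd e true ω ∈ A
  · by_cases h0 : upd e false ω ∈ A
    · rw [I1_mem h1, I1_mem h0, I1_not]
      · ring
      · exact fun h => h.2 h0
    · rw [I1_mem h1, I1_not h0, I1_mem]
      · ring
      · exact ⟨h1, h0⟩
  · have h0 : upd e false ω ∉ A := by
      intro h
      apply h1
      refine hA ?_ h
      intro i
      by_cases hi : i = e
      · subst hi; rw [upd_self, upd_self]; simp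
      · rw [upd_ne hi, upd_ne hi]
    rw [I1_not h1, I1_not h0, I1_not]
    · ring
    · exact fun h => h1 h.1

lemma Piv_upd (A : Set (ι → Bool)) (e : ι) (b : Bool) (ω : ι → Bool) :
    upd e b ω ∈ Piv A e ↔ ω ∈ Piv A e := by
  unfold Piv
  simp only [mem_setOf_eq, upd_upd]

lemma dep_Piv {J : Set ι} {A : Set (ι → Bool)} (h : DepOn J A) (e : ι) : DepOn J (Piv A e) := by
  intro ω ω' hω
  have key : ∀ b, (upd e b ω ∈ A ↔ upd e b ω' ∈ A) := by
    intro b
    refine h _ _ fun i hi => ?_
    by_cases hie : i = e
    · subst hie; rw [upd_self, upd_self]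
    · rw [upd_ne hie, upd_ne hie]; exact hω i hi
  unfold Piv
  simp only [mem_setOf_eq, key]

lemma piv_closed (q : NNReal) (hq : q ≤ 1) {J : Finset ι} {A : Set (ι → Bool)}
    (h : DepOn (J : Set ι) A) {e : ι} (he : e ∈ J) :
    (bm ι q hq).real (Piv A e ∩ {ω | ω e = false}) = (1 - q) * (bm ι q hq).real (Piv A e) := by
  have hd : DepOn (J : Set ι) (Piv A e ∩ {ω | ω e = false}) := by
    refine (dep_Piv h e).inter ?_
    intro ω ω' hω
    simp only [mem_setOf_eq, hω e he]
  rw [bm_real_split q hq hd.measurable_fin e]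
  have e1 : {ω : ι → Bool | upd e true ω ∈ Piv A e ∩ {ω | ω e = false}} = ∅ := by
    ext ω
    simp [upd_self]
  have e0 : {ω : ι → Bool | upd e false ω ∈ Piv A e ∩ {ω | ω e = false}} = Piv A e := by
    ext ω
    simp only [mem_setOf_eq, mem_inter_iff, upd_self, and_true]
    exact Piv_upd A e false ω
  rw [e1, e0]
  simp

/-- derivative of the probability of an increasing event -/
lemma russo_bm (q : NNReal) (hq : q ≤ 1) (hq1 : (q : ℝ) < 1) {J : Finset ι} {A : Set (ι → Bool)}
    (h : DepOn (J : Set ι) A) (uA : IsUpperSet A) :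
    HasDerivAt (fun p => EE J p (I1 A))
      ((∑ e ∈ J, (bm ι q hq).real (Piv A e ∩ {ω | ω e = false})) / (1 - q)) q := by
  classical
  refine (russo J (I1 A) q).congr_deriv ?_
  have hne : (1 : ℝ) - q ≠ 0 := by linarith
  rw [eq_div_iff hne, Finset.sum_mul]
  refine Finset.sum_congr rfl fun e he => ?_
  rw [piv_closed q hq h he]
  have : EE (J.erase e) q (DD e (I1 A)) = (bm ι q hq).real (Piv A e) := by
    rw [bm_real_eq_EE q hq (dep_Piv h e)]
    rw [← EE_erase_indep he (q : ℝ) (f := I1 (Piv A e))]
    · exact EE_congr fun ω => DD_I1 uA e ω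
    · intro b ω
      by_cases h1 : ω ∈ Piv A e
      · rw [I1_mem h1, I1_mem ((Piv_upd A e b ω).2 h1)]
      · rw [I1_not h1, I1_not (fun h => h1 ((Piv_upd A e b ω).1 h))]
  rw [this]; ring

/-- monotonicity in the parameter -/
lemma bm_mono_q {q q' : NNReal} (hqq : q ≤ q') (hq : q ≤ 1) (hq' : q' ≤ 1) {J : Finset ι}
    {A : Set (ι → Bool)} (h : DepOn (J : Set ι) A) (uA : IsUpperSet A) :
    (bm ι q hq).real A ≤ (bm ι q' hq').real A := by
  classical
  induction J using Finset.induction_on generalizing A with
  | empty =>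
    by_cases h1 : cfgOf ∅ ∈ A
    · have : A = univ := by
        ext ω; simp only [mem_univ, iff_true]
        exact (h _ _ fun i hi => by simp at hi).1 h1
      rw [this]; simp
    · have : A = ∅ := by
        ext ω; simp only [mem_empty_iff_false, iff_false]
        exact fun h' => h1 ((h _ _ fun i hi => by simp at hi).2 h')
      rw [this]; simp
  | insert e J he ih =>
    have hd : ∀ b, DepOn (J : Set ι) {ω | upd e b ω ∈ A} := fun b =>
      (depOn_upd h e b).mono (by
        intro i hi
        have := hi.1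
        simp only [Finset.coe_insert, mem_insert_iff] at this
        exact this.resolve_left hi.2)
    have hu : ∀ b, IsUpperSet {ω | upd e b ω ∈ A} := by
      intro b ω ω' hω hmem
      refine uA ?_ hmem
      intro i
      by_cases hi : i = e
      · subst hi; rw [upd_self, upd_self]
      · rw [upd_ne hi, upd_ne hi]; exact hω i
    have hmono : (bm ι q' hq').real {ω | upd e false ω ∈ A} ≤
        (bm ι q' hq').real {ω | upd e true ω ∈ A} := by
      refine measureReal_mono ?_ (measure_ne_top _ _)
      intro ω hω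
      refine uA ?_ hω
      intro i
      by_cases hi : i = e
      · subst hi; rw [upd_self, upd_self]; simp
      · rw [upd_ne hi, upd_ne hi]
    have i1 := ih (hd true) (hu true)
    have i0 := ih (hd false) (hu false)
    rw [bm_real_split q hq h.measurable_fin e, bm_real_split q' hq' h.measurable_fin e]
    have q0 : (0 : ℝ) ≤ q := q.2
    have q1 : (q : ℝ) ≤ 1 := by exact_mod_cast hq
    have q2 : (q : ℝ) ≤ q' := by exact_mod_cast hqq
    nlinarith [mul_le_mul_of_nonneg_left i1 q0, mul_le_mul_of_nonneg_left i0 (sub_nonneg.2 q1),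
      mul_nonneg (sub_nonneg.2 q2) (sub_nonneg.2 hmono)]

end Pool.Agent.H978R2
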