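import Pool.Agent.H978R2.Dct

/-!
# Sharpness: exponential decay below one half
-/

set_option autoImplicit false
set_option linter.all false
set_option linter.deprecated false

open MeasureTheory Set

namespace Pool.Agent.H978R2

/-- The differential inequality of Duminil-Copin and Tassion. -/
lemma piv_lower (q : NNReal) (hq : q ≤ 1) (hq0 : 0 < q) (n : ℕ)
    (hphi : ∀ S : Finset (ℤ × ℤ), (0, 0) ∈ S → 1 ≤ phi q hq S)
    (E : Finset (Sym2 (ℤ × ℤ))) (hE : ∀ e, e ∈ E ↔ e ∈ (latR (Bx (0, 0) n)).edgeSet) :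
    1 - th q hq n ≤ ∑ e ∈ E, (bm (Sym2 (ℤ × ℤ)) q hq).real
      (Piv (armE (0, 0) n) e ∩ {ω | ω e = false}) := by
  classical
  set μ := bm (Sym2 (ℤ × ℤ)) q hq with hμ
  set Γ := latR (Bx (0, 0) n) with hΓ
  set Bd : Set (ℤ × ℤ) := Bx (0, 0) n ∩ Far (0, 0) n with hBd
  set EC : Finset (ℤ × ℤ) → Set (Sym2 (ℤ × ℤ) → Bool) :=
    fun C => {ω | cl Γ ω Bd = (C : Set (ℤ × ℤ))} with hEC
  set Cs : Finset (Finset (ℤ × ℤ)) :=
    (bxF n).powerset.filter (fun C => (0, 0) ∉ C ∧ Bd ⊆ (C : Set (ℤ × ℤ))) with hCs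
  have hin : ∀ ω, ∀ v ∈ cl Γ ω Bd, v ∈ Bx (0, 0) n := by
    rintro ω v ⟨a, ha, hr⟩
    by_cases hv : a = v
    · rw [← hv]; exact ha.1
    · exact (reach_ne_mem hr hv).2
  -- the arm event in terms of the cluster of the boundary
  have harm : ∀ ω, ω ∈ armE (0, 0) n ↔ ((0, 0) : ℤ × ℤ) ∈ cl Γ ω Bd := by
    intro ω
    constructor
    · rintro ⟨a, ha, b, hb, hr⟩
      have ha' : a = (0, 0) := ha
      subst ha'
      refine ⟨b, ⟨?_, hb⟩, hr.symm⟩
      by_cases hv : ((0, 0) : ℤ × ℤ) = b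
      · rw [← hv]; exact self_mem_Bx _ _
      · exact (reach_ne_mem hr hv).2
    · rintro ⟨b, hb, hr⟩
      exact ⟨(0, 0), rfl, b, hb.2, hr.symm⟩
  have mEC : ∀ C, MeasurableSet (EC C) := by
    intro C
    have hf := ins_finite (R := Bx (0, 0) n) (Bx_finite _ _)
    refine DepOn.measurable_fin (J := hf.toFinset) ?_
    have h1 : ((hf.toFinset : Finset (Sym2 (ℤ × ℤ))) : Set _) = ins (Bx (0, 0) n) := by simp
    rw [h1]
    exact (dep_cluster Γ _ _).mono fun e he => latR_edge _ he.1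
  have hdisj : ∀ C C' : Finset (ℤ × ℤ), C ≠ C' → Disjoint (EC C) (EC C') := by
    intro C C' hne
    rw [Set.disjoint_left]
    intro ω h1 h2
    apply hne
    have h1' : cl Γ ω Bd = (C : Set (ℤ × ℤ)) := h1
    have h2' : cl Γ ω Bd = (C' : Set (ℤ × ℤ)) := h2
    exact Finset.coe_injective (h1'.symm.trans h2')
  have hcompl : (armE (0, 0) n)ᶜ = ⋃ C ∈ Cs, EC C := by
    ext ω
    rw [mem_compl_iff, harm]
    simp only [mem_iUnion, exists_prop]
    constructor
    · intro h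
      refine ⟨(bxF n).filter (fun v => v ∈ cl Γ ω Bd), ?_, ?_⟩
      · rw [hCs, Finset.mem_filter, Finset.mem_powerset]
        refine ⟨Finset.filter_subset _ _, ?_, ?_⟩
        · rw [Finset.mem_filter]; exact fun h' => h h'.2
        · intro v hv
          rw [Finset.mem_coe, Finset.mem_filter, mem_bxF]
          exact ⟨hv.1, subset_cl _ _ _ hv⟩
      · show cl Γ ω Bd = _
        ext v
        rw [Finset.mem_coe, Finset.mem_filter, mem_bxF]
        exact ⟨fun h => ⟨hin ω v h, h⟩, fun h => h.2⟩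
    · rintro ⟨C, hC, hE'⟩
      have hE'' : cl Γ ω Bd = (C : Set (ℤ × ℤ)) := hE'
      rw [hCs, Finset.mem_filter] at hC
      rw [hE'']
      exact hC.2.1
  have hone : 1 - th q hq n = ∑ C ∈ Cs, μ.real (EC C) := by
    have h1 := probReal_compl_eq_one_sub (μ := μ) (meas_arm (0, 0) n)
    have h2 : μ.real (armE (0, 0) n) = th q hq n := rfl
    rw [h2] at h1
    rw [← h1, hcompl, measureReal_biUnion_finset]
    · intro C _ C' _ hne
      exact hdisj C C' hne
    · intro C _; exact mEC C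
  -- lower bound for a single C
  have hC : ∀ C ∈ Cs, μ.real (EC C) ≤ ∑ e ∈ E, μ.real ((Piv (armE (0, 0) n) e ∩
      {ω | ω e = false}) ∩ EC C) := by
    intro C hC
    rw [hCs, Finset.mem_filter, Finset.mem_powerset] at hC
    obtain ⟨hC1, hC2, hC3⟩ := hC
    set S : Finset (ℤ × ℤ) := (bxF n) \ C with hS
    have h0S : ((0, 0) : ℤ × ℤ) ∈ S := by
      rw [hS, Finset.mem_sdiff, mem_bxF]
      exact ⟨self_mem_Bx _ _, hC2⟩
    have hSmem : ∀ x ∈ S, x ∈ Bx (0, 0) n ∧ x ∉ C ∧ x ∉ Far (0, 0) n := by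
      intro x hx
      rw [hS, Finset.mem_sdiff, mem_bxF] at hx
      exact ⟨hx.1, hx.2, fun h => hx.2 (hC3 ⟨hx.1, h⟩)⟩
    have hbd : ∀ z ∈ bdp S, z.1 ∈ S ∧ z.2 ∈ D4 ∧ z.1 + z.2 ∈ C ∧ z.1 + z.2 ∈ Bx (0, 0) n := by
      intro z hz
      unfold bdp at hz
      rw [Finset.mem_filter, Finset.mem_product] at hz
      obtain ⟨⟨h1, h2⟩, h3⟩ := hz
      have h4 := hSmem z.1 h1
      have h5 : z.1 + z.2 ∈ Bx (0, 0) n := by
        have h6 := h4.2.2
        have h7 := h4.1
        rw [mem_Far] at h6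
        rw [mem_Bx] at h7 ⊢
        rw [mem_D4] at h2
        simp only [Prod.fst_add, Prod.snd_add, zero_sub, zero_add] at *
        rcases h2 with h2 | h2 | h2 | h2 <;> rw [h2] <;> simp <;> omega
      refine ⟨h1, h2, ?_, h5⟩
      by_contra h6
      apply h3
      rw [hS, Finset.mem_sdiff, mem_bxF]
      exact ⟨h5, h6⟩
    have hinj : Set.InjOn (fun z : (ℤ × ℤ) × (ℤ × ℤ) => s(z.1, z.1 + z.2)) (bdp S : Set _) := by
      intro z hz z' hz' h
      have g1 := hbd z hz
      have g2 := hbd z' hz'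
      simp only at h
      rw [Sym2.eq_iff] at h
      rcases h with ⟨h1, h2⟩ | ⟨h1, h2⟩
      · refine Prod.ext h1 ?_
        rw [h1] at h2
        exact add_left_cancel h2
      · exfalso
        have := (hSmem _ g1.1).2.1
        rw [h1] at this
        exact this g2.2.2.1
    have himg : (bdp S).image (fun z : (ℤ × ℤ) × (ℤ × ℤ) => s(z.1, z.1 + z.2)) ⊆ E := by
      intro e he
      rw [Finset.mem_image] at he
      obtain ⟨z, hz, rfl⟩ := he
      have g := hbd z hz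
      rw [hE]
      exact ⟨adj_D4.2 ⟨z.2, g.2.1, rfl⟩, (hSmem _ g.1).1, g.2.2.2⟩
    have hz : ∀ z ∈ bdp S, μ.real (EC C) * μ.real (ev (latR (S : Set (ℤ × ℤ))) {(0, 0)} {z.1}) ≤
        μ.real ((Piv (armE (0, 0) n) s(z.1, z.1 + z.2) ∩ {ω | ω s(z.1, z.1 + z.2) = false}) ∩
          EC C) := by
      intro z hz
      obtain ⟨g1, g2, g3, g4⟩ := hbd z hz
      have hind : μ (EC C ∩ ev (latR (S : Set (ℤ × ℤ))) {(0, 0)} {z.1}) =
          μ (EC C) * μ (ev (latR (S : Set (ℤ × ℤ))) {(0, 0)} {z.1}) := by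
        refine bm_inter q hq ?_ (mEC C) (meas_ev _ _ _) (dep_cluster Γ Bd (C : Set (ℤ × ℤ)))
          (dep_ins _ _ _)
        rw [Set.disjoint_left]
        rintro e ⟨_, v, hv, hvC⟩ he
        exact (hSmem v (he v hv)).2.1 hvC
      have hindr : μ.real (EC C) * μ.real (ev (latR (S : Set (ℤ × ℤ))) {(0, 0)} {z.1}) =
          μ.real (EC C ∩ ev (latR (S : Set (ℤ × ℤ))) {(0, 0)} {z.1}) := by
        unfold Measure.real
        rw [hind, ENNReal.toReal_mul]
      rw [hindr]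
      refine measureReal_mono ?_ (measure_ne_top _ _)
      rintro ω ⟨hω, a, ha, b, hb, hr⟩
      have ha' : a = (0, 0) := ha
      subst ha'
      have hb' : b = z.1 := hb
      subst hb'
      have hcl : cl Γ ω Bd = (C : Set (ℤ × ℤ)) := hω
      have hSB : (S : Set (ℤ × ℤ)) ⊆ Bx (0, 0) n := fun x hx => (hSmem x hx).1
      have hadj : lat.Adj z.1 (z.1 + z.2) := adj_D4.2 ⟨z.2, g2, rfl⟩
      have hyC : z.1 + z.2 ∈ cl Γ ω Bd := by rw [hcl]; exact g3
      have hxC : z.1 ∉ cl Γ ω Bd := by rw [hcl]; exact (hSmem _ g1).2.1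
      have hclosed : ω s(z.1, z.1 + z.2) = false := by
        by_contra hne
        rw [Bool.not_eq_false] at hne
        apply hxC
        obtain ⟨b, hb, hrb⟩ := hyC
        refine ⟨b, hb, hrb.trans (SimpleGraph.Adj.reachable ?_)⟩
        exact SimpleGraph.Adj.symm ⟨⟨hadj, hSB g1, g4⟩, hne⟩
      refine ⟨⟨⟨?_, ?_⟩, hclosed⟩, hω⟩
      · rw [harm]
        obtain ⟨b, hb, hrb⟩ := hyC
        have hle := openG_le_of (Γ := Γ) (le_upd_true s(z.1, z.1 + z.2) ω)
        have hle2 := openG_mono (latR_mono hSB) ω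
        refine ⟨b, hb, (hrb.mono hle).trans (SimpleGraph.Reachable.trans ?_
          ((hr.mono hle2).mono hle).symm)⟩
        refine SimpleGraph.Adj.reachable (SimpleGraph.Adj.symm ⟨⟨hadj, hSB g1, g4⟩, upd_self _ _ _⟩)
      · rw [upd_of hclosed, harm, hcl]
        exact hC2
    have hphiS := hphi S h0S
    unfold phi at hphiS
    have hq1 : (q : ℝ) ≤ 1 := by exact_mod_cast hq
    have hsum0 : 0 ≤ ∑ z ∈ bdp S, μ.real (ev (latR (S : Set (ℤ × ℤ))) {(0, 0)} {z.1}) :=
      Finset.sum_nonneg fun z _ => measureReal_nonneg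
    have hsum1 : 1 ≤ ∑ z ∈ bdp S, μ.real (ev (latR (S : Set (ℤ × ℤ))) {(0, 0)} {z.1}) := by
      have : q * ∑ z ∈ bdp S, μ.real (ev (latR (S : Set (ℤ × ℤ))) {(0, 0)} {z.1}) ≤
          1 * ∑ z ∈ bdp S, μ.real (ev (latR (S : Set (ℤ × ℤ))) {(0, 0)} {z.1}) :=
        mul_le_mul_of_nonneg_right hq1 hsum0
      linarith
    calc μ.real (EC C) ≤ μ.real (EC C) *
          ∑ z ∈ bdp S, μ.real (ev (latR (S : Set (ℤ × ℤ))) {(0, 0)} {z.1}) := by
          have : 0 ≤ μ.real (EC C) := measureReal_nonneg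
          nlinarith
      _ = ∑ z ∈ bdp S, μ.real (EC C) * μ.real (ev (latR (S : Set (ℤ × ℤ))) {(0, 0)} {z.1}) := by
          rw [Finset.mul_sum]
      _ ≤ ∑ z ∈ bdp S, μ.real ((Piv (armE (0, 0) n) s(z.1, z.1 + z.2) ∩
          {ω | ω s(z.1, z.1 + z.2) = false}) ∩ EC C) := Finset.sum_le_sum hz
      _ = ∑ e ∈ (bdp S).image (fun z : (ℤ × ℤ) × (ℤ × ℤ) => s(z.1, z.1 + z.2)),
          μ.real ((Piv (armE (0, 0) n) e ∩ {ω | ω e = false}) ∩ EC C) := by
          rw [Finset.sum_image hinj]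
      _ ≤ ∑ e ∈ E, μ.real ((Piv (armE (0, 0) n) e ∩ {ω | ω e = false}) ∩ EC C) :=
          Finset.sum_le_sum_of_subset_of_nonneg himg fun _ _ _ => measureReal_nonneg
  rw [hone]
  calc ∑ C ∈ Cs, μ.real (EC C) ≤ ∑ C ∈ Cs, ∑ e ∈ E, μ.real ((Piv (armE (0, 0) n) e ∩
      {ω | ω e = false}) ∩ EC C) := Finset.sum_le_sum hC
    _ = ∑ e ∈ E, ∑ C ∈ Cs, μ.real ((Piv (armE (0, 0) n) e ∩ {ω | ω e = false}) ∩ EC C) :=
        Finset.sum_comm
    _ ≤ ∑ e ∈ E, μ.real (Piv (armE (0, 0) n) e ∩ {ω | ω e = false}) := by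
        refine Finset.sum_le_sum fun e he => ?_
        have hdep : DepOn (E : Set (Sym2 (ℤ × ℤ))) (armE (0, 0) n) := by
          refine (depOn_ev _ _ _).mono ?_
          intro e he
          exact (hE e).2 he
        have hmeas : MeasurableSet (Piv (armE (0, 0) n) e ∩ {ω | ω e = false}) :=
          (dep_Piv hdep e).measurable_fin.inter (meas_coord e false)
        rw [← measureReal_biUnion_finset]
        · refine measureReal_mono ?_ (measure_ne_top _ _)
          refine Set.iUnion₂_subset fun C _ => inter_subset_left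
        · intro C _ C' _ hne
          exact Set.disjoint_of_subset inter_subset_right inter_subset_right (hdisj C C' hne)
        · intro C _; exact hmeas.inter (mEC C)

/-- Below one half some `phi` is smaller than one. -/
theorem exists_phi_lt (q : NNReal) (hq : q ≤ 1) (hqh : (q : ℝ) < 1 / 2) :
    ∃ S : Finset (ℤ × ℤ), (0, 0) ∈ S ∧ phi q hq S < 1 := by
  classical
  by_contra hcon
  push Not at hcon
  have hq0 : (0 : ℝ) < q := by
    by_contra h
    have h1 : (q : ℝ) = 0 := le_antisymm (not_lt.1 h) q.2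
    have h2 := hcon {(0, 0)} (by simp)
    unfold phi at h2
    rw [h1] at h2
    norm_num at h2
  have hε : (0 : ℝ) < 1 - Real.exp (-(1 / 2 - q)) := by
    have : Real.exp (-(1 / 2 - (q : ℝ))) < 1 := by
      rw [Real.exp_lt_one_iff]; linarith
    linarith
  refine no_perc_half hε fun n => ?_
  have hfin : (latR (Bx (0, 0) n)).edgeSet.Finite :=
    (ins_finite (Bx_finite (0, 0) n)).subset (latR_edge _)
  set E := hfin.toFinset with hEdef
  have hE : ∀ e, e ∈ E ↔ e ∈ (latR (Bx (0, 0) n)).edgeSet := fun e => by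
    rw [hEdef, Set.Finite.mem_toFinset]
  have hdep : DepOn (E : Set (Sym2 (ℤ × ℤ))) (armE (0, 0) n) := by
    refine (depOn_ev _ _ _).mono ?_
    intro e he
    exact (hE e).2 he
  set F : ℝ → ℝ := fun p => EE E p (I1 (armE (0, 0) n)) with hF
  have hFq : ∀ (q' : NNReal) (hq' : q' ≤ 1), F q' = th q' hq' n := by
    intro q' hq'
    exact (bm_real_eq_EE q' hq' hdep).symm
  have hder : ∀ p : ℝ, q ≤ p → p ≤ 1 / 2 → ∃ D, HasDerivAt F D p ∧ 1 - F p ≤ D := by
    intro p h1 h2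
    have hp0 : 0 < p := lt_of_lt_of_le hq0 h1
    set q' : NNReal := ⟨p, hp0.le⟩ with hq'
    have hqq : q ≤ q' := by rw [← NNReal.coe_le_coe]; exact h1
    have hq'1 : q' ≤ 1 := by rw [← NNReal.coe_le_coe]; show p ≤ 1; linarith
    have hlt : (q' : ℝ) < 1 := by show p < 1; linarith
    have hd := russo_bm q' hq'1 hlt hdep (upper_ev _ _ _)
    refine ⟨_, hd, ?_⟩
    have h3 := piv_lower q' hq'1 (by rw [← NNReal.coe_lt_coe]; exact hp0) n
      (fun S hS => (hcon S hS).trans (phi_mono hqq hq hq'1 S)) E hE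
    have h4 : F p = th q' hq'1 n := hFq q' hq'1
    rw [h4]
    refine h3.trans ?_
    rw [le_div_iff₀ (by linarith)]
    have h5 : 0 ≤ ∑ e ∈ E, (bm (Sym2 (ℤ × ℤ)) q' hq'1).real
      (Piv (armE (0, 0) n) e ∩ {ω | ω e = false}) := Finset.sum_nonneg fun _ _ => measureReal_nonneg
    have h6 : (0 : ℝ) ≤ q' := q'.2
    nlinarith
  set g : ℝ → ℝ := fun p => (1 - F p) * Real.exp p with hg
  have hgder : ∀ p : ℝ, q ≤ p → p ≤ 1 / 2 → ∃ D, HasDerivAt g D p ∧ D ≤ 0 := by
    intro p h1 h2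
    obtain ⟨D, hD, hD2⟩ := hder p h1 h2
    have h3 := ((hasDerivAt_const p (1 : ℝ)).sub hD).mul (Real.hasDerivAt_exp p)
    refine ⟨_, h3, ?_⟩
    simp only [Pi.sub_apply]
    have := Real.exp_pos p
    nlinarith
  have hanti : AntitoneOn g (Set.Icc (q : ℝ) (1 / 2)) := by
    refine antitoneOn_of_deriv_nonpos (convex_Icc _ _) ?_ ?_ ?_
    · intro p hp
      obtain ⟨D, hD, _⟩ := hgder p hp.1 hp.2
      exact hD.continuousAt.continuousWithinAt
    · intro p hp
      rw [interior_Icc] at hp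
      obtain ⟨D, hD, _⟩ := hgder p hp.1.le hp.2.le
      exact hD.differentiableAt.differentiableWithinAt
    · intro p hp
      rw [interior_Icc] at hp
      obtain ⟨D, hD, hD2⟩ := hgder p hp.1.le hp.2.le
      rw [hD.deriv]; exact hD2
  have h1 := hanti (Set.left_mem_Icc.2 hqh.le) (Set.right_mem_Icc.2 hqh.le) hqh.le
  have h2 : F (1 / 2) = th (1 / 2) half_le n := by
    have := hFq (1 / 2) half_le
    rw [← this]
    congr 1
  have h3 : 0 ≤ F q := by rw [hFq q hq]; exact th_nonneg _ _ _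
  simp only [hg] at h1
  rw [h2] at h1
  have h4 : (1 - F q) * Real.exp q ≤ Real.exp q := by
    have := Real.exp_pos (q : ℝ)
    nlinarith
  have h5 : (1 - th (1 / 2) half_le n) ≤ Real.exp (-(1 / 2 - q)) := by
    have h6 : Real.exp (-(1 / 2 - (q : ℝ))) * Real.exp (1 / 2) = Real.exp q := by
      rw [← Real.exp_add]; congr 1; ring
    have h7 := Real.exp_pos (1 / 2 : ℝ)
    have h8 : (1 - th (1 / 2) half_le n) * Real.exp (1 / 2) ≤
        Real.exp (-(1 / 2 - (q : ℝ))) * Real.exp (1 / 2) := by rw [h6]; linarith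
    exact le_of_mul_le_mul_right h8 h7
  linarith

/-- Exponential decay below one half. -/
theorem exp_decay (q : NNReal) (hq : q ≤ 1) (hqh : (q : ℝ) < 1 / 2) :
    ∃ K c : ℝ, 0 < K ∧ 0 < c ∧ ∀ n : ℕ, th q hq n ≤ K * Real.exp (-c * n) := by
  obtain ⟨S, h0, hS⟩ := exists_phi_lt q hq hqh
  obtain ⟨L, hL0, hSL, hbL⟩ : ∃ L : ℕ, 1 ≤ L ∧ (S : Set (ℤ × ℤ)) ⊆ Bx (0, 0) L ∧
      ∀ z ∈ bdp S, z.1 + z.2 ∈ Bx (0, 0) L := by
    obtain ⟨M, hM⟩ : ∃ M : ℕ, ∀ v ∈ S, v.1.natAbs + v.2.natAbs ≤ M :=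
      ⟨∑ v ∈ S, (v.1.natAbs + v.2.natAbs), fun v hv =>
        Finset.single_le_sum (f := fun v : ℤ × ℤ => v.1.natAbs + v.2.natAbs)
          (fun _ _ => Nat.zero_le _) hv⟩
    refine ⟨M + 1, by omega, ?_, ?_⟩
    · intro v hv
      have h1 := hM v hv
      rw [mem_Bx]
      push_cast
      simp only [zero_sub, zero_add]
      omega
    · intro z hz
      unfold bdp at hz
      rw [Finset.mem_filter, Finset.mem_product] at hz
      obtain ⟨⟨h1, h2⟩, _⟩ := hz
      have h3 := hM z.1 h1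
      rw [mem_D4] at h2
      rw [mem_Bx]
      push_cast
      simp only [Prod.fst_add, Prod.snd_add, zero_sub, zero_add]
      rcases h2 with h2 | h2 | h2 | h2 <;> rw [h2] <;> simp <;> omega
  set ρ : ℝ := max (phi q hq S) (1 / 2) with hρ
  have hρ1 : ρ < 1 := max_lt hS (by norm_num)
  have hρ0 : 0 < ρ := lt_of_lt_of_le (by norm_num) (le_max_right _ _)
  have hstep : ∀ k : ℕ, th q hq (1 + k * L) ≤ ρ ^ k := by
    intro k
    induction k with
    | zero => simpa using th_le_one q hq 1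
    | succ k ih =>
      have h1 := th_step q hq S h0 L hbL hSL (1 + k * L) (by omega)
      have e : 1 + k * L + L = 1 + (k + 1) * L := by ring
      rw [e] at h1
      refine h1.trans ?_
      rw [pow_succ, mul_comm]
      refine mul_le_mul ih (le_max_left _ _) ?_ (by positivity)
      unfold phi
      exact mul_nonneg q.2 (Finset.sum_nonneg fun _ _ => measureReal_nonneg)
  set c : ℝ := -Real.log ρ / L with hc
  have hL0' : (0 : ℝ) < L := by exact_mod_cast hL0
  have hlog : Real.log ρ < 0 := Real.log_neg hρ0 hρ1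
  have hc0 : 0 < c := div_pos (by linarith) hL0'
  refine ⟨Real.exp (c * (L + 1)), c, Real.exp_pos _, hc0, fun n => ?_⟩
  rw [← Real.exp_add]
  rcases Nat.eq_zero_or_pos n with rfl | hn
  · refine (th_le_one q hq 0).trans ?_
    rw [Real.one_le_exp_iff]
    have : 0 ≤ c * ((L : ℝ) + 1) := by positivity
    simpa using this
  · set k := (n - 1) / L with hk
    have h1 : 1 + k * L ≤ n := by
      have := Nat.div_mul_le_self (n - 1) L
      rw [← hk] at this
      omega
    have h2 : n < 1 + (k + 1) * L := by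
      have h3 := Nat.lt_div_mul_add (a := n - 1) (b := L) (by omega)
      rw [← hk] at h3
      have h4 : (k + 1) * L = k * L + L := by ring
      omega
    have h3 : (n : ℝ) ≤ 1 + (k + 1) * L := by exact_mod_cast h2.le
    refine (th_anti q hq h1).trans ((hstep k).trans ?_)
    have h4 : ρ ^ k = Real.exp (-c * (k * L)) := by
      have : -c * (k * L) = k * Real.log ρ := by
        rw [hc]; field_simp
      rw [this, Real.exp_nat_mul, Real.exp_log hρ0]
    rw [h4, Real.exp_le_exp]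
    nlinarith

end Pool.Agent.H978R2
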