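import Pool.Agent.H978R2.Arm

/-!
# The square-root trick, the two-arm bound and the uniqueness estimate
-/

set_option autoImplicit false
set_option linter.all false
set_option linter.deprecated false

open MeasureTheory Set

namespace Pool.Agent.H978R2

variable {V : Type*}

lemma openG_le_of {Γ : SimpleGraph V} {ω ω' : Sym2 V → Bool} (h : ω ≤ ω') :
    openG Γ ω ≤ openG Γ ω' := by
  intro x y hxy
  refine ⟨hxy.1, ?_⟩
  have := h s(x, y)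
  rw [hxy.2] at this
  exact top_le_iff.1 this

lemma upper_ev (Γ : SimpleGraph V) (A B : Set V) : IsUpperSet (ev Γ A B) := by
  rintro ω ω' h ⟨a, ha, b, hb, hr⟩
  exact ⟨a, ha, b, hb, hr.mono (openG_le_of h)⟩

lemma DepOn.union {ι : Type*} {J : Set ι} {E E' : Set (ι → Bool)} (h : DepOn J E)
    (h' : DepOn J E') : DepOn J (E ∪ E') := fun ω ω' hω => by
  simp only [mem_union, h ω ω' hω, h' ω ω' hω]

/-- Harris inequality for unions -/
lemma harris_union {ι : Type*} (q : NNReal) (hq : q ≤ 1) {J : Finset ι} {A B : Set (ι → Bool)}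
    (hA : DepOn (J : Set ι) A) (hB : DepOn (J : Set ι) B) (uA : IsUpperSet A)
    (uB : IsUpperSet B) :
    (1 - (bm ι q hq).real A) * (1 - (bm ι q hq).real B) ≤ 1 - (bm ι q hq).real (A ∪ B) := by
  have h1 := harris q hq hA hB uA uB
  have h2 := measureReal_union_add_inter (μ := bm ι q hq) (s := A) (t := B) hB.measurable_fin
  nlinarith

section sides

variable (q : NNReal) (hq : q ≤ 1)

lemma side_R (R K : Set (ℤ × ℤ)) (n : ℕ) (hR : rfx '' R = R) (hK : rfx '' K = K) :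
    (bm (Sym2 (ℤ × ℤ)) q hq).real (ev (latR R) K {v | (n : ℤ) ≤ v.1}) =
      (bm (Sym2 (ℤ × ℤ)) q hq).real (ev (latR R) K {v | v.1 ≤ -(n : ℤ)}) := by
  unfold Measure.real
  congr 1
  have h := hit_latR q hq rfx rfx_adj R K {v | v.1 ≤ -(n : ℤ)}
  have e : rfx '' {v : ℤ × ℤ | v.1 ≤ -(n : ℤ)} = {v | (n : ℤ) ≤ v.1} := by
    ext v
    constructor
    · rintro ⟨w, hw, rfl⟩
      have : w.1 ≤ -(n : ℤ) := hw
      show (n : ℤ) ≤ -w.1
      omega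
    · intro hv
      have : (n : ℤ) ≤ v.1 := hv
      refine ⟨(-v.1, v.2), ?_, by simp [rfx]⟩
      show -v.1 ≤ -(n : ℤ)
      omega
  rw [hR, hK, e] at h
  exact h

lemma side_B (R K : Set (ℤ × ℤ)) (n : ℕ) (hR : swp '' R = R) (hK : swp '' K = K) :
    (bm (Sym2 (ℤ × ℤ)) q hq).real (ev (latR R) K {v | v.2 ≤ -(n : ℤ)}) =
      (bm (Sym2 (ℤ × ℤ)) q hq).real (ev (latR R) K {v | v.1 ≤ -(n : ℤ)}) := by
  unfold Measure.real
  congr 1
  have h := hit_latR q hq swp swp_adj R K {v | v.1 ≤ -(n : ℤ)}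
  have e : swp '' {v : ℤ × ℤ | v.1 ≤ -(n : ℤ)} = {v | v.2 ≤ -(n : ℤ)} := by
    ext v
    constructor
    · rintro ⟨w, hw, rfl⟩; exact hw
    · intro hv
      exact ⟨(v.2, v.1), hv, rfl⟩
  rw [hR, hK, e] at h
  exact h

lemma side_T (R K : Set (ℤ × ℤ)) (n : ℕ) (hR : swp '' R = R) (hK : swp '' K = K) :
    (bm (Sym2 (ℤ × ℤ)) q hq).real (ev (latR R) K {v | (n : ℤ) ≤ v.2}) =
      (bm (Sym2 (ℤ × ℤ)) q hq).real (ev (latR R) K {v | (n : ℤ) ≤ v.1}) := by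
  unfold Measure.real
  congr 1
  have h := hit_latR q hq swp swp_adj R K {v | (n : ℤ) ≤ v.1}
  have e : swp '' {v : ℤ × ℤ | (n : ℤ) ≤ v.1} = {v | (n : ℤ) ≤ v.2} := by
    ext v
    constructor
    · rintro ⟨w, hw, rfl⟩; exact hw
    · intro hv
      exact ⟨(v.2, v.1), hv, rfl⟩
  rw [hR, hK, e] at h
  exact h

lemma rfx_Bx (n : ℕ) : rfx '' Bx (0, 0) n = Bx (0, 0) n := by
  unfold Bx
  rw [rfx_image]
  congr 1 <;> ring

lemma swp_Bx (n : ℕ) : swp '' Bx (0, 0) n = Bx (0, 0) n := by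
  unfold Bx
  rw [swp_image]

/-- square-root trick -/
lemma side_prob {ε : ℝ} (hε : 0 < ε) (h : ∀ n, ε ≤ th q hq n) {δ : ℝ} (hδ : 0 < δ) :
    ∃ k : ℕ, ∀ n, k < n →
      1 - δ ≤ (bm (Sym2 (ℤ × ℤ)) q hq).real (ev (latR (Bx (0, 0) n)) (Bx (0, 0) k)
        {v | v.1 ≤ -(n : ℤ)}) := by
  obtain ⟨k, hk⟩ := box_far q hq hε h (show 0 < δ ^ 4 by positivity)
  refine ⟨k, fun n hn => ?_⟩
  have h1 := hk n hn
  set μ := bm (Sym2 (ℤ × ℤ)) q hq with hμ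
  set Γ := latR (Bx (0, 0) n)
  set K := Bx (0, 0) k
  set aL := ev Γ K {v | v.1 ≤ -(n : ℤ)}
  set aR := ev Γ K {v | (n : ℤ) ≤ v.1}
  set aB := ev Γ K {v | v.2 ≤ -(n : ℤ)}
  set aT := ev Γ K {v | (n : ℤ) ≤ v.2}
  have hR : μ.real aR = μ.real aL := side_R q hq _ _ n (rfx_Bx n) (rfx_Bx k)
  have hB : μ.real aB = μ.real aL := side_B q hq _ _ n (swp_Bx n) (swp_Bx k)
  have hT : μ.real aT = μ.real aR := side_T q hq _ _ n (swp_Bx n) (swp_Bx k)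
  have hun : ev Γ K (Far (0, 0) n) = (aL ∪ aR) ∪ (aB ∪ aT) := by
    ext ω
    constructor
    · rintro ⟨a, ha, b, hb, hr⟩
      rw [mem_Far] at hb
      simp only [zero_sub, zero_add] at hb
      rcases hb with hb | hb | hb | hb
      · exact Or.inl (Or.inl ⟨a, ha, b, hb, hr⟩)
      · exact Or.inl (Or.inr ⟨a, ha, b, hb, hr⟩)
      · exact Or.inr (Or.inl ⟨a, ha, b, hb, hr⟩)
      · exact Or.inr (Or.inr ⟨a, ha, b, hb, hr⟩)
    · rintro ((⟨a, ha, b, hb, hr⟩ | ⟨a, ha, b, hb, hr⟩) | (⟨a, ha, b, hb, hr⟩ | ⟨a, ha, b, hb, hr⟩))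
      · refine ⟨a, ha, b, ?_, hr⟩
        rw [mem_Far]; simp only [zero_sub, zero_add]; exact Or.inl hb
      · refine ⟨a, ha, b, ?_, hr⟩
        rw [mem_Far]; simp only [zero_sub, zero_add]; exact Or.inr (Or.inl hb)
      · refine ⟨a, ha, b, ?_, hr⟩
        rw [mem_Far]; simp only [zero_sub, zero_add]; exact Or.inr (Or.inr (Or.inl hb))
      · refine ⟨a, ha, b, ?_, hr⟩
        rw [mem_Far]; simp only [zero_sub, zero_add]; exact Or.inr (Or.inr (Or.inr hb))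
  have hJ : ((ins_finite (Bx_finite (0, 0) n)).toFinset : Set (Sym2 (ℤ × ℤ))) =
      ins (Bx (0, 0) n) := by simp
  have dep : ∀ B, DepOn ((ins_finite (Bx_finite (0, 0) n)).toFinset : Set (Sym2 (ℤ × ℤ)))
      (ev Γ K B) := by
    intro B
    rw [hJ]
    exact dep_ins _ _ _
  have u := fun B => upper_ev Γ K B
  have k1 := harris_union q hq ((dep _).union (dep _)) ((dep _).union (dep _))
    ((u {v | v.1 ≤ -(n : ℤ)}).union (u {v | (n : ℤ) ≤ v.1}))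
    ((u {v | v.2 ≤ -(n : ℤ)}).union (u {v | (n : ℤ) ≤ v.2}))
  have k2 := harris_union q hq (dep _) (dep _) (u {v | v.1 ≤ -(n : ℤ)}) (u {v | (n : ℤ) ≤ v.1})
  have k3 := harris_union q hq (dep _) (dep _) (u {v | v.2 ≤ -(n : ℤ)}) (u {v | (n : ℤ) ≤ v.2})
  rw [hun] at h1
  have e1 : (bm (Sym2 (ℤ × ℤ)) q hq).real (ev Γ K {v | (n : ℤ) ≤ v.1}) = μ.real aL := hR
  have e2 : (bm (Sym2 (ℤ × ℤ)) q hq).real (ev Γ K {v | v.2 ≤ -(n : ℤ)}) = μ.real aL := hB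
  have e3 : (bm (Sym2 (ℤ × ℤ)) q hq).real (ev Γ K {v | (n : ℤ) ≤ v.2}) = μ.real aL := hT.trans hR
  have e4 : (bm (Sym2 (ℤ × ℤ)) q hq).real (ev Γ K {v | v.1 ≤ -(n : ℤ)}) = μ.real aL := rfl
  rw [e1, e4] at k2
  rw [e2, e3] at k3
  set l := μ.real aL
  have hl : l ≤ 1 := measureReal_le_one
  have hl0 : 0 ≤ 1 - l := by linarith
  have k4 : (1 - l) ^ 4 ≤ δ ^ 4 := by
    have h5 : ((1 - l) * (1 - l)) * ((1 - l) * (1 - l)) ≤
        (1 - μ.real (aL ∪ aR)) * (1 - μ.real (aB ∪ aT)) :=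
      mul_le_mul k2 k3 (mul_nonneg hl0 hl0)
        (le_trans (mul_nonneg hl0 hl0) k2)
    have h6 : 1 - μ.real (aL ∪ aR ∪ (aB ∪ aT)) ≤ δ ^ 4 := by linarith
    calc (1 - l) ^ 4 = ((1 - l) * (1 - l)) * ((1 - l) * (1 - l)) := by ring
      _ ≤ _ := h5
      _ ≤ _ := k1
      _ ≤ _ := h6
  have := (pow_le_pow_iff_left₀ hl0 hδ.le (by norm_num)).1 k4
  linarith

end sides

end Pool.Agent.H978R2
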