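import Pool.Agent.H978R2.Side

/-!
# The two-arm bound and the uniqueness estimate
-/

set_option autoImplicit false
set_option linter.all false
set_option linter.deprecated false

open MeasureTheory Set

namespace Pool.Agent.H978R2

lemma reach_map {V W : Type*} {Γ : SimpleGraph V} {Γ' : SimpleGraph W} (σ : V ≃ W)
    (h : ∀ x y, Γ'.Adj (σ x) (σ y) ↔ Γ.Adj x y) (ω : Sym2 W → Bool) (x y : V) :
    (openG Γ' ω).Reachable (σ x) (σ y) ↔
      (openG Γ (fun i => ω (Sym2.map σ i))).Reachable x y := by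
  have hadj : ∀ x y, (openG Γ' ω).Adj (σ x) (σ y) ↔
      (openG Γ (fun i => ω (Sym2.map σ i))).Adj x y := by
    intro x y
    constructor
    · rintro ⟨h1, h2⟩; exact ⟨(h x y).1 h1, h2⟩
    · rintro ⟨h1, h2⟩; exact ⟨(h x y).2 h1, h2⟩
  let φ : openG Γ (fun i => ω (Sym2.map σ i)) ≃g openG Γ' ω := ⟨σ, fun {x y} => hadj x y⟩
  exact SimpleGraph.Iso.reachable_iff (φ := φ)

lemma pre_inv (q : NNReal) (hq : q ≤ 1) (σ : (ℤ × ℤ) ≃ (ℤ × ℤ))
    {A : Set (Sym2 (ℤ × ℤ) → Bool)} (hA : MeasurableSet A) :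
    (bm (Sym2 (ℤ × ℤ)) q hq).real {ω | (fun i => ω (Sym2.map σ i)) ∈ A} =
      (bm (Sym2 (ℤ × ℤ)) q hq).real A := by
  unfold Measure.real
  congr 1
  have hj : Function.Injective (Sym2.map σ) := Sym2.map.injective σ.injective
  have hlaw := map_comp_inj q hq (Sym2.map σ) hj
  have hm : Measurable (fun (ω : Sym2 (ℤ × ℤ) → Bool) (i : Sym2 (ℤ × ℤ)) => ω (Sym2.map σ i)) := by
    rw [measurable_pi_iff]; intro i; exact measurable_pi_apply _
  conv_rhs => rw [← hlaw]
  rw [Measure.map_apply hm hA]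
  rfl

/-- the two-arm event -/
def TWO (x d : ℤ × ℤ) (r : ℕ) : Set (Sym2 (ℤ × ℤ) → Bool) :=
  {ω | Rch (latR (Bx x r)) ω {x} (Far x r) ∧ Rch (latR (Bx x r)) ω {x + d} (Far x r) ∧
    ¬ (openG (latR (Bx x r)) ω).Reachable x (x + d)}

lemma meas_TWO (x d : ℤ × ℤ) (r : ℕ) : MeasurableSet (TWO x d r) :=
  (meas_ev _ _ _).inter ((meas_ev _ _ _).inter (meas_reach _ _ _).compl)

lemma TWO_eq (q : NNReal) (hq : q ≤ 1) (x d : ℤ × ℤ) (r : ℕ) :
    (bm (Sym2 (ℤ × ℤ)) q hq).real (TWO x d r) =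
      (bm (Sym2 (ℤ × ℤ)) q hq).real (TWO (0, 0) d r) := by
  rw [← pre_inv q hq (trs x) (meas_TWO (0, 0) d r)]
  congr 1
  ext ω
  have hadj : ∀ u v, (latR (Bx x r)).Adj (trs x u) (trs x v) ↔ (latR (Bx (0, 0) r)).Adj u v := by
    intro u v
    have hm : ∀ w, trs x w ∈ Bx x r ↔ w ∈ Bx (0, 0) r := by
      intro w
      rw [mem_Bx, mem_Bx]
      simp only [trs, Equiv.coe_addRight, Prod.fst_add, Prod.snd_add]
      omega
    constructor
    · rintro ⟨h1, h2, h3⟩; exact ⟨(trs_adj x u v).1 h1, (hm u).1 h2, (hm v).1 h3⟩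
    · rintro ⟨h1, h2, h3⟩; exact ⟨(trs_adj x u v).2 h1, (hm u).2 h2, (hm v).2 h3⟩
  have hr := reach_map (trs x) hadj ω
  have e0 : trs x (0, 0) = x := by ext <;> simp [trs]
  have e1 : trs x ((0, 0) + d) = x + d := by
    ext <;> simp [trs] <;> ring
  have hF : ∀ w, trs x w ∈ Far x r ↔ w ∈ Far (0, 0) r := by
    intro w
    rw [mem_Far, mem_Far]
    simp only [trs, Equiv.coe_addRight, Prod.fst_add, Prod.snd_add]
    omega
  have hRch : ∀ a, Rch (latR (Bx x r)) ω {trs x a} (Far x r) ↔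
      Rch (latR (Bx (0, 0) r)) (fun i => ω (Sym2.map (trs x) i)) {a} (Far (0, 0) r) := by
    intro a
    constructor
    · rintro ⟨_, rfl, b, hb, hab⟩
      obtain ⟨b', rfl⟩ := (trs x).surjective b
      exact ⟨a, rfl, b', (hF b').1 hb, (hr a b').1 hab⟩
    · rintro ⟨_, rfl, b, hb, hab⟩
      exact ⟨_, rfl, trs x b, (hF b).2 hb, (hr _ b).2 hab⟩
  show (_ ∧ _ ∧ _) ↔ (_ ∧ _ ∧ _)
  rw [← hRch, ← hRch, ← hr, e0, e1]

lemma TWO_anti (x d : ℤ × ℤ) {r r' : ℕ} (hr : r ≤ r') (hr0 : 1 ≤ r)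
    (hd : (-1 ≤ d.1 ∧ d.1 ≤ 1) ∧ (-1 ≤ d.2 ∧ d.2 ≤ 1)) : TWO x d r' ⊆ TWO x d r := by
  rintro ω ⟨⟨a, rfl, b, hb, h1⟩, ⟨a', rfl, b', hb', h2⟩, h3⟩
  have hsub : Bx a r ⊆ Bx a r' := by
    intro v hv; rw [mem_Bx] at hv ⊢; omega
  refine ⟨?_, ?_, fun h => h3 (h.mono (openG_mono (latR_mono hsub) ω))⟩
  · obtain ⟨c, hc, hrc⟩ := exit_latR (S := Bx a r) (T := Far a r) h1 (self_mem_Bx a r)
      (Far_anti a hr hb) (fun c d hc hd hcd => Bx_exit hc hd hcd)
    exact ⟨a, rfl, c, hc.2, hrc.mono (openG_mono (latR_mono inter_subset_right) ω)⟩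
  · obtain ⟨c, hc, hrc⟩ := exit_latR (S := Bx a r) (T := Far a r) h2 (by
        rw [mem_Bx]; simp only [Prod.fst_add, Prod.snd_add]; omega)
      (Far_anti a hr hb') (fun c d hc hd hcd => Bx_exit hc hd hcd)
    exact ⟨_, rfl, c, hc.2, hrc.mono (openG_mono (latR_mono inter_subset_right) ω)⟩

/-- The finset of the points of a box. -/
noncomputable def bxF (m : ℕ) : Finset (ℤ × ℤ) :=
  Finset.Icc (-(m : ℤ)) m ×ˢ Finset.Icc (-(m : ℤ)) m

lemma mem_bxF {m : ℕ} {v : ℤ × ℤ} : v ∈ bxF m ↔ v ∈ Bx (0, 0) m := by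
  unfold bxF
  rw [Finset.mem_product, Finset.mem_Icc, Finset.mem_Icc, mem_Bx]
  simp

lemma card_bxF (m : ℕ) : (bxF m).card = (2 * m + 1) ^ 2 := by
  unfold bxF
  rw [Finset.card_product, Int.card_Icc]
  have : ((m : ℤ) + 1 - -(m : ℤ)).toNat = 2 * m + 1 := by omega
  rw [this]; ring

/-- Two-arm bound. -/
lemma TWO_bound (q : NNReal) (hq : q ≤ 1) (d : ℤ × ℤ) (hd : d = (1, 0) ∨ d = (0, 1))
    (m : ℕ) (hm : 1 ≤ m) (lam : ℝ) (hl0 : 0 < lam) (hl1 : lam ≤ 1) :
    q * ((m : ℝ) ^ 2 * (bm (Sym2 (ℤ × ℤ)) q hq).real (TWO (0, 0) d (2 * m))) ≤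
      12 * m / lam + 36 * lam * m ^ 2 := by
  classical
  set Γ := latR (Bx (0, 0) m) with hΓ
  set μ := bm (Sym2 (ℤ × ℤ)) q hq with hμ
  have hEfin : Γ.edgeSet.Finite := (ins_finite (Bx_finite (0, 0) m)).subset (latR_edge _)
  set E := hEfin.toFinset with hE
  have hEmem : ∀ e, e ∈ E ↔ e ∈ Γ.edgeSet := fun e => by rw [hE, Set.Finite.mem_toFinset]
  set B : Finset (ℤ × ℤ) := (bxF m).filter (fun v => v ∈ Far (0, 0) m) with hB
  have hBcard : (B.card : ℝ) ≤ 12 * m := by
    have hsub : B ⊆ (({-(m : ℤ), (m : ℤ)} : Finset ℤ) ×ˢ Finset.Icc (-(m : ℤ)) m) ∪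
        (Finset.Icc (-(m : ℤ)) m ×ˢ ({-(m : ℤ), (m : ℤ)} : Finset ℤ)) := by
      intro v hv
      rw [hB, Finset.mem_filter, mem_bxF, mem_Bx, mem_Far] at hv
      simp only [Finset.mem_union, Finset.mem_product, Finset.mem_insert, Finset.mem_singleton,
        Finset.mem_Icc]
      obtain ⟨⟨h1, h2⟩, h3⟩ := hv
      simp only [zero_sub, zero_add] at h1 h2 h3
      omega
    have h1 := (Finset.card_le_card hsub).trans (Finset.card_union_le _ _)
    rw [Finset.card_product, Finset.card_product, Int.card_Icc] at h1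
    have h2 : ((m : ℤ) + 1 - -(m : ℤ)).toNat = 2 * m + 1 := by omega
    have h3 : ({-(m : ℤ), (m : ℤ)} : Finset ℤ).card ≤ 2 := Finset.card_le_two
    rw [h2] at h1
    have h4 : B.card ≤ 12 * m := by nlinarith
    exact_mod_cast h4
  have hEcard : (E.card : ℝ) ≤ 18 * m ^ 2 := by
    have hsub : E ⊆ ((bxF m).image fun v => s(v, v + (1, 0))) ∪
        ((bxF m).image fun v => s(v, v + (0, 1))) := by
      intro e he
      rw [hEmem] at he
      induction e using Sym2.ind with
      | _ x y =>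
        obtain ⟨h1, h2, h3⟩ : lat.Adj x y ∧ x ∈ Bx (0, 0) m ∧ y ∈ Bx (0, 0) m := he
        rw [← mem_bxF] at h2 h3
        rw [lat_adj] at h1
        rw [Finset.mem_union, Finset.mem_image, Finset.mem_image]
        rcases h1 with ⟨e1, e2 | e2⟩ | ⟨e1, e2 | e2⟩
        · right; refine ⟨y, h3, ?_⟩
          have : y + (0, 1) = x := by ext <;> simp [e1, e2]
          rw [this, Sym2.eq_swap]
        · right; refine ⟨x, h2, ?_⟩
          have : x + (0, 1) = y := by ext <;> simp [e1, e2]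
          rw [this]
        · left; refine ⟨y, h3, ?_⟩
          have : y + (1, 0) = x := by ext <;> simp [e1, e2]
          rw [this, Sym2.eq_swap]
        · left; refine ⟨x, h2, ?_⟩
          have : x + (1, 0) = y := by ext <;> simp [e1, e2]
          rw [this]
    have h1 := (Finset.card_le_card hsub).trans (Finset.card_union_le _ _)
    have h2 : ((bxF m).image fun v => s(v, v + ((1, 0) : ℤ × ℤ))).card ≤ (2 * m + 1) ^ 2 :=
      Finset.card_image_le.trans (card_bxF m).le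
    have h3 : ((bxF m).image fun v => s(v, v + ((0, 1) : ℤ × ℤ))).card ≤ (2 * m + 1) ^ 2 :=
      Finset.card_image_le.trans (card_bxF m).le
    have h4 : E.card ≤ 18 * m ^ 2 := by nlinarith
    exact_mod_cast h4
  have hakn := akn (E := E) (Γ := Γ) hEmem q lam q.2 (by exact_mod_cast hq) hl0 hl1 B
  -- lower bound for the sum
  have hq0 : (0 : ℝ) ≤ q := q.2
  have hlow : (m : ℝ) ^ 2 * μ.real (TWO (0, 0) d (2 * m)) ≤
      ∑ e ∈ E, EE E q (I1 (TA Γ (B : Set (ℤ × ℤ)) e)) := by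
    have hinj : Set.InjOn (fun v : ℤ × ℤ => s(v, v + d)) ((bxF (m - 1) : Finset (ℤ × ℤ)) : Set _) := by
      intro u _ v _ huv
      simp only at huv
      rw [Sym2.eq_iff] at huv
      rcases huv with h | ⟨h1, h2⟩
      · exact h.1
      · exfalso
        have : u = u + d + d := by rw [h2]; exact h1
        have h5 := congrArg Prod.fst this
        have h6 := congrArg Prod.snd this
        rcases hd with rfl | rfl
        · simp at h5
          omega
        · simp at h6
          omega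
    have himg : (bxF (m - 1)).image (fun v : ℤ × ℤ => s(v, v + d)) ⊆ E := by
      intro e he
      rw [Finset.mem_image] at he
      obtain ⟨v, hv, rfl⟩ := he
      rw [hEmem]
      rw [mem_bxF, mem_Bx] at hv
      simp only [zero_sub, zero_add] at hv
      have hm' : ((m - 1 : ℕ) : ℤ) = m - 1 := by omega
      rw [hm'] at hv
      refine ⟨?_, ?_, ?_⟩
      · rw [lat_adj]
        rcases hd with rfl | rfl
        · right; simp
        · left; simp
      · rw [mem_Bx]; simp only [zero_sub, zero_add]; omega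
      · rw [mem_Bx]
        simp only [zero_sub, zero_add]
        rcases hd with rfl | rfl
        · simp; omega
        · simp; omega
    have hdep : ∀ e, DepOn (E : Set (Sym2 (ℤ × ℤ))) (TA Γ (B : Set (ℤ × ℤ)) e) := by
      intro e ω ω' hω
      have : openG Γ ω = openG Γ ω' := openG_congr fun e he => hω e ((hEmem e).2 he)
      unfold TA cl
      simp only [mem_setOf_eq]
      rw [this]
    have hnn : ∀ e, 0 ≤ EE E q (I1 (TA Γ (B : Set (ℤ × ℤ)) e)) := by
      intro e
      rw [← bm_real_eq_EE q hq (hdep e)]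
      exact measureReal_nonneg
    calc (m : ℝ) ^ 2 * μ.real (TWO (0, 0) d (2 * m)) ≤
          ((bxF (m - 1)).card : ℝ) * μ.real (TWO (0, 0) d (2 * m)) := by
          refine mul_le_mul_of_nonneg_right ?_ measureReal_nonneg
          rw [card_bxF]
          have : m ^ 2 ≤ (2 * (m - 1) + 1) ^ 2 := Nat.pow_le_pow_left (by omega) 2
          exact_mod_cast this
      _ = ∑ v ∈ bxF (m - 1), μ.real (TWO v d (2 * m)) := by
          rw [Finset.sum_congr rfl fun v _ => TWO_eq q hq v d (2 * m)]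
          rw [Finset.sum_const, nsmul_eq_mul]
      _ ≤ ∑ v ∈ bxF (m - 1), EE E q (I1 (TA Γ (B : Set (ℤ × ℤ)) s(v, v + d))) := by
          refine Finset.sum_le_sum fun v hv => ?_
          rw [← bm_real_eq_EE q hq (hdep _)]
          refine measureReal_mono ?_ (measure_ne_top _ _)
          rintro ω ⟨⟨a, rfl, b, hb, h1⟩, ⟨a', rfl, b', hb', h2⟩, h3⟩
          rw [mem_bxF, mem_Bx] at hv
          simp only [zero_sub, zero_add] at hv
          have hm' : ((m - 1 : ℕ) : ℤ) = m - 1 := by omega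
          rw [hm'] at hv
          have hFar : ∀ w, w ∈ Far a (2 * m) → w ∈ Far (0, 0) m := by
            intro w hw
            rw [mem_Far] at hw ⊢
            push_cast at hw
            simp only [zero_sub, zero_add]
            omega
          have hBx : Bx (0, 0) m ⊆ Bx a (2 * m) := by
            intro w hw
            rw [mem_Bx] at hw ⊢
            push_cast
            simp only [zero_sub, zero_add] at hw
            omega
          have hbd : ∀ w ∈ Bx (0, 0) m, (∃ b ∈ Far a (2 * m),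
              (openG (latR (Bx a (2 * m))) ω).Reachable w b) → w ∈ cl Γ ω (B : Set (ℤ × ℤ)) := by
            rintro w hw ⟨b, hb, hr⟩
            obtain ⟨c, hc, hrc⟩ := exit_latR (S := Bx (0, 0) m) (T := Far (0, 0) m) hr hw
              (hFar b hb) (fun c d hc hd hcd => Bx_exit hc hd hcd)
            refine ⟨c, ?_, ?_⟩
            · rw [Finset.mem_coe, hB, Finset.mem_filter, mem_bxF]
              exact ⟨hc.1, hc.2⟩
            · exact (hrc.mono (openG_mono (latR_mono inter_subset_right) ω)).symm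
          refine ⟨a, a + d, rfl, ?_, ?_, ?_⟩
          · refine hbd a ?_ ⟨b, hb, h1⟩
            rw [mem_Bx]; simp only [zero_sub, zero_add]; omega
          · refine hbd (a + d) ?_ ⟨b', hb', h2⟩
            rw [mem_Bx]
            simp only [zero_sub, zero_add]
            rcases hd with rfl | rfl
            · simp; omega
            · simp; omega
          · intro h
            exact h3 (h.mono (openG_mono (latR_mono hBx) ω))
      _ = ∑ e ∈ (bxF (m - 1)).image (fun v : ℤ × ℤ => s(v, v + d)),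
            EE E q (I1 (TA Γ (B : Set (ℤ × ℤ)) e)) := by
          rw [Finset.sum_image hinj]
      _ ≤ ∑ e ∈ E, EE E q (I1 (TA Γ (B : Set (ℤ × ℤ)) e)) :=
          Finset.sum_le_sum_of_subset_of_nonneg himg fun e _ _ => hnn e
  have h1 := mul_le_mul_of_nonneg_left hlow hq0
  have h2 : (B.card : ℝ) / lam ≤ 12 * m / lam := div_le_div_of_nonneg_right hBcard hl0.le
  have h3 : 2 * lam * E.card ≤ 2 * lam * (18 * m ^ 2) :=
    mul_le_mul_of_nonneg_left hEcard (by positivity)
  linarith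

end Pool.Agent.H978R2
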