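import Pool.Agent.H978R2.RowGlue

/-!
# Two-stage gluing: first rows of boxes, then the rows
-/

set_option autoImplicit false
set_option linter.all false
set_option linter.deprecated false

open Set

namespace Pool.Agent.H978R2

/-- Row gluing, real version. -/
theorem row_glue {ω : Sym2 (ℤ × ℤ) → Bool} {x0 y0 : ℤ} {n b w h m s : ℕ} (hn : 1 ≤ n)
    (hb : 1 ≤ b) (hw : 1 ≤ w) (hh : 1 ≤ h) (hm : 1 ≤ m) (hs : 2 ≤ s)
    (hgood : ω ∈ goodRow x0 y0 n b w h m) :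
    (1 - 1 / ((s : ℝ) - 1)) * ∑ i ∈ Finset.range m,
      ((Clen (Rc (x0 + (i * n : ℕ)) (x0 + (i * n : ℕ) + n - 1) y0 (y0 + b - 1)) ω : ℝ) -
        (m * s + 2) * h * b) ≤
      Clen (Rc (x0 - w) (x0 + m * n + w - 1) (y0 - w) (y0 + b + w - 1)) ω := by
  classical
  set L : ℕ → ℕ := fun i =>
    Clen (Rc (x0 + (i * n : ℕ)) (x0 + (i * n : ℕ) + n - 1) y0 (y0 + b - 1)) ω with hL
  set thr : ℕ := (m * s + 2) * h * b with hthr
  have hs1 : (1 : ℝ) ≤ (s : ℝ) - 1 := by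
    have : (2 : ℝ) ≤ s := by exact_mod_cast hs
    linarith
  set F := (Finset.range m).filter (fun i => thr ≤ L i) with hF
  have h1 := row_glue_nat hn hb hw hh hm hs hgood F (Finset.filter_subset _ _) (by
    intro i hi
    rw [hF, Finset.mem_filter] at hi
    exact hi.2)
  have h2 : ∑ i ∈ F, ((1 - 1 / ((s : ℝ) - 1)) * (L i : ℝ)) ≤
      ((∑ i ∈ F, (L i - L i / (s - 1)) : ℕ) : ℝ) := by
    rw [Nat.cast_sum]
    refine Finset.sum_le_sum fun i _ => ?_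
    rw [Nat.cast_sub (Nat.div_le_self _ _)]
    have h3 : ((L i / (s - 1) : ℕ) : ℝ) ≤ (L i : ℝ) / ((s - 1 : ℕ) : ℝ) := Nat.cast_div_le
    have h4 : ((s - 1 : ℕ) : ℝ) = (s : ℝ) - 1 := by
      rw [Nat.cast_sub (by omega)]; simp
    rw [h4] at h3
    have h5 : (1 - 1 / ((s : ℝ) - 1)) * (L i : ℝ) = (L i : ℝ) - (L i : ℝ) / ((s : ℝ) - 1) := by
      ring
    rw [h5]
    linarith
  have hδ : 0 ≤ 1 - 1 / ((s : ℝ) - 1) := by
    have : 1 / ((s : ℝ) - 1) ≤ 1 := by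
      rw [div_le_one (by linarith)]; exact hs1
    linarith
  have h3 : ∑ i ∈ Finset.range m, ((L i : ℝ) - (m * s + 2) * h * b) ≤ ∑ i ∈ F, (L i : ℝ) := by
    rw [hF, Finset.sum_filter]
    refine Finset.sum_le_sum fun i _ => ?_
    have hthr' : (thr : ℝ) = (m * s + 2) * h * b := by rw [hthr]; push_cast; ring
    split_ifs with hc
    · have : (0 : ℝ) ≤ thr := by positivity
      linarith
    · have : (L i : ℝ) ≤ thr := by
        have : L i ≤ thr := by omega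
        exact_mod_cast this
      linarith
  calc (1 - 1 / ((s : ℝ) - 1)) * ∑ i ∈ Finset.range m, ((L i : ℝ) - (m * s + 2) * h * b)
      ≤ (1 - 1 / ((s : ℝ) - 1)) * ∑ i ∈ F, (L i : ℝ) := mul_le_mul_of_nonneg_left h3 hδ
    _ = ∑ i ∈ F, ((1 - 1 / ((s : ℝ) - 1)) * (L i : ℝ)) := by rw [Finset.mul_sum]
    _ ≤ ((∑ i ∈ F, (L i - L i / (s - 1)) : ℕ) : ℝ) := h2
    _ ≤ _ := by exact_mod_cast h1

/-- relabelled configuration -/
def rel (σ : (ℤ × ℤ) ≃ (ℤ × ℤ)) (ω : Sym2 (ℤ × ℤ) → Bool) : Sym2 (ℤ × ℤ) → Bool :=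
  fun e => ω (Sym2.map σ e)

lemma isCyc_rel (σ : (ℤ × ℤ) ≃ (ℤ × ℤ)) (hσ : ∀ x y, lat.Adj (σ x) (σ y) ↔ lat.Adj x y)
    (R : Set (ℤ × ℤ)) (ω : Sym2 (ℤ × ℤ) → Bool) (l : List (ℤ × ℤ)) :
    IsCyc R (rel σ ω) l ↔ IsCyc (σ '' R) ω (l.map σ) := by
  unfold IsCyc
  rw [List.length_map, List.nodup_map_iff σ.injective, ← List.map_append, List.isChain_map]
  refine and_congr Iff.rfl (and_congr Iff.rfl ?_)
  have key : ∀ a b, (openG (latR R) (rel σ ω)).Adj a b ↔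
      (openG (latR (σ '' R)) ω).Adj (σ a) (σ b) := by
    intro a b
    constructor
    · rintro ⟨⟨h1, h2, h3⟩, h4⟩
      exact ⟨⟨(hσ a b).2 h1, ⟨a, h2, rfl⟩, ⟨b, h3, rfl⟩⟩, h4⟩
    · rintro ⟨⟨h1, h2, h3⟩, h4⟩
      exact ⟨⟨(hσ a b).1 h1, by simpa using h2, by simpa using h3⟩, h4⟩
  constructor
  · intro h; exact h.imp fun a b hab => (key a b).1 hab
  · intro h; exact h.imp fun a b hab => (key a b).2 hab

lemma Clen_rel (σ : (ℤ × ℤ) ≃ (ℤ × ℤ)) (hσ : ∀ x y, lat.Adj (σ x) (σ y) ↔ lat.Adj x y)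
    (R : Set (ℤ × ℤ)) (ω : Sym2 (ℤ × ℤ) → Bool) :
    Clen R (rel σ ω) = Clen (σ '' R) ω := by
  unfold Clen
  congr 1
  ext k
  constructor
  · rintro ⟨l, hl, rfl⟩
    exact ⟨l.map σ, (isCyc_rel σ hσ R ω l).1 hl, List.length_map _⟩
  · rintro ⟨l, hl, rfl⟩
    refine ⟨l.map σ.symm, (isCyc_rel σ hσ R ω _).2 ?_, List.length_map _⟩
    rw [List.map_map]
    simpa using hl

/-- the good event for the two-stage gluing -/
def goodTwo (n h m : ℕ) : Set (Sym2 (ℤ × ℤ) → Bool) :=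
  {ω | (∀ r < m, ω ∈ goodRow (2 * h + 1) (h + 1 + (r * (n + 2 * h) : ℕ) + h) n n h h m) ∧
    rel swp ω ∈ goodRow (h + 1) (h + 1) (n + 2 * h) (m * n + 2 * h) h h m}

/-- the small boxes -/
def sbox (n h : ℕ) (r i : ℕ) : Set (ℤ × ℤ) :=
  Rc (2 * h + 1 + (i * n : ℕ)) (2 * h + 1 + (i * n : ℕ) + n - 1)
    (h + 1 + (r * (n + 2 * h) : ℕ) + h) (h + 1 + (r * (n + 2 * h) : ℕ) + h + n - 1)

/-- Two-stage gluing. -/
theorem two_stage {ω : Sym2 (ℤ × ℤ) → Bool} {n h m s N : ℕ} (hn : 1 ≤ n)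
    (hh : 1 ≤ h) (hm : 1 ≤ m) (hs : 2 ≤ s) (hN : m * (n + 6 * h) ≤ N)
    (hgood : ω ∈ goodTwo n h m) :
    (1 - 1 / ((s : ℝ) - 1)) ^ 2 * ∑ r ∈ Finset.range m, ∑ i ∈ Finset.range m,
        (Clen (sbox n h r i) ω : ℝ) -
      (m ^ 2 * ((m * s + 2) * h * n) + m * ((m * s + 2) * h * (m * n + 2 * h))) ≤
      Clen (Rc 1 N 1 N) ω := by
  classical
  obtain ⟨hg1, hg2⟩ := hgood
  set δ : ℝ := 1 / ((s : ℝ) - 1) with hδ
  have hs1 : (1 : ℝ) ≤ (s : ℝ) - 1 := by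
    have : (2 : ℝ) ≤ s := by exact_mod_cast hs
    linarith
  have hδ1 : 0 ≤ 1 - δ := by
    have : δ ≤ 1 := by
      rw [hδ, div_le_one (by linarith)]; exact hs1
    linarith
  have hδ2 : 1 - δ ≤ 1 := by
    have : 0 ≤ δ := by rw [hδ]; positivity
    linarith
  -- stage one
  set RR : ℕ → Set (ℤ × ℤ) := fun r => Rc (h + 1) (h + 1 + (m * n + 2 * h : ℕ) - 1)
    (h + 1 + (r * (n + 2 * h) : ℕ)) (h + 1 + (r * (n + 2 * h) : ℕ) + (n + 2 * h : ℕ) - 1) with hRR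
  have h1 : ∀ r ∈ Finset.range m, (1 - δ) * ∑ i ∈ Finset.range m,
      ((Clen (sbox n h r i) ω : ℝ) - (m * s + 2) * h * n) ≤ Clen (RR r) ω := by
    intro r hr
    have h2 := row_glue hn hn hh hh hm hs (hg1 r (Finset.mem_range.1 hr))
    have e : Rc ((2 * h + 1 : ℤ) - h) (2 * h + 1 + m * n + h - 1)
        (h + 1 + (r * (n + 2 * h) : ℕ) + h - h) (h + 1 + (r * (n + 2 * h) : ℕ) + h + n + h - 1) =
        RR r := by
      simp only [hRR]
      congr 1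
      · ring
      · push_cast; ring
      · push_cast; ring
      · push_cast; ring
    rw [e] at h2
    exact h2
  -- stage two
  have hn2 : 1 ≤ n + 2 * h := by omega
  have hb2 : 1 ≤ m * n + 2 * h := by omega
  have h3 := row_glue hn2 hb2 hh hh hm hs hg2
  have e3 : ∀ r : ℕ, Clen (Rc ((h : ℤ) + 1 + (r * (n + 2 * h) : ℕ))
      (h + 1 + (r * (n + 2 * h) : ℕ) + (n + 2 * h : ℕ) - 1) (h + 1)
      (h + 1 + (m * n + 2 * h : ℕ) - 1)) (rel swp ω) = Clen (RR r) ω := by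
    intro r
    rw [Clen_rel swp swp_adj, swp_image]
  have e4 : Clen (Rc ((h : ℤ) + 1 - h) (h + 1 + m * (n + 2 * h : ℕ) + h - 1) (h + 1 - h)
      (h + 1 + (m * n + 2 * h : ℕ) + h - 1)) (rel swp ω) ≤ Clen (Rc 1 N 1 N) ω := by
    rw [Clen_rel swp swp_adj, swp_image]
    refine Clen_mono ?_ (Rc_finite _ _ _ _) ω
    have hmh : h ≤ m * h := Nat.le_mul_of_pos_left h hm
    have e5 : m * (n + 6 * h) = m * n + 6 * (m * h) := by ring
    have e6 : m * (n + 2 * h) = m * n + 2 * (m * h) := by ring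
    rw [e5] at hN
    have hNz : ((m * n + 6 * (m * h) : ℕ) : ℤ) ≤ N := by exact_mod_cast hN
    have hmhz : (h : ℤ) ≤ ((m * h : ℕ) : ℤ) := by exact_mod_cast hmh
    have e7 : (m : ℤ) * ((n + 2 * h : ℕ) : ℤ) = ((m * n : ℕ) : ℤ) + 2 * ((m * h : ℕ) : ℤ) := by
      push_cast; ring
    refine Rc_mono (by omega) ?_ (by omega) ?_
    · push_cast at hNz hmhz ⊢
      linarith
    · rw [e7]
      push_cast at hNz hmhz ⊢
      linarith
  have e4' : (Clen (Rc ((h : ℤ) + 1 - h) (h + 1 + m * (n + 2 * h : ℕ) + h - 1) (h + 1 - h)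
      (h + 1 + (m * n + 2 * h : ℕ) + h - 1)) (rel swp ω) : ℝ) ≤ Clen (Rc 1 N 1 N) ω := by
    exact_mod_cast e4
  refine le_trans ?_ (h3.trans e4')
  simp only [e3]
  -- algebra
  set T1 : ℝ := (m * s + 2) * h * n with hT1
  set T2 : ℝ := (m * s + 2) * h * ((m * n + 2 * h : ℕ) : ℝ) with hT2
  have hT1p : 0 ≤ T1 := by positivity
  have hT2p : 0 ≤ T2 := by positivity
  have hT2' : T2 = (m * s + 2) * h * (m * n + 2 * h) := by rw [hT2]; push_cast; ring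
  rw [← hT2']
  have h5 : ∑ r ∈ Finset.range m, ((Clen (RR r) ω : ℝ) - T2) =
      ∑ r ∈ Finset.range m, (Clen (RR r) ω : ℝ) - m * T2 := by
    rw [Finset.sum_sub_distrib, Finset.sum_const, Finset.card_range, nsmul_eq_mul]
  rw [h5]
  have h6 : ∑ r ∈ Finset.range m, ((1 - δ) * ∑ i ∈ Finset.range m,
      ((Clen (sbox n h r i) ω : ℝ) - T1)) ≤ ∑ r ∈ Finset.range m, (Clen (RR r) ω : ℝ) :=
    Finset.sum_le_sum h1
  have h7 : ∑ r ∈ Finset.range m, ((1 - δ) * ∑ i ∈ Finset.range m,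
      ((Clen (sbox n h r i) ω : ℝ) - T1)) =
      (1 - δ) * (∑ r ∈ Finset.range m, ∑ i ∈ Finset.range m, (Clen (sbox n h r i) ω : ℝ) -
        m ^ 2 * T1) := by
    rw [← Finset.mul_sum]
    congr 1
    have : ∀ r ∈ Finset.range m, ∑ i ∈ Finset.range m, ((Clen (sbox n h r i) ω : ℝ) - T1) =
        ∑ i ∈ Finset.range m, (Clen (sbox n h r i) ω : ℝ) - m * T1 := by
      intro r _
      rw [Finset.sum_sub_distrib, Finset.sum_const, Finset.card_range, nsmul_eq_mul]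
    rw [Finset.sum_congr rfl this, Finset.sum_sub_distrib, Finset.sum_const, Finset.card_range,
      nsmul_eq_mul]
    ring
  rw [h7] at h6
  set S := ∑ r ∈ Finset.range m, ∑ i ∈ Finset.range m, (Clen (sbox n h r i) ω : ℝ) with hS
  have h8 := mul_le_mul_of_nonneg_left h6 hδ1
  have h9 : (1 - δ) * (m * T2) ≤ 1 * (m * T2) := mul_le_mul_of_nonneg_right hδ2 (by positivity)
  have h10 : (1 - δ) * (1 - δ) * (m ^ 2 * T1) ≤ 1 * (m ^ 2 * T1) := by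
    refine mul_le_mul_of_nonneg_right ?_ (by positivity)
    nlinarith
  nlinarith

end Pool.Agent.H978R2
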