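import Pool.Agent.H978R2.Two

/-!
# Uniqueness by opening edges, crossing probabilities
-/

set_option autoImplicit false
set_option linter.all false
set_option linter.deprecated false

open MeasureTheory Set

namespace Pool.Agent.H978R2

variable {V : Type*}

lemma le_upd_true {ι : Type*} (e : ι) (ω : ι → Bool) : ω ≤ upd e true ω := by
  intro i
  by_cases hi : i = e
  · subst hi; rw [upd_self]; exact le_top
  · rw [upd_ne hi]

/-- connections after opening one edge -/
lemma reach_upd {Γ : SimpleGraph V} {ω : Sym2 V → Bool} {x y u v : V}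
    (h : (openG Γ (upd s(x, y) true ω)).Reachable u v) :
    (openG Γ ω).Reachable u v ∨ ((openG Γ ω).Reachable u x ∧ (openG Γ ω).Reachable y v) ∨
      ((openG Γ ω).Reachable u y ∧ (openG Γ ω).Reachable x v) := by
  rw [SimpleGraph.reachable_iff_reflTransGen] at h
  induction h with
  | refl => exact Or.inl (SimpleGraph.Reachable.refl _)
  | @tail c d _ hcd ih =>
    by_cases hE : s(c, d) = s(x, y)
    · rw [Sym2.eq_iff] at hE
      rcases hE with ⟨rfl, rfl⟩ | ⟨rfl, rfl⟩
      · rcases ih with ih | ⟨i1, i2⟩ | ⟨i1, i2⟩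
        · exact Or.inr (Or.inl ⟨ih, SimpleGraph.Reachable.refl _⟩)
        · exact Or.inr (Or.inl ⟨i1, SimpleGraph.Reachable.refl _⟩)
        · exact Or.inl i1
      · rcases ih with ih | ⟨i1, i2⟩ | ⟨i1, i2⟩
        · exact Or.inr (Or.inr ⟨ih, SimpleGraph.Reachable.refl _⟩)
        · exact Or.inl i1
        · exact Or.inr (Or.inr ⟨i1, SimpleGraph.Reachable.refl _⟩)
    · have hadj : (openG Γ ω).Adj c d := by
        refine ⟨hcd.1, ?_⟩
        have := hcd.2
        rwa [upd_ne hE] at this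
      rcases ih with ih | ⟨i1, i2⟩ | ⟨i1, i2⟩
      · exact Or.inl (ih.trans hadj.reachable)
      · exact Or.inr (Or.inl ⟨i1, i2.trans hadj.reachable⟩)
      · exact Or.inr (Or.inr ⟨i1, i2.trans hadj.reachable⟩)

/-- two different clusters of `F` touch `K` -/
def Bad (Γ : SimpleGraph V) (F K : Set V) : Set (Sym2 V → Bool) :=
  {ω | ∃ u ∈ K, ∃ v ∈ K, Rch Γ ω {u} F ∧ Rch Γ ω {v} F ∧ ¬ (openG Γ ω).Reachable u v}

/-- the ends of an edge are in different clusters touching `F` -/
def TAF (Γ : SimpleGraph V) (F : Set V) (e : Sym2 V) : Set (Sym2 V → Bool) :=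
  {ω | ∃ x y, e = s(x, y) ∧ Rch Γ ω {x} F ∧ Rch Γ ω {y} F ∧ ¬ (openG Γ ω).Reachable x y}

lemma bad_step {Γ : SimpleGraph V} {F K : Set V} {ω : Sym2 V → Bool} (h : ω ∈ Bad Γ F K)
    (e : Sym2 V) : upd e true ω ∈ Bad Γ F K ∨ ω ∈ TAF Γ F e := by
  induction e using Sym2.ind with
  | _ x y =>
    obtain ⟨u, hu, v, hv, ⟨u', rfl, a, ha, hua⟩, ⟨v', rfl, b, hb, hvb⟩, h3⟩ := h
    have hle := openG_le_of (Γ := Γ) (le_upd_true s(x, y) ω)
    by_cases h4 : (openG Γ (upd s(x, y) true ω)).Reachable u' v'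
    · right
      rcases reach_upd h4 with h5 | ⟨h5, h6⟩ | ⟨h5, h6⟩
      · exact absurd h5 h3
      · refine ⟨x, y, rfl, ⟨x, rfl, a, ha, h5.symm.trans hua⟩, ⟨y, rfl, b, hb, h6.trans hvb⟩, ?_⟩
        intro h7; exact h3 ((h5.trans h7).trans h6)
      · refine ⟨x, y, rfl, ⟨x, rfl, b, hb, h6.trans hvb⟩, ⟨y, rfl, a, ha, h5.symm.trans hua⟩, ?_⟩
        intro h7; exact h3 ((h5.trans h7.symm).trans h6)
    · left
      exact ⟨u', hu, v', hv, ⟨u', rfl, a, ha, hua.mono hle⟩, ⟨v', rfl, b, hb, hvb.mono hle⟩, h4⟩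

/-- open all edges of a list -/
noncomputable def opn {ι : Type*} : List ι → (ι → Bool) → (ι → Bool)
  | [], ω => ω
  | e :: es, ω => opn es (upd e true ω)

lemma le_opn {ι : Type*} (es : List ι) (ω : ι → Bool) : ω ≤ opn es ω := by
  induction es generalizing ω with
  | nil => exact le_refl ω
  | cons e es ih => exact (le_upd_true e ω).trans (ih _)

lemma opn_mem {ι : Type*} (es : List ι) (ω : ι → Bool) {e : ι} (he : e ∈ es) :
    opn es ω e = true := by
  induction es generalizing ω with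
  | nil => simp at he
  | cons e' es ih =>
    rw [List.mem_cons] at he
    rcases he with rfl | he
    · have := le_opn es (upd e true ω) e
      rw [upd_self] at this
      exact top_le_iff.1 this
    · exact ih _ he

/-- the bounds -/
noncomputable def bnd (p : ℝ) : ℕ → ℝ
  | 0 => 0
  | n + 1 => 1 + bnd p n / p

lemma bnd_nonneg {p : ℝ} (hp : 0 < p) (n : ℕ) : 0 ≤ bnd p n := by
  induction n with
  | zero => exact le_refl _
  | succ n ih => unfold bnd; positivity

lemma meas_Bad [Countable V] (Γ : SimpleGraph V) (F K : Set V) : MeasurableSet (Bad Γ F K) := by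
  have : Bad Γ F K = ⋃ u ∈ K, ⋃ v ∈ K, (ev Γ {u} F ∩ (ev Γ {v} F ∩
      {ω | (openG Γ ω).Reachable u v}ᶜ)) := by
    ext ω
    simp only [mem_iUnion, exists_prop]
    rfl
  rw [this]
  exact MeasurableSet.biUnion (Set.to_countable K) fun a _ =>
    MeasurableSet.biUnion (Set.to_countable K) fun b _ =>
      (meas_ev _ _ _).inter ((meas_ev _ _ _).inter (meas_reach Γ a b).compl)

lemma measurable_opn {ι : Type*} (es : List ι) : Measurable (opn es : (ι → Bool) → ι → Bool) := by
  induction es with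
  | nil => exact measurable_id
  | cons e es ih => exact ih.comp (measurable_upd e true)

lemma bad_bound [Countable V] (q : NNReal) (hq : q ≤ 1) (hq0 : 0 < q) (Γ : SimpleGraph V)
    (F K : Set V) (τ : ℝ) (hτ : 0 ≤ τ) (es : List (Sym2 V))
    (hes : ∀ e ∈ es, (bm (Sym2 V) q hq).real (TAF Γ F e) ≤ τ) :
    (bm (Sym2 V) q hq).real (Bad Γ F K ∩ {ω | opn es ω ∉ Bad Γ F K}) ≤ bnd q es.length * τ := by
  have hq0' : (0 : ℝ) < q := by exact_mod_cast hq0
  induction es with
  | nil =>
    have : Bad Γ F K ∩ {ω | opn [] ω ∉ Bad Γ F K} = ∅ := by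
      ext ω
      simp only [mem_inter_iff, mem_setOf_eq, mem_empty_iff_false, iff_false, not_and, not_not]
      exact fun h => h
    rw [this]
    simp [bnd]
  | cons e es ih =>
    have ih' := ih fun e' he' => hes e' (List.mem_cons_of_mem _ he')
    set μ := bm (Sym2 V) q hq
    set D := Bad Γ F K ∩ {ω | opn es ω ∉ Bad Γ F K} with hD
    have mD : MeasurableSet D := by
      refine (meas_Bad Γ F K).inter ?_
      exact (measurable_opn es (meas_Bad Γ F K)).compl
    have hsub : Bad Γ F K ∩ {ω | opn (e :: es) ω ∉ Bad Γ F K} ⊆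
        TAF Γ F e ∪ {ω | upd e true ω ∈ D} := by
      rintro ω ⟨h1, h2⟩
      rcases bad_step h1 e with h3 | h3
      · exact Or.inr ⟨h3, h2⟩
      · exact Or.inl h3
    have h1 := bm_real_split q hq mD e
    have h0 : 0 ≤ (1 - (q : ℝ)) * μ.real {ω | upd e false ω ∈ D} := by
      refine mul_nonneg ?_ measureReal_nonneg
      have : (q : ℝ) ≤ 1 := by exact_mod_cast hq
      linarith
    have h2 : μ.real {ω | upd e true ω ∈ D} ≤ μ.real D / q := by
      rw [le_div_iff₀ hq0']
      have : (bm (Sym2 V) q hq).real D = μ.real D := rfl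
      nlinarith
    calc μ.real (Bad Γ F K ∩ {ω | opn (e :: es) ω ∉ Bad Γ F K})
        ≤ μ.real (TAF Γ F e ∪ {ω | upd e true ω ∈ D}) :=
          measureReal_mono hsub (measure_ne_top _ _)
      _ ≤ μ.real (TAF Γ F e) + μ.real {ω | upd e true ω ∈ D} := measureReal_union_le _ _
      _ ≤ τ + (bnd q es.length * τ) / q := by
          refine add_le_add (hes e (by simp)) (h2.trans ?_)
          exact div_le_div_of_nonneg_right ih' hq0'.le
      _ = bnd q (e :: es).length * τ := by
          rw [List.length_cons]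
          show _ = (1 + bnd q es.length / q) * τ
          ring

lemma bx_connected (k : ℕ) {R : Set (ℤ × ℤ)} (hR : Bx (0, 0) k ⊆ R) {ω : Sym2 (ℤ × ℤ) → Bool}
    (h : ∀ e ∈ ins (Bx (0, 0) k), ω e = true) {v : ℤ × ℤ} (hv : v ∈ Bx (0, 0) k) :
    (openG (latR R) ω).Reachable (0, 0) v := by
  have step : ∀ a b, a ∈ Bx (0, 0) k → b ∈ Bx (0, 0) k → lat.Adj a b →
      (openG (latR R) ω).Adj a b := by
    intro a b ha hb hab
    refine ⟨⟨hab, hR ha, hR hb⟩, h _ ?_⟩
    intro w hw
    rw [Sym2.mem_iff] at hw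
    rcases hw with rfl | rfl
    · exact ha
    · exact hb
  have hrow : ∀ j : ℕ, ∀ s : ℤ, (s = 1 ∨ s = -1) → (j : ℤ) ≤ k →
      (openG (latR R) ω).Reachable (0, 0) (s * j, 0) := by
    intro j s hs
    induction j with
    | zero => intro _; simp
    | succ j ih =>
      intro hj
      push_cast at hj
      refine (ih (by omega)).trans (SimpleGraph.Adj.reachable (step _ _ ?_ ?_ ?_))
      · rw [mem_Bx]; rcases hs with rfl | rfl <;> simp <;> omega
      · rw [mem_Bx]; rcases hs with rfl | rfl <;> simp <;> omega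
      · rw [lat_adj]; rcases hs with rfl | rfl <;> simp <;> omega
  have hcol : ∀ x : ℤ, (-(k : ℤ) ≤ x ∧ x ≤ k) → ∀ j : ℕ, ∀ s : ℤ, (s = 1 ∨ s = -1) → (j : ℤ) ≤ k →
      (openG (latR R) ω).Reachable (x, 0) (x, s * j) := by
    intro x hx j s hs
    induction j with
    | zero => intro _; simp
    | succ j ih =>
      intro hj
      push_cast at hj
      refine (ih (by omega)).trans (SimpleGraph.Adj.reachable (step _ _ ?_ ?_ ?_))
      · rw [mem_Bx]; rcases hs with rfl | rfl <;> simp <;> omega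
      · rw [mem_Bx]; rcases hs with rfl | rfl <;> simp <;> omega
      · rw [lat_adj]; rcases hs with rfl | rfl <;> simp <;> omega
  rw [mem_Bx] at hv
  simp only [zero_sub, zero_add] at hv
  obtain ⟨x, y⟩ := v
  simp only at hv
  have h1 : (openG (latR R) ω).Reachable (0, 0) (x, 0) := by
    rcases le_total 0 x with hx | hx
    · have := hrow x.toNat 1 (Or.inl rfl) (by omega)
      rwa [show (1 : ℤ) * (x.toNat : ℤ) = x by omega] at this
    · have := hrow (-x).toNat (-1) (Or.inr rfl) (by omega)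
      rwa [show (-1 : ℤ) * ((-x).toNat : ℤ) = x by omega] at this
  have h2 : (openG (latR R) ω).Reachable (x, 0) (x, y) := by
    rcases le_total 0 y with hx | hx
    · have := hcol x hv.1 y.toNat 1 (Or.inl rfl) (by omega)
      rwa [show (1 : ℤ) * (y.toNat : ℤ) = y by omega] at this
    · have := hcol x hv.1 (-y).toNat (-1) (Or.inr rfl) (by omega)
      rwa [show (-1 : ℤ) * ((-y).toNat : ℤ) = y by omega] at this
  exact h1.trans h2

/-- Uniqueness estimate. -/
lemma bad_small (q : NNReal) (hq : q ≤ 1) (hq0 : 0 < q) (k : ℕ) {δ : ℝ} (hδ : 0 < δ) :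
    ∃ n0 : ℕ, ∀ n, n0 ≤ n →
      (bm (Sym2 (ℤ × ℤ)) q hq).real (Bad (latR (Bx (0, 0) n)) (Far (0, 0) n) (Bx (0, 0) k)) ≤ δ := by
  have hq0' : (0 : ℝ) < q := by exact_mod_cast hq0
  have hq1' : (q : ℝ) ≤ 1 := by exact_mod_cast hq
  have hfin : (ins (Bx (0, 0) k) ∩ lat.edgeSet).Finite :=
    (ins_finite (Bx_finite (0, 0) k)).subset inter_subset_left
  set es := (hfin.toFinset).toList with hes
  set N := es.length with hN
  set τ : ℝ := δ / (bnd q N + 1) with hτ
  have hb := bnd_nonneg hq0' N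
  have hτ0 : 0 < τ := by positivity
  -- choose lam and m
  set lam : ℝ := q * τ / 144 with hlam
  have hτ1 : 0 < lam := by positivity
  obtain ⟨lam, hl0, hl1, hl2⟩ : ∃ lam : ℝ, 0 < lam ∧ lam ≤ 1 ∧ 36 * lam ≤ q * τ / 2 := by
    refine ⟨min 1 (q * τ / 144), lt_min one_pos (by positivity), min_le_left _ _, ?_⟩
    have := min_le_right 1 (q * τ / 144)
    have h0 : 0 ≤ (q : ℝ) * τ := by positivity
    linarith
  obtain ⟨m, hm⟩ := exists_nat_gt (24 / (lam * q * τ))
  have hm0 : 1 ≤ m := by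
    by_contra h
    have : m = 0 := by omega
    subst this
    have : 0 < 24 / (lam * q * τ) := by positivity
    simp at hm
    linarith
  have hm0' : (0 : ℝ) < m := by exact_mod_cast hm0
  have htwo : ∀ d : ℤ × ℤ, (d = (1, 0) ∨ d = (0, 1)) →
      (bm (Sym2 (ℤ × ℤ)) q hq).real (TWO (0, 0) d (2 * m)) ≤ τ := by
    intro d hd
    have h1 := TWO_bound q hq d hd m hm0 lam hl0 hl1
    rw [div_lt_iff₀ (by positivity)] at hm
    have h2 : 12 * (m : ℝ) / lam ≤ q * τ / 2 * m ^ 2 := by
      rw [div_le_iff₀ hl0]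
      nlinarith
    have h3 : 36 * lam * (m : ℝ) ^ 2 ≤ q * τ / 2 * m ^ 2 :=
      mul_le_mul_of_nonneg_right hl2 (by positivity)
    have h4 : (q * (m : ℝ) ^ 2) * (bm (Sym2 (ℤ × ℤ)) q hq).real (TWO (0, 0) d (2 * m)) ≤
        (q * (m : ℝ) ^ 2) * τ := by linarith
    exact le_of_mul_le_mul_left h4 (by positivity)
  refine ⟨k + 2 * m + 1, fun n hn => ?_⟩
  set Γ := latR (Bx (0, 0) n) with hΓ
  have hTA : ∀ e ∈ es, (bm (Sym2 (ℤ × ℤ)) q hq).real (TAF Γ (Far (0, 0) n) e) ≤ τ := by
    intro e he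
    rw [hes, Finset.mem_toList, Set.Finite.mem_toFinset] at he
    obtain ⟨h1, h2⟩ := he
    -- orient the edge
    obtain ⟨x, d, hd, hx, rfl⟩ : ∃ x d : ℤ × ℤ, (d = (1, 0) ∨ d = (0, 1)) ∧ x ∈ Bx (0, 0) k ∧
        e = s(x, x + d) := by
      induction e using Sym2.ind with
      | _ x y =>
        have hx := h1 x (by simp)
        have hy := h1 y (by simp)
        have h3 : lat.Adj x y := h2
        rw [lat_adj] at h3
        rcases h3 with ⟨e1, e2 | e2⟩ | ⟨e1, e2 | e2⟩
        · refine ⟨y, (0, 1), Or.inr rfl, hy, ?_⟩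
          have : y + (0, 1) = x := by ext <;> simp [e1, e2]
          rw [this, Sym2.eq_swap]
        · refine ⟨x, (0, 1), Or.inr rfl, hx, ?_⟩
          have : x + (0, 1) = y := by ext <;> simp [e1, e2]
          rw [this]
        · refine ⟨y, (1, 0), Or.inl rfl, hy, ?_⟩
          have : y + (1, 0) = x := by ext <;> simp [e1, e2]
          rw [this, Sym2.eq_swap]
        · refine ⟨x, (1, 0), Or.inl rfl, hx, ?_⟩
          have : x + (1, 0) = y := by ext <;> simp [e1, e2]
          rw [this]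
    have hd' : (-1 ≤ d.1 ∧ d.1 ≤ 1) ∧ (-1 ≤ d.2 ∧ d.2 ≤ 1) := by
      rcases hd with rfl | rfl <;> simp
    rw [mem_Bx] at hx
    simp only [zero_sub, zero_add] at hx
    have hsub : TAF Γ (Far (0, 0) n) s(x, x + d) ⊆ TWO x d (2 * m) := by
      have hBx : Bx x (2 * m) ⊆ Bx (0, 0) n := by
        intro w hw
        rw [mem_Bx] at hw ⊢
        push_cast at hw
        simp only [zero_sub, zero_add]
        omega
      have hFar : Far (0, 0) n ⊆ Far x (2 * m) := by
        intro w hw
        rw [mem_Far] at hw ⊢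
        push_cast
        simp only [zero_sub, zero_add] at hw
        omega
      have hbd : ∀ w ω, w ∈ Bx x (2 * m) → Rch Γ ω {w} (Far (0, 0) n) →
          Rch (latR (Bx x (2 * m))) ω {w} (Far x (2 * m)) := by
        rintro w ω hw ⟨_, rfl, b, hb, hr⟩
        obtain ⟨c, hc, hrc⟩ := exit_latR (S := Bx x (2 * m)) (T := Far x (2 * m)) hr hw
          (hFar hb) (fun c d hc hd hcd => Bx_exit hc hd hcd)
        exact ⟨_, rfl, c, hc.2, hrc.mono (openG_mono (latR_mono inter_subset_right) ω)⟩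
      have hxd : x + d ∈ Bx x (2 * m) := by
        rw [mem_Bx]; simp only [Prod.fst_add, Prod.snd_add]; push_cast; omega
      rintro ω ⟨a, b, he, g1, g2, g3⟩
      have g3' : ¬ (openG (latR (Bx x (2 * m))) ω).Reachable a b :=
        fun h => g3 (h.mono (openG_mono (latR_mono hBx) ω))
      rw [Sym2.eq_iff] at he
      rcases he with ⟨e1, e2⟩ | ⟨e1, e2⟩
      · rw [← e1, ← e2] at g3'
        rw [← e1] at g1
        rw [← e2] at g2
        exact ⟨hbd _ _ (self_mem_Bx _ _) g1, hbd _ _ hxd g2, g3'⟩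
      · rw [← e1, ← e2] at g3'
        rw [← e2] at g1
        rw [← e1] at g2
        exact ⟨hbd _ _ (self_mem_Bx _ _) g2, hbd _ _ hxd g1, fun h => g3' h.symm⟩
    refine (measureReal_mono hsub (measure_ne_top _ _)).trans ?_
    rw [TWO_eq]
    exact htwo d hd
  have key := bad_bound q hq hq0 Γ (Far (0, 0) n) (Bx (0, 0) k) τ hτ0.le es hTA
  have hall : Bad Γ (Far (0, 0) n) (Bx (0, 0) k) ∩
      {ω | opn es ω ∉ Bad Γ (Far (0, 0) n) (Bx (0, 0) k)} =
      Bad Γ (Far (0, 0) n) (Bx (0, 0) k) := by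
    refine Set.inter_eq_left.2 fun ω _ => ?_
    rintro ⟨u, hu, v, hv, _, _, h3⟩
    apply h3
    -- pass to a configuration which is open on all of `ins`
    have hc : ∀ w ∈ Bx (0, 0) k, (openG Γ (opn es ω)).Reachable (0, 0) w := by
      intro w hw
      have hkn : Bx (0, 0) k ⊆ Bx (0, 0) n := by
        intro w hw; rw [mem_Bx] at hw ⊢; omega
      classical
      have h5 := bx_connected k (R := Bx (0, 0) k) le_rfl
        (ω := fun e => if e ∈ ins (Bx (0, 0) k) then true else opn es ω e)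
        (fun e he => if_pos he) hw
      have h6 : openG (latR (Bx (0, 0) k))
          (fun e => if e ∈ ins (Bx (0, 0) k) then true else opn es ω e) =
          openG (latR (Bx (0, 0) k)) (opn es ω) := by
        refine openG_congr fun e he => ?_
        have h7 : e ∈ ins (Bx (0, 0) k) := latR_edge _ he
        have h8 : e ∈ lat.edgeSet := by
          induction e using Sym2.ind with
          | _ x y => exact he.1
        rw [if_pos h7, opn_mem]
        rw [hes, Finset.mem_toList, Set.Finite.mem_toFinset]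
        exact ⟨h7, h8⟩
      rw [h6] at h5
      exact h5.mono (openG_mono (latR_mono hkn) _)
    exact (hc u hu).symm.trans (hc v hv)
  rw [hall] at key
  refine key.trans ?_
  rw [hτ]
  rw [mul_div_assoc', div_le_iff₀ (by positivity)]
  nlinarith

end Pool.Agent.H978R2
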