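import Mathlib

/-!
# Cycles as walks and as lists
-/

set_option autoImplicit false
set_option linter.all false
set_option linter.deprecated false

namespace Pool.Agent.H978R2

/-- a cycle as a closed walk or as a cyclic list of vertices -/
lemma cycle_iff_list {V : Type*} (G : SimpleGraph V) (k : ℕ) :
    (∃ (v : V) (c : G.Walk v v), c.IsCycle ∧ c.length = k) ↔
      ∃ l : List V, (3 ≤ l.length ∧ l.Nodup ∧ (l ++ l).IsChain G.Adj) ∧ l.length = k := by
  constructor
  · rintro ⟨v, c, hc, rfl⟩
    have h3 : 3 ≤ c.length := hc.three_le_length
    have hs : c.support = v :: c.support.tail := by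
      cases hsup : c.support with
      | nil => exact absurd hsup c.support_ne_nil
      | cons a l =>
        have : c.support.head c.support_ne_nil = v := c.head_support
        simp only [hsup, List.head_cons] at this
        rw [this]; rfl
    have hlen : c.support.tail.length = c.length := by
      have := c.length_support
      rw [List.length_tail, this]; omega
    have hchain := c.isChain_adj_support
    rw [hs, List.isChain_cons] at hchain
    have hne : c.support.tail ≠ [] := by
      intro h; rw [h] at hlen; simp at hlen; omega
    have hlast : c.support.tail.getLast hne = v := by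
      have h1 : c.support.getLast c.support_ne_nil = v := c.getLast_support
      have h2 : (v :: c.support.tail).getLast (by simp) = v := by
        have : ∀ (l : List V) (hl : l ≠ []), l = v :: c.support.tail → l.getLast hl = v →
            (v :: c.support.tail).getLast (by simp) = v := by
          intro l hl e h
          subst e; exact h
        exact this _ c.support_ne_nil hs h1
      rwa [List.getLast_cons hne] at h2
    refine ⟨c.support.tail, ⟨by omega, hc.support_nodup, ?_⟩, hlen⟩
    rw [List.isChain_append]
    refine ⟨hchain.2, hchain.2, ?_⟩
    intro x hx y hy
    rw [List.getLast?_eq_some_getLast hne, hlast, Option.mem_def, Option.some_inj] at hx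
    subst hx
    exact hchain.1 y hy
  · rintro ⟨l, ⟨h3, hn, hch⟩, rfl⟩
    have hne : l ≠ [] := by intro h; rw [h] at h3; simp at h3
    rw [List.isChain_append] at hch
    obtain ⟨hc, _, hcl⟩ := hch
    have hadj : G.Adj (l.getLast hne) (l.head hne) :=
      hcl _ (List.getLast?_eq_some_getLast hne) _ (List.head?_eq_some_head hne)
    set w := SimpleGraph.Walk.ofSupport l hne hc with hw
    have hsup : w.support = l := SimpleGraph.Walk.support_ofSupport hne hc
    have hlen : w.length + 1 = l.length := by
      rw [← SimpleGraph.Walk.length_support, hsup]
    refine ⟨l.getLast hne, SimpleGraph.Walk.cons hadj w, ?_, ?_⟩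
    · rw [SimpleGraph.Walk.isCycle_iff_isPath_tail_and_le_length]
      constructor
      · have hp : w.IsPath := by
          rw [SimpleGraph.Walk.isPath_def, hsup]; exact hn
        simpa using hp
      · rw [SimpleGraph.Walk.length_cons]; omega
    · rw [SimpleGraph.Walk.length_cons]; omega

end Pool.Agent.H978R2
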